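import Mathlib

/-!
# Airy functions and averages of flow polynomials: definitions
-/

set_option autoImplicit false

namespace Pool.Agent.LibFR89

open MeasureTheory Filter Topology

/-- `exp (i (u ^ 3 / 3 + z u))` at `u = s + i`. -/
noncomputable def ex (z : ℂ) (s : ℝ) : ℂ :=
  Complex.exp (Complex.I * (((s : ℂ) + Complex.I) ^ 3 / 3 + z * ((s : ℂ) + Complex.I)))

/-- The derivatives of `2 π Ai` (`Bn 0 = 2 π Ai`, `Bn 1 = 2 π Ai'`). -/
noncomputable def Bn (n : ℕ) (z : ℂ) : ℂ :=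
  ∫ s : ℝ, (Complex.I * ((s : ℂ) + Complex.I)) ^ n * ex z s

/-- `exp (2 w ^ 3 / 3) * 2 π Ai (w ^ 2)` for `0 < Re w`, as a Gaussian integral. -/
noncomputable def Af (w : ℂ) : ℂ :=
  ∫ t : ℝ, Complex.exp (-w * (t : ℂ) ^ 2 + Complex.I * (t : ℂ) ^ 3 / 3)

/-- `Af w` divided by its leading term `√(π / w)`. -/
noncomputable def yf (w : ℂ) : ℂ :=
  Af w * Complex.exp ((Complex.log w - (Real.log Real.pi : ℂ)) / 2)

/-- A holomorphic logarithm of `Af` on the right half plane together with its boundary values near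
the first two pieces of the imaginary axis; `-a` is the first zero of the Airy function and there
is no other zero in `[-T, ∞)`. -/
structure AL where
  /-- the logarithm -/
  L : ℂ → ℂ
  /-- minus the first zero -/
  a : ℝ
  /-- a point beyond the first zero -/
  T : ℝ
  a_pos : 0 < a
  a_lt : a < T
  diff : DifferentiableOn ℂ L {w : ℂ | 0 < w.re}
  exp_L : ∀ w : ℂ, 0 < w.re → Complex.exp (L w) = Af w
  real_L : ∀ x : ℝ, 0 < x → (L (x : ℂ)).im = 0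
  ne : ∀ t : ℝ, t < T → t ≠ a → Bn 0 (-(t : ℂ)) ≠ 0
  lim0 : ∀ y : ℝ, 0 < y → y ^ 2 < a → Tendsto (fun p : ℝ => L ((p : ℂ) + (y : ℂ) * Complex.I) -
    2 / 3 * ((p : ℂ) + (y : ℂ) * Complex.I) ^ 3) (𝓝[>] 0)
    (𝓝 (Real.log ‖Bn 0 (-((y : ℂ) ^ 2))‖ : ℂ))
  lim1 : ∀ y : ℝ, 0 < y → a < y ^ 2 → y ^ 2 < T →
    Tendsto (fun p : ℝ => L ((p : ℂ) + (y : ℂ) * Complex.I) -
    2 / 3 * ((p : ℂ) + (y : ℂ) * Complex.I) ^ 3) (𝓝[>] 0)
    (𝓝 ((Real.log ‖Bn 0 (-((y : ℂ) ^ 2))‖ : ℂ) + (Real.pi : ℂ) * Complex.I))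

/-- The integrand. -/
noncomputable def ff (D : AL) (lam : ℝ) (σ w : ℂ) : ℂ :=
  Complex.exp ((lam : ℂ) * (σ * w ^ 2 - 2 / 3 * w ^ 3)) * w * Complex.exp ((lam : ℂ) * D.L w)

/-- The integral along `1 + i ∞ → 1 → + ∞`. -/
noncomputable def JJ (D : AL) (lam : ℝ) (σ : ℂ) : ℂ :=
  (∫ x in Set.Ioi (1 : ℝ), ff D lam σ (x : ℂ)) -
    Complex.I * ∫ y in Set.Ioi (0 : ℝ), ff D lam σ (1 + (y : ℂ) * Complex.I)

/-- `exp (i π / 3)`. -/
noncomputable def e3 : ℂ := ⟨1 / 2, √3 / 2⟩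

/-- `exp (i π / 6)`. -/
noncomputable def e6 : ℂ := ⟨√3 / 2, 1 / 2⟩

/-- The rotated exponential. -/
noncomputable def kk (lam x : ℝ) (v : ℂ) : ℂ :=
  Complex.exp ((lam : ℂ) * (-(x : ℂ) * v ^ 2 + 2 / 3 * v ^ 3)) * v

/-- The rotated power of the Airy function. -/
noncomputable def QQ (D : AL) (lam : ℝ) (v : ℂ) : ℂ :=
  Complex.exp ((lam : ℂ) * (Complex.I * Real.pi / 6 + D.L (e3 * v)))

/-- The positive constant in front of the asymptotic expansion. -/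
noncomputable def cc (lam : ℝ) : ℝ :=
  Real.exp (lam / 2 * Real.log Real.pi + (Real.log Real.pi - Real.log lam) / 2)

/-- The normalised integral as a function of `ξ = log σ`. -/
noncomputable def sx (D : AL) (lam : ℝ) (ξ : ℂ) : ℂ :=
  Complex.exp (-(lam : ℂ) * Complex.exp (3 * ξ) / 3 + ((lam : ℂ) - 1) / 2 * ξ) *
    JJ D lam (Complex.exp ξ)

end Pool.Agent.LibFR89
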