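import Mathlib
import Pool.Agent.LibFR89.Defs

/-!
# Row A1 (EASY): norm and integrability of the Airy integrand

With `z = X + i Y`: `Re (i ((s + i)^3 / 3 + z (s + i))) = - s^2 + 1/3 - s Y - X` (expand the cube).
`Complex.norm_exp`.  Integrability: `‖i (s + i)‖ ^ n ≤ (1 + |s|) ^ n`, a polynomial times a Gaussian
(complete the square or bound `(1 + |s|)^n * exp (-s^2 - Y s) ≤ C exp (-s^2/2)`); measurability from
continuity.
-/

set_option autoImplicit false

namespace Pool.Agent.LibFR89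

open MeasureTheory Filter Topology

theorem ex_norm (z : ℂ) (s : ℝ) : ‖ex z s‖ = Real.exp (-s ^ 2 + 1 / 3 - z.im * s - z.re) := by
  rw [ex, Complex.norm_exp]
  congr 1
  have h : ((s : ℂ) + Complex.I) ^ 3 = ((s ^ 3 - 3 * s : ℝ) : ℂ) +
      ((3 * s ^ 2 - 1 : ℝ) : ℂ) * Complex.I := by
    have hI : Complex.I ^ 2 = -1 := Complex.I_sq
    have hI3 : Complex.I ^ 3 = -Complex.I := by rw [pow_succ, hI]; ring
    push_cast
    ring_nf
    rw [hI, hI3]
    ring
  rw [h]
  have h3 : ∀ u : ℂ, (u / 3).im = u.im / 3 := by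
    intro u
    rw [show (3 : ℂ) = ((3 : ℝ) : ℂ) by norm_num, Complex.div_ofReal_im]
  simp only [Complex.mul_re, Complex.I_re, Complex.I_im, Complex.add_im, Complex.add_re,
    Complex.mul_im, Complex.ofReal_re, Complex.ofReal_im, h3]
  ring

theorem ex_continuous (z : ℂ) : Continuous (ex z) := by
  unfold ex
  fun_prop

theorem Bn_integrable (n : ℕ) (z : ℂ) :
    Integrable (fun s : ℝ => (Complex.I * ((s : ℂ) + Complex.I)) ^ n * ex z s) := by
  have hc : Continuous (fun s : ℝ => (Complex.I * ((s : ℂ) + Complex.I)) ^ n * ex z s) := by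
    have := ex_continuous z
    fun_prop
  -- polynomial times Gaussian
  have hg : ∀ k : ℕ, Integrable (fun s : ℝ => |s| ^ k * Real.exp (-(1 / 2) * s ^ 2)) := by
    intro k
    have h1 := integrable_rpow_mul_exp_neg_mul_sq (b := 1 / 2) (by norm_num) (s := (k : ℝ))
      (by have := Nat.cast_nonneg (α := ℝ) k; linarith)
    have h2 := h1.norm
    refine h2.congr ?_
    filter_upwards with s
    rw [norm_mul, Real.norm_eq_abs, Real.norm_eq_abs, Real.rpow_natCast, abs_pow,
      abs_of_pos (Real.exp_pos _)]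
  have hg2 : Integrable (fun s : ℝ => (1 + |s|) ^ n * Real.exp (-(1 / 2) * s ^ 2)) := by
    have h1 : (fun s : ℝ => (1 + |s|) ^ n * Real.exp (-(1 / 2) * s ^ 2)) =
        fun s : ℝ => ∑ k ∈ Finset.range (n + 1), (n.choose k : ℝ) *
          (|s| ^ k * Real.exp (-(1 / 2) * s ^ 2)) := by
      funext s
      rw [add_comm, add_pow, Finset.sum_mul]
      apply Finset.sum_congr rfl
      intro k _
      rw [one_pow]
      ring
    rw [h1]
    exact integrable_finsetSum _ fun k _ => (hg k).const_mul _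
  refine (hg2.const_mul (Real.exp (1 / 3 - z.re + z.im ^ 2 / 2))).mono' hc.aestronglyMeasurable ?_
  filter_upwards with s
  rw [norm_mul, norm_pow, norm_mul, Complex.norm_I, one_mul, ex_norm]
  have h1 : ‖(s : ℂ) + Complex.I‖ ≤ 1 + |s| := by
    refine (norm_add_le _ _).trans ?_
    rw [Complex.norm_real, Complex.norm_I, Real.norm_eq_abs]
    linarith
  have h2 : Real.exp (-s ^ 2 + 1 / 3 - z.im * s - z.re) ≤
      Real.exp (1 / 3 - z.re + z.im ^ 2 / 2) * Real.exp (-(1 / 2) * s ^ 2) := by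
    rw [← Real.exp_add]
    apply Real.exp_le_exp.2
    nlinarith [sq_nonneg (s + z.im)]
  calc ‖(s : ℂ) + Complex.I‖ ^ n * Real.exp (-s ^ 2 + 1 / 3 - z.im * s - z.re)
      ≤ (1 + |s|) ^ n * (Real.exp (1 / 3 - z.re + z.im ^ 2 / 2) *
        Real.exp (-(1 / 2) * s ^ 2)) := by
        apply mul_le_mul (pow_le_pow_left₀ (norm_nonneg _) h1 n) h2 (Real.exp_pos _).le
        positivity
    _ = _ := by ring

end Pool.Agent.LibFR89
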