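import Mathlib
import Pool.Agent.LibFR89.Defs

/-!
# Row A8 (MEDIUM, ONLY MATHLIB): Gaussian moments with complex parameter

`integral_gaussian_complex` gives `m = 0` (`(π / b) ^ (1/2)` is `exp ((log π - log b)/2)` for
`0 < Re b`: `Complex.cpow_def`, `Complex.log_div`-like, argument of `b` in `(-π/2, π/2)`).
Induction: integrate the derivative of `t^(2m+1) exp (-b t^2)` over `ℝ` (it tends to `0` at `± ∞`):
`(2m+1) ∫ t^(2m) e = 2 b ∫ t^(2m+2) e`.  Odd moments: substitution `t ↦ -t`.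
-/

set_option autoImplicit false

namespace Pool.Agent.LibFR89

open MeasureTheory Filter Topology

theorem gauss_int (b : ℂ) (hb : 0 < b.re) (m : ℕ) :
    Integrable (fun t : ℝ => (t : ℂ) ^ m * Complex.exp (-b * (t : ℂ) ^ 2)) := by
  have h1 : Integrable (fun x : ℝ => x ^ (m : ℝ) * Real.exp (-b.re * x ^ 2)) :=
    integrable_rpow_mul_exp_neg_mul_sq hb (by have : (0 : ℝ) ≤ m := Nat.cast_nonneg m; linarith)
  refine h1.mono (Continuous.aestronglyMeasurable (by fun_prop)) (Eventually.of_forall fun t => ?_)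
  rw [norm_mul, norm_mul, Real.rpow_natCast, norm_pow, norm_pow, Complex.norm_real, Complex.norm_exp]
  have : (-b * (t : ℂ) ^ 2) = -b * ((t ^ 2 : ℝ) : ℂ) := by push_cast; rfl
  rw [this, Complex.re_mul_ofReal, Complex.neg_re, Real.norm_eq_abs (Real.exp _), abs_of_pos (Real.exp_pos _)]

private theorem A8_zero (b : ℂ) (hb : 0 < b.re) :
    ∫ t : ℝ, Complex.exp (-b * (t : ℂ) ^ 2) = Complex.exp (((Real.log Real.pi : ℂ) - Complex.log b) / 2) := by
  have hb0 : b ≠ 0 := by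
    intro h; rw [h] at hb; simp at hb
  have hpi : (Real.pi : ℂ) ≠ 0 := by exact_mod_cast Real.pi_ne_zero
  rw [integral_gaussian_complex hb, Complex.cpow_def_of_ne_zero (div_ne_zero hpi hb0)]
  congr 1
  have harg : b.arg ≠ Real.pi := by
    intro h
    rw [Complex.arg_eq_pi_iff] at h
    linarith [h.1]
  rw [div_eq_mul_inv, Complex.log_ofReal_mul Real.pi_pos (inv_ne_zero hb0), Complex.log_inv b harg]
  ring

private theorem A8_step (b : ℂ) (hb : 0 < b.re) (m : ℕ) :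
    (2 * b) * ∫ t : ℝ, (t : ℂ) ^ (2 * (m + 1)) * Complex.exp (-b * (t : ℂ) ^ 2) =
      ((2 * m + 1 : ℕ) : ℂ) * ∫ t : ℝ, (t : ℂ) ^ (2 * m) * Complex.exp (-b * (t : ℂ) ^ 2) := by
  have hd : ∀ t : ℝ, HasDerivAt (fun t : ℝ => (t : ℂ) ^ (2 * m + 1) * Complex.exp (-b * (t : ℂ) ^ 2))
      (((2 * m + 1 : ℕ) : ℂ) * ((t : ℂ) ^ (2 * m) * Complex.exp (-b * (t : ℂ) ^ 2)) -
        (2 * b) * ((t : ℂ) ^ (2 * (m + 1)) * Complex.exp (-b * (t : ℂ) ^ 2))) t := by
    intro t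
    have h1 : HasDerivAt (fun t : ℝ => (t : ℂ) ^ (2 * m + 1)) (((2 * m + 1 : ℕ) : ℂ) * (t : ℂ) ^ (2 * m)) t := by
      have := (hasDerivAt_pow (2 * m + 1) (t : ℂ)).comp_ofReal
      simpa using this
    have h2 : HasDerivAt (fun t : ℝ => (t : ℂ) ^ 2) (2 * (t : ℂ)) t := by
      have := (hasDerivAt_pow 2 (t : ℂ)).comp_ofReal
      simpa using this
    have h3 : HasDerivAt (fun t : ℝ => Complex.exp (-b * (t : ℂ) ^ 2))
        (Complex.exp (-b * (t : ℂ) ^ 2) * (-b * (2 * (t : ℂ)))) t := (h2.const_mul (-b)).cexp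
    have h4 := h1.mul h3
    refine h4.congr_deriv ?_
    ring
  have hi := ((gauss_int b hb (2 * m)).const_mul ((2 * m + 1 : ℕ) : ℂ)).sub
    ((gauss_int b hb (2 * (m + 1))).const_mul (2 * b))
  have h := integral_eq_zero_of_hasDerivAt_of_integrable hd hi (gauss_int b hb (2 * m + 1))
  rw [integral_sub ((gauss_int b hb (2 * m)).const_mul _) ((gauss_int b hb (2 * (m + 1))).const_mul _),
    integral_const_mul, integral_const_mul] at h
  exact (sub_eq_zero.mp h).symm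

theorem gauss_even (b : ℂ) (hb : 0 < b.re) (m : ℕ) :
    ∫ t : ℝ, (t : ℂ) ^ (2 * m) * Complex.exp (-b * (t : ℂ) ^ 2) =
      Complex.exp (((Real.log Real.pi : ℂ) - Complex.log b) / 2) *
        (((2 * m - 1).doubleFactorial : ℕ) : ℂ) / (2 * b) ^ m := by
  have hb0 : b ≠ 0 := by
    intro h; rw [h] at hb; simp at hb
  have h2b : (2 * b) ≠ 0 := mul_ne_zero two_ne_zero hb0
  induction m with
  | zero =>
    simp only [Nat.mul_zero, pow_zero, one_mul, Nat.zero_sub, Nat.doubleFactorial, Nat.cast_one, mul_one, div_one]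
    exact A8_zero b hb
  | succ n ih =>
    have h := A8_step b hb n
    have hf : (2 * (n + 1) - 1).doubleFactorial = (2 * n + 1) * (2 * n - 1).doubleFactorial := by
      rcases Nat.eq_zero_or_pos n with h | h
      · subst h; rfl
      · obtain ⟨k, hk⟩ : ∃ k, 2 * n - 1 = k := ⟨_, rfl⟩
        have e1 : 2 * (n + 1) - 1 = k + 2 := by omega
        have e2 : 2 * n + 1 = k + 2 := by omega
        rw [hk, e1, e2, Nat.doubleFactorial_add_two]
    rw [ih] at h
    rw [hf]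
    have h2 : ∫ t : ℝ, (t : ℂ) ^ (2 * (n + 1)) * Complex.exp (-b * (t : ℂ) ^ 2) =
        (((2 * n + 1 : ℕ) : ℂ) * (Complex.exp (((Real.log Real.pi : ℂ) - Complex.log b) / 2) *
        (((2 * n - 1).doubleFactorial : ℕ) : ℂ) / (2 * b) ^ n)) / (2 * b) := by
      rw [← h, mul_div_cancel_left₀ _ h2b]
    rw [h2, pow_succ]
    push_cast
    field_simp

theorem gauss_odd (b : ℂ) (m : ℕ) :
    ∫ t : ℝ, (t : ℂ) ^ (2 * m + 1) * Complex.exp (-b * (t : ℂ) ^ 2) = 0 := by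
  have h1 := integral_neg_eq_self (fun t : ℝ => (t : ℂ) ^ (2 * m + 1) * Complex.exp (-b * (t : ℂ) ^ 2)) volume
  have h2 : ∀ t : ℝ, ((-t : ℝ) : ℂ) ^ (2 * m + 1) * Complex.exp (-b * ((-t : ℝ) : ℂ) ^ 2) =
      -((t : ℂ) ^ (2 * m + 1) * Complex.exp (-b * (t : ℂ) ^ 2)) := by
    intro t
    push_cast
    rw [Odd.neg_pow ⟨m, rfl⟩, neg_sq]
    ring
  simp_rw [h2] at h1
  rw [integral_neg] at h1
  have h3 : (2 : ℂ) * ∫ t : ℝ, (t : ℂ) ^ (2 * m + 1) * Complex.exp (-b * (t : ℂ) ^ 2) = 0 := by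
    linear_combination -h1
  exact (mul_eq_zero.mp h3).resolve_left two_ne_zero

end Pool.Agent.LibFR89
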