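import Mathlib
import Pool.Agent.LibFR89.Defs

/-!
# Row A9 (EASY/MEDIUM, ONLY MATHLIB): Taylor remainder of `exp (i x)` for real `x`

Induction on `n`: for `n + 1` the function `r(x) = exp (i x) - ∑_{k ≤ n} (i x)^k / k!` has
`r(0) = 0` and derivative `i (exp (i x) - ∑_{k < n} ...)`, of norm `≤ |x|^n / n!`; compare with
`|x|^(n+1)/(n+1)!` (`image_norm_le_of_norm_deriv_right_le_deriv_boundary` or integrate; for
negative `x` use the conjugate).
-/

set_option autoImplicit false

namespace Pool.Agent.LibFR89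

open MeasureTheory Filter Topology

private theorem exp_I_taylor_deriv (n : ℕ) (y : ℝ) :
    HasDerivAt (fun y : ℝ => Complex.exp (Complex.I * y) -
      ∑ k ∈ Finset.range (n + 1), (Complex.I * y) ^ k / (k.factorial : ℂ))
      (Complex.I * (Complex.exp (Complex.I * y) -
        ∑ k ∈ Finset.range n, (Complex.I * y) ^ k / (k.factorial : ℂ))) y := by
  have h0 : HasDerivAt (fun y : ℝ => Complex.I * (y : ℂ)) Complex.I y := by
    have h := (Complex.ofRealCLM.hasDerivAt (x := y)).const_mul Complex.I
    simpa using h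
  have h1 : HasDerivAt (fun y : ℝ => Complex.exp (Complex.I * y))
      (Complex.exp (Complex.I * y) * Complex.I) y := h0.cexp
  have h2 : HasDerivAt (fun y : ℝ => ∑ k ∈ Finset.range n,
      (Complex.I * y) ^ (k + 1) / ((k + 1).factorial : ℂ))
      (∑ k ∈ Finset.range n, Complex.I * ((Complex.I * y) ^ k / (k.factorial : ℂ))) y := by
    refine HasDerivAt.fun_sum fun k _ => ?_
    refine ((h0.fun_pow (k + 1)).div_const ((k + 1).factorial : ℂ)).congr_deriv ?_
    rw [Nat.factorial_succ]
    have h4 : ((k : ℂ) + 1) ≠ 0 := by exact_mod_cast Nat.succ_ne_zero k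
    have h5 : (k.factorial : ℂ) ≠ 0 := by exact_mod_cast Nat.factorial_ne_zero k
    push_cast
    field_simp
  have h6 := h1.sub (h2.add_const (1 : ℂ))
  have h7 : (fun y : ℝ => Complex.exp (Complex.I * y) -
      ∑ k ∈ Finset.range (n + 1), (Complex.I * y) ^ k / (k.factorial : ℂ)) =
      (fun y : ℝ => Complex.exp (Complex.I * y)) - (fun y : ℝ => ∑ k ∈ Finset.range n,
      (Complex.I * y) ^ (k + 1) / ((k + 1).factorial : ℂ) + 1) := by
    funext z
    rw [Finset.sum_range_succ']
    simp
  rw [h7]
  refine h6.congr_deriv ?_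
  rw [mul_sub, Finset.mul_sum, mul_comm]

private theorem exp_I_taylor_nonneg (n : ℕ) : ∀ x : ℝ, 0 ≤ x →
    ‖Complex.exp (Complex.I * x) - ∑ k ∈ Finset.range n, (Complex.I * x) ^ k / (k.factorial : ℂ)‖ ≤
      x ^ n / n.factorial := by
  induction n with
  | zero =>
    intro x hx
    simp [Complex.norm_exp]
  | succ n ih =>
    intro x hx
    have hB : ∀ y : ℝ, HasDerivAt (fun y : ℝ => y ^ (n + 1) / ((n + 1).factorial : ℝ))
        (y ^ n / (n.factorial : ℝ)) y := by
      intro y
      refine ((hasDerivAt_pow (n + 1) y).div_const ((n + 1).factorial : ℝ)).congr_deriv ?_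
      rw [Nat.factorial_succ]
      have h4 : ((n : ℝ) + 1) ≠ 0 := by positivity
      have h5 : (n.factorial : ℝ) ≠ 0 := by positivity
      push_cast
      field_simp
    have key := image_norm_le_of_norm_deriv_right_le_deriv_boundary (a := 0) (b := x)
      (f := fun y : ℝ => Complex.exp (Complex.I * y) -
        ∑ k ∈ Finset.range (n + 1), (Complex.I * y) ^ k / (k.factorial : ℂ))
      (f' := fun y : ℝ => Complex.I * (Complex.exp (Complex.I * y) -
        ∑ k ∈ Finset.range n, (Complex.I * y) ^ k / (k.factorial : ℂ)))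
      (B := fun y : ℝ => y ^ (n + 1) / ((n + 1).factorial : ℝ))
      (B' := fun y : ℝ => y ^ n / (n.factorial : ℝ))
      (fun y _ => (exp_I_taylor_deriv n y).continuousAt.continuousWithinAt)
      (fun y _ => (exp_I_taylor_deriv n y).hasDerivWithinAt) (by
        rw [Finset.sum_range_succ']
        simp) hB (fun y hy => by
        rw [norm_mul, Complex.norm_I, one_mul]
        exact ih y hy.1)
    exact key ⟨hx, le_rfl⟩

theorem exp_I_taylor (n : ℕ) (x : ℝ) :
    ‖Complex.exp (Complex.I * x) - ∑ k ∈ Finset.range n, (Complex.I * x) ^ k / (k.factorial : ℂ)‖ ≤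
      |x| ^ n / n.factorial := by
  rcases le_total 0 x with hx | hx
  · rw [abs_of_nonneg hx]
    exact exp_I_taylor_nonneg n x hx
  · rw [abs_of_nonpos hx]
    have h := exp_I_taylor_nonneg n (-x) (by linarith)
    have h1 : Complex.exp (Complex.I * x) -
        ∑ k ∈ Finset.range n, (Complex.I * x) ^ k / (k.factorial : ℂ) =
        (starRingEnd ℂ) (Complex.exp (Complex.I * ((-x : ℝ) : ℂ)) -
          ∑ k ∈ Finset.range n, (Complex.I * ((-x : ℝ) : ℂ)) ^ k / (k.factorial : ℂ)) := by
      rw [map_sub, ← Complex.exp_conj, map_sum]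
      have h2 : (starRingEnd ℂ) (Complex.I * ((-x : ℝ) : ℂ)) = Complex.I * x := by
        rw [map_mul, Complex.conj_I, Complex.conj_ofReal]
        push_cast
        ring
      rw [h2]
      congr 1
      refine Finset.sum_congr rfl fun k _ => ?_
      rw [map_div₀, map_pow, h2, map_natCast]
    rw [h1, Complex.norm_conj]
    exact h

end Pool.Agent.LibFR89
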