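import Mathlib
import Pool.Agent.H69Cubic.Defs
import Pool.Agent.LibFR89.Defs

/-!
# The coefficients `aa`, `ee`, `mm`, `RR` of `Pool/Agent/H69Cubic/Defs.lean`
-/

set_option autoImplicit false

namespace Pool.Agent.LibFR89

open Pool.Agent.H69Cubic Finset

/-- Partial sum of the series with coefficients `aa`. -/
noncomputable def sa (K : ℕ) (y : ℂ) : ℂ := ∑ k ∈ range K, (aa k : ℂ) * y ^ k

/-- Partial sum of the series with coefficients `ee x`. -/
noncomputable def se (x : ℝ) (K : ℕ) (y : ℂ) : ℂ := ∑ k ∈ range K, (ee x k : ℂ) * y ^ k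

/-- Partial sum of the series with coefficients `mm j ν`. -/
noncomputable def sm (ν : ℝ) (K : ℕ) (y : ℂ) : ℂ := ∑ j ∈ range K, (mm j ν : ℂ) * y ^ j

/-- Partial sum of the series with coefficients `RR n lam`. -/
noncomputable def sr (lam : ℝ) (K : ℕ) (y : ℂ) : ℂ := ∑ n ∈ range K, (RR n lam : ℂ) * y ^ n

/-- Truncated exponential series times truncated binomial series. -/
noncomputable def tt (lam ν : ℝ) (n : ℕ) (σ : ℂ) (s : ℝ) : ℂ :=
  (∑ i ∈ range n, (-(2 / 3) * (lam : ℂ) * (s : ℂ) ^ 3) ^ i / (i.factorial : ℂ)) *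
    ∑ l ∈ range n, ((Ring.choose ν l : ℝ) : ℂ) * ((s : ℂ) / σ) ^ l

end Pool.Agent.LibFR89
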