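import Mathlib
import Pool.Agent.LibFR89.DefsR
import Pool.Agent.LibFR89.A8
import Pool.Agent.LibFR89.A9

/-!
# Row A10 (MEDIUM): expansion of `Af` with explicit remainder

In the integral defining `Af w` replace `exp (i t^3/3)` by its Taylor sum of order `2 K`
(row A9 with `n = 2 K`, `x = t^3/3`): the remainder is at most
`∫ exp (-Re w t^2) t^(6K) / (9^K (2K)!) = C (Re w)^(-(3K + 1/2))`
(real Gaussian moments, from row A8 or `Real.integral_rpow_mul_exp_neg_mul_sq`-like lemmas).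
The sum: odd orders vanish (`gauss_odd`), order `2k` gives
`(-1)^k / (9^k (2k)!) * ∫ t^(6k) exp (-w t^2)
   = exp ((log π - log w)/2) * (6k-1)!! / ((2k)! 72^k) (-1)^k w^(-3k)` (`gauss_even`, `m = 3k`),
which is `aa k * (-1/(72 w^3))^k` times the exponential.
-/

set_option autoImplicit false

namespace Pool.Agent.LibFR89

open MeasureTheory Filter Topology

open Pool.Agent.H69Cubic

private theorem A10_even_odd (f : ℕ → ℂ) (K : ℕ) :
    ∑ k ∈ Finset.range (2 * K), f k = ∑ k ∈ Finset.range K, (f (2 * k) + f (2 * k + 1)) := by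
  induction K with
  | zero => simp
  | succ n ih =>
    rw [show 2 * (n + 1) = 2 * n + 1 + 1 by ring, Finset.sum_range_succ, Finset.sum_range_succ, ih,
      Finset.sum_range_succ]
    ring

private theorem A10_term (w : ℂ) (k : ℕ) (t : ℝ) :
    Complex.exp (-w * (t : ℂ) ^ 2) * ((Complex.I * ((t ^ 3 / 3 : ℝ) : ℂ)) ^ k / (k.factorial : ℂ)) =
      (Complex.I ^ k / (3 ^ k * (k.factorial : ℂ))) * ((t : ℂ) ^ (3 * k) * Complex.exp (-w * (t : ℂ) ^ 2)) := by
  have hk : (k.factorial : ℂ) ≠ 0 := by exact_mod_cast k.factorial_ne_zero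
  push_cast
  rw [mul_pow, div_pow, pow_mul (t : ℂ) 3 k]
  field_simp

private theorem A10_sum (w : ℂ) (hw : 0 < w.re) (K : ℕ) :
    ∫ t : ℝ, Complex.exp (-w * (t : ℂ) ^ 2) *
      ∑ k ∈ Finset.range (2 * K), (Complex.I * ((t ^ 3 / 3 : ℝ) : ℂ)) ^ k / (k.factorial : ℂ) =
    Complex.exp (((Real.log Real.pi : ℂ) - Complex.log w) / 2) * sa K (-1 / (72 * w ^ 3)) := by
  have h1 : ∀ t : ℝ, Complex.exp (-w * (t : ℂ) ^ 2) *
      ∑ k ∈ Finset.range (2 * K), (Complex.I * ((t ^ 3 / 3 : ℝ) : ℂ)) ^ k / (k.factorial : ℂ) =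
      ∑ k ∈ Finset.range (2 * K), (Complex.I ^ k / (3 ^ k * (k.factorial : ℂ))) *
        ((t : ℂ) ^ (3 * k) * Complex.exp (-w * (t : ℂ) ^ 2)) := by
    intro t
    rw [Finset.mul_sum]
    exact Finset.sum_congr rfl fun k _ => A10_term w k t
  simp_rw [h1]
  rw [integral_finset_sum _ (fun k _ => (gauss_int w hw (3 * k)).const_mul _)]
  simp_rw [integral_const_mul]
  rw [A10_even_odd, sa, Finset.mul_sum]
  apply Finset.sum_congr rfl
  intro k _
  have e1 : 3 * (2 * k + 1) = 2 * (3 * k + 1) + 1 := by ring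
  have e2 : 3 * (2 * k) = 2 * (3 * k) := by ring
  rw [e1, gauss_odd, e2, gauss_even w hw (3 * k), mul_zero, add_zero]
  have hw0 : w ≠ 0 := by
    intro h
    rw [h] at hw
    simp at hw
  have hk : ((2 * k).factorial : ℂ) ≠ 0 := by exact_mod_cast (2 * k).factorial_ne_zero
  have e3 : 2 * (3 * k) - 1 = 6 * k - 1 := by omega
  rw [e3, aa]
  push_cast
  have e4 : Complex.I ^ (2 * k) = (-1) ^ k := by rw [pow_mul, Complex.I_sq]
  rw [e4, div_pow, mul_pow 72, mul_pow 2 w, pow_mul 3 2 k, pow_mul 2 3 k, ← pow_mul w 3 k]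
  have e5 : (72 : ℂ) ^ k = (3 ^ 2) ^ k * (2 ^ 3) ^ k := by
    rw [← mul_pow]; norm_num
  rw [e5]
  field_simp

private theorem A10_real (x : ℝ) (hx : 0 < x) (m : ℕ) :
    Integrable (fun t : ℝ => t ^ (2 * m) * Real.exp (-x * t ^ 2)) ∧
    ∫ t : ℝ, t ^ (2 * m) * Real.exp (-x * t ^ 2) =
      Real.exp ((Real.log Real.pi - Real.log x) / 2) * ((2 * m - 1).doubleFactorial : ℝ) / (2 * x) ^ m := by
  have h0 : ∀ t : ℝ, (t : ℂ) ^ (2 * m) * Complex.exp (-(x : ℂ) * (t : ℂ) ^ 2) =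
      ((t ^ (2 * m) * Real.exp (-x * t ^ 2) : ℝ) : ℂ) := by
    intro t; push_cast; rfl
  constructor
  · have h1 := (gauss_int (x : ℂ) (by simpa using hx) (2 * m)).re
    refine h1.congr (Eventually.of_forall fun t => ?_)
    show RCLike.re ((t : ℂ) ^ (2 * m) * Complex.exp (-(x : ℂ) * (t : ℂ) ^ 2)) = _
    rw [h0 t]
    exact Complex.ofReal_re _
  · have h1 := gauss_even (x : ℂ) (by simpa using hx) m
    simp_rw [h0] at h1
    rw [integral_complex_ofReal, ← Complex.ofReal_log hx.le] at h1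
    exact_mod_cast h1

theorem Af_expand (K : ℕ) : ∃ C : ℝ, 0 < C ∧ ∀ w : ℂ, 0 < w.re →
    ‖Af w - Complex.exp (((Real.log Real.pi : ℂ) - Complex.log w) / 2) *
      sa K (-1 / (72 * w ^ 3))‖ ≤ C * w.re ^ (-(3 * (K : ℝ) + 1 / 2)) := by
  refine ⟨1 / (9 ^ K * ((2 * K).factorial : ℝ)) * (Real.exp (Real.log Real.pi / 2) *
    ((2 * (3 * K) - 1).doubleFactorial : ℝ) / 8 ^ K), ?_, ?_⟩
  · have h1 : (0 : ℝ) < ((2 * K).factorial : ℝ) := by exact_mod_cast (2 * K).factorial_pos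
    have h2 : (0 : ℝ) < ((2 * (3 * K) - 1).doubleFactorial : ℝ) := by
      exact_mod_cast Nat.doubleFactorial_pos _
    positivity
  · intro w hw
    set x := w.re with hx
    have hfac : (0 : ℝ) < ((2 * K).factorial : ℝ) := by exact_mod_cast (2 * K).factorial_pos
    obtain ⟨hi, hv⟩ := A10_real x hw (3 * K)
    rw [← A10_sum w hw K]
    have hAf : Af w = ∫ t : ℝ, Complex.exp (-w * (t : ℂ) ^ 2) * Complex.exp (Complex.I * ((t ^ 3 / 3 : ℝ) : ℂ)) := by
      rw [Af]
      congr 1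
      funext t
      rw [← Complex.exp_add]
      congr 1
      push_cast
      ring
    have hnorm : ∀ t : ℝ, ‖Complex.exp (-w * (t : ℂ) ^ 2)‖ = Real.exp (-x * t ^ 2) := by
      intro t
      rw [Complex.norm_exp]
      congr 1
      have : (-w * (t : ℂ) ^ 2) = -w * ((t ^ 2 : ℝ) : ℂ) := by push_cast; rfl
      rw [this, Complex.re_mul_ofReal, Complex.neg_re]
    have g0 : Integrable (fun t : ℝ => Complex.exp (-w * (t : ℂ) ^ 2)) := by
      have := gauss_int w hw 0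
      simpa using this
    have i1 : Integrable (fun t : ℝ => Complex.exp (-w * (t : ℂ) ^ 2) * Complex.exp (Complex.I * ((t ^ 3 / 3 : ℝ) : ℂ))) := by
      refine g0.mono (Continuous.aestronglyMeasurable (by fun_prop)) (Eventually.of_forall fun t => ?_)
      rw [norm_mul, mul_comm Complex.I, Complex.norm_exp_ofReal_mul_I, mul_one]
    have i2 : Integrable (fun t : ℝ => Complex.exp (-w * (t : ℂ) ^ 2) *
        ∑ k ∈ Finset.range (2 * K), (Complex.I * ((t ^ 3 / 3 : ℝ) : ℂ)) ^ k / (k.factorial : ℂ)) := by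
      have : (fun t : ℝ => Complex.exp (-w * (t : ℂ) ^ 2) *
          ∑ k ∈ Finset.range (2 * K), (Complex.I * ((t ^ 3 / 3 : ℝ) : ℂ)) ^ k / (k.factorial : ℂ)) =
          fun t : ℝ => ∑ k ∈ Finset.range (2 * K), (Complex.I ^ k / (3 ^ k * (k.factorial : ℂ))) *
            ((t : ℂ) ^ (3 * k) * Complex.exp (-w * (t : ℂ) ^ 2)) := by
        funext t
        rw [Finset.mul_sum]
        exact Finset.sum_congr rfl fun k _ => A10_term w k t
      rw [this]
      exact integrable_finset_sum _ (fun k _ => (gauss_int w hw (3 * k)).const_mul _)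
    rw [hAf, ← integral_sub i1 i2]
    have hb : ∀ t : ℝ, ‖Complex.exp (-w * (t : ℂ) ^ 2) * Complex.exp (Complex.I * ((t ^ 3 / 3 : ℝ) : ℂ)) -
        Complex.exp (-w * (t : ℂ) ^ 2) *
          ∑ k ∈ Finset.range (2 * K), (Complex.I * ((t ^ 3 / 3 : ℝ) : ℂ)) ^ k / (k.factorial : ℂ)‖ ≤
        1 / (9 ^ K * ((2 * K).factorial : ℝ)) * (t ^ (2 * (3 * K)) * Real.exp (-x * t ^ 2)) := by
      intro t
      rw [← mul_sub, norm_mul, hnorm t]
      have h1 := exp_I_taylor (2 * K) (t ^ 3 / 3)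
      have h2 : |t ^ 3 / 3| ^ (2 * K) = t ^ (2 * (3 * K)) / 9 ^ K := by
        rw [pow_mul, sq_abs, div_pow, ← pow_mul, div_pow, ← pow_mul]
        have : 3 * 2 * K = 2 * (3 * K) := by ring
        rw [this]
        norm_num
      rw [h2] at h1
      calc Real.exp (-x * t ^ 2) * ‖Complex.exp (Complex.I * ((t ^ 3 / 3 : ℝ) : ℂ)) -
            ∑ k ∈ Finset.range (2 * K), (Complex.I * ((t ^ 3 / 3 : ℝ) : ℂ)) ^ k / (k.factorial : ℂ)‖
          ≤ Real.exp (-x * t ^ 2) * (t ^ (2 * (3 * K)) / 9 ^ K / ((2 * K).factorial : ℝ)) :=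
            mul_le_mul_of_nonneg_left h1 (Real.exp_pos _).le
        _ = _ := by field_simp
    refine (norm_integral_le_of_norm_le (hi.const_mul _) (Eventually.of_forall hb)).trans ?_
    rw [integral_const_mul, hv]
    have hx0 : 0 < x := hw
    have e1 : x ^ (-(3 * (K : ℝ) + 1 / 2)) = Real.exp (-(Real.log x) / 2) / x ^ (3 * K) := by
      rw [show (-(3 * (K : ℝ) + 1 / 2)) = -(((3 * K : ℕ) : ℝ)) + (-(1 / 2)) by push_cast; ring,
        Real.rpow_add hx0, Real.rpow_neg hx0.le, Real.rpow_natCast, Real.rpow_def_of_pos hx0]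
      rw [show Real.log x * -(1 / 2) = -(Real.log x) / 2 by ring]
      field_simp
    have e2 : Real.exp ((Real.log Real.pi - Real.log x) / 2) =
        Real.exp (Real.log Real.pi / 2) * Real.exp (-(Real.log x) / 2) := by
      rw [← Real.exp_add]; congr 1; ring
    have e3 : (2 * x) ^ (3 * K) = 8 ^ K * x ^ (3 * K) := by
      rw [mul_pow, pow_mul 2 3 K]; norm_num
    rw [e1, e2, e3]
    apply le_of_eq
    field_simp

end Pool.Agent.LibFR89
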