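import Mathlib
import Pool.Agent.LibFR89.Defs

/-!
# Row A11 (EASY, ONLY Defs): crude bound

`‖exp (-w t^2 + i t^3/3)‖ = exp (- Re w t^2)`; `norm_integral_le_integral_norm`,
`integral_gaussian`.
-/

set_option autoImplicit false

namespace Pool.Agent.LibFR89

open MeasureTheory Filter Topology

theorem Af_bound (w : ℂ) (hw : 0 < w.re) : ‖Af w‖ ≤ √(Real.pi / w.re) := by
  have _ := hw
  have h1 : ∀ t : ℝ, ‖Complex.exp (-w * (t : ℂ) ^ 2 + Complex.I * (t : ℂ) ^ 3 / 3)‖ =
      Real.exp (-w.re * t ^ 2) := by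
    intro t
    rw [Complex.norm_exp]
    congr 1
    have h2 : -w * (t : ℂ) ^ 2 + Complex.I * (t : ℂ) ^ 3 / 3 =
        -w * ((t ^ 2 : ℝ) : ℂ) + ((t ^ 3 / 3 : ℝ) : ℂ) * Complex.I := by
      push_cast
      ring
    rw [h2, Complex.add_re, Complex.re_mul_ofReal, Complex.re_ofReal_mul, Complex.I_re, mul_zero,
      add_zero, Complex.neg_re]
  rw [Af]
  refine (norm_integral_le_integral_norm _).trans ?_
  rw [integral_congr_ae (Eventually.of_forall h1), integral_gaussian]

end Pool.Agent.LibFR89
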