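import Mathlib
import Pool.Agent.LibFR89.DefsR
import Pool.Agent.LibFR89.A10

/-!
# Row A12 (EASY/MEDIUM): expansion of `yf` in a sector

Multiply row A10 by `exp ((log w - log π)/2)`, whose norm is `(‖w‖/π)^(1/2)`
(`Complex.norm_exp`, `Complex.log_re`), and use `Re w ≥ δ ‖w‖`:
`(‖w‖/π)^(1/2) C (δ ‖w‖)^(-(3K+1/2)) = C' / ‖w‖^(3K)`.
For `yf_near` use `K = 1`: `sa 1 y = aa 0 = 1` (`aa 0 = 0!!/0! = 1`).
-/

set_option autoImplicit false

namespace Pool.Agent.LibFR89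

open MeasureTheory Filter Topology

open Pool.Agent.H69Cubic

theorem yf_expand (δ : ℝ) (hδ : 0 < δ) (K : ℕ) : ∃ C : ℝ, 0 < C ∧ ∀ w : ℂ, 1 ≤ ‖w‖ →
    δ * ‖w‖ ≤ w.re → ‖yf w - sa K (-1 / (72 * w ^ 3))‖ ≤ C / ‖w‖ ^ (3 * K) := by
  obtain ⟨C, hC, h⟩ := Af_expand K
  refine ⟨C * δ ^ (-(3 * (K : ℝ) + 1 / 2)) * Real.exp (-(Real.log Real.pi) / 2), ?_, ?_⟩
  · have := Real.rpow_pos_of_pos hδ (-(3 * (K : ℝ) + 1 / 2))
    positivity
  · intro w hw1 hw2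
    have hn : 0 < ‖w‖ := by linarith
    have hre : 0 < w.re := lt_of_lt_of_le (mul_pos hδ hn) hw2
    have h1 := h w hre
    set E1 := Complex.exp (((Real.log Real.pi : ℂ) - Complex.log w) / 2) with hE1
    set E2 := Complex.exp ((Complex.log w - (Real.log Real.pi : ℂ)) / 2) with hE2
    have h12 : E1 * E2 = 1 := by
      rw [hE1, hE2, ← Complex.exp_add]
      rw [show ((Real.log Real.pi : ℂ) - Complex.log w) / 2 + (Complex.log w - (Real.log Real.pi : ℂ)) / 2 = 0 by ring]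
      exact Complex.exp_zero
    have h2 : yf w - sa K (-1 / (72 * w ^ 3)) = (Af w - E1 * sa K (-1 / (72 * w ^ 3))) * E2 := by
      rw [yf, ← hE2, sub_mul, mul_assoc E1, mul_comm (sa K _) E2, ← mul_assoc, h12, one_mul]
    have h3 : ‖E2‖ = Real.exp (Real.log ‖w‖ / 2) * Real.exp (-(Real.log Real.pi) / 2) := by
      rw [hE2, Complex.norm_exp, ← Real.exp_add]
      congr 1
      rw [show ((Complex.log w - (Real.log Real.pi : ℂ)) / 2) = ((1 / 2 : ℝ) : ℂ) * (Complex.log w - (Real.log Real.pi : ℂ)) by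
        push_cast; ring, Complex.re_ofReal_mul, Complex.sub_re, Complex.log_re, Complex.ofReal_re]
      ring
    have h4 : w.re ^ (-(3 * (K : ℝ) + 1 / 2)) ≤ (δ * ‖w‖) ^ (-(3 * (K : ℝ) + 1 / 2)) := by
      apply Real.rpow_le_rpow_of_nonpos (mul_pos hδ hn) hw2
      have : (0 : ℝ) ≤ K := Nat.cast_nonneg K
      linarith
    have h5 : (δ * ‖w‖) ^ (-(3 * (K : ℝ) + 1 / 2)) = δ ^ (-(3 * (K : ℝ) + 1 / 2)) *
        (Real.exp (-(Real.log ‖w‖) / 2) / ‖w‖ ^ (3 * K)) := by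
      rw [Real.mul_rpow hδ.le hn.le]
      congr 1
      rw [show (-(3 * (K : ℝ) + 1 / 2)) = -(((3 * K : ℕ) : ℝ)) + (-(1 / 2)) by push_cast; ring,
        Real.rpow_add hn, Real.rpow_neg hn.le, Real.rpow_natCast, Real.rpow_def_of_pos hn]
      rw [show Real.log ‖w‖ * -(1 / 2) = -(Real.log ‖w‖) / 2 by ring]
      field_simp
    have h6 : Real.exp (-(Real.log ‖w‖) / 2) * Real.exp (Real.log ‖w‖ / 2) = 1 := by
      rw [← Real.exp_add, show -(Real.log ‖w‖) / 2 + Real.log ‖w‖ / 2 = 0 by ring, Real.exp_zero]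
    rw [h2, norm_mul, h3]
    calc ‖Af w - E1 * sa K (-1 / (72 * w ^ 3))‖ * (Real.exp (Real.log ‖w‖ / 2) * Real.exp (-(Real.log Real.pi) / 2))
        ≤ (C * (δ ^ (-(3 * (K : ℝ) + 1 / 2)) * (Real.exp (-(Real.log ‖w‖) / 2) / ‖w‖ ^ (3 * K)))) *
          (Real.exp (Real.log ‖w‖ / 2) * Real.exp (-(Real.log Real.pi) / 2)) := by
          apply mul_le_mul_of_nonneg_right _ (by positivity)
          refine h1.trans ?_
          rw [← h5]
          exact mul_le_mul_of_nonneg_left h4 hC.le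
      _ = C * δ ^ (-(3 * (K : ℝ) + 1 / 2)) * Real.exp (-(Real.log Real.pi) / 2) / ‖w‖ ^ (3 * K) *
          (Real.exp (-(Real.log ‖w‖) / 2) * Real.exp (Real.log ‖w‖ / 2)) := by
          field_simp
      _ = _ := by rw [h6, mul_one]

theorem yf_near (δ : ℝ) (hδ : 0 < δ) : ∃ W : ℝ, 1 ≤ W ∧ ∀ w : ℂ, W ≤ ‖w‖ → δ * ‖w‖ ≤ w.re →
    ‖yf w - 1‖ ≤ 1 / 2 := by
  obtain ⟨C, hC, h⟩ := yf_expand δ hδ 1
  refine ⟨max 1 (2 * C), le_max_left _ _, fun w hw1 hw2 => ?_⟩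
  have h1 : 1 ≤ ‖w‖ := (le_max_left _ _).trans hw1
  have h2 : 2 * C ≤ ‖w‖ := (le_max_right _ _).trans hw1
  have h3 := h w h1 hw2
  have h4 : sa 1 (-1 / (72 * w ^ 3)) = 1 := by
    simp [sa, aa]
  rw [h4] at h3
  refine h3.trans ?_
  have h5 : ‖w‖ ≤ ‖w‖ ^ (3 * 1) := by
    calc ‖w‖ = ‖w‖ ^ 1 := (pow_one _).symm
      _ ≤ ‖w‖ ^ (3 * 1) := pow_le_pow_right₀ h1 (by norm_num)
  rw [div_le_iff₀ (by positivity)]
  calc C ≤ 1 / 2 * ‖w‖ := by linarith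
    _ ≤ 1 / 2 * ‖w‖ ^ (3 * 1) := mul_le_mul_of_nonneg_left h5 (by norm_num)

end Pool.Agent.LibFR89
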