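import Mathlib
import Pool.Agent.LibFR89.Defs
import Pool.Agent.LibFR89.A1

/-!
# Row A2 (MEDIUM): the Airy integral can be differentiated under the integral sign

`hasDerivAt_integral_of_dominated_loc_of_deriv_le` on the ball of radius 1 around `z`: the
derivative of the integrand in `z` is `(i (s + i)) ^ (n + 1) * ex z s`, whose norm on the ball is at
most `(1 + |s|) ^ (n + 1) * exp (-s^2 + 1/3 + (|Im z| + 1) |s| + |Re z| + 1)` (row A1, `ex_norm`),
which is integrable.
-/

set_option autoImplicit false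

namespace Pool.Agent.LibFR89

open MeasureTheory Filter Topology

private theorem bound_aux (z x : ℂ) (hx : x ∈ Metric.ball z 1) (s : ℝ) :
    ‖ex x s‖ ≤ ‖ex ⟨-(|z.re| + 1), |z.im| + 1⟩ s‖ + ‖ex ⟨-(|z.re| + 1), -(|z.im| + 1)⟩ s‖ := by
  rw [Metric.mem_ball, dist_eq_norm] at hx
  have h1 : |x.re - z.re| < 1 := by
    have := Complex.abs_re_le_norm (x - z)
    rw [Complex.sub_re] at this
    linarith
  have h2 : |x.im - z.im| < 1 := by
    have := Complex.abs_im_le_norm (x - z)
    rw [Complex.sub_im] at this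
    linarith
  have h3 : |x.re| ≤ |z.re| + 1 := by
    have := abs_sub_abs_le_abs_sub x.re z.re
    linarith
  have h4 : |x.im| ≤ |z.im| + 1 := by
    have := abs_sub_abs_le_abs_sub x.im z.im
    linarith
  rw [ex_norm, ex_norm, ex_norm]
  simp only
  have h5 : -x.re ≤ |z.re| + 1 := (neg_le_abs _).trans h3
  have h6 : -(x.im * s) ≤ (|z.im| + 1) * |s| := by
    calc -(x.im * s) ≤ |x.im * s| := neg_le_abs _
      _ = |x.im| * |s| := abs_mul _ _
      _ ≤ _ := mul_le_mul_of_nonneg_right h4 (abs_nonneg _)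
  rcases le_total 0 s with hs | hs
  · rw [abs_of_nonneg hs] at h6
    have h7 : Real.exp (-s ^ 2 + 1 / 3 - x.im * s - x.re) ≤
        Real.exp (-s ^ 2 + 1 / 3 - -(|z.im| + 1) * s - -(|z.re| + 1)) := by
      apply Real.exp_le_exp.mpr
      linarith
    have h8 := Real.exp_pos (-s ^ 2 + 1 / 3 - (|z.im| + 1) * s - -(|z.re| + 1))
    linarith
  · rw [abs_of_nonpos hs] at h6
    have h7 : Real.exp (-s ^ 2 + 1 / 3 - x.im * s - x.re) ≤
        Real.exp (-s ^ 2 + 1 / 3 - (|z.im| + 1) * s - -(|z.re| + 1)) := by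
      apply Real.exp_le_exp.mpr
      linarith
    have h8 := Real.exp_pos (-s ^ 2 + 1 / 3 - -(|z.im| + 1) * s - -(|z.re| + 1))
    linarith

theorem Bn_hasDerivAt (n : ℕ) (z : ℂ) : HasDerivAt (Bn n) (Bn (n + 1) z) z := by
  have key := hasDerivAt_integral_of_dominated_loc_of_deriv_le (μ := (volume : Measure ℝ)) (𝕜 := ℂ)
    (F := fun (z : ℂ) (s : ℝ) => (Complex.I * ((s : ℂ) + Complex.I)) ^ n * ex z s)
    (F' := fun (z : ℂ) (s : ℝ) => (Complex.I * ((s : ℂ) + Complex.I)) ^ (n + 1) * ex z s)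
    (x₀ := z) (s := Metric.ball z 1)
    (bound := fun s : ℝ => ‖(Complex.I * ((s : ℂ) + Complex.I)) ^ (n + 1) * ex ⟨-(|z.re| + 1), |z.im| + 1⟩ s‖ +
      ‖(Complex.I * ((s : ℂ) + Complex.I)) ^ (n + 1) * ex ⟨-(|z.re| + 1), -(|z.im| + 1)⟩ s‖)
    (Metric.ball_mem_nhds z one_pos)
    (Eventually.of_forall fun x => (Bn_integrable n x).aestronglyMeasurable)
    (Bn_integrable n z) (Bn_integrable (n + 1) z).aestronglyMeasurable
    (Eventually.of_forall fun s x hx => by
      rw [norm_mul, norm_mul, norm_mul, ← mul_add]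
      exact mul_le_mul_of_nonneg_left (bound_aux z x hx s) (norm_nonneg _))
    ((Bn_integrable (n + 1) _).norm.add (Bn_integrable (n + 1) _).norm)
    (Eventually.of_forall fun s x _ => by
      have h1 : HasDerivAt (fun x : ℂ => Complex.I * (((s : ℂ) + Complex.I) ^ 3 / 3 + x * ((s : ℂ) + Complex.I)))
          (Complex.I * (1 * ((s : ℂ) + Complex.I))) x :=
        (((hasDerivAt_id x).mul_const ((s : ℂ) + Complex.I)).const_add _).const_mul _
      have h2 := (h1.cexp).const_mul ((Complex.I * ((s : ℂ) + Complex.I)) ^ n)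
      have h3 : (Complex.I * ((s : ℂ) + Complex.I)) ^ (n + 1) * ex x s =
          (Complex.I * ((s : ℂ) + Complex.I)) ^ n *
            (Complex.exp (Complex.I * (((s : ℂ) + Complex.I) ^ 3 / 3 + x * ((s : ℂ) + Complex.I))) *
              (Complex.I * (1 * ((s : ℂ) + Complex.I)))) := by
        unfold ex
        ring
      rw [h3]
      exact h2)
  exact key.2

end Pool.Agent.LibFR89
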