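import Mathlib
import Pool.Agent.LibFR89.Defs
import Pool.Agent.LibFR89.A1

/-!
# Row A6 (MEDIUM): the height of the contour does not matter

`F u = exp (i (u^3/3 + z u))` is entire.  `Complex.integral_boundary_rect_eq_zero_of_differentiableOn`
on the rectangle with corners `-R + i` and `R + τ i` (either order of `1` and `τ`); on the vertical
sides `u = ± R + i y`, `y` between `1` and `τ`, `‖F u‖ = exp (- y R^2 + y^3/3 ∓ R Im z - y Re z)`,
which tends to `0` uniformly as `R → ∞`; the horizontal integrals over `-R..R` tend to the integrals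
over `ℝ` (`intervalIntegral_tendsto_integral`; both are integrable, the norm is
`exp (- τ s^2 + τ^3/3 - s Im z - τ Re z)`).
-/

set_option autoImplicit false

namespace Pool.Agent.LibFR89

open MeasureTheory Filter Topology

private noncomputable def A6_F (z u : ℂ) : ℂ := Complex.exp (Complex.I * (u ^ 3 / 3 + z * u))

private theorem A6_diff (z : ℂ) : Differentiable ℂ (A6_F z) := by
  unfold A6_F
  fun_prop

private theorem A6_norm (z : ℂ) (x y : ℝ) : ‖A6_F z ((x : ℂ) + y * Complex.I)‖ =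
    Real.exp (-(y * x ^ 2) + y ^ 3 / 3 - z.im * x - z.re * y) := by
  have h : Complex.I * (((x : ℂ) + y * Complex.I) ^ 3 / 3 + z * ((x : ℂ) + y * Complex.I)) =
      ((-(y * x ^ 2) + y ^ 3 / 3 - z.im * x - z.re * y : ℝ) : ℂ) +
        ((x ^ 3 / 3 - x * y ^ 2 + z.re * x - z.im * y : ℝ) : ℂ) * Complex.I := by
    conv_lhs => rw [← Complex.re_add_im z]
    push_cast
    linear_combination ((x : ℂ) ^ 2 * y + x * y ^ 2 * Complex.I + y ^ 3 / 3 * (Complex.I ^ 2 - 1) +
      (z.re * y + z.im * x) + z.im * y * Complex.I) * Complex.I_sq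
  unfold A6_F
  rw [h, Complex.norm_exp, Complex.add_re, Complex.ofReal_re, Complex.re_ofReal_mul,
    Complex.I_re, mul_zero, add_zero]

private theorem A6_integrable (z : ℂ) {τ : ℝ} (hτ : 0 < τ) :
    Integrable (fun s : ℝ => A6_F z ((s : ℂ) + τ * Complex.I)) := by
  have hc : Continuous fun s : ℝ => A6_F z ((s : ℂ) + τ * Complex.I) :=
    (A6_diff z).continuous.comp (by fun_prop)
  refine Integrable.mono' ((integrable_exp_neg_mul_sq (half_pos hτ)).const_mul
    (Real.exp (τ ^ 3 / 3 - z.re * τ + z.im ^ 2 / (2 * τ)))) hc.aestronglyMeasurable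
    (Filter.Eventually.of_forall fun s => ?_)
  rw [A6_norm, ← Real.exp_add]
  refine Real.exp_le_exp.2 ?_
  have h1 : 0 ≤ τ / 2 * (s + z.im / τ) ^ 2 := by positivity
  have h2 : τ / 2 * (s + z.im / τ) ^ 2 = τ / 2 * s ^ 2 + z.im * s + z.im ^ 2 / (2 * τ) := by
    field_simp
    ring
  linarith

private theorem A6_vert (z : ℂ) {τ : ℝ} (hτ : 0 < τ) (ε : ℝ) (hε : ε = 1 ∨ ε = -1) :
    Tendsto (fun R : ℝ => ∫ y : ℝ in (1 : ℝ)..τ, A6_F z (((ε * R : ℝ) : ℂ) + y * Complex.I)) atTop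
      (𝓝 0) := by
  have hm : 0 < min 1 τ := lt_min one_pos hτ
  have hb : Tendsto (fun R : ℝ => Real.exp (-(min 1 τ * R ^ 2) + max 1 τ ^ 3 / 3 + |z.im| * R +
      |z.re| * max 1 τ) * |τ - 1|) atTop (𝓝 0) := by
    have h1 : Tendsto (fun R : ℝ => -(min 1 τ * R ^ 2) + max 1 τ ^ 3 / 3 + |z.im| * R +
        |z.re| * max 1 τ) atTop atBot := by
      have h2 : Tendsto (fun R : ℝ => -R + (max 1 τ ^ 3 / 3 + |z.re| * max 1 τ)) atTop atBot :=
        tendsto_atBot_add_const_right _ _ tendsto_neg_atTop_atBot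
      refine tendsto_atBot_mono' _ ?_ h2
      filter_upwards [eventually_ge_atTop ((|z.im| + 1) / min 1 τ), eventually_ge_atTop 0]
        with R hR hR0
      rw [div_le_iff₀ hm] at hR
      have h3 := mul_le_mul_of_nonneg_right hR hR0
      nlinarith
    have h4 := (Real.tendsto_exp_atBot.comp h1).mul_const |τ - 1|
    rw [zero_mul] at h4
    exact h4
  refine squeeze_zero_norm' ?_ hb
  filter_upwards [eventually_ge_atTop 0] with R hR
  refine intervalIntegral.norm_integral_le_of_norm_le_const fun y hy => ?_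
  rw [A6_norm]
  refine Real.exp_le_exp.2 ?_
  have hy1 : min 1 τ < y ∧ y ≤ max 1 τ := hy
  have hy0 : 0 < y := hm.trans hy1.1
  have e1 : (ε * R) ^ 2 = R ^ 2 := by
    rcases hε with h | h <;> rw [h] <;> ring
  have e2 : min 1 τ * R ^ 2 ≤ y * R ^ 2 := mul_le_mul_of_nonneg_right hy1.1.le (sq_nonneg R)
  have e3 : y ^ 3 ≤ max 1 τ ^ 3 := pow_le_pow_left₀ hy0.le hy1.2 3
  have e4 : -(z.im * (ε * R)) ≤ |z.im| * R := by
    have h5 : |z.im * (ε * R)| = |z.im| * R := by
      rw [abs_mul, abs_mul, abs_of_nonneg hR]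
      rcases hε with h | h <;> rw [h] <;> simp
    rw [← h5]
    exact neg_le_abs _
  have e5 : -(z.re * y) ≤ |z.re| * max 1 τ := by
    have h5 : |z.re * y| ≤ |z.re| * max 1 τ := by
      rw [abs_mul, abs_of_pos hy0]
      exact mul_le_mul_of_nonneg_left hy1.2 (abs_nonneg _)
    exact (neg_le_abs _).trans h5
  rw [e1]
  linarith


theorem Bn_shift (z : ℂ) (τ : ℝ) (hτ : 0 < τ) :
    Bn 0 z = ∫ s : ℝ, Complex.exp (Complex.I * (((s : ℂ) + τ * Complex.I) ^ 3 / 3 +
      z * ((s : ℂ) + τ * Complex.I))) := by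
  have hB : Bn 0 z = ∫ s : ℝ, A6_F z ((s : ℂ) + (1 : ℝ) * Complex.I) := by
    unfold Bn
    refine integral_congr_ae (Filter.Eventually.of_forall fun s => ?_)
    show (Complex.I * ((s : ℂ) + Complex.I)) ^ 0 * ex z s = A6_F z ((s : ℂ) + (1 : ℝ) * Complex.I)
    rw [pow_zero, one_mul, Complex.ofReal_one, one_mul]
    rfl
  have hneg : Tendsto (fun R : ℝ => -R) atTop atBot := tendsto_neg_atTop_atBot
  have h1 := intervalIntegral_tendsto_integral (A6_integrable z one_pos) hneg tendsto_id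
  have h2 := intervalIntegral_tendsto_integral (A6_integrable z hτ) hneg tendsto_id
  have h3 := A6_vert z hτ 1 (Or.inl rfl)
  have h4 := A6_vert z hτ (-1) (Or.inr rfl)
  have key : ∀ R : ℝ, (∫ x : ℝ in (-R)..R, A6_F z ((x : ℂ) + (1 : ℝ) * Complex.I)) -
      (∫ x : ℝ in (-R)..R, A6_F z ((x : ℂ) + (τ : ℝ) * Complex.I)) =
      Complex.I * (∫ y : ℝ in (1 : ℝ)..τ, A6_F z ((((-1) * R : ℝ) : ℂ) + y * Complex.I)) -
      Complex.I * (∫ y : ℝ in (1 : ℝ)..τ, A6_F z (((1 * R : ℝ) : ℂ) + y * Complex.I)) := by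
    intro R
    have h5 := Complex.integral_boundary_rect_eq_zero_of_differentiableOn (A6_F z)
      (⟨-R, 1⟩ : ℂ) ⟨R, τ⟩ (A6_diff z).differentiableOn
    simp only [smul_eq_mul] at h5
    rw [neg_one_mul, one_mul]
    linear_combination h5
  have h6 := ((h4.const_mul Complex.I).sub (h3.const_mul Complex.I))
  rw [mul_zero, sub_zero] at h6
  have h7 := h6.congr fun R => (key R).symm
  have h8 := tendsto_nhds_unique (h1.sub h2) h7
  rw [hB, sub_eq_zero.1 h8]
  rfl

end Pool.Agent.LibFR89
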