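import Mathlib
import Pool.Agent.LibFR89.Defs
import Pool.Agent.LibFR89.A6
import Pool.Agent.LibFR89.A2

/-!
# Row A7 (EASY): `Af w = exp (2/3 w^3) * 2 π Ai (w^2)`

Row A6 with `z = w^2`, `τ = Re w`, then the translation `s = t - Im w`
(`integral_sub_right_eq_self` / `integral_add_right_eq_self`): `s + i Re w = t + i w`, and
`i ((t + i w)^3/3 + w^2 (t + i w)) = - w t^2 + i t^3/3 - 2/3 w^3` (ring, `I^2 = -1`).
The consequences: `Af` is holomorphic for `0 < Re w` (row A2).
-/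

set_option autoImplicit false

namespace Pool.Agent.LibFR89

open MeasureTheory Filter Topology

theorem Af_eq (w : ℂ) (hw : 0 < w.re) : Af w = Complex.exp (2 / 3 * w ^ 3) * Bn 0 (w ^ 2) := by
  rw [Bn_shift (w ^ 2) w.re hw, ← integral_sub_right_eq_self _ w.im, ← integral_const_mul]
  unfold Af
  refine integral_congr_ae (Filter.Eventually.of_forall (fun t => ?_))
  show Complex.exp (-w * (t : ℂ) ^ 2 + Complex.I * (t : ℂ) ^ 3 / 3) =
    Complex.exp (2 / 3 * w ^ 3) * Complex.exp (Complex.I *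
      ((((t - w.im : ℝ) : ℂ) + w.re * Complex.I) ^ 3 / 3 +
        w ^ 2 * (((t - w.im : ℝ) : ℂ) + w.re * Complex.I)))
  rw [← Complex.exp_add]
  congr 1
  have h1 : ((t - w.im : ℝ) : ℂ) + w.re * Complex.I = t + Complex.I * w := by
    conv_rhs => rw [← Complex.re_add_im w]
    push_cast
    linear_combination (-(w.im : ℂ)) * Complex.I_sq
  rw [h1]
  have h2 : Complex.I ^ 2 = -1 := Complex.I_sq
  linear_combination (-(Complex.I ^ 2 * w ^ 3 / 3) + w ^ 3 / 3 - w ^ 2 * Complex.I * (t : ℂ) -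
    w * (t : ℂ) ^ 2 - w ^ 3) * h2

theorem Af_diff : DifferentiableOn ℂ Af {w : ℂ | 0 < w.re} := by
  have h : DifferentiableOn ℂ (fun w : ℂ => Complex.exp (2 / 3 * w ^ 3) * Bn 0 (w ^ 2))
      {w : ℂ | 0 < w.re} := by
    intro w _
    have h1 : DifferentiableAt ℂ (fun w : ℂ => Complex.exp (2 / 3 * w ^ 3)) w := by fun_prop
    have h2 : DifferentiableAt ℂ (fun w : ℂ => Bn 0 (w ^ 2)) w := by
      have h3 : DifferentiableAt ℂ (Bn 0) (w ^ 2) := (Bn_hasDerivAt 0 (w ^ 2)).differentiableAt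
      have h4 : DifferentiableAt ℂ (fun w : ℂ => w ^ 2) w := by fun_prop
      exact DifferentiableAt.comp (g := Bn 0) (f := fun w : ℂ => w ^ 2) w h3 h4
    exact (h1.mul h2).differentiableWithinAt
  exact h.congr (fun w hw => Af_eq w hw)

end Pool.Agent.LibFR89
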