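import Mathlib
import Pool.Agent.LibFR89.Defs
import Pool.Agent.LibFR89.A7
import Pool.Agent.LibFR89.A12

/-!
# Row A13 (MEDIUM): no zeros far to the right on a horizontal line, positivity far to the right

Given `z0`, for large real `s` put `w = exp (log (z0 + s) / 2)` (so `w^2 = z0 + s`, `0 < Re w`,
`‖w‖ = ‖z0+s‖^(1/2) → ∞`, and `Re w ≥ ‖w‖/2` as the argument of `z0 + s` is at most `π/2` in
absolute value).  By `yf_near` (`δ = 1/2`) `yf w ≠ 0`, so `Af w ≠ 0`, so `Bn 0 (w^2) ≠ 0`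
(row A7).  For real `x`: `w = √x > 0`, `yf w` has real part `≥ 1/2` and
`Bn 0 x = exp (-2/3 w^3) * Af w`, `Af w = yf w * exp ((log π - log w)/2)` with a positive factor.
-/

set_option autoImplicit false

namespace Pool.Agent.LibFR89

open MeasureTheory Filter Topology

private theorem sqrt_aux (ζ : ℂ) (h : 0 < ζ.re) : ∃ w : ℂ, w ^ 2 = ζ ∧ 0 < w.re ∧ 1 / 2 * ‖w‖ ≤ w.re ∧
    ‖w‖ ^ 2 = ‖ζ‖ := by
  have hζ : ζ ≠ 0 := by
    rintro rfl
    simp at h
  have h2 : Complex.exp (Complex.log ζ / 2) ^ 2 = ζ := by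
    rw [← Complex.exp_nat_mul]
    push_cast
    rw [mul_div_cancel₀ _ (two_ne_zero' ℂ), Complex.exp_log hζ]
  have hre : 0 < (Complex.exp (Complex.log ζ / 2)).re := by
    rw [Complex.exp_re]
    apply mul_pos (Real.exp_pos _)
    have h3 : (Complex.log ζ / 2).im = ζ.arg / 2 := by
      rw [show Complex.log ζ / 2 = Complex.log ζ / ((2 : ℝ) : ℂ) by push_cast; ring, Complex.div_ofReal_im,
        Complex.log_im]
    rw [h3]
    have h4 : |ζ.arg| < Real.pi / 2 := Complex.abs_arg_lt_pi_div_two_iff.mpr (Or.inl h)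
    have h5 := abs_lt.mp h4
    have h6 := Real.pi_pos
    exact Real.cos_pos_of_mem_Ioo ⟨by linarith, by linarith⟩
  refine ⟨Complex.exp (Complex.log ζ / 2), h2, hre, ?_, ?_⟩
  · generalize Complex.exp (Complex.log ζ / 2) = w at *
    have h3 : (w ^ 2).re = w.re ^ 2 - w.im ^ 2 := by
      rw [pow_two, Complex.mul_re]
      ring
    rw [h2] at h3
    have h4 : ‖w‖ ^ 2 = w.re ^ 2 + w.im ^ 2 := by
      rw [Complex.sq_norm, Complex.normSq_apply]
      ring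
    have h5 : ‖w‖ ≤ 2 * w.re := by
      apply abs_le_of_sq_le_sq' _ (by linarith) |>.2
      nlinarith
    linarith
  · rw [← norm_pow, h2]

theorem Bn_far (z0 : ℂ) : ∃ s0 : ℝ, ∀ s : ℝ, s0 ≤ s → Bn 0 (z0 + s) ≠ 0 := by
  obtain ⟨W, hW1, hW⟩ := yf_near (1 / 2) (by norm_num)
  refine ⟨‖z0‖ + W ^ 2, fun s hs => ?_⟩
  have hre : W ^ 2 ≤ (z0 + s).re := by
    rw [Complex.add_re, Complex.ofReal_re]
    have := (abs_le.mp (Complex.abs_re_le_norm z0)).1
    linarith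
  have hpos : 0 < (z0 + s).re := by nlinarith
  obtain ⟨w, h1, h2, h3, h4⟩ := sqrt_aux (z0 + s) hpos
  have hn : W ≤ ‖w‖ := by
    have h5 : W ^ 2 ≤ ‖w‖ ^ 2 := by
      rw [h4]
      exact hre.trans (Complex.re_le_norm _)
    exact (abs_le_of_sq_le_sq' h5 (norm_nonneg _)).2
  have h6 := hW w hn h3
  intro h0
  have h7 := Af_eq w h2
  rw [h1, h0, mul_zero] at h7
  have h8 : yf w = 0 := by
    unfold yf
    rw [h7, zero_mul]
  rw [h8] at h6
  norm_num at h6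

theorem Bn_pos_far : ∃ X : ℝ, ∀ x : ℝ, X ≤ x → 0 < (Bn 0 (x : ℂ)).re := by
  obtain ⟨W, hW1, hW⟩ := yf_near (1 / 2) (by norm_num)
  refine ⟨W ^ 2, fun x hx => ?_⟩
  have hx0 : 0 < x := by nlinarith
  have hw0 : 0 < √x := Real.sqrt_pos.mpr hx0
  have hwW : W ≤ √x := Real.le_sqrt_of_sq_le hx
  have hn : ‖((√x : ℝ) : ℂ)‖ = √x := by
    rw [Complex.norm_real, Real.norm_of_nonneg hw0.le]
  have h6 := hW ((√x : ℝ) : ℂ) (by rw [hn]; exact hwW) (by rw [hn, Complex.ofReal_re]; linarith)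
  have h7 := Af_eq ((√x : ℝ) : ℂ) (by rw [Complex.ofReal_re]; exact hw0)
  have hsq : ((√x : ℝ) : ℂ) ^ 2 = (x : ℂ) := by
    rw [← Complex.ofReal_pow, Real.sq_sqrt hx0.le]
  rw [hsq] at h7
  have h8 : yf ((√x : ℝ) : ℂ) = ((Real.exp (2 / 3 * √x ^ 3) * Real.exp ((Real.log √x - Real.log Real.pi) / 2) : ℝ) : ℂ) *
      Bn 0 (x : ℂ) := by
    unfold yf
    rw [h7, ← Complex.ofReal_log hw0.le]
    push_cast
    ring
  have h9 : 1 / 2 ≤ (yf ((√x : ℝ) : ℂ)).re := by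
    have h10 := (abs_le.mp ((Complex.abs_re_le_norm (yf ((√x : ℝ) : ℂ) - 1)).trans h6)).1
    rw [Complex.sub_re, Complex.one_re] at h10
    linarith
  rw [h8, Complex.re_ofReal_mul] at h9
  have h10 : 0 < Real.exp (2 / 3 * √x ^ 3) * Real.exp ((Real.log √x - Real.log Real.pi) / 2) := by positivity
  by_contra hneg
  have h11 := mul_nonpos_of_nonneg_of_nonpos h10.le (not_lt.mp hneg)
  linarith

end Pool.Agent.LibFR89
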