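import Mathlib
import Pool.Agent.LibFR89.Defs
import Pool.Agent.LibFR89.A1

/-!
# Row A3 (MEDIUM): the Airy equation

`d/ds ex z s = i ((s + i)^2 + z) * ex z s`, and `ex z s → 0` at `± ∞` (row A1), so
`∫ i ((s + i)^2 + z) ex z s = 0` (`integral_of_hasDerivAt_of_tendsto` on `ℝ`).  As
`(i (s + i))^2 = - (s + i)^2` this is the claim.
-/

set_option autoImplicit false

namespace Pool.Agent.LibFR89

open MeasureTheory Filter Topology

private theorem ex_tendsto (z : ℂ) : Tendsto (ex z) (cocompact ℝ) (𝓝 0) := by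
  rw [tendsto_zero_iff_norm_tendsto_zero]
  have h1 : Tendsto (fun s : ℝ => s ^ 2 / 2) (cocompact ℝ) atTop := by
    have h2 : Tendsto (fun s : ℝ => ‖s‖ ^ 2) (cocompact ℝ) atTop :=
      (tendsto_pow_atTop two_ne_zero).comp (tendsto_norm_cocompact_atTop)
    have h3 := h2.atTop_div_const (show (0 : ℝ) < 2 by norm_num)
    refine h3.congr fun s => ?_
    rw [Real.norm_eq_abs, sq_abs]
  have h4 : Tendsto (fun s : ℝ => -s ^ 2 + 1 / 3 - z.im * s - z.re) (cocompact ℝ) atBot := by
    have h5 : Tendsto (fun s : ℝ => (z.im ^ 2 / 2 + 1 / 3 - z.re) - s ^ 2 / 2) (cocompact ℝ) atBot := by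
      have h6 : Tendsto (fun s : ℝ => -(s ^ 2 / 2)) (cocompact ℝ) atBot := tendsto_neg_atTop_atBot.comp h1
      have h7 := tendsto_atBot_add_const_left (cocompact ℝ) (z.im ^ 2 / 2 + 1 / 3 - z.re) h6
      exact h7.congr fun s => by ring
    refine tendsto_atBot_mono (fun s => ?_) h5
    nlinarith [sq_nonneg (s + z.im)]
  exact (Real.tendsto_exp_atBot.comp h4).congr fun s => (ex_norm z s).symm

theorem Bn_two (z : ℂ) : Bn 2 z = z * Bn 0 z := by
  have hi2 := Bn_integrable 2 z
  have hi0 := Bn_integrable 0 z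
  have hderiv : ∀ s : ℝ, HasDerivAt (ex z)
      (-Complex.I * ((Complex.I * ((s : ℂ) + Complex.I)) ^ 2 * ex z s) +
        (Complex.I * z) * ((Complex.I * ((s : ℂ) + Complex.I)) ^ 0 * ex z s)) s := by
    intro s
    have h0 : HasDerivAt (fun s : ℝ => ((s : ℂ) + Complex.I)) 1 s :=
      (Complex.ofRealCLM.hasDerivAt (x := s)).add_const Complex.I
    have h1 : HasDerivAt (fun s : ℝ => Complex.I * (((s : ℂ) + Complex.I) ^ 3 / 3 + z * ((s : ℂ) + Complex.I)))
        (Complex.I * ((3 : ℕ) * ((s : ℂ) + Complex.I) ^ 2 * 1 / 3 + z * 1)) s :=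
      (((h0.pow 3).div_const 3).add (h0.const_mul z)).const_mul Complex.I
    have h2 := h1.cexp
    have h3 : -Complex.I * ((Complex.I * ((s : ℂ) + Complex.I)) ^ 2 * ex z s) +
        (Complex.I * z) * ((Complex.I * ((s : ℂ) + Complex.I)) ^ 0 * ex z s) =
        Complex.exp (Complex.I * (((s : ℂ) + Complex.I) ^ 3 / 3 + z * ((s : ℂ) + Complex.I))) *
        (Complex.I * ((3 : ℕ) * ((s : ℂ) + Complex.I) ^ 2 * 1 / 3 + z * 1)) := by
      unfold ex
      have hI : Complex.I ^ 2 = -1 := Complex.I_sq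
      rw [mul_pow, hI]
      push_cast
      ring
    rw [h3]
    exact h2
  have hint : Integrable (fun s : ℝ => -Complex.I * ((Complex.I * ((s : ℂ) + Complex.I)) ^ 2 * ex z s) +
        (Complex.I * z) * ((Complex.I * ((s : ℂ) + Complex.I)) ^ 0 * ex z s)) :=
    (hi2.const_mul _).add (hi0.const_mul _)
  have h := integral_of_hasDerivAt_of_tendsto hderiv hint
    ((ex_tendsto z).mono_left atBot_le_cocompact) ((ex_tendsto z).mono_left atTop_le_cocompact)
  rw [integral_add (hi2.const_mul _) (hi0.const_mul _), integral_const_mul, integral_const_mul, sub_zero] at h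
  have h' : -Complex.I * Bn 2 z + Complex.I * z * Bn 0 z = 0 := h
  have h2 : Complex.I * (z * Bn 0 z - Bn 2 z) = 0 := by
    rw [← h']
    ring
  rcases mul_eq_zero.mp h2 with h3 | h3
  · exact absurd h3 Complex.I_ne_zero
  · exact (sub_eq_zero.mp h3).symm

end Pool.Agent.LibFR89
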