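import Mathlib
import Pool.Agent.LibFR89.Defs
import Pool.Agent.LibFR89.A1

/-!
# Row A5 (EASY/MEDIUM): bound of the Airy function

`‖Bn n z‖ ≤ ∫ (1 + |s|)^n exp (-s^2 + 1/3 - Y s - X)` and
`-s^2 - Y s ≤ -s^2/2 + Y^2/2`, so `C = exp(1/3) * ∫ (1 + |s|)^n exp (-s^2/2)` (plus 1, say).
-/

set_option autoImplicit false

namespace Pool.Agent.LibFR89

open MeasureTheory Filter Topology

private lemma A5_gauss (n : ℕ) :
    Integrable (fun s : ℝ => (1 + |s|) ^ n * Real.exp (-(1 / 2) * s ^ 2)) := by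
  have hg : ∀ k : ℕ, Integrable (fun s : ℝ => |s| ^ k * Real.exp (-(1 / 2) * s ^ 2)) := by
    intro k
    have h1 := integrable_rpow_mul_exp_neg_mul_sq (b := 1 / 2) (by norm_num) (s := (k : ℝ))
      (by have := Nat.cast_nonneg (α := ℝ) k; linarith)
    have h2 := h1.norm
    refine h2.congr ?_
    filter_upwards with s
    rw [norm_mul, Real.norm_eq_abs, Real.norm_eq_abs, Real.rpow_natCast, abs_pow,
      abs_of_pos (Real.exp_pos _)]
  have h1 : (fun s : ℝ => (1 + |s|) ^ n * Real.exp (-(1 / 2) * s ^ 2)) =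
      fun s : ℝ => ∑ k ∈ Finset.range (n + 1), (n.choose k : ℝ) *
        (|s| ^ k * Real.exp (-(1 / 2) * s ^ 2)) := by
    funext s
    rw [add_comm, add_pow, Finset.sum_mul]
    apply Finset.sum_congr rfl
    intro k _
    rw [one_pow]
    ring
  rw [h1]
  exact integrable_finsetSum _ fun k _ => (hg k).const_mul _

theorem Bn_bound (n : ℕ) :
    ∃ C : ℝ, 0 < C ∧ ∀ z : ℂ, ‖Bn n z‖ ≤ C * Real.exp (-z.re + z.im ^ 2 / 2) := by
  set D : ℝ := ∫ s : ℝ, (1 + |s|) ^ n * Real.exp (-(1 / 2) * s ^ 2) with hD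
  have hD0 : 0 ≤ D := integral_nonneg fun s => by positivity
  refine ⟨Real.exp (1 / 3) * (D + 1), by positivity, ?_⟩
  intro z
  have h1 : ‖Bn n z‖ ≤ ∫ s : ℝ, Real.exp (1 / 3 - z.re + z.im ^ 2 / 2) *
      ((1 + |s|) ^ n * Real.exp (-(1 / 2) * s ^ 2)) := by
    unfold Bn
    apply norm_integral_le_of_norm_le ((A5_gauss n).const_mul _)
    filter_upwards with s
    rw [norm_mul, norm_pow, norm_mul, Complex.norm_I, one_mul, ex_norm]
    have h1 : ‖(s : ℂ) + Complex.I‖ ≤ 1 + |s| := by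
      refine (norm_add_le _ _).trans ?_
      rw [Complex.norm_real, Complex.norm_I, Real.norm_eq_abs]
      linarith
    have h2 : Real.exp (-s ^ 2 + 1 / 3 - z.im * s - z.re) ≤
        Real.exp (1 / 3 - z.re + z.im ^ 2 / 2) * Real.exp (-(1 / 2) * s ^ 2) := by
      rw [← Real.exp_add]
      apply Real.exp_le_exp.2
      nlinarith [sq_nonneg (s + z.im)]
    calc ‖(s : ℂ) + Complex.I‖ ^ n * Real.exp (-s ^ 2 + 1 / 3 - z.im * s - z.re)
        ≤ (1 + |s|) ^ n * (Real.exp (1 / 3 - z.re + z.im ^ 2 / 2) *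
          Real.exp (-(1 / 2) * s ^ 2)) := by
          apply mul_le_mul (pow_le_pow_left₀ (norm_nonneg _) h1 n) h2 (Real.exp_pos _).le
          positivity
      _ = _ := by ring
  refine h1.trans ?_
  rw [integral_const_mul, ← hD]
  have h3 : Real.exp (1 / 3 - z.re + z.im ^ 2 / 2) =
      Real.exp (1 / 3) * Real.exp (-z.re + z.im ^ 2 / 2) := by
    rw [← Real.exp_add]
    congr 1
    ring
  rw [h3]
  have h4 : 0 < Real.exp (1 / 3) * Real.exp (-z.re + z.im ^ 2 / 2) := by positivity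
  nlinarith

end Pool.Agent.LibFR89
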