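import Mathlib
import Pool.Agent.LibFR89.Defs
import Pool.Agent.LibFR89.A2
import Pool.Agent.LibFR89.A3
import Pool.Agent.LibFR89.A5
import Pool.Agent.LibFR89.A13

/-!
# Row A14 (MEDIUM): all zeros of the Airy function are real and negative (energy identity)

Let `Bn 0 z0 = 0`, `y s = Bn 0 (z0 + s)`, `y' s = Bn 1 (z0 + s)`, `y'' s = (z0 + s) y s`
(rows A2, A3) for real `s ≥ 0`; by row A5 all of them are at most `C (1 + s) exp (-s)` in absolute
value.  The function `conj (y s) * y' s` has derivative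
`‖y' s‖^2 + (z0 + s) ‖y s‖^2`, vanishes at `s = 0` and tends to `0` at infinity, so
`∫_0^∞ (‖y'‖^2 + (z0 + s) ‖y‖^2) = 0` (`integral_Ioi_of_hasDerivAt_of_tendsto`).
Imaginary part: `Im z0 * ∫ ‖y‖^2 = 0` and `∫ ‖y‖^2 > 0` (continuous, not identically zero by
`Bn_far`), so `Im z0 = 0`.  Real part: if `Re z0 ≥ 0` the integrand is `≥ 0` and positive somewhere,
a contradiction.
-/

set_option autoImplicit false

namespace Pool.Agent.LibFR89

open MeasureTheory Filter Topology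

private lemma shift_deriv (n : ℕ) (z0 : ℂ) (s : ℝ) :
    HasDerivAt (fun s : ℝ => Bn n (z0 + (s : ℂ))) (Bn (n + 1) (z0 + (s : ℂ))) s := by
  have h1 : HasDerivAt (fun w : ℂ => z0 + w) 1 (s : ℂ) := (hasDerivAt_id (s : ℂ)).const_add z0
  have h2 := (Bn_hasDerivAt n (z0 + (s : ℂ))).comp (s : ℂ) h1
  have h3 := h2.comp_ofReal
  simpa [Function.comp_def] using h3

private noncomputable def GG (z0 : ℂ) (s : ℝ) : ℂ :=
  star (Bn 0 (z0 + (s : ℂ))) * Bn 1 (z0 + (s : ℂ))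

private noncomputable def gg (z0 : ℂ) (s : ℝ) : ℂ :=
  ((‖Bn 1 (z0 + (s : ℂ))‖ ^ 2 : ℝ) : ℂ) + (z0 + (s : ℂ)) * ((‖Bn 0 (z0 + (s : ℂ))‖ ^ 2 : ℝ) : ℂ)

private lemma GG_deriv (z0 : ℂ) (s : ℝ) : HasDerivAt (GG z0) (gg z0 s) s := by
  have h0 := shift_deriv 0 z0 s
  have h1 := shift_deriv 1 z0 s
  have h := h0.star.mul h1
  refine h.congr_deriv ?_
  unfold gg
  have e1 : star (Bn 1 (z0 + (s : ℂ))) * Bn 1 (z0 + (s : ℂ)) =
      ((‖Bn 1 (z0 + (s : ℂ))‖ ^ 2 : ℝ) : ℂ) := by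
    have := Complex.conj_mul' (Bn 1 (z0 + (s : ℂ)))
    push_cast
    exact this
  have e0 : star (Bn 0 (z0 + (s : ℂ))) * Bn 0 (z0 + (s : ℂ)) =
      ((‖Bn 0 (z0 + (s : ℂ))‖ ^ 2 : ℝ) : ℂ) := by
    have := Complex.conj_mul' (Bn 0 (z0 + (s : ℂ)))
    push_cast
    exact this
  have e2 : Bn (1 + 1) (z0 + (s : ℂ)) = (z0 + (s : ℂ)) * Bn 0 (z0 + (s : ℂ)) :=
    Bn_two (z0 + (s : ℂ))
  rw [e2]
  have e3 : star (Bn 0 (z0 + (s : ℂ))) * ((z0 + (s : ℂ)) * Bn 0 (z0 + (s : ℂ))) =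
      (z0 + (s : ℂ)) * (star (Bn 0 (z0 + (s : ℂ))) * Bn 0 (z0 + (s : ℂ))) := by ring
  rw [e3, e0]
  have e4 : (0 : ℕ) + 1 = 1 := rfl
  rw [e4, e1]

private lemma bd (n : ℕ) (z0 : ℂ) : ∃ C : ℝ, 0 < C ∧ ∀ s : ℝ, 0 ≤ s →
    ‖Bn n (z0 + (s : ℂ))‖ ≤ C * Real.exp (-s) := by
  obtain ⟨C, hC, h⟩ := Bn_bound n
  refine ⟨C * Real.exp (-z0.re + z0.im ^ 2 / 2), by positivity, fun s _ => ?_⟩
  refine (h (z0 + (s : ℂ))).trans (le_of_eq ?_)
  rw [mul_assoc, ← Real.exp_add]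
  congr 2
  simp
  ring

private lemma contB (n : ℕ) (z0 : ℂ) : Continuous fun s : ℝ => Bn n (z0 + (s : ℂ)) :=
  continuous_iff_continuousAt.2 fun s => (shift_deriv n z0 s).continuousAt

private lemma gg_cont (z0 : ℂ) : Continuous (gg z0) := by
  unfold gg
  have h0 := contB 0 z0
  have h1 := contB 1 z0
  fun_prop

/-- squares are at most a multiple of `exp (-2 s)`. -/
private lemma bd2 (n : ℕ) (z0 : ℂ) : ∃ C : ℝ, 0 < C ∧ ∀ s : ℝ, 0 ≤ s →
    ‖Bn n (z0 + (s : ℂ))‖ ^ 2 ≤ C * Real.exp (-(2 * s)) := by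
  obtain ⟨C, hC, h⟩ := bd n z0
  refine ⟨C ^ 2, by positivity, fun s hs => ?_⟩
  have h1 := h s hs
  have h2 : ‖Bn n (z0 + (s : ℂ))‖ ^ 2 ≤ (C * Real.exp (-s)) ^ 2 :=
    pow_le_pow_left₀ (norm_nonneg _) h1 2
  refine h2.trans (le_of_eq ?_)
  rw [mul_pow, ← Real.exp_nat_mul]
  congr 2
  push_cast
  ring

private lemma s_exp (s : ℝ) (hs : 0 ≤ s) : s * Real.exp (-(2 * s)) ≤ Real.exp (-s) := by
  have h1 : s ≤ Real.exp s := by
    have := Real.add_one_le_exp s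
    linarith
  have h2 : Real.exp (-s) = Real.exp s * Real.exp (-(2 * s)) := by
    rw [← Real.exp_add]
    congr 1
    ring
  rw [h2]
  exact mul_le_mul_of_nonneg_right h1 (Real.exp_pos _).le

private lemma exp2_le (s : ℝ) (hs : 0 ≤ s) : Real.exp (-(2 * s)) ≤ Real.exp (-s) :=
  Real.exp_le_exp.2 (by linarith)

private lemma sq_int (n : ℕ) (z0 : ℂ) :
    IntegrableOn (fun s : ℝ => ‖Bn n (z0 + (s : ℂ))‖ ^ 2) (Set.Ioi (0 : ℝ)) := by
  obtain ⟨C, hC, h⟩ := bd2 n z0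
  have hi : IntegrableOn (fun s : ℝ => C * Real.exp (-s)) (Set.Ioi (0 : ℝ)) :=
    (integrableOn_exp_neg_Ioi 0).const_mul C
  refine Integrable.mono' hi ?_ ?_
  · have := contB n z0
    exact (by fun_prop : Continuous fun s : ℝ => ‖Bn n (z0 + (s : ℂ))‖ ^ 2).aestronglyMeasurable
  · refine (ae_restrict_iff' measurableSet_Ioi).2 (Eventually.of_forall fun s hs => ?_)
    have hs0 : 0 ≤ s := (Set.mem_Ioi.1 hs).le
    rw [Real.norm_of_nonneg (by positivity)]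
    refine (h s hs0).trans ?_
    exact mul_le_mul_of_nonneg_left (exp2_le s hs0) hC.le

private lemma ssq_int (n : ℕ) (z0 : ℂ) :
    IntegrableOn (fun s : ℝ => s * ‖Bn n (z0 + (s : ℂ))‖ ^ 2) (Set.Ioi (0 : ℝ)) := by
  obtain ⟨C, hC, h⟩ := bd2 n z0
  have hi : IntegrableOn (fun s : ℝ => C * Real.exp (-s)) (Set.Ioi (0 : ℝ)) :=
    (integrableOn_exp_neg_Ioi 0).const_mul C
  refine Integrable.mono' hi ?_ ?_
  · have := contB n z0
    exact (by fun_prop : Continuous fun s : ℝ =>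
      s * ‖Bn n (z0 + (s : ℂ))‖ ^ 2).aestronglyMeasurable
  · refine (ae_restrict_iff' measurableSet_Ioi).2 (Eventually.of_forall fun s hs => ?_)
    have hs0 : 0 ≤ s := (Set.mem_Ioi.1 hs).le
    rw [Real.norm_of_nonneg (by positivity)]
    calc s * ‖Bn n (z0 + (s : ℂ))‖ ^ 2 ≤ s * (C * Real.exp (-(2 * s))) :=
          mul_le_mul_of_nonneg_left (h s hs0) hs0
      _ = C * (s * Real.exp (-(2 * s))) := by ring
      _ ≤ C * Real.exp (-s) := mul_le_mul_of_nonneg_left (s_exp s hs0) hC.le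

private lemma gg_int (z0 : ℂ) : IntegrableOn (gg z0) (Set.Ioi (0 : ℝ)) := by
  have h1 : IntegrableOn (fun s : ℝ => ((‖Bn 1 (z0 + (s : ℂ))‖ ^ 2 : ℝ) : ℂ))
      (Set.Ioi (0 : ℝ)) := (sq_int 1 z0).ofReal
  have h2 : IntegrableOn (fun s : ℝ => z0 * ((‖Bn 0 (z0 + (s : ℂ))‖ ^ 2 : ℝ) : ℂ))
      (Set.Ioi (0 : ℝ)) := ((sq_int 0 z0).ofReal).const_mul z0
  have h3 : IntegrableOn (fun s : ℝ => ((s * ‖Bn 0 (z0 + (s : ℂ))‖ ^ 2 : ℝ) : ℂ))
      (Set.Ioi (0 : ℝ)) := (ssq_int 0 z0).ofReal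
  refine (h1.add (h2.add h3)).congr ?_
  refine Eventually.of_forall fun s => ?_
  simp only [Pi.add_apply, gg]
  push_cast
  ring

private lemma GG_tendsto (z0 : ℂ) : Tendsto (GG z0) atTop (𝓝 0) := by
  obtain ⟨C0, hC0, h0⟩ := bd 0 z0
  obtain ⟨C1, hC1, h1⟩ := bd 1 z0
  have hl : Tendsto (fun s : ℝ => C0 * C1 * Real.exp (-s)) atTop (𝓝 0) := by
    have := (Real.tendsto_exp_neg_atTop_nhds_zero).const_mul (C0 * C1)
    simpa using this
  refine squeeze_zero_norm' ?_ hl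
  filter_upwards [eventually_ge_atTop (0 : ℝ)] with s hs
  unfold GG
  rw [norm_mul, norm_star]
  have e1 : Real.exp (-s) ≤ 1 := Real.exp_le_one_iff.2 (by linarith)
  calc ‖Bn 0 (z0 + (s : ℂ))‖ * ‖Bn 1 (z0 + (s : ℂ))‖
      ≤ (C0 * Real.exp (-s)) * (C1 * Real.exp (-s)) :=
        mul_le_mul (h0 s hs) (h1 s hs) (norm_nonneg _) (by positivity)
    _ = C0 * C1 * Real.exp (-s) * Real.exp (-s) := by ring
    _ ≤ C0 * C1 * Real.exp (-s) * 1 := by
        exact mul_le_mul_of_nonneg_left e1 (by positivity)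
    _ = C0 * C1 * Real.exp (-s) := by ring

private lemma pos_int (z0 : ℂ) :
    0 < ∫ s in Set.Ioi (0 : ℝ), ‖Bn 0 (z0 + (s : ℂ))‖ ^ 2 := by
  obtain ⟨s0, hs0⟩ := Bn_far z0
  rw [setIntegral_pos_iff_support_of_nonneg_ae]
  · have hsub : Set.Ioi (max s0 0) ⊆
        (Function.support fun s : ℝ => ‖Bn 0 (z0 + (s : ℂ))‖ ^ 2) ∩ Set.Ioi (0 : ℝ) := by
      intro s hs
      have h1 := Set.mem_Ioi.1 hs
      refine ⟨?_, Set.mem_Ioi.2 (lt_of_le_of_lt (le_max_right _ _) h1)⟩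
      rw [Function.mem_support]
      have h2 := hs0 s (le_of_lt (lt_of_le_of_lt (le_max_left _ _) h1))
      have h3 : 0 < ‖Bn 0 (z0 + (s : ℂ))‖ := norm_pos_iff.2 h2
      positivity
    refine lt_of_lt_of_le ?_ (measure_mono hsub)
    simp
  · exact Eventually.of_forall fun s => by
      simp only [Pi.zero_apply]
      positivity
  · exact sq_int 0 z0

theorem energy (z0 : ℂ) (h : Bn 0 z0 = 0) : z0.im = 0 ∧ z0.re < 0 := by
  have hI : ∫ s in Set.Ioi (0 : ℝ), gg z0 s = 0 := by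
    have h1 := integral_Ioi_of_hasDerivAt_of_tendsto' (a := 0) (f := GG z0) (f' := gg z0)
      (fun x _ => GG_deriv z0 x) (gg_int z0) (GG_tendsto z0)
    rw [h1]
    simp [GG, h]
  have hpos := pos_int z0
  have hre : ∀ s : ℝ, (gg z0 s).re =
      ‖Bn 1 (z0 + (s : ℂ))‖ ^ 2 + (z0.re + s) * ‖Bn 0 (z0 + (s : ℂ))‖ ^ 2 := by
    intro s
    unfold gg
    rw [Complex.add_re, Complex.ofReal_re, Complex.re_mul_ofReal, Complex.add_re,
      Complex.ofReal_re]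
  have him : ∀ s : ℝ, (gg z0 s).im = z0.im * ‖Bn 0 (z0 + (s : ℂ))‖ ^ 2 := by
    intro s
    unfold gg
    rw [Complex.add_im, Complex.ofReal_im, Complex.im_mul_ofReal, Complex.add_im,
      Complex.ofReal_im]
    ring
  have hIim : ∫ s in Set.Ioi (0 : ℝ), (gg z0 s).im = 0 := by
    have h1 := integral_im (gg_int z0)
    simp only [RCLike.im_eq_complex_im] at h1
    rw [h1, hI]
    simp
  have hIre : ∫ s in Set.Ioi (0 : ℝ), (gg z0 s).re = 0 := by
    have h1 := integral_re (gg_int z0)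
    simp only [RCLike.re_eq_complex_re] at h1
    rw [h1, hI]
    simp
  refine ⟨?_, ?_⟩
  · have h1 : ∫ s in Set.Ioi (0 : ℝ), z0.im * ‖Bn 0 (z0 + (s : ℂ))‖ ^ 2 = 0 := by
      refine Eq.trans ?_ hIim
      exact integral_congr_ae (Eventually.of_forall fun s => (him s).symm)
    rw [integral_const_mul] at h1
    rcases mul_eq_zero.1 h1 with h2 | h2
    · exact h2
    · exact absurd h2 hpos.ne'
  · by_contra hneg
    have hneg' : 0 ≤ z0.re := not_lt.1 hneg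
    have h1 : ∫ s in Set.Ioi (0 : ℝ), ‖Bn 0 (z0 + (s : ℂ))‖ ^ 2 * s ≤
        ∫ s in Set.Ioi (0 : ℝ), (gg z0 s).re := by
      refine setIntegral_mono_on ?_ ?_ measurableSet_Ioi ?_
      · refine (ssq_int 0 z0).congr (Eventually.of_forall fun s => ?_)
        simp only
        ring
      · exact (gg_int z0).re
      · intro s hs
        have hs0 : 0 < s := Set.mem_Ioi.1 hs
        rw [hre s]
        have e1 : 0 ≤ ‖Bn 1 (z0 + (s : ℂ))‖ ^ 2 := by positivity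
        have e2 : 0 ≤ z0.re * ‖Bn 0 (z0 + (s : ℂ))‖ ^ 2 := by positivity
        nlinarith
    rw [hIre] at h1
    have h2 : 0 < ∫ s in Set.Ioi (0 : ℝ), ‖Bn 0 (z0 + (s : ℂ))‖ ^ 2 * s := by
      obtain ⟨s0, hs0⟩ := Bn_far z0
      rw [setIntegral_pos_iff_support_of_nonneg_ae]
      · have hsub : Set.Ioi (max s0 0) ⊆
            (Function.support fun s : ℝ => ‖Bn 0 (z0 + (s : ℂ))‖ ^ 2 * s) ∩ Set.Ioi (0 : ℝ) := by
          intro s hs
          have h1 := Set.mem_Ioi.1 hs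
          have h0 : 0 < s := lt_of_le_of_lt (le_max_right _ _) h1
          refine ⟨?_, Set.mem_Ioi.2 h0⟩
          rw [Function.mem_support]
          have h2 := hs0 s (le_of_lt (lt_of_le_of_lt (le_max_left _ _) h1))
          have h3 : 0 < ‖Bn 0 (z0 + (s : ℂ))‖ := norm_pos_iff.2 h2
          positivity
        refine lt_of_lt_of_le ?_ (measure_mono hsub)
        simp
      · refine (ae_restrict_iff' measurableSet_Ioi).2 (Eventually.of_forall fun s hs => ?_)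
        have hs0 : 0 < s := Set.mem_Ioi.1 hs
        simp only [Pi.zero_apply]
        positivity
      · refine (ssq_int 0 z0).congr (Eventually.of_forall fun s => ?_)
        simp only
        ring
    linarith

end Pool.Agent.LibFR89
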