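import Mathlib
import Pool.Agent.LibFR89.Defs

/-!
# Row A4 (EASY): conjugation

`conj` of the integrand at `s` is the integrand for `conj z` at `- s`
(`conj (i (s + i)) = i (-s + i)`, `conj (i ((s+i)^3/3 + z (s+i))) = i ((-s+i)^3/3 + conj z (-s+i))`);
`integral_conj`, `integral_neg_eq_self` (substitution `s ↦ -s`).  The same for `Af`; for `yf` use
`Complex.log_conj` (`w.arg ≠ π` as `0 < Re w`).
-/

set_option autoImplicit false

namespace Pool.Agent.LibFR89

open MeasureTheory Filter Topology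

theorem Bn_conj (n : ℕ) (z : ℂ) :
    Bn n ((starRingEnd ℂ) z) = (starRingEnd ℂ) (Bn n z) := by
  unfold Bn
  rw [← integral_conj, ← integral_neg_eq_self]
  congr 1
  funext s
  have h3 : (starRingEnd ℂ) (3 : ℂ) = 3 := Complex.conj_ofNat 3
  rw [ex, ex, map_mul, map_pow, ← Complex.exp_conj]
  simp only [map_mul, map_add, map_div₀, map_pow, Complex.conj_I, Complex.conj_ofReal, h3]
  push_cast
  congr 1
  · congr 1
    ring
  · congr 1
    ring

theorem Bn_real (n : ℕ) (x : ℝ) : (Bn n (x : ℂ)).im = 0 := by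
  have h := Bn_conj n (x : ℂ)
  rw [Complex.conj_ofReal] at h
  exact Complex.conj_eq_iff_im.1 h.symm

theorem Af_conj (w : ℂ) : Af ((starRingEnd ℂ) w) = (starRingEnd ℂ) (Af w) := by
  unfold Af
  rw [← integral_conj, ← integral_neg_eq_self]
  congr 1
  funext s
  have h3 : (starRingEnd ℂ) (3 : ℂ) = 3 := Complex.conj_ofNat 3
  rw [← Complex.exp_conj]
  simp only [map_mul, map_add, map_neg, map_div₀, map_pow, Complex.conj_I, Complex.conj_ofReal, h3]
  push_cast
  congr 1
  ring

theorem yf_conj (w : ℂ) (hw : 0 < w.re) : yf ((starRingEnd ℂ) w) = (starRingEnd ℂ) (yf w) := by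
  have h1 : w.arg ≠ Real.pi := by
    intro h
    rw [Complex.arg_eq_pi_iff] at h
    linarith [h.1]
  have h2 : (starRingEnd ℂ) (2 : ℂ) = 2 := Complex.conj_ofNat 2
  unfold yf
  rw [map_mul, Af_conj, ← Complex.exp_conj, Complex.log_conj _ h1]
  simp only [map_div₀, map_sub, Complex.conj_ofReal, h2]

end Pool.Agent.LibFR89
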