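import Mathlib
import Pool.Agent.LibFR89.Defs
import Pool.Agent.LibFR89.A2
import Pool.Agent.LibFR89.A3
import Pool.Agent.LibFR89.A4
import Pool.Agent.LibFR89.A13
import Pool.Agent.LibFR89.A14

/-!
# Row A15 (MEDIUM): the Airy function is positive on `[0, ∞)` and has a real zero

`b x = (Bn 0 x).re`, real valued (`Bn_real`), derivative `b1 x = (Bn 1 x).re`, `b1' x = x b x`.
No zero on `[0, ∞)` (row A14) and positive far out (`Bn_pos_far`), so positive by the intermediate
value theorem.  Existence of a zero: suppose `b > 0` on `(-∞, 0]` (no zero there, `b 0 > 0`, IVT).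
Then `b1' = x b ≤ 0` on `(-∞, 0]`, `b1` is antitone there.  Case 1: `b1 x0 > 0` for some `x0 ≤ 0`:
then `b1 ≥ b1 x0` to the left of `x0`, so `b x ≤ b x0 - b1 x0 (x0 - x) → -∞`, contradiction.
Case 2: `b1 ≤ 0` on `(-∞, 0]`: then `b ≥ b 0` there, so `b1' x ≤ x b 0` and
`b1 x ≥ b1 0 + b 0 x^2/2`, positive for very negative `x`, contradiction.
-/

set_option autoImplicit false

namespace Pool.Agent.LibFR89

open MeasureTheory Filter Topology

private theorem b_deriv (x : ℝ) :
    HasDerivAt (fun x : ℝ => (Bn 0 (x : ℂ)).re) (Bn 1 (x : ℂ)).re x :=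
  (Bn_hasDerivAt 0 (x : ℂ)).real_of_complex

private theorem b1_deriv (x : ℝ) :
    HasDerivAt (fun x : ℝ => (Bn 1 (x : ℂ)).re) (x * (Bn 0 (x : ℂ)).re) x := by
  have h := (Bn_hasDerivAt 1 (x : ℂ)).real_of_complex
  rw [show (1 + 1 : ℕ) = 2 from rfl, Bn_two] at h
  rwa [Complex.re_ofReal_mul] at h

private theorem Bn_eq_zero (x : ℝ) (h : (Bn 0 (x : ℂ)).re = 0) : Bn 0 (x : ℂ) = 0 :=
  Complex.ext h (Bn_real 0 x)

private theorem b_cont : Continuous (fun x : ℝ => (Bn 0 (x : ℂ)).re) :=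
  continuous_iff_continuousAt.2 fun x => (b_deriv x).continuousAt

theorem Bn_pos_nonneg (x : ℝ) (hx : 0 ≤ x) : 0 < (Bn 0 (x : ℂ)).re := by
  obtain ⟨X, hX⟩ := Bn_pos_far
  by_contra hcon
  rw [not_lt] at hcon
  have h1 := hX (max X x) (le_max_left _ _)
  have h2 : (0 : ℝ) ∈ Set.Icc (Bn 0 (x : ℂ)).re (Bn 0 ((max X x : ℝ) : ℂ)).re := ⟨hcon, h1.le⟩
  obtain ⟨y, hy, hy0⟩ := intermediate_value_Icc (le_max_right X x) b_cont.continuousOn h2
  have h3 := energy (y : ℂ) (Bn_eq_zero y hy0)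
  rw [Complex.ofReal_re] at h3
  linarith [h3.2, hy.1]

theorem exists_zero : ∃ x : ℝ, x < 0 ∧ Bn 0 (x : ℂ) = 0 := by
  by_contra hcon
  push Not at hcon
  have hpos0 := Bn_pos_nonneg 0 le_rfl
  have hpos : ∀ x : ℝ, x ≤ 0 → 0 < (Bn 0 (x : ℂ)).re := by
    intro x hx
    by_contra hc
    rw [not_lt] at hc
    have h2 : (0 : ℝ) ∈ Set.Icc (Bn 0 (x : ℂ)).re (Bn 0 ((0 : ℝ) : ℂ)).re := ⟨hc, hpos0.le⟩
    obtain ⟨y, hy, hy0⟩ := intermediate_value_Icc hx b_cont.continuousOn h2
    have hy1 := Bn_eq_zero y hy0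
    rcases lt_or_eq_of_le hy.2 with h | h
    · exact hcon y h hy1
    · rw [h] at hy0
      simp only at hy0
      linarith
  -- `b1` is antitone on `Iic 0`
  have hanti : AntitoneOn (fun x : ℝ => (Bn 1 (x : ℂ)).re) (Set.Iic 0) := by
    refine antitoneOn_of_deriv_nonpos (convex_Iic 0) ?_ ?_ ?_
    · exact fun x _ => (b1_deriv x).continuousAt.continuousWithinAt
    · exact fun x _ => (b1_deriv x).differentiableAt.differentiableWithinAt
    · intro x hx
      rw [interior_Iic] at hx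
      rw [(b1_deriv x).deriv]
      exact mul_nonpos_of_nonpos_of_nonneg (le_of_lt hx) (hpos x (le_of_lt hx)).le
  by_cases hcase : ∃ x0 : ℝ, x0 ≤ 0 ∧ 0 < (Bn 1 (x0 : ℂ)).re
  · obtain ⟨x0, hx0, hb1⟩ := hcase
    set s := (Bn 1 (x0 : ℂ)).re with hs
    have hmono : MonotoneOn (fun x : ℝ => (Bn 0 (x : ℂ)).re - s * x) (Set.Iic x0) := by
      have hd : ∀ x : ℝ, HasDerivAt (fun x : ℝ => (Bn 0 (x : ℂ)).re - s * x)
          ((Bn 1 (x : ℂ)).re - s * 1) x := fun x =>
        (b_deriv x).sub ((hasDerivAt_id x).const_mul s)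
      refine monotoneOn_of_deriv_nonneg (convex_Iic x0) ?_ ?_ ?_
      · exact fun x _ => (hd x).continuousAt.continuousWithinAt
      · exact fun x _ => (hd x).differentiableAt.differentiableWithinAt
      · intro x hx
        rw [interior_Iic] at hx
        rw [(hd x).deriv]
        have h1 := hanti (show x ∈ Set.Iic (0 : ℝ) from (le_of_lt hx).trans hx0)
          (show x0 ∈ Set.Iic (0 : ℝ) from hx0) (le_of_lt hx)
        simp only at h1
        linarith
    have hb0 := hpos x0 hx0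
    set B := (Bn 0 (x0 : ℂ)).re with hB
    have hx1 : x0 - B / s - 1 ≤ x0 := by
      have : 0 ≤ B / s := div_nonneg hb0.le hb1.le
      linarith
    have h1 := hmono (show x0 - B / s - 1 ∈ Set.Iic x0 from hx1) (Set.mem_Iic.2 (le_refl x0)) hx1
    simp only at h1
    have h2 := hpos (x0 - B / s - 1) (hx1.trans hx0)
    have h3 : s * (B / s) = B := mul_div_cancel₀ B hb1.ne'
    nlinarith
  · push Not at hcase
    have hbanti : AntitoneOn (fun x : ℝ => (Bn 0 (x : ℂ)).re) (Set.Iic 0) := by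
      refine antitoneOn_of_deriv_nonpos (convex_Iic 0) ?_ ?_ ?_
      · exact fun x _ => (b_deriv x).continuousAt.continuousWithinAt
      · exact fun x _ => (b_deriv x).differentiableAt.differentiableWithinAt
      · intro x hx
        rw [interior_Iic] at hx
        rw [(b_deriv x).deriv]
        exact hcase x (le_of_lt hx)
    set B := (Bn 0 ((0 : ℝ) : ℂ)).re with hB
    have hanti2 : AntitoneOn (fun x : ℝ => (Bn 1 (x : ℂ)).re - B / 2 * x ^ 2) (Set.Iic 0) := by
      have hd : ∀ x : ℝ, HasDerivAt (fun x : ℝ => (Bn 1 (x : ℂ)).re - B / 2 * x ^ 2)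
          (x * (Bn 0 (x : ℂ)).re - B / 2 * (((2 : ℕ) : ℝ) * x ^ (2 - 1))) x := fun x =>
        (b1_deriv x).sub ((hasDerivAt_pow 2 x).const_mul (B / 2))
      refine antitoneOn_of_deriv_nonpos (convex_Iic 0) ?_ ?_ ?_
      · exact fun x _ => (hd x).continuousAt.continuousWithinAt
      · exact fun x _ => (hd x).differentiableAt.differentiableWithinAt
      · intro x hx
        rw [interior_Iic] at hx
        rw [(hd x).deriv]
        have h1 := hbanti (Set.mem_Iic.2 (le_of_lt hx))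
          (Set.mem_Iic.2 (le_refl (0 : ℝ))) (le_of_lt hx)
        simp only at h1
        rw [← hB] at h1
        have h2 : x * ((Bn 0 (x : ℂ)).re - B) ≤ 0 :=
          mul_nonpos_of_nonpos_of_nonneg (le_of_lt hx) (by linarith)
        norm_num
        linarith
    set c := |(Bn 1 ((0 : ℝ) : ℂ)).re| with hc
    set x := -(2 * (c + 1) / B + 1) with hx
    have hc0 : 0 ≤ c := abs_nonneg _
    have h0 : 0 ≤ 2 * (c + 1) / B := div_nonneg (by linarith) hpos0.le
    have hx0 : x ≤ 0 := by rw [hx]; linarith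
    have h1 := hanti2 (show x ∈ Set.Iic (0 : ℝ) from hx0) (Set.mem_Iic.2 (le_refl (0 : ℝ))) hx0
    simp only at h1
    have h2 := hcase x hx0
    have h3 : -c ≤ (Bn 1 ((0 : ℝ) : ℂ)).re := neg_abs_le _
    have h4 : B * (2 * (c + 1) / B) = 2 * (c + 1) := mul_div_cancel₀ _ hpos0.ne'
    have h5 : B / 2 * x ^ 2 ≥ c + 1 := by
      rw [hx]
      have h6 : (-(2 * (c + 1) / B + 1)) ^ 2 ≥ 2 * (c + 1) / B := by nlinarith
      have h7 : B / 2 * (-(2 * (c + 1) / B + 1)) ^ 2 ≥ B / 2 * (2 * (c + 1) / B) :=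
        mul_le_mul_of_nonneg_left h6 (by linarith)
      linarith
    linarith

end Pool.Agent.LibFR89
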