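import Mathlib
import Pool.Agent.LibFR89.Defs

/-!
# Row A16 (MEDIUM, ONLY MATHLIB): uniqueness for the Airy equation

`y` is entire.  By induction all iterated derivatives of `y` at `z0` vanish (from `y'' = z y`:
Leibniz, or: the order of vanishing).  Or: for fixed `z` the real curve `t ↦ (y, y1)(z0 + t (z-z0))`
solves a linear system with bounded coefficients on `[0,1]` and zero initial value
(`ODE_solution_unique_of_mem_Icc` or Gronwall).  Or: `AnalyticAt` order: if `y` is not locally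
zero it has a finite order `m ≥ 2` at `z0`, then `y''` has order `m - 2` but `z y` order `≥ m`.
-/

set_option autoImplicit false

namespace Pool.Agent.LibFR89

open MeasureTheory Filter Topology

theorem ode_unique (y y1 : ℂ → ℂ) (h1 : ∀ z, HasDerivAt y (y1 z) z)
    (h2 : ∀ z, HasDerivAt y1 (z * y z) z) (z0 : ℂ) (h3 : y z0 = 0) (h4 : y1 z0 = 0) :
    ∀ z, y z = 0 := by
  intro z
  set F : ℝ → ℂ × ℂ := fun t => (y (z0 + (t : ℂ) * (z - z0)), y1 (z0 + (t : ℂ) * (z - z0))) with hF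
  set F' : ℝ → ℂ × ℂ := fun t => (y1 (z0 + (t : ℂ) * (z - z0)) * (z - z0),
    (z0 + (t : ℂ) * (z - z0)) * y (z0 + (t : ℂ) * (z - z0)) * (z - z0)) with hF'
  have hg : ∀ t : ℝ, HasDerivAt (fun t : ℝ => z0 + (t : ℂ) * (z - z0)) (z - z0) t := by
    intro t
    have h := ((Complex.ofRealCLM.hasDerivAt (x := t)).mul_const (z - z0)).const_add z0
    simpa using h
  have hd : ∀ t : ℝ, HasDerivAt F (F' t) t := by
    intro t
    exact ((h1 _).comp t (hg t)).prodMk ((h2 _).comp t (hg t))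
  have hb : ∀ t ∈ Set.Ico (0 : ℝ) 1, ‖F' t‖ ≤ ((1 + ‖z0‖ + ‖z - z0‖) * ‖z - z0‖) * ‖F t‖ := by
    intro t ht
    have hn : ‖z0 + (t : ℂ) * (z - z0)‖ ≤ ‖z0‖ + ‖z - z0‖ := by
      refine (norm_add_le _ _).trans ?_
      rw [norm_mul, Complex.norm_real, Real.norm_eq_abs, abs_of_nonneg ht.1]
      have := mul_le_of_le_one_left (norm_nonneg (z - z0)) ht.2.le
      linarith
    have ha : ‖y (z0 + (t : ℂ) * (z - z0))‖ ≤ ‖F t‖ := norm_fst_le (F t)
    have hb : ‖y1 (z0 + (t : ℂ) * (z - z0))‖ ≤ ‖F t‖ := norm_snd_le (F t)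
    have hz := norm_nonneg (z - z0)
    have hz0 := norm_nonneg z0
    have hFn := norm_nonneg (F t)
    rw [Prod.norm_def]
    apply max_le
    · show ‖y1 (z0 + (t : ℂ) * (z - z0)) * (z - z0)‖ ≤ _
      rw [norm_mul]
      calc ‖y1 (z0 + (t : ℂ) * (z - z0))‖ * ‖z - z0‖ ≤ ‖F t‖ * ‖z - z0‖ := mul_le_mul_of_nonneg_right hb hz
        _ = (1 * ‖z - z0‖) * ‖F t‖ := by ring
        _ ≤ ((1 + ‖z0‖ + ‖z - z0‖) * ‖z - z0‖) * ‖F t‖ := by
          apply mul_le_mul_of_nonneg_right _ hFn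
          apply mul_le_mul_of_nonneg_right _ hz
          linarith
    · show ‖(z0 + (t : ℂ) * (z - z0)) * y (z0 + (t : ℂ) * (z - z0)) * (z - z0)‖ ≤ _
      rw [norm_mul, norm_mul]
      calc ‖z0 + (t : ℂ) * (z - z0)‖ * ‖y (z0 + (t : ℂ) * (z - z0))‖ * ‖z - z0‖
          ≤ (‖z0‖ + ‖z - z0‖) * ‖F t‖ * ‖z - z0‖ := by
            apply mul_le_mul_of_nonneg_right _ hz
            exact mul_le_mul hn ha (norm_nonneg _) (by positivity)
        _ = ((‖z0‖ + ‖z - z0‖) * ‖z - z0‖) * ‖F t‖ := by ring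
        _ ≤ ((1 + ‖z0‖ + ‖z - z0‖) * ‖z - z0‖) * ‖F t‖ := by
          apply mul_le_mul_of_nonneg_right _ hFn
          apply mul_le_mul_of_nonneg_right _ hz
          linarith
  have h := eq_zero_of_abs_deriv_le_mul_abs_self_of_eq_zero_right (f := F) (f' := F') (a := 0) (b := 1)
    (fun t _ => (hd t).continuousAt.continuousWithinAt) (fun t _ => (hd t).hasDerivWithinAt)
    (by simp [hF, h3, h4]) hb 1 ⟨zero_le_one, le_refl _⟩
  have h5 : y (z0 + ((1 : ℝ) : ℂ) * (z - z0)) = 0 := congrArg Prod.fst h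
  have h6 : z0 + ((1 : ℝ) : ℂ) * (z - z0) = z := by push_cast; ring
  rwa [h6] at h5

end Pool.Agent.LibFR89
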