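import Mathlib
import Pool.Agent.LibFR89.Defs
import Pool.Agent.LibFR89.A2
import Pool.Agent.LibFR89.A3
import Pool.Agent.LibFR89.A4
import Pool.Agent.LibFR89.A14
import Pool.Agent.LibFR89.A15
import Pool.Agent.LibFR89.A16

/-!
# Row A17 (MEDIUM/HARD): the first zero of the Airy function

`Z = {x : ℝ | Bn 0 x = 0}` is closed, nonempty (`exists_zero`), bounded above by `0` (row A14); let
`-a = sSup Z ∈ Z`, `0 < a`.  `g = dslope (Bn 0) (-a)` (entire, `Bn 0 z = (z + a) g z` because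
`Bn 0 (-a) = 0`; `Complex.differentiableOn_dslope` / analytic `dslope`).  `g (-a) = Bn 1 (-a) ≠ 0`
by `ode_unique` (otherwise `Bn 0 = 0` everywhere, against `Bn_pos_nonneg`).  `g` is real on the real
axis and `> 0` on `(-a, ∞)` since `Bn 0 > 0` there (no zero, positive at `0`, IVT); hence
`g (-a) ≥ 0`, so `> 0`, and by continuity `g > 0` on `[-T, -a]` for some `T > a`.  A zero of `g` is
a zero of `Bn 0`, so real and negative (row A14), and `≥ -T` is impossible.
-/

set_option autoImplicit false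

namespace Pool.Agent.LibFR89

open MeasureTheory Filter Topology

private theorem Bn0_diff : Differentiable ℂ (Bn 0) := fun z => (Bn_hasDerivAt 0 z).differentiableAt

private theorem b_cont : Continuous (fun x : ℝ => (Bn 0 (x : ℂ)).re) :=
  Complex.continuous_re.comp (Bn0_diff.continuous.comp Complex.continuous_ofReal)

private theorem Bn_zero_iff (x : ℝ) : Bn 0 (x : ℂ) = 0 ↔ (Bn 0 (x : ℂ)).re = 0 := by
  constructor
  · intro h; rw [h, Complex.zero_re]
  · intro h
    apply Complex.ext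
    · rw [h, Complex.zero_re]
    · rw [Bn_real, Complex.zero_im]

theorem zero_structure : ∃ (a T : ℝ) (g : ℂ → ℂ), 0 < a ∧ a < T ∧ Differentiable ℂ g ∧
    (∀ z, Bn 0 z = (z + a) * g z) ∧ (∀ z, g z = 0 → z.im = 0 ∧ z.re < -T) ∧
    (∀ x : ℝ, -T ≤ x → (g (x : ℂ)).im = 0 ∧ 0 < (g (x : ℂ)).re) := by
  obtain ⟨Z, hZ⟩ : ∃ Z : Set ℝ, Z = {x : ℝ | Bn 0 (x : ℂ) = 0} := ⟨_, rfl⟩
  have hZc : IsClosed Z := by
    rw [hZ]
    exact isClosed_eq (Bn0_diff.continuous.comp Complex.continuous_ofReal) continuous_const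
  have hZn : Z.Nonempty := by
    obtain ⟨x, _, hx⟩ := exists_zero
    exact ⟨x, by rw [hZ]; exact hx⟩
  have hneg : ∀ x ∈ Z, x < 0 := by
    intro x hx
    rw [hZ] at hx
    have := (energy (x : ℂ) hx).2
    simpa using this
  have hZb : BddAbove Z := ⟨0, fun x hx => (hneg x hx).le⟩
  obtain ⟨m, hm⟩ : ∃ m, m = sSup Z := ⟨_, rfl⟩
  have hmZ : m ∈ Z := by rw [hm]; exact hZc.csSup_mem hZn hZb
  have hm0 : m < 0 := hneg m hmZ
  have hle : ∀ x ∈ Z, x ≤ m := fun x hx => by rw [hm]; exact le_csSup hZb hx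
  have hBm : Bn 0 (m : ℂ) = 0 := by rw [hZ] at hmZ; exact hmZ
  have hpos : ∀ x : ℝ, m < x → 0 < (Bn 0 (x : ℂ)).re := by
    intro x hx
    rcases le_or_gt 0 x with h0 | h0
    · exact Bn_pos_nonneg x h0
    · by_contra hcon
      push Not at hcon
      have h1 : (0 : ℝ) ∈ Set.Icc ((Bn 0 (x : ℂ)).re) ((Bn 0 ((0 : ℝ) : ℂ)).re) :=
        ⟨hcon, (Bn_pos_nonneg 0 le_rfl).le⟩
      obtain ⟨y, hy, hy0⟩ := intermediate_value_Icc h0.le b_cont.continuousOn h1
      have hyZ : y ∈ Z := by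
        rw [hZ]
        exact (Bn_zero_iff y).2 hy0
      have := hle y hyZ
      linarith [hy.1]
  obtain ⟨g, hg⟩ : ∃ g, g = dslope (Bn 0) (m : ℂ) := ⟨_, rfl⟩
  have hgd : Differentiable ℂ g := by
    rw [← differentiableOn_univ, hg]
    exact (Complex.differentiableOn_dslope Filter.univ_mem).2 Bn0_diff.differentiableOn
  have hBg : ∀ z, Bn 0 z = (z - m) * g z := by
    intro z
    have h := sub_smul_dslope (Bn 0) (m : ℂ) z
    rw [hBm, sub_zero, smul_eq_mul] at h
    rw [hg, h]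
  have hgm : g m = Bn 1 m := by
    rw [hg, dslope_same]
    exact (Bn_hasDerivAt 0 (m : ℂ)).deriv
  have hB1 : Bn 1 (m : ℂ) ≠ 0 := by
    intro h
    have h2 := ode_unique (Bn 0) (Bn 1) (fun z => Bn_hasDerivAt 0 z)
      (fun z => by
        have := Bn_hasDerivAt 1 z
        rw [Bn_two] at this
        exact this) (m : ℂ) hBm h ((0 : ℝ) : ℂ)
    have h3 := Bn_pos_nonneg 0 le_rfl
    rw [h2, Complex.zero_re] at h3
    exact lt_irrefl _ h3
  have hgreal : ∀ x : ℝ, (g (x : ℂ)).im = 0 := by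
    intro x
    rcases eq_or_ne x m with rfl | hne
    · rw [hgm, Bn_real]
    · have h1 := hBg (x : ℂ)
      have h2 : ((x : ℂ) - m) ≠ 0 := by
        rw [← Complex.ofReal_sub]
        exact_mod_cast sub_ne_zero.2 hne
      have h3 : g (x : ℂ) = Bn 0 (x : ℂ) / ((x : ℂ) - m) := by
        rw [h1]; field_simp
      rw [h3, ← Complex.ofReal_sub, Complex.div_ofReal_im, Bn_real, zero_div]
  have hgpos : ∀ x : ℝ, m < x → 0 < (g (x : ℂ)).re := by
    intro x hx
    have h1 := hBg (x : ℂ)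
    have h2 := hpos x hx
    rw [h1, ← Complex.ofReal_sub, Complex.re_ofReal_mul] at h2
    exact (mul_pos_iff_of_pos_left (sub_pos.2 hx)).1 h2
  have hgc : Continuous (fun x : ℝ => (g (x : ℂ)).re) :=
    Complex.continuous_re.comp (hgd.continuous.comp Complex.continuous_ofReal)
  have hgm0 : 0 < (g (m : ℂ)).re := by
    have h1 : 0 ≤ (g (m : ℂ)).re := by
      have h2 : Tendsto (fun x : ℝ => (g (x : ℂ)).re) (𝓝[>] m) (𝓝 (g (m : ℂ)).re) :=
        (hgc.tendsto m).mono_left nhdsWithin_le_nhds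
      refine ge_of_tendsto h2 ?_
      filter_upwards [self_mem_nhdsWithin] with x hx
      exact (hgpos x hx).le
    refine lt_of_le_of_ne h1 ?_
    intro h2
    apply hB1
    rw [← hgm]
    apply Complex.ext
    · rw [← h2, Complex.zero_re]
    · rw [hgreal, Complex.zero_im]
  have hev : ∀ᶠ x in 𝓝 m, 0 < (g ((x : ℝ) : ℂ)).re := (hgc.tendsto m).eventually_const_lt hgm0
  obtain ⟨δ, hδ, hball⟩ := Metric.eventually_nhds_iff.1 hev
  have hall : ∀ x : ℝ, m - δ / 2 ≤ x → 0 < (g (x : ℂ)).re := by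
    intro x hx
    rcases lt_or_ge m x with h | h
    · exact hgpos x h
    · apply hball
      rw [Real.dist_eq, abs_lt]
      constructor <;> linarith
  refine ⟨-m, -m + δ / 2, g, by linarith, by linarith, hgd, ?_, ?_, ?_⟩
  · intro z
    rw [hBg z, Complex.ofReal_neg]
    ring
  · intro z hz
    have h1 : Bn 0 z = 0 := by rw [hBg z, hz, mul_zero]
    obtain ⟨h2, h3⟩ := energy z h1
    refine ⟨h2, ?_⟩
    by_contra hcon
    push Not at hcon
    have h4 : z = ((z.re : ℝ) : ℂ) := by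
      apply Complex.ext
      · rw [Complex.ofReal_re]
      · rw [h2, Complex.ofReal_im]
    have h5 := hall z.re (by linarith)
    rw [← h4, hz, Complex.zero_re] at h5
    exact lt_irrefl _ h5
  · intro x hx
    exact ⟨hgreal x, hall x (by linarith)⟩

end Pool.Agent.LibFR89
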