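import Mathlib
import Pool.Agent.LibFR89.Defs

/-!
# Row A18 (MEDIUM, ONLY MATHLIB): primitives and logarithms on the right half plane

Primitive: Cayley map `φ ζ = (1 + ζ)/(1 - ζ)` from the unit disc onto the right half plane, inverse
`ψ z = (z - 1)/(z + 1)`.  `h ζ = f (φ ζ) * φ' ζ` is holomorphic on the disc and has a primitive `H`
there (`DifferentiableOn.isExactOn_ball` or whatever Mathlib calls primitives on discs); `Φ = H ∘ ψ`
(chain rule, `φ' (ψ z) ψ' z = 1`).
Logarithm: primitive `Φ` of `f'/f` normalised by `Φ 1 = Real.log (f 1).re`; then `f * exp (-Φ)` has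
derivative `0` on the (convex, open) half plane and value `1` at `1`.  Realness: the function
`conj (G (conj z))` is also a logarithm of `conj (f (conj z)) = f z` (the two sides are holomorphic
and agree on the positive axis: identity theorem), with the same value at `1`, so it equals `G`.
Simpler for realness: along the positive axis `G' = f'/f` is real because `f` is real there, and
`G 1` is real.
-/

set_option autoImplicit false

namespace Pool.Agent.LibFR89

open MeasureTheory Filter Topology

theorem halfplane_primitive (f : ℂ → ℂ) (hf : DifferentiableOn ℂ f {z : ℂ | 0 < z.re}) :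
    ∃ Φ : ℂ → ℂ, ∀ z : ℂ, 0 < z.re → HasDerivAt Φ (f z) z := by
  have hopen : IsOpen {z : ℂ | 0 < z.re} := isOpen_lt continuous_const Complex.continuous_re
  set φ : ℂ → ℂ := fun ζ => (1 + ζ) / (1 - ζ) with hφ
  set ψ : ℂ → ℂ := fun z => (z - 1) / (z + 1) with hψ
  have hne : ∀ ζ ∈ Metric.ball (0 : ℂ) 1, (1 - ζ) ≠ 0 := by
    intro ζ hζ h
    rw [Metric.mem_ball, dist_zero_right] at hζ
    have : ζ = 1 := (sub_eq_zero.1 h).symm
    rw [this, norm_one] at hζ
    exact lt_irrefl _ hζ
  have hφre : ∀ ζ ∈ Metric.ball (0 : ℂ) 1, 0 < (φ ζ).re := by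
    intro ζ hζ
    have h1 : 0 < Complex.normSq (1 - ζ) := Complex.normSq_pos.2 (hne ζ hζ)
    have h2 : (φ ζ).re = (1 - Complex.normSq ζ) / Complex.normSq (1 - ζ) := by
      simp only [hφ, Complex.div_re, Complex.normSq_apply, Complex.add_re, Complex.sub_re, Complex.one_re,
        Complex.add_im, Complex.sub_im, Complex.one_im]
      ring
    rw [h2]
    apply div_pos _ h1
    rw [Metric.mem_ball, dist_zero_right] at hζ
    rw [Complex.normSq_eq_norm_sq]
    have := norm_nonneg ζ
    nlinarith
  have hψmem : ∀ z : ℂ, 0 < z.re → ψ z ∈ Metric.ball (0 : ℂ) 1 := by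
    intro z hz
    have h1 : (z + 1) ≠ 0 := by
      intro h
      have := congrArg Complex.re h
      simp at this
      linarith
    rw [Metric.mem_ball, dist_zero_right]
    simp only [hψ]
    rw [norm_div, div_lt_one (norm_pos_iff.2 h1)]
    have h2 : Complex.normSq (z - 1) < Complex.normSq (z + 1) := by
      simp only [Complex.normSq_apply, Complex.add_re, Complex.sub_re, Complex.one_re,
        Complex.add_im, Complex.sub_im, Complex.one_im]
      nlinarith
    rw [Complex.normSq_eq_norm_sq, Complex.normSq_eq_norm_sq] at h2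
    exact lt_of_pow_lt_pow_left₀ 2 (norm_nonneg _) h2
  have hφψ : ∀ z : ℂ, 0 < z.re → φ (ψ z) = z := by
    intro z hz
    have h1 : (z + 1) ≠ 0 := by
      intro h
      have := congrArg Complex.re h
      simp at this
      linarith
    simp only [hφ, hψ]
    have h2 : 1 - (z - 1) / (z + 1) = 2 / (z + 1) := by
      field_simp
      ring
    have h3 : 1 + (z - 1) / (z + 1) = 2 * z / (z + 1) := by
      field_simp
      ring
    rw [h2, h3]
    field_simp
  set h : ℂ → ℂ := fun ζ => f (φ ζ) * (2 / (1 - ζ) ^ 2) with hh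
  have hhd : DifferentiableOn ℂ h (Metric.ball (0 : ℂ) 1) := by
    intro ζ hζ
    have h1 : DifferentiableAt ℂ f (φ ζ) := (hf (φ ζ) (hφre ζ hζ)).differentiableAt (hopen.mem_nhds (hφre ζ hζ))
    have h2 : DifferentiableAt ℂ φ ζ := by
      simp only [hφ]
      exact DifferentiableAt.div (by fun_prop) (by fun_prop) (hne ζ hζ)
    have h3 : DifferentiableAt ℂ (fun ζ : ℂ => 2 / (1 - ζ) ^ 2) ζ :=
      DifferentiableAt.div (by fun_prop) (by fun_prop) (pow_ne_zero _ (hne ζ hζ))
    exact ((h1.comp ζ h2).mul h3).differentiableWithinAt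
  obtain ⟨H, hH⟩ := hhd.isExactOn_ball
  refine ⟨fun z => H (ψ z), fun z hz => ?_⟩
  have h1 : (z + 1) ≠ 0 := by
    intro h
    have := congrArg Complex.re h
    simp at this
    linarith
  have h2 : HasDerivAt ψ (2 / (z + 1) ^ 2) z := by
    have h3 := ((hasDerivAt_id z).sub_const 1).div ((hasDerivAt_id z).add_const 1) h1
    have h4 : (1 * (id z + 1) - (id z - 1) * 1) / (id z + 1) ^ 2 = 2 / (z + 1) ^ 2 := by
      simp only [id]
      ring
    rw [h4] at h3
    exact h3
  have h3 : HasDerivAt (fun z => H (ψ z)) (h (ψ z) * (2 / (z + 1) ^ 2)) z := (hH (ψ z) (hψmem z hz)).comp z h2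
  have h4 : h (ψ z) * (2 / (z + 1) ^ 2) = f z := by
    simp only [hh]
    rw [hφψ z hz]
    have h5 : 1 - ψ z = 2 / (z + 1) := by
      simp only [hψ]
      field_simp
      ring
    rw [h5]
    field_simp
  rw [h4] at h3
  exact h3

theorem halfplane_log (f : ℂ → ℂ) (hf : DifferentiableOn ℂ f {z : ℂ | 0 < z.re})
    (h0 : ∀ z : ℂ, 0 < z.re → f z ≠ 0)
    (hr : ∀ x : ℝ, 0 < x → (f (x : ℂ)).im = 0 ∧ 0 < (f (x : ℂ)).re) :
    ∃ G : ℂ → ℂ, DifferentiableOn ℂ G {z : ℂ | 0 < z.re} ∧
      (∀ z : ℂ, 0 < z.re → Complex.exp (G z) = f z) ∧ ∀ x : ℝ, 0 < x → (G (x : ℂ)).im = 0 := by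
  have hopen : IsOpen {z : ℂ | 0 < z.re} := isOpen_lt continuous_const Complex.continuous_re
  have hconv : Convex ℝ {z : ℂ | 0 < z.re} := convex_halfSpace_re_gt 0
  have hfd : ∀ z : ℂ, 0 < z.re → DifferentiableAt ℂ f z := fun z hz => (hf z hz).differentiableAt (hopen.mem_nhds hz)
  obtain ⟨Φ, hΦ⟩ := halfplane_primitive (fun z => deriv f z / f z)
    ((hf.deriv hopen).div hf fun z hz => h0 z hz)
  set G : ℂ → ℂ := fun z => Φ z - Φ 1 + (Real.log (f 1).re : ℂ) with hG
  have hGd : ∀ z : ℂ, 0 < z.re → HasDerivAt G (deriv f z / f z) z := by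
    intro z hz
    exact ((hΦ z hz).sub_const (Φ 1)).add_const _
  have h1re : (0 : ℝ) < (1 : ℂ).re := by simp
  have hexp : ∀ z : ℂ, 0 < z.re → f z * Complex.exp (-(G z)) = 1 := by
    set P : ℂ → ℂ := fun z => f z * Complex.exp (-(G z)) with hP
    have hPd : ∀ z : ℂ, 0 < z.re → HasDerivAt P 0 z := by
      intro z hz
      have h1 := ((hfd z hz).hasDerivAt).mul ((hGd z hz).neg.cexp)
      have h2 : deriv f z * Complex.exp (-(G z)) + f z * (Complex.exp (-(G z)) * -(deriv f z / f z)) = 0 := by
        have := h0 z hz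
        field_simp
        ring
      have h3 : HasDerivAt P (deriv f z * Complex.exp (-(G z)) + f z * (Complex.exp (-(G z)) * -(deriv f z / f z))) z := h1
      rw [h2] at h3
      exact h3
    have hconst : ∀ z : ℂ, 0 < z.re → P z = P 1 := by
      intro z hz
      exact hconv.is_const_of_fderivWithin_eq_zero (𝕜 := ℂ) (f := P)
        (fun w hw => (hPd w hw).differentiableAt.differentiableWithinAt)
        (fun w hw => by
          have h4 := (hPd w hw).hasDerivWithinAt (s := {z : ℂ | 0 < z.re})
          have h5 := h4.hasFDerivWithinAt.fderivWithin (hopen.uniqueDiffWithinAt hw)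
          rw [h5]
          ext
          simp) hz h1re
    intro z hz
    have h4 := hconst z hz
    simp only [hP] at h4
    rw [h4]
    have h5 := hr 1 one_pos
    have h6 : f 1 = ((f 1).re : ℂ) := by
      apply Complex.ext
      · simp
      · simpa using h5.1
    have h7 : 0 < (f 1).re := by simpa using h5.2
    have h8 : G 1 = (Real.log (f 1).re : ℂ) := by simp [hG]
    rw [h8, ← Complex.ofReal_neg, ← Complex.ofReal_exp, Real.exp_neg, Real.exp_log h7]
    rw [h6]
    have h9 : ((((f 1).re : ℝ) : ℂ)).re = (f 1).re := Complex.ofReal_re _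
    rw [h9]
    push_cast
    exact mul_inv_cancel₀ (by exact_mod_cast h7.ne')
  refine ⟨G, fun z hz => (hGd z hz).differentiableAt.differentiableWithinAt, ?_, ?_⟩
  · intro z hz
    have h1 := hexp z hz
    rw [Complex.exp_neg] at h1
    have h2 := Complex.exp_ne_zero (G z)
    field_simp at h1
    exact h1.symm
  · -- realness along the positive axis
    have hder : ∀ x : ℝ, 0 < x → HasDerivAt (fun x : ℝ => (G (x : ℂ)).im) 0 x := by
      intro x hx
      have hxre : 0 < (x : ℂ).re := by simpa using hx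
      have h1 : HasDerivAt (fun x : ℝ => G (x : ℂ)) (deriv f x / f x) x := (hGd (x : ℂ) hxre).comp_ofReal
      have h2 : HasDerivAt (fun x : ℝ => (G (x : ℂ)).im) (deriv f (x : ℂ) / f x).im x := by
        exact (Complex.imCLM.hasFDerivAt (x := G (x : ℂ))).comp_hasDerivAt x h1
      have h3 : (deriv f (x : ℂ)).im = 0 := by
        have h4 : HasDerivAt (fun x : ℝ => (f (x : ℂ)).im) (deriv f (x : ℂ)).im x := by
          exact (Complex.imCLM.hasFDerivAt (x := f (x : ℂ))).comp_hasDerivAt x ((hfd (x : ℂ) hxre).hasDerivAt.comp_ofReal)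
        have h5 : HasDerivAt (fun x : ℝ => (f (x : ℂ)).im) 0 x := by
          apply (hasDerivAt_const x (0 : ℝ)).congr_of_eventuallyEq
          filter_upwards [lt_mem_nhds hx] with t ht
          exact (hr t ht).1
        exact h4.unique h5
      have h6 : (deriv f (x : ℂ) / f x).im = 0 := by
        rw [Complex.div_im, h3, (hr x hx).1]
        simp
      rw [h6] at h2
      exact h2
    have hG1 : (G ((1 : ℝ) : ℂ)).im = 0 := by
      simp [hG]
    intro x hx
    have hconv' : Convex ℝ (Set.Ioi (0 : ℝ)) := convex_Ioi 0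
    have := hconv'.is_const_of_fderivWithin_eq_zero (𝕜 := ℝ) (f := fun x : ℝ => (G (x : ℂ)).im)
        (fun w hw => (hder w hw).differentiableAt.differentiableWithinAt)
        (fun w hw => by
          have h4 := (hder w hw).hasDerivWithinAt (s := Set.Ioi (0 : ℝ))
          have h5 := h4.hasFDerivWithinAt.fderivWithin (isOpen_Ioi.uniqueDiffWithinAt hw)
          rw [h5]
          ext
          simp) (show x ∈ Set.Ioi (0 : ℝ) from hx) (Set.mem_Ioi.2 (one_pos : (0 : ℝ) < 1))
    rw [this, hG1]

end Pool.Agent.LibFR89
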