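import Mathlib
import Pool.Agent.LibFR89.Defs
import Pool.Agent.LibFR89.A4
import Pool.Agent.LibFR89.A7
import Pool.Agent.LibFR89.A14
import Pool.Agent.LibFR89.A17
import Pool.Agent.LibFR89.A18

/-!
# Row A19 (MEDIUM): the data `AL` exist

`a, T, g` from row A17; `G` from `halfplane_log` for `v ↦ g (v^2 - T)` (for `0 < Re v` the number
`v^2 - T` is real only if `> -T`, so `g ≠ 0`; positive for real `v`).
`L w = log (w^2 + a) + G (exp (log (w^2 + T) / 2)) + 2/3 w^3`: for `0 < Re w` the number `w^2` is not in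
`(-∞, 0]`, so `w^2 + a`, `w^2 + T` are in the slit plane, and the square root has positive real
part; `exp (L w) = (w^2 + a) g (w^2) exp (2/3 w^3) = Af w` (row A7).
`ne`: `-t > -T` real, `Bn 0 (-t) = (a - t) g (-t)`.
Limits: `(p + i y)^2 = p^2 - y^2 + 2 i p y → - y^2` with positive imaginary part.  If `y^2 < a`:
everything is continuous and the limit is `log (a - y^2) + G (√(T - y^2))`, a real number (the
imaginary part of `G` vanishes on the positive axis) whose exponential is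
`(a - y^2) g (-y^2) = Bn 0 (-y^2)`, so it is `log ‖Bn 0 (-y^2)‖`.  If `a < y^2 < T`:
`log (w^2 + a) → log (y^2 - a) + i π` (`Complex.continuousWithinAt_log_of_re_neg_of_im_zero` or
`Complex.tendsto_log_nhdsWithin_im_nonneg_of_re_neg_of_im_zero`).
-/

set_option autoImplicit false

namespace Pool.Agent.LibFR89

open MeasureTheory Filter Topology

private theorem a19_slit {w : ℂ} (hw : 0 < w.re) {c : ℝ} (hc : 0 ≤ c) :
    w ^ 2 + (c : ℂ) ∈ Complex.slitPlane := by
  rw [Complex.mem_slitPlane_iff]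
  have hre : (w ^ 2 + (c : ℂ)).re = w.re ^ 2 - w.im ^ 2 + c := by
    simp [pow_two]
  have him : (w ^ 2 + (c : ℂ)).im = 2 * w.re * w.im := by
    simp [pow_two]
    ring
  by_cases h : w.im = 0
  · left
    rw [hre, h]
    have := pow_pos hw 2
    linarith
  · right
    rw [him]
    exact mul_ne_zero (mul_ne_zero two_ne_zero hw.ne') h

private theorem a19_sqrt_re {z : ℂ} (hz : z ∈ Complex.slitPlane) :
    0 < (Complex.exp (Complex.log z / 2)).re := by
  rw [Complex.exp_re]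
  have him : (Complex.log z / 2).im = z.arg / 2 := by
    rw [← Complex.log_im]
    simp
  have h1 := Complex.neg_pi_lt_arg z
  have h2 : z.arg < Real.pi :=
    lt_of_le_of_ne (Complex.arg_le_pi z) (Complex.mem_slitPlane_iff_arg.1 hz).1
  refine mul_pos (Real.exp_pos _) (Real.cos_pos_of_mem_Ioo ⟨?_, ?_⟩)
  · rw [him]
    linarith
  · rw [him]
    linarith

private theorem a19_sqrt_sq {z : ℂ} (hz : z ≠ 0) :
    Complex.exp (Complex.log z / 2) ^ 2 = z := by
  rw [← Complex.exp_nat_mul]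
  have : ((2 : ℕ) : ℂ) * (Complex.log z / 2) = Complex.log z := by
    push_cast
    ring
  rw [this, Complex.exp_log hz]

private theorem a19_sqrt_real {x : ℝ} (hx : 0 < x) :
    Complex.exp (Complex.log (x : ℂ) / 2) = ((Real.exp (Real.log x / 2) : ℝ) : ℂ) := by
  rw [← Complex.ofReal_log hx.le]
  push_cast
  rfl

private theorem a19_real_log {m b : ℂ} (hm : m.im = 0) (hb : Complex.exp m = b) :
    m = ((Real.log ‖b‖ : ℝ) : ℂ) := by
  apply Complex.ext
  · rw [← hb, Complex.norm_exp, Real.log_exp, Complex.ofReal_re]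
  · rw [hm, Complex.ofReal_im]

theorem exists_AL : Nonempty AL := by
  obtain ⟨a, T, g, ha, haT, hg, hB, hz, hp⟩ := zero_structure
  have hT : 0 < T := ha.trans haT
  -- the logarithm of `g (v ^ 2 - T)`
  obtain ⟨G, hG1, hG2, hG3⟩ := halfplane_log (fun v => g (v ^ 2 - (T : ℂ)))
    (by
      intro v _
      exact (hg.comp ((differentiable_id.pow 2).sub_const _)).differentiableAt.differentiableWithinAt)
    (by
      intro v hv h0
      obtain ⟨h1, h2⟩ := hz _ h0
      have h3 : v ^ 2 + ((0 : ℝ) : ℂ) ∈ Complex.slitPlane := a19_slit hv le_rfl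
      rw [Complex.ofReal_zero, add_zero, Complex.mem_slitPlane_iff] at h3
      rw [Complex.sub_im, Complex.ofReal_im, sub_zero] at h1
      rw [Complex.sub_re, Complex.ofReal_re] at h2
      rcases h3 with h3 | h3
      · linarith
      · exact h3 h1)
    (by
      intro x hx
      have h1 := hp (x ^ 2 - T) (by nlinarith [pow_pos hx 2])
      have e : ((x ^ 2 - T : ℝ) : ℂ) = (x : ℂ) ^ 2 - (T : ℂ) := by push_cast; rfl
      rw [e] at h1
      exact h1)
  have hopen : IsOpen {z : ℂ | 0 < z.re} := isOpen_lt continuous_const Complex.continuous_re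
  have hGc : ∀ z : ℂ, 0 < z.re → DifferentiableAt ℂ G z := fun z hz' =>
    hG1.differentiableAt (hopen.mem_nhds hz')
  -- the square root
  obtain ⟨s, hs⟩ : ∃ s : ℂ → ℂ, s = fun w => Complex.exp (Complex.log (w ^ 2 + (T : ℂ)) / 2) :=
    ⟨_, rfl⟩
  have hs1 : ∀ w : ℂ, w ^ 2 + (T : ℂ) ∈ Complex.slitPlane → 0 < (s w).re := by
    intro w hw
    rw [hs]
    exact a19_sqrt_re hw
  have hs2 : ∀ w : ℂ, w ^ 2 + (T : ℂ) ∈ Complex.slitPlane → s w ^ 2 = w ^ 2 + (T : ℂ) := by
    intro w hw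
    rw [hs]
    exact a19_sqrt_sq (Complex.slitPlane_ne_zero hw)
  have hs3 : ∀ w : ℂ, w ^ 2 + (T : ℂ) ∈ Complex.slitPlane → DifferentiableAt ℂ s w := by
    intro w hw
    have d : DifferentiableAt ℂ (fun w : ℂ => w ^ 2 + (T : ℂ)) w := by fun_prop
    rw [hs]
    exact ((d.clog hw).div_const 2).cexp
  have hs4 : ∀ w : ℂ, w ^ 2 + (T : ℂ) ∈ Complex.slitPlane →
      Complex.exp (G (s w)) = g (w ^ 2) := by
    intro w hw
    rw [hG2 _ (hs1 w hw), hs2 w hw, add_sub_cancel_right]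
  -- limits of the second factor
  have hlimG : ∀ y : ℝ, 0 < y → y ^ 2 < T → Tendsto (fun p : ℝ => G (s ((p : ℂ) +
      (y : ℂ) * Complex.I))) (𝓝[>] 0) (𝓝 ((Real.log ‖g (-((y : ℂ) ^ 2))‖ : ℝ) : ℂ)) := by
    intro y hy hyT
    have hw2 : ((y : ℂ) * Complex.I) ^ 2 = -((y : ℂ) ^ 2) := by
      rw [mul_pow, Complex.I_sq]
      ring
    have hw3 : ((y : ℂ) * Complex.I) ^ 2 + (T : ℂ) = ((T - y ^ 2 : ℝ) : ℂ) := by
      rw [hw2]
      push_cast
      ring
    have hpos : 0 < T - y ^ 2 := by linarith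
    have hsl : ((y : ℂ) * Complex.I) ^ 2 + (T : ℂ) ∈ Complex.slitPlane := by
      rw [hw3, Complex.mem_slitPlane_iff]
      left
      rwa [Complex.ofReal_re]
    have hval : G (s ((y : ℂ) * Complex.I)) = ((Real.log ‖g (-((y : ℂ) ^ 2))‖ : ℝ) : ℂ) := by
      refine a19_real_log ?_ ?_
      · have e : s ((y : ℂ) * Complex.I) = ((Real.exp (Real.log (T - y ^ 2) / 2) : ℝ) : ℂ) := by
          rw [hs]
          show Complex.exp (Complex.log (((y : ℂ) * Complex.I) ^ 2 + (T : ℂ)) / 2) = _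
          rw [hw3, a19_sqrt_real hpos]
        rw [e]
        exact hG3 _ (Real.exp_pos _)
      · rw [hs4 _ hsl, hw2]
    have hcont : ContinuousAt (fun w => G (s w)) ((y : ℂ) * Complex.I) :=
      ContinuousAt.comp (hGc _ (hs1 _ hsl)).continuousAt (hs3 _ hsl).continuousAt
    have hpath : Tendsto (fun p : ℝ => (p : ℂ) + (y : ℂ) * Complex.I) (𝓝[>] 0)
        (𝓝 ((y : ℂ) * Complex.I)) := by
      have h1 : Continuous (fun p : ℝ => (p : ℂ) + (y : ℂ) * Complex.I) := by fun_prop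
      have h2 := h1.tendsto 0
      rw [Complex.ofReal_zero, zero_add] at h2
      exact h2.mono_left nhdsWithin_le_nhds
    rw [← hval]
    exact hcont.tendsto.comp hpath
  -- the norm
  have hnorm : ∀ y : ℝ, y ^ 2 ≠ a → y ^ 2 < T →
      Real.log ‖Bn 0 (-((y : ℂ) ^ 2))‖ =
        Real.log ‖((a - y ^ 2 : ℝ) : ℂ)‖ + Real.log ‖g (-((y : ℂ) ^ 2))‖ := by
    intro y h1 h2
    have h3 : ((a - y ^ 2 : ℝ) : ℂ) ≠ 0 := by
      rw [Complex.ofReal_ne_zero]
      exact fun h => h1 (by linarith)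
    have h4 : g (-((y : ℂ) ^ 2)) ≠ 0 := by
      intro h
      have h5 := (hz _ h).2
      have e : (-((y : ℂ) ^ 2)) = ((-(y ^ 2) : ℝ) : ℂ) := by push_cast; rfl
      rw [e, Complex.ofReal_re] at h5
      linarith
    rw [hB, norm_mul]
    have e : -((y : ℂ) ^ 2) + (a : ℂ) = ((a - y ^ 2 : ℝ) : ℂ) := by push_cast; ring
    rw [e, Real.log_mul (norm_ne_zero_iff.2 h3) (norm_ne_zero_iff.2 h4)]
  have hsub : ∀ w : ℂ, Complex.log (w ^ 2 + (a : ℂ)) + G (s w) + 2 / 3 * w ^ 3 - 2 / 3 * w ^ 3 =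
      Complex.log (w ^ 2 + (a : ℂ)) + G (s w) := fun w => by ring
  have hpath2 : ∀ y : ℝ, Tendsto (fun p : ℝ => ((p : ℂ) + (y : ℂ) * Complex.I) ^ 2 + (a : ℂ))
      (𝓝[>] 0) (𝓝 ((a - y ^ 2 : ℝ) : ℂ)) := by
    intro y
    have h1 : Continuous (fun p : ℝ => ((p : ℂ) + (y : ℂ) * Complex.I) ^ 2 + (a : ℂ)) := by
      fun_prop
    have h2 := h1.tendsto 0
    have e : (((0 : ℝ) : ℂ) + (y : ℂ) * Complex.I) ^ 2 + (a : ℂ) = ((a - y ^ 2 : ℝ) : ℂ) := by
      rw [Complex.ofReal_zero, zero_add, mul_pow, Complex.I_sq]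
      push_cast
      ring
    rw [e] at h2
    exact h2.mono_left nhdsWithin_le_nhds
  refine ⟨{
    L := fun w => Complex.log (w ^ 2 + (a : ℂ)) + G (s w) + 2 / 3 * w ^ 3
    a := a
    T := T
    a_pos := ha
    a_lt := haT
    diff := ?_
    exp_L := ?_
    real_L := ?_
    ne := ?_
    lim0 := ?_
    lim1 := ?_ }⟩
  · intro w hw
    have h1 := a19_slit hw ha.le
    have h2 := a19_slit hw hT.le
    have d1 : DifferentiableAt ℂ (fun w : ℂ => Complex.log (w ^ 2 + (a : ℂ))) w :=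
      ((differentiableAt_id.pow 2).add_const _).clog h1
    have d2 : DifferentiableAt ℂ (fun w : ℂ => G (s w)) w :=
      (hGc _ (hs1 w h2)).comp w (hs3 w h2)
    have d3 : DifferentiableAt ℂ (fun w : ℂ => 2 / 3 * w ^ 3) w :=
      (differentiableAt_id.pow 3).const_mul _
    exact ((d1.add d2).add d3).differentiableWithinAt
  · intro w hw
    have h1 := a19_slit hw ha.le
    have h2 := a19_slit hw hT.le
    rw [Complex.exp_add, Complex.exp_add, Complex.exp_log (Complex.slitPlane_ne_zero h1),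
      hs4 w h2, Af_eq w hw, hB]
    ring
  · intro x hx
    have hxr : 0 < ((x : ℂ)).re := by rwa [Complex.ofReal_re]
    have e1 : (x : ℂ) ^ 2 + (a : ℂ) = ((x ^ 2 + a : ℝ) : ℂ) := by push_cast; rfl
    have e2 : (x : ℂ) ^ 2 + (T : ℂ) = ((x ^ 2 + T : ℝ) : ℂ) := by push_cast; rfl
    have e3 : (2 / 3 * (x : ℂ) ^ 3) = ((2 / 3 * x ^ 3 : ℝ) : ℂ) := by push_cast; rfl
    have hs5 : s (x : ℂ) = ((Real.exp (Real.log (x ^ 2 + T) / 2) : ℝ) : ℂ) := by
      rw [hs]
      show Complex.exp (Complex.log ((x : ℂ) ^ 2 + (T : ℂ)) / 2) = _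
      rw [e2, a19_sqrt_real (by positivity)]
    show (Complex.log ((x : ℂ) ^ 2 + (a : ℂ)) + G (s (x : ℂ)) + 2 / 3 * (x : ℂ) ^ 3).im = 0
    rw [Complex.add_im, Complex.add_im, e1, e3, ← Complex.ofReal_log (by positivity),
      Complex.ofReal_im, Complex.ofReal_im, hs5, hG3 _ (Real.exp_pos _)]
    norm_num
  · intro t ht hta
    rw [hB]
    have e : (-(t : ℂ)) = ((-t : ℝ) : ℂ) := by push_cast; rfl
    refine mul_ne_zero ?_ ?_
    · rw [e, ← Complex.ofReal_add, Complex.ofReal_ne_zero]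
      exact fun h => hta (by linarith)
    · rw [e]
      intro h
      have h1 := (hp (-t) (by linarith)).2
      rw [h] at h1
      simp at h1
  · intro y hy hya
    have h1 := hlimG y hy (by linarith)
    have h2 : Tendsto (fun p : ℝ => Complex.log (((p : ℂ) + (y : ℂ) * Complex.I) ^ 2 + (a : ℂ)))
        (𝓝[>] 0) (𝓝 (Complex.log ((a - y ^ 2 : ℝ) : ℂ))) := by
      refine (hpath2 y).clog ?_
      rw [Complex.mem_slitPlane_iff]
      left
      rw [Complex.ofReal_re]
      linarith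
    have h3 := h2.add h1
    have e : Complex.log ((a - y ^ 2 : ℝ) : ℂ) + ((Real.log ‖g (-((y : ℂ) ^ 2))‖ : ℝ) : ℂ) =
        (Real.log ‖Bn 0 (-((y : ℂ) ^ 2))‖ : ℂ) := by
      rw [hnorm y (by intro h; linarith) (by linarith), Complex.ofReal_add,
        ← Complex.ofReal_log (by linarith), Complex.norm_real, Real.norm_of_nonneg (by linarith)]
    rw [e] at h3
    refine h3.congr fun p => ?_
    exact (hsub _).symm
  · intro y hy hya hyT
    have h1 := hlimG y hy hyT
    have h2 : Tendsto (fun p : ℝ => Complex.log (((p : ℂ) + (y : ℂ) * Complex.I) ^ 2 + (a : ℂ)))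
        (𝓝[>] 0) (𝓝 ((Real.log ‖((a - y ^ 2 : ℝ) : ℂ)‖ : ℂ) + (Real.pi : ℂ) * Complex.I)) := by
      have h3 := Complex.tendsto_log_nhdsWithin_im_nonneg_of_re_neg_of_im_zero
        (z := ((a - y ^ 2 : ℝ) : ℂ)) (by rw [Complex.ofReal_re]; linarith) (Complex.ofReal_im _)
      refine h3.comp ?_
      refine tendsto_nhdsWithin_iff.2 ⟨hpath2 y, ?_⟩
      filter_upwards [self_mem_nhdsWithin] with p hp'
      have hp'' : 0 < p := hp'
      show 0 ≤ (((p : ℂ) + (y : ℂ) * Complex.I) ^ 2 + (a : ℂ)).im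
      have e : (((p : ℂ) + (y : ℂ) * Complex.I) ^ 2 + (a : ℂ)).im = 2 * p * y := by
        simp [pow_two]
        ring
      rw [e]
      positivity
    have h3 := h2.add h1
    have e : (Real.log ‖((a - y ^ 2 : ℝ) : ℂ)‖ : ℂ) + (Real.pi : ℂ) * Complex.I +
        ((Real.log ‖g (-((y : ℂ) ^ 2))‖ : ℝ) : ℂ) =
        (Real.log ‖Bn 0 (-((y : ℂ) ^ 2))‖ : ℂ) + (Real.pi : ℂ) * Complex.I := by
      rw [hnorm y (by intro h; linarith) hyT]
      push_cast
      ring
    rw [e] at h3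
    refine h3.congr fun p => ?_
    exact (hsub _).symm

end Pool.Agent.LibFR89
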