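import Mathlib
import Pool.Agent.LibFR89.Defs
import Pool.Agent.LibFR89.A2
import Pool.Agent.LibFR89.A3
import Pool.Agent.LibFR89.A7
import Pool.Agent.LibFR89.A16

/-!
# Row A20 (MEDIUM): the connection formula

`ω = exp (2 π i / 3)`, `ω^3 = 1`, `1 + ω + ω^2 = 0`.  `y z = Bn 0 z + ω Bn 0 (ω z) + ω^2 Bn 0 (ω^2 z)`,
`y' z = Bn 1 z + ω^2 Bn 1 (ω z) + ω^4 Bn 1 (ω^2 z)`,
`y'' z = z Bn 0 z + ω^3 ω z Bn 0 (ω z) + ω^6 ω^2 z Bn 0 (ω^2 z) = z y z`; both vanish at `0`; row A16.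
Second claim (`e3 = exp (iπ/3)`, `e6 = exp (iπ/6)`, `e3^2 = ω`, `(conj e3)^2 = ω^2`, `e3^3 = -1`):
row A7 three times gives
`e6 Af (e3 v) - conj e6 Af (conj e3 v) = exp (-2/3 v^3) (e6 Bn 0 (ω v^2) - conj e6 Bn 0 (ω^2 v^2))`,
and `e6 = -i ω`, `- conj e6 = -i ω^2`, so this is `exp (-2/3 v^3) * i * Bn 0 (v^2)
= i exp (-4/3 v^3) Af v`.
-/

set_option autoImplicit false

namespace Pool.Agent.LibFR89

open MeasureTheory Filter Topology

private theorem A20_om : Complex.exp (2 * Real.pi / 3 * Complex.I) = ⟨-(1 / 2), √3 / 2⟩ := by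
  have h0 : (2 * (Real.pi : ℂ) / 3) = ((2 * Real.pi / 3 : ℝ) : ℂ) := by push_cast; ring
  have h1 : (2 * Real.pi / 3 : ℝ) = Real.pi - Real.pi / 3 := by ring
  rw [h0, Complex.exp_mul_I, ← Complex.ofReal_cos, ← Complex.ofReal_sin, h1, Real.cos_pi_sub,
    Real.sin_pi_sub, Real.cos_pi_div_three, Real.sin_pi_div_three]
  apply Complex.ext <;> simp

private theorem A20_s3 : √3 * √3 = (3 : ℝ) := Real.mul_self_sqrt (by norm_num)

theorem conn (ω : ℂ) (hω : ω = Complex.exp (2 * Real.pi / 3 * Complex.I)) (z : ℂ) :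
    Bn 0 z + ω * Bn 0 (ω * z) + ω ^ 2 * Bn 0 (ω ^ 2 * z) = 0 := by
  have h3 : ω ^ 3 = 1 := by
    rw [hω, ← Complex.exp_nat_mul]
    have : ((3 : ℕ) : ℂ) * (2 * (Real.pi : ℂ) / 3 * Complex.I) = 2 * (Real.pi : ℂ) * Complex.I := by
      push_cast
      ring
    rw [this, Complex.exp_two_pi_mul_I]
  have h1 : 1 + ω + ω ^ 2 = 0 := by
    have hne : ω - 1 ≠ 0 := by
      rw [hω, A20_om]
      intro h
      have h2 := congrArg Complex.re h
      simp at h2
      norm_num at h2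
    have h4 : (ω - 1) * (1 + ω + ω ^ 2) = 0 := by
      linear_combination h3
    exact (mul_eq_zero.1 h4).resolve_left hne
  refine ode_unique (fun z => Bn 0 z + ω * Bn 0 (ω * z) + ω ^ 2 * Bn 0 (ω ^ 2 * z))
    (fun z => Bn 1 z + ω * (Bn 1 (ω * z) * ω) + ω ^ 2 * (Bn 1 (ω ^ 2 * z) * ω ^ 2)) ?_ ?_ 0 ?_ ?_ z
  · intro z
    have d : ∀ c : ℂ, HasDerivAt (fun z => Bn 0 (c * z)) (Bn 1 (c * z) * c) z := by
      intro c
      have e1 : HasDerivAt (fun z : ℂ => c * z) c z := by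
        simpa using (hasDerivAt_id z).const_mul c
      exact (Bn_hasDerivAt 0 (c * z)).comp z e1
    exact ((Bn_hasDerivAt 0 z).add ((d ω).const_mul ω)).add ((d (ω ^ 2)).const_mul (ω ^ 2))
  · intro z
    have d : ∀ c : ℂ, HasDerivAt (fun z => Bn 1 (c * z)) (Bn 2 (c * z) * c) z := by
      intro c
      have e1 : HasDerivAt (fun z : ℂ => c * z) c z := by
        simpa using (hasDerivAt_id z).const_mul c
      exact (Bn_hasDerivAt 1 (c * z)).comp z e1
    have e2 := ((Bn_hasDerivAt 1 z).add (((d ω).mul_const ω).const_mul ω)).add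
      (((d (ω ^ 2)).mul_const (ω ^ 2)).const_mul (ω ^ 2))
    refine HasDerivAt.congr_deriv e2 ?_
    rw [show (1 + 1 : ℕ) = 2 from rfl, Bn_two, Bn_two, Bn_two]
    have h6 : ω ^ 4 = ω := by linear_combination ω * h3
    have h8 : ω ^ 8 = ω ^ 2 := by linear_combination (ω ^ 5 + ω ^ 2) * h3
    linear_combination (z * Bn 0 (ω * z)) * h6 + (z * Bn 0 (ω ^ 2 * z)) * h8
  · simp only [mul_zero]
    linear_combination (Bn 0 0) * h1
  · simp only [mul_zero]
    linear_combination (Bn 1 0) * h1 + (ω * Bn 1 0) * h3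

theorem q_diff (v : ℂ) (hv : 0 < v.re) (h1 : 0 < (e3 * v).re)
    (h2 : 0 < ((starRingEnd ℂ) e3 * v).re) :
    e6 * Af (e3 * v) - (starRingEnd ℂ) e6 * Af ((starRingEnd ℂ) e3 * v) =
      Complex.I * Complex.exp (-(4 / 3) * v ^ 3) * Af v := by
  have s3 := A20_s3
  have hc := conn (Complex.exp (2 * Real.pi / 3 * Complex.I)) rfl (v ^ 2)
  rw [A20_om] at hc
  set ω : ℂ := ⟨-(1 / 2), √3 / 2⟩ with hω
  have k1 : e3 ^ 2 = ω := by
    rw [hω, e3, sq]
    apply Complex.ext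
    · simp only [Complex.mul_re]
      linarith
    · simp only [Complex.mul_im]
      ring
  have k2 : (starRingEnd ℂ) e3 ^ 2 = ω ^ 2 := by
    rw [hω, e3, sq, sq]
    apply Complex.ext
    · simp only [Complex.mul_re, Complex.conj_re, Complex.conj_im]
      ring
    · simp only [Complex.mul_im, Complex.conj_re, Complex.conj_im]
      ring
  have k3 : e3 * ω = -1 := by
    rw [hω, e3]
    apply Complex.ext
    · simp only [Complex.mul_re, Complex.neg_re, Complex.one_re]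
      linarith
    · simp only [Complex.mul_im, Complex.neg_im, Complex.one_im]
      ring
  have k4 : (starRingEnd ℂ) e3 * ω ^ 2 = -1 := by
    rw [hω, e3, sq]
    apply Complex.ext
    · simp only [Complex.mul_re, Complex.mul_im, Complex.neg_re, Complex.one_re, Complex.conj_re,
        Complex.conj_im]
      nlinarith
    · simp only [Complex.mul_re, Complex.mul_im, Complex.neg_im, Complex.one_im, Complex.conj_re,
        Complex.conj_im]
      linear_combination (√3 / 8) * s3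
  have k5 : e6 = -(Complex.I * ω) := by
    rw [hω, e6]
    apply Complex.ext <;> simp
  have k6 : (starRingEnd ℂ) e6 = Complex.I * ω ^ 2 := by
    rw [hω, e6, sq]
    apply Complex.ext
    · simp
      ring
    · simp
      linarith
  have a1 : Af (e3 * v) = Complex.exp (-(2 / 3) * v ^ 3) * Bn 0 (ω * v ^ 2) := by
    rw [Af_eq _ h1, mul_pow, mul_pow, k1]
    have : e3 ^ 3 = -1 := by rw [← k3, ← k1]; ring
    rw [this]
    congr 2
    ring
  have a2 : Af ((starRingEnd ℂ) e3 * v) = Complex.exp (-(2 / 3) * v ^ 3) * Bn 0 (ω ^ 2 * v ^ 2) := by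
    rw [Af_eq _ h2, mul_pow, mul_pow, k2]
    have : (starRingEnd ℂ) e3 ^ 3 = -1 := by rw [← k4, ← k2]; ring
    rw [this]
    congr 2
    ring
  have a3 : Complex.exp (-(4 / 3) * v ^ 3) * Af v = Complex.exp (-(2 / 3) * v ^ 3) * Bn 0 (v ^ 2) := by
    rw [Af_eq v hv, ← mul_assoc, ← Complex.exp_add]
    congr 2
    ring
  rw [a1, a2, mul_assoc, a3, k6, k5]
  linear_combination (-(Complex.I * Complex.exp (-(2 / 3) * v ^ 3))) * hc

end Pool.Agent.LibFR89
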