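import Mathlib
import Pool.Agent.LibFR89.Defs

/-!
# Row C1 (EASY/MEDIUM, ONLY MATHLIB): Cauchy for the half strip

`Complex.integral_boundary_rect_eq_zero_of_differentiableOn` for `ξ ↦ s ξ * exp (3 N ξ)` on the
rectangle with corners `t0` and `t1 + i π/3`; `exp (3 N (t + i π/3)) = (-1)^N exp (3 N t)`; take
imaginary parts (the imaginary part of an interval integral is the integral of the imaginary part,
`s` is continuous on the sides).
-/

set_option autoImplicit false

namespace Pool.Agent.LibFR89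

open MeasureTheory Filter Topology

theorem rect_im (s : ℂ → ℂ) (t0 t1 : ℝ) (ht : t0 ≤ t1) (N : ℕ)
    (hd : ∀ ξ : ℂ, t0 ≤ ξ.re → 0 ≤ ξ.im → ξ.im ≤ Real.pi / 3 → DifferentiableAt ℂ s ξ) :
    (∫ t in t0..t1, (s (t : ℂ)).im * Real.exp (3 * N * t)) -
      (-1) ^ N * (∫ t in t0..t1, (s ((t : ℂ) + (Real.pi / 3 : ℝ) * Complex.I)).im *
        Real.exp (3 * N * t)) +
      (Complex.I * ∫ θ in (0 : ℝ)..(Real.pi / 3), s ((t1 : ℂ) + (θ : ℂ) * Complex.I) *
        Complex.exp (3 * N * ((t1 : ℂ) + (θ : ℂ) * Complex.I))).im -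
      (Complex.I * ∫ θ in (0 : ℝ)..(Real.pi / 3), s ((t0 : ℂ) + (θ : ℂ) * Complex.I) *
        Complex.exp (3 * N * ((t0 : ℂ) + (θ : ℂ) * Complex.I))).im = 0 := by
  have hpi := Real.pi_pos
  set f : ℂ → ℂ := fun ξ => s ξ * Complex.exp (3 * N * ξ) with hf
  have hdf : ∀ ξ : ℂ, t0 ≤ ξ.re → 0 ≤ ξ.im → ξ.im ≤ Real.pi / 3 → DifferentiableAt ℂ f ξ := by
    intro ξ h1 h2 h3
    exact (hd ξ h1 h2 h3).mul (by fun_prop)
  have h := Complex.integral_boundary_rect_eq_zero_of_differentiableOn f (t0 : ℂ) ((t1 : ℂ) + (Real.pi / 3 : ℝ) * Complex.I)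
    (by
      intro ξ hξ
      rw [Complex.mem_reProdIm] at hξ
      simp only [Complex.add_re, Complex.ofReal_re, Complex.mul_re, Complex.I_re, mul_zero, Complex.ofReal_im,
        Complex.I_im, mul_one, sub_self, add_zero, Complex.add_im, Complex.mul_im, zero_add] at hξ
      rw [Set.uIcc_of_le ht, Set.uIcc_of_le (by positivity)] at hξ
      exact (hdf ξ hξ.1.1 hξ.2.1 hξ.2.2).differentiableWithinAt)
  simp only [Complex.add_re, Complex.ofReal_re, Complex.mul_re, Complex.I_re, mul_zero, Complex.ofReal_im,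
    Complex.I_im, mul_one, sub_self, add_zero, Complex.add_im, Complex.mul_im, zero_add, Complex.ofReal_zero,
    zero_mul, smul_eq_mul] at h
  have hc0 : ContinuousOn (fun t : ℝ => f (t : ℂ)) (Set.uIcc t0 t1) := by
    intro t ht'
    rw [Set.uIcc_of_le ht] at ht'
    have h1 : ContinuousAt f (t : ℂ) := (hdf (t : ℂ) (by simpa using ht'.1) (by simp) (by simp; positivity)).continuousAt
    exact (ContinuousAt.comp (f := fun t : ℝ => (t : ℂ)) h1 (by fun_prop)).continuousWithinAt
  have hc1 : ContinuousOn (fun t : ℝ => f ((t : ℂ) + (Real.pi / 3 : ℝ) * Complex.I)) (Set.uIcc t0 t1) := by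
    intro t ht'
    rw [Set.uIcc_of_le ht] at ht'
    have h1 : ContinuousAt f ((t : ℂ) + (Real.pi / 3 : ℝ) * Complex.I) := by
      apply (hdf _ _ _ _).continuousAt
      · simpa using ht'.1
      · simp only [Complex.add_im, Complex.ofReal_im, Complex.mul_im, Complex.ofReal_re, Complex.I_im, mul_one,
          Complex.I_re, mul_zero, add_zero, zero_add]
        positivity
      · simp only [Complex.add_im, Complex.ofReal_im, Complex.mul_im, Complex.ofReal_re, Complex.I_im, mul_one,
          Complex.I_re, mul_zero, add_zero, zero_add]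
        exact le_refl _
    exact (ContinuousAt.comp (f := fun t : ℝ => (t : ℂ) + (Real.pi / 3 : ℝ) * Complex.I) h1 (by fun_prop)).continuousWithinAt
  have e0 : (∫ t in t0..t1, f (t : ℂ)).im = ∫ t in t0..t1, (s (t : ℂ)).im * Real.exp (3 * N * t) := by
    have h1 := Complex.imCLM.intervalIntegral_comp_comm (hc0.intervalIntegrable (μ := volume))
    simp only [Complex.imCLM_apply] at h1
    rw [← h1]
    apply intervalIntegral.integral_congr
    intro t _
    simp only [hf]
    have h2 : Complex.exp (3 * N * (t : ℂ)) = ((Real.exp (3 * N * t) : ℝ) : ℂ) := by push_cast; rfl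
    rw [h2, Complex.im_mul_ofReal]
  have e1 : (∫ t in t0..t1, f ((t : ℂ) + (Real.pi / 3 : ℝ) * Complex.I)).im =
      (-1) ^ N * (∫ t in t0..t1, (s ((t : ℂ) + (Real.pi / 3 : ℝ) * Complex.I)).im * Real.exp (3 * N * t)) := by
    have h1 := Complex.imCLM.intervalIntegral_comp_comm (hc1.intervalIntegrable (μ := volume))
    simp only [Complex.imCLM_apply] at h1
    rw [← h1, ← intervalIntegral.integral_const_mul]
    apply intervalIntegral.integral_congr
    intro t _
    simp only [hf]
    have h2 : Complex.exp (3 * N * ((t : ℂ) + (Real.pi / 3 : ℝ) * Complex.I)) =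
        (((-1) ^ N * Real.exp (3 * N * t) : ℝ) : ℂ) := by
      have h3 : (3 * N * ((t : ℂ) + (Real.pi / 3 : ℝ) * Complex.I) : ℂ) =
          ((3 * N * t : ℝ) : ℂ) + N * (Real.pi * Complex.I) := by
        push_cast
        ring
      rw [h3, Complex.exp_add, Complex.exp_nat_mul, Complex.exp_pi_mul_I]
      push_cast
      ring
    rw [h2, Complex.im_mul_ofReal]
    ring
  have h2 := congrArg Complex.im h
  rw [Complex.sub_im, Complex.add_im, Complex.sub_im, Complex.zero_im, e0, e1] at h2
  exact h2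

end Pool.Agent.LibFR89
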