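import Mathlib
import Pool.Agent.LibFR89.Defs

/-!
# Row C2 (MEDIUM, ONLY MATHLIB): the far side of the half strip

`s (ξ) = c0 ∑_{n ≤ N} b n exp (-3 n ξ) + O(exp (-3 (N+1) Re ξ))`.  On `ξ = t1 + i θ`: the error
contributes `O(exp (-3 t1))`.  The term `n = N` gives `i c0 b N π/3`; for `n < N`
`i ∫_0^{π/3} exp (3 (N - n) (t1 + i θ)) dθ = exp (3 (N-n) t1) ((-1)^(N-n) - 1)/(3 (N - n))` is real.
-/

set_option autoImplicit false

namespace Pool.Agent.LibFR89

open MeasureTheory Filter Topology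

private theorem C2_int (m : ℕ) (t1 : ℝ) : (Complex.I * ∫ θ in (0 : ℝ)..(Real.pi / 3),
    Complex.exp (3 * m * ((t1 : ℂ) + (θ : ℂ) * Complex.I))).im = if m = 0 then Real.pi / 3 else 0 := by
  by_cases hm : m = 0
  · subst hm
    simp
  · rw [if_neg hm]
    have hmC : (m : ℂ) ≠ 0 := by exact_mod_cast hm
    have hc : (3 * m * Complex.I : ℂ) ≠ 0 := by
      simp [hmC, Complex.I_ne_zero]
    have h1 : (fun θ : ℝ => Complex.exp (3 * m * ((t1 : ℂ) + (θ : ℂ) * Complex.I))) =
        fun θ : ℝ => Complex.exp (3 * m * (t1 : ℂ)) * Complex.exp ((3 * m * Complex.I) * (θ : ℂ)) := by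
      funext θ
      rw [← Complex.exp_add]
      congr 1
      ring
    rw [h1, intervalIntegral.integral_const_mul, integral_exp_mul_complex hc]
    have h2 : Complex.exp (3 * m * Complex.I * ((Real.pi / 3 : ℝ) : ℂ)) = (-1) ^ m := by
      rw [← Complex.exp_pi_mul_I, ← Complex.exp_nat_mul]
      congr 1
      push_cast
      ring
    rw [h2, Complex.ofReal_zero, mul_zero, Complex.exp_zero]
    have h3 : Complex.I * (Complex.exp (3 * m * (t1 : ℂ)) * (((-1) ^ m - 1) / (3 * m * Complex.I))) =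
        ((Real.exp (3 * m * t1) * (((-1) ^ m - 1) / (3 * m)) : ℝ) : ℂ) := by
      push_cast
      field_simp
    rw [h3, Complex.ofReal_im]

theorem far_side (s : ℂ → ℂ) (N : ℕ) (c0 : ℝ) (b : ℕ → ℝ) (C R : ℝ)
    (hs : ∀ ξ : ℂ, R ≤ ξ.re → 0 ≤ ξ.im → ξ.im ≤ Real.pi / 3 → ContinuousAt s ξ)
    (hexp : ∀ ξ : ℂ, R ≤ ξ.re → 0 ≤ ξ.im → ξ.im ≤ Real.pi / 3 →
      ‖s ξ - (c0 : ℂ) * ∑ n ∈ Finset.range (N + 1), (b n : ℂ) * Complex.exp (-3 * n * ξ)‖ ≤
        C * Real.exp (-3 * ((N : ℝ) + 1) * ξ.re)) :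
    Tendsto (fun t1 : ℝ => (Complex.I * ∫ θ in (0 : ℝ)..(Real.pi / 3),
        s ((t1 : ℂ) + (θ : ℂ) * Complex.I) *
        Complex.exp (3 * N * ((t1 : ℂ) + (θ : ℂ) * Complex.I))).im) atTop
      (𝓝 (c0 * b N * (Real.pi / 3))) := by
  have hpi : (0 : ℝ) ≤ Real.pi / 3 := by positivity
  -- the main part
  have hmain : ∀ t1 : ℝ, (Complex.I * ∫ θ in (0 : ℝ)..(Real.pi / 3),
      ((c0 : ℂ) * ∑ n ∈ Finset.range (N + 1), (b n : ℂ) *
        Complex.exp (-3 * n * ((t1 : ℂ) + (θ : ℂ) * Complex.I))) *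
        Complex.exp (3 * N * ((t1 : ℂ) + (θ : ℂ) * Complex.I))).im = c0 * b N * (Real.pi / 3) := by
    intro t1
    have h1 : (fun θ : ℝ => ((c0 : ℂ) * ∑ n ∈ Finset.range (N + 1), (b n : ℂ) *
        Complex.exp (-3 * n * ((t1 : ℂ) + (θ : ℂ) * Complex.I))) *
        Complex.exp (3 * N * ((t1 : ℂ) + (θ : ℂ) * Complex.I))) =
        fun θ : ℝ => ∑ n ∈ Finset.range (N + 1), ((c0 * b n : ℝ) : ℂ) *
          Complex.exp (3 * ((N - n : ℕ) : ℂ) * ((t1 : ℂ) + (θ : ℂ) * Complex.I)) := by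
      funext θ
      rw [Finset.mul_sum, Finset.sum_mul]
      refine Finset.sum_congr rfl fun n hn => ?_
      rw [Finset.mem_range] at hn
      have h2 : ((N - n : ℕ) : ℂ) = (N : ℂ) - n := by
        rw [Nat.cast_sub (by omega)]
      have h3 : Complex.exp (3 * ((N : ℂ) - n) * ((t1 : ℂ) + (θ : ℂ) * Complex.I)) =
          Complex.exp (-3 * n * ((t1 : ℂ) + (θ : ℂ) * Complex.I)) *
            Complex.exp (3 * N * ((t1 : ℂ) + (θ : ℂ) * Complex.I)) := by
        rw [← Complex.exp_add]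
        congr 1
        ring
      rw [h2, h3, Complex.ofReal_mul]
      ring
    rw [h1, intervalIntegral.integral_finsetSum]
    · rw [Finset.mul_sum, Complex.im_sum]
      rw [Finset.sum_eq_single_of_mem N (Finset.mem_range.mpr (Nat.lt_succ_self N))]
      · rw [intervalIntegral.integral_const_mul, mul_left_comm, Complex.im_ofReal_mul, Nat.sub_self,
          C2_int, if_pos rfl]
      · intro n hn hne
        rw [Finset.mem_range] at hn
        rw [intervalIntegral.integral_const_mul, mul_left_comm, Complex.im_ofReal_mul, C2_int,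
          if_neg (by omega), mul_zero]
    · intro n _
      exact (by fun_prop : Continuous (fun θ : ℝ => ((c0 * b n : ℝ) : ℂ) *
          Complex.exp (3 * ((N - n : ℕ) : ℂ) * ((t1 : ℂ) + (θ : ℂ) * Complex.I)))).intervalIntegrable _ _
  -- the error
  have hre : ∀ t1 θ : ℝ, ((t1 : ℂ) + (θ : ℂ) * Complex.I).re = t1 := by
    intro t1 θ
    simp
  have him : ∀ t1 θ : ℝ, ((t1 : ℂ) + (θ : ℂ) * Complex.I).im = θ := by
    intro t1 θ
    simp
  have herr : ∀ t1 : ℝ, R ≤ t1 → |(Complex.I * ∫ θ in (0 : ℝ)..(Real.pi / 3),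
        s ((t1 : ℂ) + (θ : ℂ) * Complex.I) *
        Complex.exp (3 * N * ((t1 : ℂ) + (θ : ℂ) * Complex.I))).im - c0 * b N * (Real.pi / 3)| ≤
      C * Real.exp (-3 * t1) * (Real.pi / 3) := by
    intro t1 ht
    rw [← hmain t1, ← Complex.sub_im, ← mul_sub, ← intervalIntegral.integral_sub]
    · refine (Complex.abs_im_le_norm _).trans ?_
      rw [norm_mul, Complex.norm_I, one_mul]
      have h1 := intervalIntegral.norm_integral_le_of_norm_le_const (a := 0) (b := Real.pi / 3)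
        (C := C * Real.exp (-3 * t1)) (f := fun θ : ℝ => s ((t1 : ℂ) + (θ : ℂ) * Complex.I) *
          Complex.exp (3 * N * ((t1 : ℂ) + (θ : ℂ) * Complex.I)) -
          ((c0 : ℂ) * ∑ n ∈ Finset.range (N + 1), (b n : ℂ) *
          Complex.exp (-3 * n * ((t1 : ℂ) + (θ : ℂ) * Complex.I))) *
          Complex.exp (3 * N * ((t1 : ℂ) + (θ : ℂ) * Complex.I))) (by
        intro θ hθ
        rw [Set.uIoc_of_le hpi] at hθ
        have h2 := hexp ((t1 : ℂ) + (θ : ℂ) * Complex.I) (by rw [hre]; exact ht)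
          (by rw [him]; exact hθ.1.le) (by rw [him]; exact hθ.2)
        rw [hre] at h2
        rw [← sub_mul, norm_mul, Complex.norm_exp]
        have h3 : (3 * (N : ℂ) * ((t1 : ℂ) + (θ : ℂ) * Complex.I)).re = 3 * N * t1 := by
          have h4 : (3 * (N : ℂ)) = ((3 * N : ℝ) : ℂ) := by push_cast; rfl
          rw [h4, Complex.re_ofReal_mul, hre]
        rw [h3]
        have h5 := mul_le_mul_of_nonneg_right h2 (Real.exp_pos (3 * N * t1)).le
        refine h5.trans (le_of_eq ?_)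
        rw [mul_assoc, ← Real.exp_add]
        congr 2
        ring)
      rw [sub_zero, abs_of_nonneg hpi] at h1
      exact h1
    · refine ContinuousOn.intervalIntegrable ?_
      rw [Set.uIcc_of_le hpi]
      intro θ hθ
      refine ContinuousAt.continuousWithinAt ?_
      refine ContinuousAt.mul ?_ (by fun_prop)
      have h6 := hs ((t1 : ℂ) + (θ : ℂ) * Complex.I) (by rw [hre]; exact ht)
          (by rw [him]; exact hθ.1) (by rw [him]; exact hθ.2)
      exact ContinuousAt.comp (f := fun θ : ℝ => (t1 : ℂ) + (θ : ℂ) * Complex.I) h6 (by fun_prop)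
    · exact (by fun_prop : Continuous (fun θ : ℝ => ((c0 : ℂ) * ∑ n ∈ Finset.range (N + 1), (b n : ℂ) *
        Complex.exp (-3 * n * ((t1 : ℂ) + (θ : ℂ) * Complex.I))) *
        Complex.exp (3 * N * ((t1 : ℂ) + (θ : ℂ) * Complex.I)))).intervalIntegrable _ _
  rw [tendsto_iff_norm_sub_tendsto_zero]
  have hz : Tendsto (fun t1 : ℝ => C * Real.exp (-3 * t1) * (Real.pi / 3)) atTop (𝓝 0) := by
    have h1 : Tendsto (fun t1 : ℝ => Real.exp (-3 * t1)) atTop (𝓝 0) := by
      refine Real.tendsto_exp_atBot.comp ?_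
      exact tendsto_id.const_mul_atTop_of_neg (by norm_num)
    have h2 := (h1.const_mul C).mul_const (Real.pi / 3)
    rw [mul_zero, zero_mul] at h2
    exact h2
  refine squeeze_zero' (Eventually.of_forall fun t1 => norm_nonneg _) ?_ hz
  filter_upwards [eventually_ge_atTop R] with t1 ht
  rw [Real.norm_eq_abs]
  exact herr t1 ht

end Pool.Agent.LibFR89
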