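import Mathlib
import Pool.Agent.LibFR89.Defs

/-!
# Row C3 (MEDIUM, ONLY MATHLIB): comparison of two moment sequences

Substitute `u = exp (3 t)` or argue directly.  Choose `U > t0` with
`c1 exp ((s' - κ) exp (3 U)) ≥ 2 C1`; then on `t ≥ U` half of the right integrand dominates the left
one.  The rest of the left side is at most `(C1 (U - t0) + C2) exp (3 N U)` and the other half of the
right side is at least `c1/2 ∫_{U+1}^{U+2} exp (-κ exp (3t) + 3 N t) ≥ c exp (3 N (U + 1))`, `c > 0`
independent of `N`, which is larger for large `N`.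
-/

set_option autoImplicit false

namespace Pool.Agent.LibFR89

open MeasureTheory Filter Topology

private theorem C3_bound (κ t : ℝ) (hκ : 0 < κ) (N : ℕ) :
    Real.exp (-κ * Real.exp (3 * t)) * Real.exp (3 * N * t) ≤
      ((N + 1).factorial : ℝ) / κ ^ (N + 1) * Real.exp (-3 * t) := by
  have h1 : (κ * Real.exp (3 * t)) ^ (N + 1) / ((N + 1).factorial : ℝ) ≤
      Real.exp (κ * Real.exp (3 * t)) :=
    Real.pow_div_factorial_le_exp _ (by positivity) (N + 1)
  have h2 : Real.exp (3 * N * t) = Real.exp (3 * t) ^ (N + 1) * Real.exp (-3 * t) := by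
    rw [← Real.exp_nat_mul, ← Real.exp_add]
    congr 1
    push_cast
    ring
  rw [neg_mul κ, Real.exp_neg, h2]
  rw [← mul_assoc]
  refine mul_le_mul_of_nonneg_right ?_ (Real.exp_pos _).le
  rw [inv_mul_le_iff₀ (Real.exp_pos _)]
  rw [mul_pow, div_le_iff₀ (by positivity)] at h1
  rw [← mul_div_assoc, le_div_iff₀ (by positivity)]
  linarith

theorem moment_int (κ t0 : ℝ) (hκ : 0 < κ) (N : ℕ) :
    IntegrableOn (fun t : ℝ => Real.exp (-κ * Real.exp (3 * t)) * Real.exp (3 * N * t))
      (Set.Ioi t0) := by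
  have h1 : IntegrableOn (fun t : ℝ => ((N + 1).factorial : ℝ) / κ ^ (N + 1) * Real.exp (-3 * t))
      (Set.Ioi t0) := (exp_neg_integrableOn_Ioi t0 (by norm_num : (0 : ℝ) < 3)).const_mul _
  refine Integrable.mono' h1 ?_ (ae_of_all _ fun t => ?_)
  · exact (by fun_prop : Continuous (fun t : ℝ =>
      Real.exp (-κ * Real.exp (3 * t)) * Real.exp (3 * N * t))).aestronglyMeasurable
  · rw [Real.norm_eq_abs, abs_of_pos (by positivity)]
    exact C3_bound κ t hκ N

theorem compare (κ s' c1 C1 C2 t0 : ℝ) (hκ : 0 < κ) (hs : κ < s') (hc : 0 < c1) (hC1 : 0 ≤ C1)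
    (hC2 : 0 ≤ C2) : ∃ N0 : ℕ, ∀ N : ℕ, N0 ≤ N →
    C1 * (∫ t in Set.Ioi t0, Real.exp (-s' * Real.exp (3 * t)) * Real.exp (3 * N * t)) +
      C2 * Real.exp (3 * N * t0) <
    c1 * ∫ t in Set.Ioi t0, Real.exp (-κ * Real.exp (3 * t)) * Real.exp (3 * N * t) := by
  have hd : 0 < s' - κ := by linarith
  obtain ⟨U, hU1, hU2⟩ : ∃ U : ℝ, t0 ≤ U ∧ 2 * C1 ≤ c1 * Real.exp ((s' - κ) * Real.exp (3 * U)) := by
    refine ⟨max t0 (2 * C1 / (c1 * (3 * (s' - κ)))), le_max_left _ _, ?_⟩
    set U := max t0 (2 * C1 / (c1 * (3 * (s' - κ)))) with hU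
    have h1 : 2 * C1 / (c1 * (3 * (s' - κ))) ≤ U := le_max_right _ _
    rw [div_le_iff₀ (by positivity)] at h1
    have h2 : 3 * U ≤ Real.exp (3 * U) := by linarith [Real.add_one_le_exp (3 * U)]
    have h3 : (s' - κ) * (3 * U) ≤ Real.exp ((s' - κ) * Real.exp (3 * U)) := by
      have h4 := Real.add_one_le_exp ((s' - κ) * Real.exp (3 * U))
      have h5 := mul_le_mul_of_nonneg_left h2 hd.le
      linarith
    have h6 := mul_le_mul_of_nonneg_left h3 hc.le
    nlinarith
  set A : ℝ := C1 * (U - t0) + C2 with hA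
  set B : ℝ := c1 / 2 * Real.exp (-κ * Real.exp (3 * (U + 2))) with hB
  have hB0 : 0 < B := by positivity
  obtain ⟨N0, hN0⟩ := exists_nat_gt (A / B)
  refine ⟨N0, fun N hN => ?_⟩
  have hAB : A < B * Real.exp (3 * N) := by
    have h1 : A < N * B := by
      rw [div_lt_iff₀ hB0] at hN0
      have h2 : (N0 : ℝ) * B ≤ N * B := by
        have h3 : (N0 : ℝ) ≤ N := by exact_mod_cast hN
        nlinarith
      linarith
    have h4 : (N : ℝ) ≤ Real.exp (3 * N) := by
      have h5 := Real.add_one_le_exp (3 * (N : ℝ))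
      have h6 : (0 : ℝ) ≤ N := Nat.cast_nonneg N
      linarith
    nlinarith
  have hI := fun a (ha : 0 < a) t => moment_int a t ha N
  have hs0 : 0 < s' := by linarith
  have hsplit : ∀ a : ℝ, 0 < a →
      ∫ t in Set.Ioi t0, Real.exp (-a * Real.exp (3 * t)) * Real.exp (3 * N * t) =
      (∫ t in Set.Ioc t0 U, Real.exp (-a * Real.exp (3 * t)) * Real.exp (3 * N * t)) +
      ∫ t in Set.Ioi U, Real.exp (-a * Real.exp (3 * t)) * Real.exp (3 * N * t) := by
    intro a ha
    rw [← Set.Ioc_union_Ioi_eq_Ioi hU1]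
    refine setIntegral_union Set.Ioc_disjoint_Ioi_same measurableSet_Ioi ?_ (hI a ha U)
    exact (hI a ha t0).mono_set Set.Ioc_subset_Ioi_self
  have hL1 : ∫ t in Set.Ioc t0 U, Real.exp (-s' * Real.exp (3 * t)) * Real.exp (3 * N * t) ≤
      (U - t0) * Real.exp (3 * N * U) := by
    have h1 : ∫ t in Set.Ioc t0 U, Real.exp (-s' * Real.exp (3 * t)) * Real.exp (3 * N * t) ≤
        ∫ t in Set.Ioc t0 U, Real.exp (3 * N * U) := by
      refine setIntegral_mono_on ((hI s' hs0 t0).mono_set Set.Ioc_subset_Ioi_self) ?_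
        measurableSet_Ioc ?_
      · exact integrableOn_const (by simp)
      · intro t ht
        have h2 : Real.exp (-s' * Real.exp (3 * t)) ≤ 1 := by
          rw [Real.exp_le_one_iff]
          have := Real.exp_pos (3 * t)
          nlinarith
        have h3 : Real.exp (3 * N * t) ≤ Real.exp (3 * N * U) := by
          rw [Real.exp_le_exp]
          exact mul_le_mul_of_nonneg_left ht.2 (by positivity)
        calc _ ≤ 1 * Real.exp (3 * N * t) :=
              mul_le_mul_of_nonneg_right h2 (Real.exp_pos _).le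
          _ ≤ _ := by rw [one_mul]; exact h3
    rw [setIntegral_const, Real.volume_real_Ioc_of_le hU1, smul_eq_mul] at h1
    exact h1
  have hL2 : C1 * ∫ t in Set.Ioi U, Real.exp (-s' * Real.exp (3 * t)) * Real.exp (3 * N * t) ≤
      c1 / 2 * ∫ t in Set.Ioi U, Real.exp (-κ * Real.exp (3 * t)) * Real.exp (3 * N * t) := by
    rw [← integral_const_mul, ← integral_const_mul]
    refine setIntegral_mono_on ((hI s' hs0 U).const_mul _) ((hI κ hκ U).const_mul _)
      measurableSet_Ioi ?_
    intro t ht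
    have ht' : U < t := ht
    rw [← mul_assoc, ← mul_assoc]
    refine mul_le_mul_of_nonneg_right ?_ (Real.exp_pos _).le
    have h1 : Real.exp (-κ * Real.exp (3 * t)) =
        Real.exp (-s' * Real.exp (3 * t)) * Real.exp ((s' - κ) * Real.exp (3 * t)) := by
      rw [← Real.exp_add]
      congr 1
      ring
    have h2 : Real.exp ((s' - κ) * Real.exp (3 * U)) ≤ Real.exp ((s' - κ) * Real.exp (3 * t)) := by
      rw [Real.exp_le_exp]
      refine mul_le_mul_of_nonneg_left ?_ hd.le
      rw [Real.exp_le_exp]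
      linarith
    rw [h1]
    have h3 : C1 ≤ c1 / 2 * Real.exp ((s' - κ) * Real.exp (3 * t)) := by
      have := mul_le_mul_of_nonneg_left h2 hc.le
      linarith
    have h4 := mul_le_mul_of_nonneg_left h3 (Real.exp_pos (-s' * Real.exp (3 * t))).le
    linarith
  have hR1 : 0 ≤ ∫ t in Set.Ioc t0 U, Real.exp (-κ * Real.exp (3 * t)) * Real.exp (3 * N * t) :=
    setIntegral_nonneg measurableSet_Ioc fun t _ => by positivity
  have hR2 : Real.exp (-κ * Real.exp (3 * (U + 2))) * Real.exp (3 * N * (U + 1)) ≤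
      ∫ t in Set.Ioi U, Real.exp (-κ * Real.exp (3 * t)) * Real.exp (3 * N * t) := by
    have h1 : ∫ t in Set.Ioc (U + 1) (U + 2), Real.exp (-κ * Real.exp (3 * t)) *
        Real.exp (3 * N * t) ≤
        ∫ t in Set.Ioi U, Real.exp (-κ * Real.exp (3 * t)) * Real.exp (3 * N * t) := by
      refine setIntegral_mono_set (hI κ hκ U) (ae_of_all _ fun t => by
        change (0 : ℝ) ≤ Real.exp (-κ * Real.exp (3 * t)) * Real.exp (3 * N * t)
        positivity) ?_
      refine HasSubset.Subset.eventuallyLE ?_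
      intro t ht
      have := ht.1
      change U < t
      linarith
    refine le_trans ?_ h1
    have h2 : ∫ t in Set.Ioc (U + 1) (U + 2), Real.exp (-κ * Real.exp (3 * (U + 2))) *
        Real.exp (3 * N * (U + 1)) ≤
        ∫ t in Set.Ioc (U + 1) (U + 2), Real.exp (-κ * Real.exp (3 * t)) *
        Real.exp (3 * N * t) := by
      refine setIntegral_mono_on ?_ ((hI κ hκ (U + 1)).mono_set Set.Ioc_subset_Ioi_self)
        measurableSet_Ioc ?_
      · exact integrableOn_const (by simp)
      · intro t ht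
        refine mul_le_mul ?_ ?_ (Real.exp_pos _).le (Real.exp_pos _).le
        · rw [Real.exp_le_exp, neg_mul, neg_mul, neg_le_neg_iff]
          refine mul_le_mul_of_nonneg_left ?_ hκ.le
          rw [Real.exp_le_exp]
          linarith [ht.2]
        · rw [Real.exp_le_exp]
          exact mul_le_mul_of_nonneg_left ht.1.le (by positivity)
    rw [setIntegral_const, Real.volume_real_Ioc_of_le (by linarith), smul_eq_mul] at h2
    linarith
  rw [hsplit s' hs0, hsplit κ hκ]
  have hE : Real.exp (3 * N * (U + 1)) = Real.exp (3 * N * U) * Real.exp (3 * N) := by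
    rw [← Real.exp_add]
    congr 1
    ring
  have hE2 : Real.exp (3 * N * t0) ≤ Real.exp (3 * N * U) := by
    rw [Real.exp_le_exp]
    exact mul_le_mul_of_nonneg_left hU1 (by positivity)
  have hP := Real.exp_pos (3 * N * U)
  have k1 := mul_le_mul_of_nonneg_left hL1 hC1
  have k2 := mul_le_mul_of_nonneg_left hE2 hC2
  have k3 := mul_le_mul_of_nonneg_left hR2 (by positivity : 0 ≤ c1 / 2)
  have k4 : A * Real.exp (3 * N * U) < B * Real.exp (3 * N) * Real.exp (3 * N * U) :=
    mul_lt_mul_of_pos_right hAB hP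
  have k5 : B * Real.exp (3 * N) * Real.exp (3 * N * U) =
      c1 / 2 * (Real.exp (-κ * Real.exp (3 * (U + 2))) * Real.exp (3 * N * (U + 1))) := by
    rw [hE, hB]
    ring
  have k6 := mul_nonneg hc.le hR1
  rw [hA] at k4
  nlinarith

end Pool.Agent.LibFR89
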