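import Mathlib
import Pool.Agent.LibFR89.Defs
import Pool.Agent.LibFR89.C1
import Pool.Agent.LibFR89.C2
import Pool.Agent.LibFR89.C3

set_option autoImplicit false

/-!
# Row C4 (MEDIUM): the sign of the coefficients

Let `t1 → ∞` in row C1.  The second integral converges absolutely (`hT`, `moment_int`), the far side
tends to `c0 b N π/3` (row C2; `hexp` gives for each `N` the constants), the near side is bounded by
`C2 exp (3 N t0)`, `C2 = π/3 * sup ‖s (t0 + i θ)‖`.  So
`∫_{t0}^{t1} Im s(t) exp (3 N t) dt` converges (to `G`), and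
`c0 b N π/3 = - G + (-1)^N T + near`, `G ≥ c1 ∫ exp (-κ exp (3t)) exp (3 N t)` (`hG`),
`|T| ≤ C1 ∫ exp (-s' exp (3t)) exp (3 N t)`.  Row C3.
-/

namespace Pool.Agent.LibFR89

open MeasureTheory Filter Topology

theorem sign_lemma (s : ℂ → ℂ) (b : ℕ → ℝ) (c0 t0 κ s' c1 C1 : ℝ) (hc0 : 0 < c0) (hκ : 0 < κ)
    (hs : κ < s') (hc1 : 0 < c1)
    (hd : ∀ ξ : ℂ, t0 ≤ ξ.re → 0 ≤ ξ.im → ξ.im ≤ Real.pi / 3 → DifferentiableAt ℂ s ξ)
    (hexp : ∀ N : ℕ, ∃ C R : ℝ, ∀ ξ : ℂ, R ≤ ξ.re → 0 ≤ ξ.im → ξ.im ≤ Real.pi / 3 →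
      ‖s ξ - (c0 : ℂ) * ∑ n ∈ Finset.range (N + 1), (b n : ℂ) * Complex.exp (-3 * n * ξ)‖ ≤
        C * Real.exp (-3 * ((N : ℝ) + 1) * ξ.re))
    (hG : ∀ t : ℝ, t0 ≤ t → c1 * Real.exp (-κ * Real.exp (3 * t)) ≤ (s (t : ℂ)).im)
    (hT : ∀ t : ℝ, t0 ≤ t → |(s ((t : ℂ) + (Real.pi / 3 : ℝ) * Complex.I)).im| ≤
      C1 * Real.exp (-s' * Real.exp (3 * t))) :
    ∃ N0 : ℕ, ∀ N : ℕ, N0 ≤ N → b N < 0 := by
  have hpi : 0 < Real.pi := Real.pi_pos
  have hs' : 0 < s' := hκ.trans hs
  have hC1 : 0 ≤ C1 := by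
    have h1 := (abs_nonneg _).trans (hT t0 le_rfl)
    by_contra h
    push Not at h
    have := mul_neg_of_neg_of_pos h (Real.exp_pos (-s' * Real.exp (3 * t0)))
    linarith
  -- continuity
  have hcont : ∀ ξ : ℂ, t0 ≤ ξ.re → 0 ≤ ξ.im → ξ.im ≤ Real.pi / 3 → ContinuousAt s ξ :=
    fun ξ h1 h2 h3 => (hd ξ h1 h2 h3).continuousAt
  -- bound on the near side
  obtain ⟨M, hM⟩ : ∃ M : ℝ, ∀ θ ∈ Set.Icc (0 : ℝ) (Real.pi / 3), ‖s ((t0 : ℂ) + (θ : ℂ) * Complex.I)‖ ≤ M := by
    have hc : ContinuousOn (fun θ : ℝ => s ((t0 : ℂ) + (θ : ℂ) * Complex.I)) (Set.Icc 0 (Real.pi / 3)) := by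
      intro θ hθ
      apply ContinuousAt.continuousWithinAt
      apply ContinuousAt.comp (g := s)
      · apply hcont
        · simp
        · simpa using hθ.1
        · simpa using hθ.2
      · fun_prop
    obtain ⟨M, hM⟩ := isCompact_Icc.exists_bound_of_continuousOn hc
    exact ⟨M, hM⟩
  have hM0 : 0 ≤ M := (norm_nonneg _).trans (hM 0 ⟨le_rfl, by positivity⟩)
  obtain ⟨N0, hN0⟩ := compare κ s' c1 C1 (M * (Real.pi / 3)) t0 hκ hs hc1 hC1 (by positivity)
  refine ⟨N0, fun N hN => ?_⟩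
  have hcmp := hN0 N hN
  -- far side
  obtain ⟨C, R, hCR⟩ := hexp N
  have hfar := far_side s N c0 b C (max R t0)
    (fun ξ h1 h2 h3 => hcont ξ ((le_max_right _ _).trans h1) h2 h3)
    (fun ξ h1 h2 h3 => hCR ξ ((le_max_left _ _).trans h1) h2 h3)
  -- near side
  have hnear : |(Complex.I * ∫ θ in (0 : ℝ)..(Real.pi / 3), s ((t0 : ℂ) + (θ : ℂ) * Complex.I) *
        Complex.exp (3 * N * ((t0 : ℂ) + (θ : ℂ) * Complex.I))).im| ≤ M * (Real.pi / 3) * Real.exp (3 * N * t0) := by
    refine (Complex.abs_im_le_norm _).trans ?_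
    rw [norm_mul, Complex.norm_I, one_mul]
    have h1 := intervalIntegral.norm_integral_le_of_norm_le_const (a := 0) (b := Real.pi / 3)
      (C := M * Real.exp (3 * N * t0)) (f := fun θ : ℝ => s ((t0 : ℂ) + (θ : ℂ) * Complex.I) *
        Complex.exp (3 * N * ((t0 : ℂ) + (θ : ℂ) * Complex.I))) (by
        intro θ hθ
        rw [Set.uIoc_of_le (by positivity)] at hθ
        rw [norm_mul, Complex.norm_exp]
        have h2 : (3 * (N : ℂ) * ((t0 : ℂ) + (θ : ℂ) * Complex.I)).re = 3 * N * t0 := by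
          simp
        rw [h2]
        exact mul_le_mul_of_nonneg_right (hM θ ⟨hθ.1.le, hθ.2⟩) (Real.exp_pos _).le)
    refine h1.trans (le_of_eq ?_)
    rw [sub_zero, abs_of_pos (by positivity)]
    ring
  -- integrability
  have hI : ∀ κ : ℝ, 0 < κ → IntegrableOn (fun t : ℝ => Real.exp (-κ * Real.exp (3 * t)) * Real.exp (3 * N * t))
      (Set.Ioi t0) := fun κ hκ => moment_int κ t0 hκ N
  have hlow : ∀ t1, t0 ≤ t1 → c1 * (∫ t in t0..t1, Real.exp (-κ * Real.exp (3 * t)) * Real.exp (3 * N * t)) ≤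
      ∫ t in t0..t1, (s (t : ℂ)).im * Real.exp (3 * N * t) := by
    intro t1 ht
    rw [← intervalIntegral.integral_const_mul]
    apply intervalIntegral.integral_mono_on ht
    · apply Continuous.intervalIntegrable
      fun_prop
    · apply ContinuousOn.intervalIntegrable
      rw [Set.uIcc_of_le ht]
      intro t h1
      apply ContinuousAt.continuousWithinAt
      apply ContinuousAt.mul
      · apply ContinuousAt.comp (g := Complex.im) Complex.continuous_im.continuousAt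
        apply ContinuousAt.comp (g := s)
        · apply hcont
          · simpa using h1.1
          · simp
          · simp; positivity
        · exact Complex.continuous_ofReal.continuousAt
      · fun_prop
    · intro t h1
      rw [← mul_assoc]
      exact mul_le_mul_of_nonneg_right (hG t h1.1) (Real.exp_pos _).le
  have hup : ∀ t1, t0 ≤ t1 → |∫ t in t0..t1, (s ((t : ℂ) + (Real.pi / 3 : ℝ) * Complex.I)).im *
        Real.exp (3 * N * t)| ≤ C1 * (∫ t in Set.Ioi t0, Real.exp (-s' * Real.exp (3 * t)) * Real.exp (3 * N * t)) := by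
    intro t1 ht
    have h1 := intervalIntegral.norm_integral_le_of_norm_le (μ := volume) (a := t0) (b := t1) ht
      (f := fun t : ℝ => (s ((t : ℂ) + (Real.pi / 3 : ℝ) * Complex.I)).im * Real.exp (3 * N * t))
      (g := fun t : ℝ => C1 * (Real.exp (-s' * Real.exp (3 * t)) * Real.exp (3 * N * t)))
      (by
        refine Filter.Eventually.of_forall fun t h2 => ?_
        rw [norm_mul, Real.norm_eq_abs, Real.norm_eq_abs, abs_of_pos (Real.exp_pos (3 * N * t)), ← mul_assoc]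
        exact mul_le_mul_of_nonneg_right (hT t h2.1.le) (Real.exp_pos _).le)
      (by
        apply Continuous.intervalIntegrable
        fun_prop)
    rw [Real.norm_eq_abs] at h1
    refine h1.trans ?_
    rw [intervalIntegral.integral_const_mul]
    apply mul_le_mul_of_nonneg_left _ hC1
    rw [intervalIntegral.integral_of_le ht]
    apply setIntegral_mono_set (hI s' hs')
    · exact Filter.Eventually.of_forall fun t => by positivity
    · exact Set.Ioc_subset_Ioi_self.eventuallyLE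
  -- for all t1
  have hall : ∀ t1, t0 ≤ t1 → c1 * (∫ t in t0..t1, Real.exp (-κ * Real.exp (3 * t)) * Real.exp (3 * N * t)) ≤
      C1 * (∫ t in Set.Ioi t0, Real.exp (-s' * Real.exp (3 * t)) * Real.exp (3 * N * t)) +
      M * (Real.pi / 3) * Real.exp (3 * N * t0) - (Complex.I * ∫ θ in (0 : ℝ)..(Real.pi / 3),
        s ((t1 : ℂ) + (θ : ℂ) * Complex.I) *
        Complex.exp (3 * N * ((t1 : ℂ) + (θ : ℂ) * Complex.I))).im := by
    intro t1 ht
    have h1 := rect_im s t0 t1 ht N hd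
    have h2 := hlow t1 ht
    have h3 := hup t1 ht
    have h4 := hnear
    have h5 : |(-1 : ℝ) ^ N * (∫ t in t0..t1, (s ((t : ℂ) + (Real.pi / 3 : ℝ) * Complex.I)).im *
        Real.exp (3 * N * t))| ≤ C1 * (∫ t in Set.Ioi t0, Real.exp (-s' * Real.exp (3 * t)) * Real.exp (3 * N * t)) := by
      rw [abs_mul, abs_pow, abs_neg, abs_one, one_pow, one_mul]
      exact h3
    have h6 := (abs_le.1 h5).2
    have h7 := (abs_le.1 h4).2
    linarith
  have hlim : Tendsto (fun t1 : ℝ => c1 * (∫ t in t0..t1, Real.exp (-κ * Real.exp (3 * t)) * Real.exp (3 * N * t)))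
      atTop (𝓝 (c1 * (∫ t in Set.Ioi t0, Real.exp (-κ * Real.exp (3 * t)) * Real.exp (3 * N * t)))) :=
    (intervalIntegral_tendsto_integral_Ioi t0 (hI κ hκ) tendsto_id).const_mul c1
  have hfin := le_of_tendsto_of_tendsto hlim (hfar.const_sub (C1 * (∫ t in Set.Ioi t0, Real.exp (-s' * Real.exp (3 * t)) * Real.exp (3 * N * t)) +
      M * (Real.pi / 3) * Real.exp (3 * N * t0))) (by
        filter_upwards [eventually_ge_atTop t0] with t1 ht
        exact hall t1 ht)
  have h8 : c0 * b N * (Real.pi / 3) < 0 := by linarith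
  by_contra h9
  push Not at h9
  have : 0 ≤ c0 * b N * (Real.pi / 3) := by positivity
  linarith

end Pool.Agent.LibFR89
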