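import Mathlib
import Pool.Agent.LibFR89.Defs
import Pool.Agent.LibFR89.A7
import Pool.Agent.LibFR89.A11

/-!
# Row P2 (EASY): norm and holomorphy of the integrand

`‖exp (lam L w)‖ = exp (lam Re (L w)) = ‖exp (L w)‖ ^ lam = ‖Af w‖ ^ lam` (real power; `Af w ≠ 0` as an
exponential).  `‖exp (-2/3 lam w^3)‖ ‖Af w‖^lam = ‖Bn 0 (w^2)‖^lam` by row A7.
Bound: row A11.
-/

set_option autoImplicit false

namespace Pool.Agent.LibFR89

open MeasureTheory Filter Topology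

private theorem P2_expL_norm (D : AL) (lam : ℝ) (w : ℂ) (hw : 0 < w.re) :
    ‖Complex.exp ((lam : ℂ) * D.L w)‖ = ‖Af w‖ ^ lam := by
  rw [Complex.norm_exp, Complex.re_ofReal_mul, ← D.exp_L w hw, Complex.norm_exp, mul_comm lam,
    Real.exp_mul]

private theorem P2_expL_le (D : AL) (lam : ℝ) (hl : 0 ≤ lam) (w : ℂ) (hw : 0 < w.re) :
    ‖Complex.exp ((lam : ℂ) * D.L w)‖ ≤ (Real.pi / w.re) ^ (lam / 2) := by
  rw [P2_expL_norm D lam w hw]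
  have h0 : 0 ≤ Real.pi / w.re := div_nonneg Real.pi_pos.le hw.le
  refine (Real.rpow_le_rpow (norm_nonneg _) (Af_bound w hw) hl).trans (le_of_eq ?_)
  rw [Real.sqrt_eq_rpow, ← Real.rpow_mul h0]
  congr 1
  ring

theorem ff_norm (D : AL) (lam : ℝ) (σ w : ℂ) (hw : 0 < w.re) :
    ‖ff D lam σ w‖ = Real.exp (lam * (σ * w ^ 2 - 2 / 3 * w ^ 3).re) * ‖w‖ * ‖Af w‖ ^ lam := by
  have h1 : ‖Complex.exp ((lam : ℂ) * (σ * w ^ 2 - 2 / 3 * w ^ 3))‖ =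
      Real.exp (lam * (σ * w ^ 2 - 2 / 3 * w ^ 3).re) := by
    rw [Complex.norm_exp, Complex.re_ofReal_mul]
  rw [ff, norm_mul, norm_mul, P2_expL_norm D lam w hw, h1]

theorem ff_le (D : AL) (lam : ℝ) (hl : 0 ≤ lam) (σ w : ℂ) (hw : 0 < w.re) :
    ‖ff D lam σ w‖ ≤ Real.exp (lam * (σ * w ^ 2 - 2 / 3 * w ^ 3).re) * ‖w‖ *
      (Real.pi / w.re) ^ (lam / 2) := by
  rw [ff_norm D lam σ w hw, ← P2_expL_norm D lam w hw]
  exact mul_le_mul_of_nonneg_left (P2_expL_le D lam hl w hw) (by positivity)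

theorem ff_norm_B (D : AL) (lam : ℝ) (σ w : ℂ) (hw : 0 < w.re) :
    ‖ff D lam σ w‖ = Real.exp (lam * (σ * w ^ 2).re) * ‖w‖ * ‖Bn 0 (w ^ 2)‖ ^ lam := by
  rw [ff_norm D lam σ w hw, Af_eq w hw, norm_mul, Complex.norm_exp,
    Real.mul_rpow (Real.exp_pos _).le (norm_nonneg _), ← Real.exp_mul]
  have h2 : Real.exp (lam * (σ * w ^ 2).re) = Real.exp (lam * (σ * w ^ 2 - 2 / 3 * w ^ 3).re) *
      Real.exp ((2 / 3 * w ^ 3).re * lam) := by
    rw [← Real.exp_add, Complex.sub_re]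
    congr 1
    ring
  rw [h2]
  ring

theorem expL_norm_le (D : AL) (lam : ℝ) (hl : 0 ≤ lam) (w : ℂ) (hw : 0 < w.re) :
    ‖Complex.exp ((lam : ℂ) * D.L w)‖ ≤ (Real.pi / w.re) ^ (lam / 2) := by
  exact P2_expL_le D lam hl w hw

theorem ff_diff (D : AL) (lam : ℝ) (σ : ℂ) :
    DifferentiableOn ℂ (ff D lam σ) {w : ℂ | 0 < w.re} := by
  have h1 : DifferentiableOn ℂ (fun w : ℂ => Complex.exp ((lam : ℂ) *
      (σ * w ^ 2 - 2 / 3 * w ^ 3)) * w) {w : ℂ | 0 < w.re} := by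
    have h2 : Differentiable ℂ (fun w : ℂ => Complex.exp ((lam : ℂ) *
      (σ * w ^ 2 - 2 / 3 * w ^ 3)) * w) := by fun_prop
    exact h2.differentiableOn
  exact h1.mul (D.diff.const_mul (lam : ℂ)).cexp

theorem expL_cont (D : AL) (lam : ℝ) :
    ContinuousOn (fun w : ℂ => Complex.exp ((lam : ℂ) * D.L w)) {w : ℂ | 0 < w.re} := by
  exact (D.diff.const_mul (lam : ℂ)).cexp.continuousOn

end Pool.Agent.LibFR89
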