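import Mathlib
import Pool.Agent.LibFR89.Defs
import Pool.Agent.LibFR89.A5
import Pool.Agent.LibFR89.P2

/-!
# Row G1 (EASY): crude bound near the imaginary axis

`ff_norm_B` (row P2) and row A5 (`n = 0`): `w = p + i y`, `w^2 = p^2 - y^2 + 2 i p y`,
`‖Bn 0 (w^2)‖ ≤ C exp (-p^2 + y^2 + 2 p^2 y^2) ≤ C exp (3 y^2)` for `0 < p ≤ 1`, `‖w‖ ≤ 1 + y`,
`Re (x w^2) = x (p^2 - y^2)`.
-/

set_option autoImplicit false

namespace Pool.Agent.LibFR89

open MeasureTheory Filter Topology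

theorem ff_crude (D : AL) (lam : ℝ) (hl : 0 < lam) : ∃ C : ℝ, 0 < C ∧ ∀ x p y : ℝ, 0 < p →
    p ≤ 1 → 0 ≤ y → ‖ff D lam (x : ℂ) ((p : ℂ) + (y : ℂ) * Complex.I)‖ ≤
      C * Real.exp (lam * x * p ^ 2) * ((1 + y) * Real.exp (-lam * (x - 3) * y ^ 2)) := by
  obtain ⟨C0, hC0, hB⟩ := Bn_bound 0
  refine ⟨C0 ^ lam, Real.rpow_pos_of_pos hC0 lam, fun x p y hp hp1 hy => ?_⟩
  have hw : 0 < ((p : ℂ) + (y : ℂ) * Complex.I).re := by simpa using hp
  rw [ff_norm_B D lam _ _ hw]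
  have hre : (((p : ℂ) + (y : ℂ) * Complex.I) ^ 2).re = p ^ 2 - y ^ 2 := by
    simp [pow_two]
  have him : (((p : ℂ) + (y : ℂ) * Complex.I) ^ 2).im = 2 * p * y := by
    simp [pow_two]
    ring
  have hxre : ((x : ℂ) * ((p : ℂ) + (y : ℂ) * Complex.I) ^ 2).re = x * (p ^ 2 - y ^ 2) := by
    rw [Complex.re_ofReal_mul, hre]
  have hn : ‖(p : ℂ) + (y : ℂ) * Complex.I‖ ≤ 1 + y := by
    refine (norm_add_le _ _).trans ?_
    rw [norm_mul, Complex.norm_I, mul_one, Complex.norm_real, Complex.norm_real,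
      Real.norm_of_nonneg hp.le, Real.norm_of_nonneg hy]
    linarith
  have hb : ‖Bn 0 (((p : ℂ) + (y : ℂ) * Complex.I) ^ 2)‖ ≤ C0 * Real.exp (3 * y ^ 2) := by
    refine (hB _).trans ?_
    rw [hre, him]
    refine mul_le_mul_of_nonneg_left (Real.exp_le_exp.2 ?_) hC0.le
    have h1 : p ^ 2 ≤ 1 := by nlinarith
    nlinarith [mul_nonneg (sub_nonneg.2 h1) (sq_nonneg y), sq_nonneg p]
  have hb2 : ‖Bn 0 (((p : ℂ) + (y : ℂ) * Complex.I) ^ 2)‖ ^ lam ≤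
      C0 ^ lam * Real.exp (lam * (3 * y ^ 2)) := by
    refine (Real.rpow_le_rpow (norm_nonneg _) hb hl.le).trans (le_of_eq ?_)
    rw [Real.mul_rpow hC0.le (Real.exp_pos _).le, ← Real.exp_mul, mul_comm lam]
  rw [hxre]
  have e1 : C0 ^ lam * Real.exp (lam * x * p ^ 2) * ((1 + y) * Real.exp (-lam * (x - 3) * y ^ 2)) =
      Real.exp (lam * (x * (p ^ 2 - y ^ 2))) * (1 + y) * (C0 ^ lam * Real.exp (lam * (3 * y ^ 2))) := by
    have h2 : Real.exp (lam * x * p ^ 2) * Real.exp (-lam * (x - 3) * y ^ 2) =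
        Real.exp (lam * (x * (p ^ 2 - y ^ 2))) * Real.exp (lam * (3 * y ^ 2)) := by
      rw [← Real.exp_add, ← Real.exp_add]
      congr 1
      ring
    linear_combination C0 ^ lam * (1 + y) * h2
  rw [e1]
  have h3 : 0 ≤ 1 + y := by linarith
  refine mul_le_mul ?_ hb2 (Real.rpow_nonneg (norm_nonneg _) _) (by positivity)
  exact mul_le_mul_of_nonneg_left hn (Real.exp_pos _).le

end Pool.Agent.LibFR89
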