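import Mathlib
import Pool.Agent.LibFR89.Defs

/-!
# Row G2 (EASY, ONLY Defs): the boundary values of the integrand on the imaginary axis

`ff D lam x w = exp (lam x w^2) * w * exp (lam (L w - 2/3 w^3))`; `D.lim0`, `D.lim1`, continuity.
-/

set_option autoImplicit false

namespace Pool.Agent.LibFR89

open MeasureTheory Filter Topology

private theorem G2_aux (D : AL) (lam x y : ℝ) (c : ℂ)
    (h : Tendsto (fun p : ℝ => D.L ((p : ℂ) + (y : ℂ) * Complex.I) -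
      2 / 3 * ((p : ℂ) + (y : ℂ) * Complex.I) ^ 3) (𝓝[>] 0) (𝓝 c)) :
    Tendsto (fun p : ℝ => ff D lam (x : ℂ) ((p : ℂ) + (y : ℂ) * Complex.I)) (𝓝[>] 0)
      (𝓝 (Complex.exp ((lam : ℂ) * (x : ℂ) * ((y : ℂ) * Complex.I) ^ 2) * ((y : ℂ) * Complex.I) *
        Complex.exp ((lam : ℂ) * c))) := by
  have h1 : (fun p : ℝ => ff D lam (x : ℂ) ((p : ℂ) + (y : ℂ) * Complex.I)) = fun p : ℝ =>
      Complex.exp ((lam : ℂ) * (x : ℂ) * ((p : ℂ) + (y : ℂ) * Complex.I) ^ 2) *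
        ((p : ℂ) + (y : ℂ) * Complex.I) *
        Complex.exp ((lam : ℂ) * (D.L ((p : ℂ) + (y : ℂ) * Complex.I) -
          2 / 3 * ((p : ℂ) + (y : ℂ) * Complex.I) ^ 3)) := by
    funext p
    rw [ff]
    generalize (p : ℂ) + (y : ℂ) * Complex.I = w
    rw [mul_right_comm, ← Complex.exp_add, mul_right_comm (Complex.exp _) w, ← Complex.exp_add]
    congr 2
    ring
  rw [h1]
  have h2 : Tendsto (fun p : ℝ => (p : ℂ) + (y : ℂ) * Complex.I) (𝓝[>] 0)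
      (𝓝 ((y : ℂ) * Complex.I)) := by
    have h3 : Continuous fun p : ℝ => (p : ℂ) + (y : ℂ) * Complex.I :=
      Complex.continuous_ofReal.add continuous_const
    have h4 := h3.tendsto 0
    rw [Complex.ofReal_zero, zero_add] at h4
    exact h4.mono_left nhdsWithin_le_nhds
  have h5 : Tendsto (fun p : ℝ => Complex.exp ((lam : ℂ) * (x : ℂ) *
      ((p : ℂ) + (y : ℂ) * Complex.I) ^ 2)) (𝓝[>] 0)
      (𝓝 (Complex.exp ((lam : ℂ) * (x : ℂ) * ((y : ℂ) * Complex.I) ^ 2))) :=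
    (Complex.continuous_exp.tendsto _).comp ((h2.pow 2).const_mul _)
  exact (h5.mul h2).mul ((Complex.continuous_exp.tendsto _).comp (h.const_mul _))

theorem ghost_lim0 (D : AL) (lam x : ℝ) (y : ℝ) (hy : 0 < y) (h : y ^ 2 < D.a) :
    Tendsto (fun p : ℝ => ff D lam (x : ℂ) ((p : ℂ) + (y : ℂ) * Complex.I)) (𝓝[>] 0)
      (𝓝 (Complex.I * ((y * Real.exp (-lam * x * y ^ 2) *
        Real.exp (lam * Real.log ‖Bn 0 (-((y : ℂ) ^ 2))‖) : ℝ) : ℂ))) := by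
  have h1 := G2_aux D lam x y _ (D.lim0 y hy h)
  convert h1 using 2
  rw [mul_pow, Complex.I_sq]
  push_cast
  rw [show (lam : ℂ) * (x : ℂ) * ((y : ℂ) ^ 2 * -1) = -(lam : ℂ) * (x : ℂ) * (y : ℂ) ^ 2 by ring]
  ring

theorem ghost_lim1 (D : AL) (lam x : ℝ) (y : ℝ) (hy : 0 < y) (h1 : D.a < y ^ 2)
    (h2 : y ^ 2 < D.T) :
    Tendsto (fun p : ℝ => ff D lam (x : ℂ) ((p : ℂ) + (y : ℂ) * Complex.I)) (𝓝[>] 0)
      (𝓝 (Complex.I * ((y * Real.exp (-lam * x * y ^ 2) *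
        Real.exp (lam * Real.log ‖Bn 0 (-((y : ℂ) ^ 2))‖) : ℝ) : ℂ) *
        Complex.exp ((lam : ℂ) * Real.pi * Complex.I))) := by
  have h3 := G2_aux D lam x y _ (D.lim1 y hy h1 h2)
  convert h3 using 2
  rw [mul_pow, Complex.I_sq, mul_add, Complex.exp_add]
  push_cast
  rw [show (lam : ℂ) * (x : ℂ) * ((y : ℂ) ^ 2 * -1) = -(lam : ℂ) * (x : ℂ) * (y : ℂ) ^ 2 by ring,
    ← mul_assoc (lam : ℂ) (Real.pi : ℂ) Complex.I]
  ring

end Pool.Agent.LibFR89
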