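import Mathlib
import Pool.Agent.LibFR89.Defs
import Pool.Agent.LibFR89.P2

/-!
# Row P3 (MEDIUM): decay of the integrand on vertical and horizontal lines

`σ = c + i d`, `w = p + i y`:
`Re (σ w^2 - 2/3 w^3) = c (p^2 - y^2) - 2 d p y - 2/3 (p^3 - 3 p y^2)`.  Vertical: the coefficient of
`y^2` is `-(c - 2 p) ≤ -(c - 2 p2) < 0`, so with `ff_le` (`Re w ≥ p1`) the norm is at most
`C (1 + y) exp (-lam (c - 2 p2) y^2 + 2 lam p2 |d| y)`; take `ε = lam (c - 2 p2)/2`.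
Horizontal (`w = x + i q`, `x ≥ p`, `q` in a bounded interval): the exponent is
`-2/3 lam x^3 + O(x^2)`.
The statement for a ball of `σ` is used for the differentiation in `σ`.
-/

set_option autoImplicit false

namespace Pool.Agent.LibFR89

open MeasureTheory Filter Topology

private theorem P3_re (σ : ℂ) (p y : ℝ) :
    (σ * ((p : ℂ) + (y : ℂ) * Complex.I) ^ 2 - 2 / 3 * ((p : ℂ) + (y : ℂ) * Complex.I) ^ 3).re =
      σ.re * (p ^ 2 - y ^ 2) - 2 * σ.im * p * y - 2 / 3 * (p ^ 3 - 3 * p * y ^ 2) := by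
  have h1 : (2 / 3 : ℂ) = ((2 / 3 : ℝ) : ℂ) := by push_cast; rfl
  rw [h1]
  simp only [pow_succ, pow_zero, one_mul, Complex.sub_re, Complex.mul_re, Complex.add_re,
    Complex.ofReal_re, Complex.I_re, Complex.mul_im, Complex.add_im, Complex.ofReal_im,
    Complex.I_im, mul_zero, mul_one, zero_mul, sub_zero, add_zero, zero_add]
  ring

private theorem P3_norm_le (p y : ℝ) (hp : 0 ≤ p) :
    ‖(p : ℂ) + (y : ℂ) * Complex.I‖ ≤ p + |y| := by
  refine (norm_add_le _ _).trans ?_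
  rw [norm_mul, Complex.norm_I, mul_one, Complex.norm_real, Complex.norm_real, Real.norm_eq_abs,
    Real.norm_eq_abs, abs_of_nonneg hp]

private theorem P3_V (D : AL) (lam : ℝ) (hl : 0 < lam) (c0 c1 d1 p1 p2 : ℝ) (h1 : 0 < p1)
    (h12 : p1 ≤ p2) (hc0 : 2 * p2 < c0) (hc1 : 0 ≤ c1) (hd1 : 0 ≤ d1) : ∃ C ε : ℝ, 0 < C ∧ 0 < ε ∧
    ∀ σ : ℂ, c0 ≤ σ.re → σ.re ≤ c1 → |σ.im| ≤ d1 → ∀ p : ℝ, p1 ≤ p → p ≤ p2 →
      ∀ y : ℝ, 0 ≤ y →
      ‖ff D lam σ ((p : ℂ) + (y : ℂ) * Complex.I)‖ ≤ C * Real.exp (-ε * y ^ 2) := by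
  set A : ℝ := c0 - 2 * p2 with hA
  have hA0 : 0 < A := by linarith
  set B : ℝ := lam * (2 * d1 * p2) + 1 with hB
  have hp2 : 0 < p2 := by linarith
  have hlA : 0 < lam * A := mul_pos hl hA0
  refine ⟨(Real.pi / p1) ^ (lam / 2) * (p2 + 1) *
    Real.exp (lam * (c1 * p2 ^ 2) + B ^ 2 / (2 * (lam * A))), lam * A / 2, ?_, by positivity, ?_⟩
  · have : 0 < Real.pi / p1 := div_pos Real.pi_pos h1
    positivity
  intro σ hσ0 hσ1 hσ2 p hp hpp y hy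
  have hp0 : 0 < p := by linarith
  have hre : ((p : ℂ) + (y : ℂ) * Complex.I).re = p := by simp
  have h3 := ff_le D lam hl.le σ ((p : ℂ) + (y : ℂ) * Complex.I) (by rw [hre]; exact hp0)
  rw [P3_re, hre] at h3
  refine h3.trans ?_
  have e1 : ‖(p : ℂ) + (y : ℂ) * Complex.I‖ ≤ (p2 + 1) * Real.exp y := by
    refine (P3_norm_le p y hp0.le).trans ?_
    rw [abs_of_nonneg hy]
    have h4 := Real.add_one_le_exp y
    nlinarith
  have e2 : (Real.pi / p) ^ (lam / 2) ≤ (Real.pi / p1) ^ (lam / 2) := by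
    refine Real.rpow_le_rpow (by positivity) ?_ (by positivity)
    exact div_le_div_of_nonneg_left Real.pi_pos.le h1 hp
  have e3 : lam * (σ.re * (p ^ 2 - y ^ 2) - 2 * σ.im * p * y - 2 / 3 * (p ^ 3 - 3 * p * y ^ 2)) + y
      ≤ lam * (c1 * p2 ^ 2) + B ^ 2 / (2 * (lam * A)) + -(lam * A / 2) * y ^ 2 := by
    have f1 : σ.re * (p ^ 2 - y ^ 2) - 2 * σ.im * p * y - 2 / 3 * (p ^ 3 - 3 * p * y ^ 2)
        ≤ c1 * p2 ^ 2 - A * y ^ 2 + 2 * d1 * p2 * y := by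
      have g1 : σ.re * p ^ 2 ≤ c1 * p2 ^ 2 := by
        have g2 : p ^ 2 ≤ p2 ^ 2 := pow_le_pow_left₀ hp0.le hpp 2
        have g3 : 0 ≤ p ^ 2 := sq_nonneg p
        nlinarith
      have g4 : -(2 * σ.im * p * y) ≤ 2 * d1 * p2 * y := by
        have g5 : -σ.im ≤ d1 := (neg_le_abs σ.im).trans hσ2
        have g6 : -σ.im * p ≤ d1 * p2 := by
          calc -σ.im * p ≤ d1 * p := mul_le_mul_of_nonneg_right g5 hp0.le
            _ ≤ d1 * p2 := mul_le_mul_of_nonneg_left hpp hd1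
        nlinarith
      have g7 : -(σ.re * y ^ 2) + 2 * p * y ^ 2 ≤ -A * y ^ 2 := by
        have g8 : -(σ.re) + 2 * p ≤ -A := by rw [hA]; linarith
        have := mul_le_mul_of_nonneg_right g8 (sq_nonneg y)
        linarith
      have g9 : 0 ≤ p ^ 3 := by positivity
      nlinarith
    have f2 := mul_le_mul_of_nonneg_left f1 hl.le
    have f3 : -(lam * A) * y ^ 2 + B * y ≤ B ^ 2 / (2 * (lam * A)) + -(lam * A / 2) * y ^ 2 := by
      have f4 : B ^ 2 / (2 * (lam * A)) - (-(lam * A) * y ^ 2 + B * y) + -(lam * A / 2) * y ^ 2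
          = (lam * A * y - B) ^ 2 / (2 * (lam * A)) := by
        field_simp
        ring
      have f5 : 0 ≤ (lam * A * y - B) ^ 2 / (2 * (lam * A)) := by positivity
      linarith
    rw [hB] at f3 ⊢
    nlinarith
  calc Real.exp (lam * (σ.re * (p ^ 2 - y ^ 2) - 2 * σ.im * p * y -
          2 / 3 * (p ^ 3 - 3 * p * y ^ 2))) * ‖(p : ℂ) + (y : ℂ) * Complex.I‖ *
        (Real.pi / p) ^ (lam / 2)
      ≤ Real.exp (lam * (σ.re * (p ^ 2 - y ^ 2) - 2 * σ.im * p * y -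
          2 / 3 * (p ^ 3 - 3 * p * y ^ 2))) * ((p2 + 1) * Real.exp y) *
        (Real.pi / p1) ^ (lam / 2) := by
        gcongr
    _ = (Real.pi / p1) ^ (lam / 2) * (p2 + 1) * Real.exp (lam * (σ.re * (p ^ 2 - y ^ 2) -
          2 * σ.im * p * y - 2 / 3 * (p ^ 3 - 3 * p * y ^ 2)) + y) := by
        rw [Real.exp_add]
        ring
    _ ≤ (Real.pi / p1) ^ (lam / 2) * (p2 + 1) * Real.exp (lam * (c1 * p2 ^ 2) +
          B ^ 2 / (2 * (lam * A)) + -(lam * A / 2) * y ^ 2) := by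
        gcongr
    _ = (Real.pi / p1) ^ (lam / 2) * (p2 + 1) * Real.exp (lam * (c1 * p2 ^ 2) +
          B ^ 2 / (2 * (lam * A))) * Real.exp (-(lam * A / 2) * y ^ 2) := by
        rw [Real.exp_add]
        ring

private theorem P3_cubic (a b m : ℝ) (ha : 0 ≤ a) (hb : 0 ≤ b) (hm : 0 < m) :
    ∃ K : ℝ, ∀ x : ℝ, 0 ≤ x → a * x ^ 2 + b * x - m * x ^ 3 ≤ K := by
  set X : ℝ := max 1 ((a + b) / m) with hX
  have hX1 : 1 ≤ X := le_max_left _ _
  have hX2 : a + b ≤ m * X := by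
    have : (a + b) / m ≤ X := le_max_right _ _
    rw [div_le_iff₀ hm] at this
    linarith
  refine ⟨a * X ^ 2 + b * X, fun x hx => ?_⟩
  have hr : 0 ≤ a * X ^ 2 + b * X := by positivity
  rcases le_total x X with h | h
  · have h1 : x ^ 2 ≤ X ^ 2 := pow_le_pow_left₀ hx h 2
    have h2 : 0 ≤ m * x ^ 3 := by positivity
    have h3 := mul_le_mul_of_nonneg_left h1 ha
    have h4 := mul_le_mul_of_nonneg_left h hb
    linarith
  · have hx1 : 1 ≤ x := hX1.trans h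
    have h1 : (a + b) * x ^ 2 ≤ m * x ^ 3 := by
      have h2 : a + b ≤ m * x := hX2.trans (mul_le_mul_of_nonneg_left h hm.le)
      calc (a + b) * x ^ 2 ≤ m * x * x ^ 2 := mul_le_mul_of_nonneg_right h2 (sq_nonneg x)
        _ = m * x ^ 3 := by ring
    have h3 : b * x ≤ b * x ^ 2 := by
      have : x ≤ x ^ 2 := by nlinarith
      exact mul_le_mul_of_nonneg_left this hb
    nlinarith

private theorem P3_H (D : AL) (lam : ℝ) (hl : 0 < lam) (c1 d1 Q p : ℝ) (hp : 0 < p)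
    (hc1 : 0 ≤ c1) (hd1 : 0 ≤ d1) (hQ : 0 ≤ Q) : ∃ C : ℝ, 0 < C ∧
    ∀ σ : ℂ, |σ.re| ≤ c1 → |σ.im| ≤ d1 → ∀ q : ℝ, |q| ≤ Q → ∀ x : ℝ, p ≤ x →
      ‖ff D lam σ ((x : ℂ) + (q : ℂ) * Complex.I)‖ ≤ C * Real.exp (-x) := by
  obtain ⟨K, hK⟩ := P3_cubic (lam * c1) (lam * (2 * d1 * Q + 2 * Q ^ 2) + 2) (2 / 3 * lam)
    (by positivity) (by positivity) (by positivity)
  refine ⟨(Real.pi / p) ^ (lam / 2) * (Q + 1) * Real.exp (lam * (c1 * Q ^ 2) + K), ?_, ?_⟩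
  · have : 0 < Real.pi / p := div_pos Real.pi_pos hp
    positivity
  intro σ hσ1 hσ2 q hq x hx
  have hx0 : 0 < x := by linarith
  have hre : ((x : ℂ) + (q : ℂ) * Complex.I).re = x := by simp
  have h3 := ff_le D lam hl.le σ ((x : ℂ) + (q : ℂ) * Complex.I) (by rw [hre]; exact hx0)
  rw [P3_re, hre] at h3
  refine h3.trans ?_
  have e1 : ‖(x : ℂ) + (q : ℂ) * Complex.I‖ ≤ (Q + 1) * Real.exp x := by
    refine (P3_norm_le x q hx0.le).trans ?_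
    have h4 := Real.add_one_le_exp x
    nlinarith
  have e2 : (Real.pi / x) ^ (lam / 2) ≤ (Real.pi / p) ^ (lam / 2) := by
    refine Real.rpow_le_rpow (by positivity) ?_ (by positivity)
    exact div_le_div_of_nonneg_left Real.pi_pos.le hp hx
  have e3 : lam * (σ.re * (x ^ 2 - q ^ 2) - 2 * σ.im * x * q - 2 / 3 * (x ^ 3 - 3 * x * q ^ 2)) + x
      ≤ lam * (c1 * Q ^ 2) + K + -x := by
    have hq2 : q ^ 2 ≤ Q ^ 2 := by
      rw [← sq_abs q]
      exact pow_le_pow_left₀ (abs_nonneg q) hq 2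
    have hq0 : 0 ≤ q ^ 2 := sq_nonneg q
    have f1 : σ.re * (x ^ 2 - q ^ 2) - 2 * σ.im * x * q - 2 / 3 * (x ^ 3 - 3 * x * q ^ 2)
        ≤ c1 * x ^ 2 + c1 * Q ^ 2 + (2 * d1 * Q + 2 * Q ^ 2) * x - 2 / 3 * x ^ 3 := by
      have g1 : σ.re * x ^ 2 ≤ c1 * x ^ 2 :=
        mul_le_mul_of_nonneg_right ((le_abs_self _).trans hσ1) (sq_nonneg x)
      have g2 : -(σ.re * q ^ 2) ≤ c1 * Q ^ 2 := by
        have g3 : -σ.re ≤ c1 := (neg_le_abs _).trans hσ1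
        calc -(σ.re * q ^ 2) = -σ.re * q ^ 2 := by ring
          _ ≤ c1 * q ^ 2 := mul_le_mul_of_nonneg_right g3 hq0
          _ ≤ c1 * Q ^ 2 := mul_le_mul_of_nonneg_left hq2 hc1
      have g4 : -(2 * σ.im * x * q) ≤ 2 * d1 * Q * x := by
        have g5 : -(σ.im * q) ≤ d1 * Q := by
          calc -(σ.im * q) ≤ |σ.im * q| := neg_le_abs _
            _ = |σ.im| * |q| := abs_mul _ _
            _ ≤ d1 * Q := mul_le_mul hσ2 hq (abs_nonneg _) hd1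
        have := mul_le_mul_of_nonneg_right g5 hx0.le
        nlinarith
      have g6 : 2 * x * q ^ 2 ≤ 2 * Q ^ 2 * x := by
        have := mul_le_mul_of_nonneg_left hq2 hx0.le
        nlinarith
      nlinarith
    have f2 := mul_le_mul_of_nonneg_left f1 hl.le
    have f3 := hK x hx0.le
    nlinarith
  calc Real.exp (lam * (σ.re * (x ^ 2 - q ^ 2) - 2 * σ.im * x * q -
          2 / 3 * (x ^ 3 - 3 * x * q ^ 2))) * ‖(x : ℂ) + (q : ℂ) * Complex.I‖ *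
        (Real.pi / x) ^ (lam / 2)
      ≤ Real.exp (lam * (σ.re * (x ^ 2 - q ^ 2) - 2 * σ.im * x * q -
          2 / 3 * (x ^ 3 - 3 * x * q ^ 2))) * ((Q + 1) * Real.exp x) *
        (Real.pi / p) ^ (lam / 2) := by
        gcongr
    _ = (Real.pi / p) ^ (lam / 2) * (Q + 1) * Real.exp (lam * (σ.re * (x ^ 2 - q ^ 2) -
          2 * σ.im * x * q - 2 / 3 * (x ^ 3 - 3 * x * q ^ 2)) + x) := by
        rw [Real.exp_add]
        ring
    _ ≤ (Real.pi / p) ^ (lam / 2) * (Q + 1) * Real.exp (lam * (c1 * Q ^ 2) + K + -x) := by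
        gcongr
    _ = (Real.pi / p) ^ (lam / 2) * (Q + 1) * Real.exp (lam * (c1 * Q ^ 2) + K) *
          Real.exp (-x) := by
        rw [Real.exp_add]
        ring

theorem ff_vert (D : AL) (lam : ℝ) (hl : 0 < lam) (σ : ℂ) (p1 p2 : ℝ) (h1 : 0 < p1)
    (h12 : p1 ≤ p2) (h2 : 2 * p2 < σ.re) : ∃ C ε : ℝ, 0 < C ∧ 0 < ε ∧
    ∀ p : ℝ, p1 ≤ p → p ≤ p2 → ∀ y : ℝ, 0 ≤ y →
      ‖ff D lam σ ((p : ℂ) + (y : ℂ) * Complex.I)‖ ≤ C * Real.exp (-ε * y ^ 2) := by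
  obtain ⟨C, ε, hC, hε, h⟩ := P3_V D lam hl σ.re |σ.re| |σ.im| p1 p2 h1 h12 h2 (abs_nonneg _)
    (abs_nonneg _)
  exact ⟨C, ε, hC, hε, fun p hp hpp y hy =>
    h σ le_rfl (le_abs_self _) le_rfl p hp hpp y hy⟩

theorem ff_hor (D : AL) (lam : ℝ) (hl : 0 < lam) (σ : ℂ) (p : ℝ) (hp : 0 < p) (Q : ℝ) :
    ∃ C : ℝ, 0 < C ∧ ∀ q : ℝ, |q| ≤ Q → ∀ x : ℝ, p ≤ x →
      ‖ff D lam σ ((x : ℂ) + (q : ℂ) * Complex.I)‖ ≤ C * Real.exp (-x) := by
  obtain ⟨C, hC, h⟩ := P3_H D lam hl |σ.re| |σ.im| |Q| p hp (abs_nonneg _) (abs_nonneg _)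
    (abs_nonneg _)
  exact ⟨C, hC, fun q hq x hx => h σ le_rfl le_rfl q (hq.trans (le_abs_self _)) x hx⟩

theorem ff_ball (D : AL) (lam : ℝ) (hl : 0 < lam) (σ0 : ℂ) (h0 : 2 < σ0.re) :
    ∃ r C ε : ℝ, 0 < r ∧ 0 < C ∧ 0 < ε ∧ ∀ σ : ℂ, ‖σ - σ0‖ ≤ r →
      (∀ y : ℝ, 0 ≤ y → ‖ff D lam σ (1 + (y : ℂ) * Complex.I)‖ ≤ C * Real.exp (-ε * y ^ 2)) ∧
      (∀ x : ℝ, 1 ≤ x → ‖ff D lam σ (x : ℂ)‖ ≤ C * Real.exp (-x)) := by
  set r : ℝ := (σ0.re - 2) / 2 with hr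
  have hr0 : 0 < r := by rw [hr]; linarith
  obtain ⟨C1, ε, hC1, hε, hV⟩ := P3_V D lam hl (σ0.re - r) (|σ0.re| + r) (|σ0.im| + r) 1 1
    one_pos le_rfl (by rw [hr]; linarith) (by positivity) (by positivity)
  obtain ⟨C2, hC2, hH⟩ := P3_H D lam hl (|σ0.re| + r) (|σ0.im| + r) 0 1 one_pos
    (by positivity) (by positivity) le_rfl
  refine ⟨r, max C1 C2, ε, hr0, lt_max_of_lt_left hC1, hε, fun σ hσ => ?_⟩
  have h1 : |σ.re - σ0.re| ≤ r := by
    have := Complex.abs_re_le_norm (σ - σ0)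
    rw [Complex.sub_re] at this
    exact this.trans hσ
  have h2 : |σ.im - σ0.im| ≤ r := by
    have := Complex.abs_im_le_norm (σ - σ0)
    rw [Complex.sub_im] at this
    exact this.trans hσ
  have h3 := abs_le.1 h1
  have h4 := abs_le.1 h2
  have hre : |σ.re| ≤ |σ0.re| + r := by
    have : |σ.re| ≤ |σ0.re| + |σ.re - σ0.re| := by
      calc |σ.re| = |σ0.re + (σ.re - σ0.re)| := by ring_nf
        _ ≤ _ := abs_add_le _ _
    linarith
  have him : |σ.im| ≤ |σ0.im| + r := by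
    have : |σ.im| ≤ |σ0.im| + |σ.im - σ0.im| := by
      calc |σ.im| = |σ0.im + (σ.im - σ0.im)| := by ring_nf
        _ ≤ _ := abs_add_le _ _
    linarith
  constructor
  · intro y hy
    have h5 := hV σ (by linarith [h3.1]) ((le_abs_self _).trans hre) him 1 le_rfl le_rfl y hy
    rw [Complex.ofReal_one] at h5
    exact h5.trans (mul_le_mul_of_nonneg_right (le_max_left _ _) (Real.exp_pos _).le)
  · intro x hx
    have h5 := hH σ hre him 0 (by simp) x hx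
    rw [Complex.ofReal_zero, zero_mul, add_zero] at h5
    exact h5.trans (mul_le_mul_of_nonneg_right (le_max_right _ _) (Real.exp_pos _).le)

end Pool.Agent.LibFR89
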