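import Mathlib
import Pool.Agent.LibFR89.Defs

/-!
# Row P1 (EASY, ONLY MATHLIB): primitives along a ray and closing at infinity

`ray_ftc`: on `[0, b]` the fundamental theorem of calculus
(`intervalIntegral.integral_eq_sub_of_hasDerivAt`, the derivative of `s ↦ Φ (p + s u)` is
`f (p + s u) * u`), then `b → ∞` (`intervalIntegral_tendsto_integral_Ioi`).
`closing`: mean value inequality on the segment
(`Convex.norm_image_sub_le_of_norm_hasDerivWithin_le`, `convex_segment`), squeeze.
-/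

set_option autoImplicit false

namespace Pool.Agent.LibFR89

open MeasureTheory Filter Topology

theorem ray_ftc (Φ f : ℂ → ℂ) (p u : ℂ)
    (h : ∀ s : ℝ, 0 ≤ s → HasDerivAt Φ (f (p + s * u)) (p + s * u))
    (hc : ContinuousOn (fun s : ℝ => f (p + s * u)) (Set.Ici 0))
    (hi : IntegrableOn (fun s : ℝ => f (p + s * u)) (Set.Ioi 0)) :
    Tendsto (fun s : ℝ => Φ (p + s * u)) atTop
      (𝓝 (Φ p + u * ∫ s in Set.Ioi (0 : ℝ), f (p + s * u))) := by
  have hd : ∀ s : ℝ, 0 ≤ s → HasDerivAt (fun s : ℝ => Φ (p + s * u)) (f (p + s * u) * u) s := by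
    intro s hs
    have h1 : HasDerivAt (fun z : ℂ => p + z * u) u (s : ℂ) := by
      have h2 := ((hasDerivAt_id (s : ℂ)).mul_const u).const_add p
      rw [one_mul] at h2
      exact h2
    exact ((h s hs).comp (s : ℂ) h1).comp_ofReal
  have hI : ∀ b : ℝ, 0 ≤ b → Φ p + u * ∫ s in (0 : ℝ)..b, f (p + s * u) = Φ (p + b * u) := by
    intro b hb
    have hint : IntervalIntegrable (fun s : ℝ => f (p + s * u) * u) volume 0 b := by
      apply ContinuousOn.intervalIntegrable
      rw [Set.uIcc_of_le hb]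
      exact (hc.mono Set.Icc_subset_Ici_self).mul continuousOn_const
    have h1 := intervalIntegral.integral_eq_sub_of_hasDerivAt
      (f := fun s : ℝ => Φ (p + s * u)) (f' := fun s : ℝ => f (p + s * u) * u) (a := 0) (b := b)
      (fun s hs => by
        rw [Set.uIcc_of_le hb] at hs
        exact hd s hs.1) hint
    rw [intervalIntegral.integral_mul_const] at h1
    have h2 : (p + ((0 : ℝ) : ℂ) * u) = p := by simp
    rw [h2] at h1
    rw [mul_comm u, h1]
    ring
  have hT : Tendsto (fun b : ℝ => Φ p + u * ∫ s in (0 : ℝ)..b, f (p + s * u)) atTop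
      (𝓝 (Φ p + u * ∫ s in Set.Ioi (0 : ℝ), f (p + s * u))) :=
    ((intervalIntegral_tendsto_integral_Ioi 0 hi tendsto_id).const_mul u).const_add (Φ p)
  refine hT.congr' ?_
  filter_upwards [eventually_ge_atTop (0 : ℝ)] with b hb
  exact hI b hb

theorem closing (Φ f : ℂ → ℂ) (α β : ℝ → ℂ) (M : ℝ → ℝ)
    (h : ∀ᶠ R in atTop, ∀ w ∈ segment ℝ (α R) (β R), HasDerivAt Φ (f w) w)
    (hM : ∀ᶠ R in atTop, ∀ w ∈ segment ℝ (α R) (β R), ‖f w‖ ≤ M R)
    (hl : Tendsto (fun R => M R * ‖β R - α R‖) atTop (𝓝 0)) :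
    Tendsto (fun R => Φ (β R) - Φ (α R)) atTop (𝓝 0) := by
  refine squeeze_zero_norm' ?_ hl
  filter_upwards [h, hM] with R h1 h2
  exact Convex.norm_image_sub_le_of_norm_hasDerivWithin_le
    (fun w hw => (h1 w hw).hasDerivWithinAt) h2 (convex_segment _ _)
    (left_mem_segment ℝ _ _) (right_mem_segment ℝ _ _)

end Pool.Agent.LibFR89
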