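import Mathlib
import Pool.Agent.LibFR89.Defs
import Pool.Agent.LibFR89.A18
import Pool.Agent.LibFR89.P1
import Pool.Agent.LibFR89.P2
import Pool.Agent.LibFR89.P3

/-!
# Row P4 (MEDIUM): a primitive of the integrand and its two values at infinity

`Φ` from `halfplane_primitive` (row A18) and `ff_diff`.  `U = lim Φ (1 + i y)`, `V = lim Φ x` by
`ray_ftc` (integrability from row P3, `p = 1 < σ.re / 2`), which also gives
`U = Φ 1 + I * ∫ ff (1 + y I)`, `V = Φ 1 + ∫ ff x` and so `JJ = V - U`.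
The other vertical lines: `closing` with `α y = 1 + i y`, `β y = p + i y` (on the segment the norm is
at most `C exp (-ε y^2)` by `ff_vert` with `p1 = min 1 p`, `p2 = max 1 p`); the other horizontal
lines: `closing` with `α x = x`, `β x = x + i q` and `ff_hor`.
-/

set_option autoImplicit false

namespace Pool.Agent.LibFR89

open MeasureTheory Filter Topology

private theorem P4_seg {a b w : ℂ} (hw : w ∈ segment ℝ a b) :
    (min a.re b.re ≤ w.re ∧ w.re ≤ max a.re b.re) ∧ (min a.im b.im ≤ w.im ∧ w.im ≤ max a.im b.im) := by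
  obtain ⟨s, t, hs, ht, hst, rfl⟩ := hw
  have key : ∀ x y : ℝ, min x y ≤ s * x + t * y ∧ s * x + t * y ≤ max x y := by
    intro x y
    have h1 := mul_le_mul_of_nonneg_left (min_le_left x y) hs
    have h2 := mul_le_mul_of_nonneg_left (min_le_right x y) ht
    have h3 := mul_le_mul_of_nonneg_left (le_max_left x y) hs
    have h4 := mul_le_mul_of_nonneg_left (le_max_right x y) ht
    have h5 : min x y = s * min x y + t * min x y := by rw [← add_mul, hst, one_mul]
    have h6 : max x y = s * max x y + t * max x y := by rw [← add_mul, hst, one_mul]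
    exact ⟨by linarith, by linarith⟩
  have hre : (s • a + t • b).re = s * a.re + t * b.re := by simp
  have him : (s • a + t • b).im = s * a.im + t * b.im := by simp
  rw [hre, him]
  exact ⟨key _ _, key _ _⟩

private theorem P4_sq {C ε c : ℝ} (hε : 0 < ε) :
    Tendsto (fun R : ℝ => C * Real.exp (-ε * R ^ 2) * c) atTop (𝓝 0) := by
  have h1 : Tendsto (fun R : ℝ => -ε * R ^ 2) atTop atBot :=
    (tendsto_pow_atTop two_ne_zero).const_mul_atTop_of_neg (by linarith)
  have h2 := ((Real.tendsto_exp_atBot.comp h1).const_mul C).mul_const c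
  rw [mul_zero, zero_mul] at h2
  exact h2

private theorem P4_lin {C c : ℝ} :
    Tendsto (fun R : ℝ => C * Real.exp (-R) * c) atTop (𝓝 0) := by
  have h2 := ((Real.tendsto_exp_atBot.comp tendsto_neg_atTop_atBot).const_mul C).mul_const c
  rw [mul_zero, zero_mul] at h2
  exact h2


theorem exists_Phi (D : AL) (lam : ℝ) (hl : 0 < lam) (σ : ℂ) (hσ : 2 < σ.re) :
    ∃ (Φ : ℂ → ℂ) (U V : ℂ), (∀ w : ℂ, 0 < w.re → HasDerivAt Φ (ff D lam σ w) w) ∧
      (∀ p : ℝ, 0 < p → 2 * p < σ.re →
        Tendsto (fun y : ℝ => Φ ((p : ℂ) + (y : ℂ) * Complex.I)) atTop (𝓝 U)) ∧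
      (∀ q : ℝ, Tendsto (fun x : ℝ => Φ ((x : ℂ) + (q : ℂ) * Complex.I)) atTop (𝓝 V)) ∧
      JJ D lam σ = V - U := by
  obtain ⟨Φ, hΦ⟩ := halfplane_primitive (ff D lam σ) (ff_diff D lam σ)
  have hcont : ∀ u : ℂ, 0 ≤ u.re →
      ContinuousOn (fun s : ℝ => ff D lam σ (1 + s * u)) (Set.Ici 0) := by
    intro u hu
    refine (ff_diff D lam σ).continuousOn.comp (by fun_prop) fun s hs => ?_
    show 0 < (1 + (s : ℂ) * u).re
    rw [Complex.add_re, Complex.one_re, Complex.re_ofReal_mul]
    have := mul_nonneg (Set.mem_Ici.1 hs) hu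
    linarith
  have hder : ∀ u : ℂ, 0 ≤ u.re → ∀ s : ℝ, 0 ≤ s →
      HasDerivAt Φ (ff D lam σ (1 + s * u)) (1 + s * u) := by
    intro u hu s hs
    refine hΦ _ ?_
    rw [Complex.add_re, Complex.one_re, Complex.re_ofReal_mul]
    have := mul_nonneg hs hu
    linarith
  -- the vertical ray
  have hIv : IntegrableOn (fun s : ℝ => ff D lam σ (1 + s * Complex.I)) (Set.Ioi 0) := by
    obtain ⟨C, ε, hC, hε, hb⟩ := ff_vert D lam hl σ 1 1 one_pos le_rfl (by linarith)
    have hg : IntegrableOn (fun y : ℝ => C * Real.exp (-ε * y ^ 2)) (Set.Ioi 0) :=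
      ((integrable_exp_neg_mul_sq hε).const_mul C).integrableOn
    refine Integrable.mono' hg ?_ ?_
    · exact ((hcont Complex.I (by simp)).mono Set.Ioi_subset_Ici_self).aestronglyMeasurable
        measurableSet_Ioi
    · refine (ae_restrict_iff' measurableSet_Ioi).2 (Filter.Eventually.of_forall fun y hy => ?_)
      have h1 := hb 1 le_rfl le_rfl y (le_of_lt hy)
      rw [Complex.ofReal_one] at h1
      exact h1
  have hIh : IntegrableOn (fun s : ℝ => ff D lam σ (1 + s * 1)) (Set.Ioi 0) := by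
    obtain ⟨C, hC, hb⟩ := ff_hor D lam hl σ 1 one_pos 0
    have hg : IntegrableOn (fun y : ℝ => C * Real.exp (-y)) (Set.Ioi 0) :=
      (integrableOn_exp_neg_Ioi 0).const_mul C
    refine Integrable.mono' hg ?_ ?_
    · exact ((hcont 1 (by simp)).mono Set.Ioi_subset_Ici_self).aestronglyMeasurable
        measurableSet_Ioi
    · refine (ae_restrict_iff' measurableSet_Ioi).2 (Filter.Eventually.of_forall fun y hy => ?_)
      have hy' : 0 < y := hy
      have h1 := hb 0 (by simp) (1 + y) (by linarith)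
      have h2 : (((1 + y : ℝ) : ℂ) + ((0 : ℝ) : ℂ) * Complex.I) = 1 + (y : ℂ) * 1 := by
        push_cast
        ring
      rw [h2] at h1
      refine h1.trans (mul_le_mul_of_nonneg_left (Real.exp_le_exp.2 (by linarith)) hC.le)
  have hU := ray_ftc Φ (ff D lam σ) 1 Complex.I (hder Complex.I (by simp))
    (hcont Complex.I (by simp)) hIv
  have hV := ray_ftc Φ (ff D lam σ) 1 1 (hder 1 (by simp)) (hcont 1 (by simp)) hIh
  have hV' : Tendsto (fun x : ℝ => Φ (x : ℂ)) atTop
      (𝓝 (Φ 1 + 1 * ∫ s in Set.Ioi (0 : ℝ), ff D lam σ (1 + s * 1))) := by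
    have h1 : Tendsto (fun x : ℝ => x - 1) atTop atTop := tendsto_atTop_add_const_right _ _ tendsto_id
    refine (hV.comp h1).congr fun x => ?_
    show Φ (1 + ((x - 1 : ℝ) : ℂ) * 1) = Φ (x : ℂ)
    congr 1
    push_cast
    ring
  have hint : ∫ s in Set.Ioi (0 : ℝ), ff D lam σ (1 + s * 1) =
      ∫ x in Set.Ioi (1 : ℝ), ff D lam σ (x : ℂ) := by
    have h1 := (measurePreserving_add_left volume (1 : ℝ)).setIntegral_preimage_emb
      (measurableEmbedding_addLeft (1 : ℝ)) (fun x : ℝ => ff D lam σ (x : ℂ)) (Set.Ioi (1 : ℝ))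
    rw [← h1]
    have h2 : (fun x : ℝ => 1 + x) ⁻¹' Set.Ioi (1 : ℝ) = Set.Ioi 0 := by
      ext x
      show 1 < 1 + x ↔ 0 < x
      exact lt_add_iff_pos_right 1
    rw [h2]
    refine integral_congr_ae (Filter.Eventually.of_forall fun x => ?_)
    show ff D lam σ (1 + (x : ℂ) * 1) = ff D lam σ ((1 + x : ℝ) : ℂ)
    rw [mul_one, Complex.ofReal_add, Complex.ofReal_one]
  refine ⟨Φ, Φ 1 + Complex.I * ∫ s in Set.Ioi (0 : ℝ), ff D lam σ (1 + s * Complex.I),
    Φ 1 + 1 * ∫ s in Set.Ioi (0 : ℝ), ff D lam σ (1 + s * 1), hΦ, ?_, ?_, ?_⟩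
  · intro p hp hps
    obtain ⟨C, ε, hC, hε, hb⟩ := ff_vert D lam hl σ (min 1 p) (max 1 p) (lt_min one_pos hp)
      (min_le_max) (by
        rcases max_cases (1 : ℝ) p with h | h
        · rw [h.1]
          linarith
        · rw [h.1]
          exact hps)
    have hseg : ∀ R : ℝ, ∀ w ∈ segment ℝ (1 + (R : ℂ) * Complex.I) ((p : ℂ) + (R : ℂ) * Complex.I),
        min 1 p ≤ w.re ∧ w.re ≤ max 1 p ∧ w.im = R := by
      intro R w hw
      obtain ⟨⟨h1, h2⟩, h3, h4⟩ := P4_seg hw
      have e1 : (1 + (R : ℂ) * Complex.I).re = 1 := by simp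
      have e2 : ((p : ℂ) + (R : ℂ) * Complex.I).re = p := by simp
      have e3 : (1 + (R : ℂ) * Complex.I).im = R := by simp
      have e4 : ((p : ℂ) + (R : ℂ) * Complex.I).im = R := by simp
      rw [e1, e2] at h1 h2
      rw [e3, e4, min_self] at h3
      rw [e3, e4, max_self] at h4
      exact ⟨h1, h2, le_antisymm h4 h3⟩
    have hcl := closing Φ (ff D lam σ) (fun y : ℝ => 1 + (y : ℂ) * Complex.I)
      (fun y : ℝ => (p : ℂ) + (y : ℂ) * Complex.I) (fun y : ℝ => C * Real.exp (-ε * y ^ 2)) ?_ ?_ ?_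
    · have h1 := hcl.add hU
      rw [zero_add] at h1
      refine h1.congr fun y => ?_
      ring
    · refine Filter.Eventually.of_forall fun R w hw => hΦ w ?_
      exact lt_of_lt_of_le (lt_min one_pos hp) (hseg R w hw).1
    · filter_upwards [eventually_ge_atTop 0] with R hR w hw
      obtain ⟨h1, h2, h3⟩ := hseg R w hw
      have h4 := hb w.re h1 h2 R hR
      have h5 : (w.re : ℂ) + (R : ℂ) * Complex.I = w := by
        rw [← h3]
        exact Complex.re_add_im w
      rw [h5] at h4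
      exact h4
    · refine (P4_sq (C := C) (c := ‖(p : ℂ) - 1‖) hε).congr fun R => ?_
      show C * Real.exp (-ε * R ^ 2) * ‖(p : ℂ) - 1‖ = C * Real.exp (-ε * R ^ 2) *
        ‖((p : ℂ) + (R : ℂ) * Complex.I) - (1 + (R : ℂ) * Complex.I)‖
      congr 2
      ring
  · intro q
    obtain ⟨C, hC, hb⟩ := ff_hor D lam hl σ 1 one_pos |q|
    have hseg : ∀ R : ℝ, ∀ w ∈ segment ℝ (R : ℂ) ((R : ℂ) + (q : ℂ) * Complex.I),
        w.re = R ∧ |w.im| ≤ |q| := by
      intro R w hw
      obtain ⟨⟨h1, h2⟩, h3, h4⟩ := P4_seg hw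
      have e1 : ((R : ℂ)).re = R := by simp
      have e2 : ((R : ℂ) + (q : ℂ) * Complex.I).re = R := by simp
      have e3 : ((R : ℂ)).im = 0 := by simp
      have e4 : ((R : ℂ) + (q : ℂ) * Complex.I).im = q := by simp
      rw [e1, e2, min_self] at h1
      rw [e1, e2, max_self] at h2
      rw [e3, e4] at h3 h4
      refine ⟨le_antisymm h2 h1, ?_⟩
      rcases le_total 0 q with h | h
      · rw [min_eq_left h] at h3
        rw [max_eq_right h] at h4
        rw [abs_of_nonneg h3, abs_of_nonneg h]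
        exact h4
      · rw [min_eq_right h] at h3
        rw [max_eq_left h] at h4
        rw [abs_of_nonpos h4, abs_of_nonpos h]
        linarith
    have hcl := closing Φ (ff D lam σ) (fun y : ℝ => (y : ℂ))
      (fun y : ℝ => (y : ℂ) + (q : ℂ) * Complex.I) (fun y : ℝ => C * Real.exp (-y)) ?_ ?_ ?_
    · have h1 := hcl.add hV'
      rw [zero_add] at h1
      refine h1.congr fun y => ?_
      ring
    · filter_upwards [eventually_gt_atTop 0] with R hR w hw
      refine hΦ w ?_
      rw [(hseg R w hw).1]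
      exact hR
    · filter_upwards [eventually_ge_atTop 1] with R hR w hw
      obtain ⟨h1, h2⟩ := hseg R w hw
      have h4 := hb w.im h2 R hR
      have h5 : (R : ℂ) + (w.im : ℂ) * Complex.I = w := by
        rw [← h1]
        exact Complex.re_add_im w
      rw [h5] at h4
      exact h4
    · refine (P4_lin (C := C) (c := ‖(q : ℂ) * Complex.I‖)).congr fun R => ?_
      show C * Real.exp (-R) * ‖(q : ℂ) * Complex.I‖ = C * Real.exp (-R) *
        ‖((R : ℂ) + (q : ℂ) * Complex.I) - (R : ℂ)‖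
      congr 2
      ring
  · unfold JJ
    rw [hint]
    ring

end Pool.Agent.LibFR89
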