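import Mathlib
import Pool.Agent.LibFR89.Defs
import Pool.Agent.LibFR89.P1
import Pool.Agent.LibFR89.P2
import Pool.Agent.LibFR89.P3
import Pool.Agent.LibFR89.P4

/-!
# Row P5 (EASY/MEDIUM): the corner of the contour can be moved

`exists_Phi` and `ray_ftc` for the two rays starting at `p + i q` (directions `1` and `I`), with the
translations `x = p + s`, `y = q + s` in the integrals; uniqueness of limits.
-/

set_option autoImplicit false

namespace Pool.Agent.LibFR89

open MeasureTheory Filter Topology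

private theorem P5_shift (g : ℝ → ℂ) (p : ℝ) :
    ∫ x in Set.Ioi p, g x = ∫ s in Set.Ioi (0 : ℝ), g (p + s) := by
  have h := (measurePreserving_add_left volume p).setIntegral_preimage_emb
    (measurableEmbedding_addLeft p) g (Set.Ioi p)
  rw [Set.preimage_const_add_Ioi, sub_self] at h
  exact h.symm

private theorem P5_shift_int (g : ℝ → ℂ) (p : ℝ) (h : IntegrableOn g (Set.Ioi p)) :
    IntegrableOn (fun s : ℝ => g (p + s)) (Set.Ioi (0 : ℝ)) := by
  have h1 := ((measurePreserving_add_left volume p).integrableOn_comp_preimage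
    (measurableEmbedding_addLeft p) (f := g) (s := Set.Ioi p)).mpr h
  rw [Set.preimage_const_add_Ioi, sub_self] at h1
  exact h1

private theorem P5_vert (D : AL) (lam : ℝ) (hl : 0 < lam) (σ : ℂ) (p q : ℝ) (hp : 0 < p)
    (hp2 : 2 * p < σ.re) (hq : 0 ≤ q) :
    IntegrableOn (fun y : ℝ => ff D lam σ ((p : ℂ) + (y : ℂ) * Complex.I)) (Set.Ioi q) := by
  obtain ⟨C, ε, hC, hε, h⟩ := ff_vert D lam hl σ p p hp le_rfl hp2
  have hcont : ContinuousOn (fun y : ℝ => ff D lam σ ((p : ℂ) + (y : ℂ) * Complex.I))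
      (Set.Ioi q) := by
    refine (ff_diff D lam σ).continuousOn.comp (by fun_prop) ?_
    intro y _
    simpa using hp
  have hg : IntegrableOn (fun y : ℝ => C * Real.exp (-ε * y ^ 2)) (Set.Ioi q) :=
    ((integrable_exp_neg_mul_sq hε).const_mul C).integrableOn
  refine Integrable.mono' hg (hcont.aestronglyMeasurable measurableSet_Ioi) ?_
  rw [ae_restrict_iff' measurableSet_Ioi]
  refine Filter.Eventually.of_forall fun y hy => ?_
  exact h p le_rfl le_rfl y (hq.trans (le_of_lt hy))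

private theorem P5_hor (D : AL) (lam : ℝ) (hl : 0 < lam) (σ : ℂ) (p q : ℝ) (hp : 0 < p) :
    IntegrableOn (fun x : ℝ => ff D lam σ ((x : ℂ) + (q : ℂ) * Complex.I)) (Set.Ioi p) := by
  obtain ⟨C, hC, h⟩ := ff_hor D lam hl σ p hp |q|
  have hcont : ContinuousOn (fun x : ℝ => ff D lam σ ((x : ℂ) + (q : ℂ) * Complex.I))
      (Set.Ioi p) := by
    refine (ff_diff D lam σ).continuousOn.comp (by fun_prop) ?_
    intro x hx
    have : (0 : ℝ) < x := lt_trans hp hx
    simpa using this
  have hg : IntegrableOn (fun x : ℝ => C * Real.exp (-x)) (Set.Ioi p) :=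
    (integrableOn_exp_neg_Ioi p).const_mul C
  refine Integrable.mono' hg (hcont.aestronglyMeasurable measurableSet_Ioi) ?_
  rw [ae_restrict_iff' measurableSet_Ioi]
  refine Filter.Eventually.of_forall fun x hx => ?_
  exact h q le_rfl x (le_of_lt hx)


theorem JJ_eq (D : AL) (lam : ℝ) (hl : 0 < lam) (σ : ℂ) (hσ : 2 < σ.re) (p q : ℝ) (hp : 0 < p)
    (hp2 : 2 * p < σ.re) (hq : 0 ≤ q) :
    JJ D lam σ = (∫ x in Set.Ioi p, ff D lam σ ((x : ℂ) + (q : ℂ) * Complex.I)) -
      Complex.I * ∫ y in Set.Ioi q, ff D lam σ ((p : ℂ) + (y : ℂ) * Complex.I) := by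
  obtain ⟨Φ, U, V, hΦ, hU, hV, hJ⟩ := exists_Phi D lam hl σ hσ
  have hbase : (0 : ℝ) < ((p : ℂ) + (q : ℂ) * Complex.I).re := by simpa using hp
  -- the horizontal ray
  have hh := P5_shift_int _ p (P5_hor D lam hl σ p q hp)
  have hh' : IntegrableOn (fun s : ℝ => ff D lam σ (((p : ℂ) + (q : ℂ) * Complex.I) + s * 1))
      (Set.Ioi 0) := by
    refine hh.congr_fun (fun s _ => ?_) measurableSet_Ioi
    simp only
    congr 1
    push_cast
    ring
  have h1 := ray_ftc Φ (ff D lam σ) ((p : ℂ) + (q : ℂ) * Complex.I) 1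
    (fun s hs => hΦ _ (by
      have : (0 : ℝ) < p + s := by linarith
      simpa using this))
    (by
      refine (ff_diff D lam σ).continuousOn.comp (by fun_prop) ?_
      intro s hs
      have hs' : (0 : ℝ) ≤ s := hs
      have : (0 : ℝ) < p + s := by linarith
      simpa using this)
    hh'
  have h1' : Tendsto (fun s : ℝ => Φ (((p : ℂ) + (q : ℂ) * Complex.I) + s * 1)) atTop (𝓝 V) := by
    have h2 := (hV q).comp (tendsto_atTop_add_const_left atTop p tendsto_id)
    refine h2.congr fun s => ?_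
    simp only [Function.comp_apply, id_eq]
    congr 1
    push_cast
    ring
  have e1 := tendsto_nhds_unique h1' h1
  -- the vertical ray
  have hv := P5_shift_int _ q (P5_vert D lam hl σ p q hp hp2 hq)
  have hv' : IntegrableOn (fun s : ℝ => ff D lam σ (((p : ℂ) + (q : ℂ) * Complex.I) +
      s * Complex.I)) (Set.Ioi 0) := by
    refine hv.congr_fun (fun s _ => ?_) measurableSet_Ioi
    simp only
    congr 1
    push_cast
    ring
  have h3 := ray_ftc Φ (ff D lam σ) ((p : ℂ) + (q : ℂ) * Complex.I) Complex.I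
    (fun s hs => hΦ _ (by simpa using hp))
    (by
      refine (ff_diff D lam σ).continuousOn.comp (by fun_prop) ?_
      intro s _
      simpa using hp)
    hv'
  have h3' : Tendsto (fun s : ℝ => Φ (((p : ℂ) + (q : ℂ) * Complex.I) + s * Complex.I)) atTop
      (𝓝 U) := by
    have h2 := (hU p hp hp2).comp (tendsto_atTop_add_const_left atTop q tendsto_id)
    refine h2.congr fun s => ?_
    simp only [Function.comp_apply, id_eq]
    congr 1
    push_cast
    ring
  have e2 := tendsto_nhds_unique h3' h3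
  rw [hJ, e1, e2, P5_shift (fun x : ℝ => ff D lam σ ((x : ℂ) + (q : ℂ) * Complex.I)) p,
    P5_shift (fun y : ℝ => ff D lam σ ((p : ℂ) + (y : ℂ) * Complex.I)) q]
  have i1 : ∫ s in Set.Ioi (0 : ℝ), ff D lam σ (((p + s : ℝ) : ℂ) + (q : ℂ) * Complex.I) =
      ∫ s in Set.Ioi (0 : ℝ), ff D lam σ (((p : ℂ) + (q : ℂ) * Complex.I) + s * 1) := by
    refine setIntegral_congr_fun measurableSet_Ioi fun s _ => ?_
    congr 1
    push_cast
    ring
  have i2 : ∫ s in Set.Ioi (0 : ℝ), ff D lam σ ((p : ℂ) + ((q + s : ℝ) : ℂ) * Complex.I) =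
      ∫ s in Set.Ioi (0 : ℝ), ff D lam σ (((p : ℂ) + (q : ℂ) * Complex.I) + s * Complex.I) := by
    refine setIntegral_congr_fun measurableSet_Ioi fun s _ => ?_
    congr 1
    push_cast
    ring
  rw [i1, i2]
  ring

theorem ff_int_vert (D : AL) (lam : ℝ) (hl : 0 < lam) (σ : ℂ) (p q : ℝ) (hp : 0 < p)
    (hp2 : 2 * p < σ.re) (hq : 0 ≤ q) :
    IntegrableOn (fun y : ℝ => ff D lam σ ((p : ℂ) + (y : ℂ) * Complex.I)) (Set.Ioi q) := by
  exact P5_vert D lam hl σ p q hp hp2 hq

theorem ff_int_hor (D : AL) (lam : ℝ) (hl : 0 < lam) (σ : ℂ) (p q : ℝ) (hp : 0 < p) :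
    IntegrableOn (fun x : ℝ => ff D lam σ ((x : ℂ) + (q : ℂ) * Complex.I)) (Set.Ioi p) := by
  exact P5_hor D lam hl σ p q hp

end Pool.Agent.LibFR89
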