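import Mathlib
import Pool.Agent.LibFR89.Defs
import Pool.Agent.LibFR89.P2
import Pool.Agent.LibFR89.P3
import Pool.Agent.LibFR89.P5
import Pool.Agent.LibFR89.G1
import Pool.Agent.LibFR89.G2

/-!
# Row G3 (MEDIUM): the imaginary part of `JJ` on the real axis

Row P5 with `q = 0`, `0 < p ≤ 1`: `JJ = (∫ ff on (p, ∞)) - I ∫_0^∞ ff (p + i y) dy`; the first
integral is real (`D.real_L`), so `Im JJ = - Re ∫_0^∞ ff (p + i y) dy` for every `0 < p ≤ 1`.  Let
`p → 0+`.  Over `y > √T`: norm at most `C exp (lam x p^2) ∫_{√T}^∞ (1 + y) exp (-lam (x-3) y^2)`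
(row G1) and `exp (lam x p^2) → 1`.  Over `0 < y ≤ √T`: dominated convergence (row G1 with
`exp (lam x p^2) ≤ exp (lam x)`) and row G2: for `y^2 < a` the limit is purely imaginary, for
`a < y^2 < T` the real part of the limit is `- y exp (..) exp (..) sin (π lam)`.
-/

set_option autoImplicit false

namespace Pool.Agent.LibFR89

open MeasureTheory Filter Topology

private theorem int_aux (b : ℝ) (hb : 0 < b) : Integrable (fun y : ℝ => (1 + y) * Real.exp (-b * y ^ 2)) := by
  have h := (integrable_exp_neg_mul_sq hb).add (integrable_mul_exp_neg_mul_sq hb)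
  refine h.congr (Eventually.of_forall fun y => ?_)
  simp only [Pi.add_apply]
  ring

private theorem real_aux (D : AL) (lam x p : ℝ) (hp : 0 < p) :
    (∫ t in Set.Ioi p, ff D lam (x : ℂ) ((t : ℂ) + ((0 : ℝ) : ℂ) * Complex.I)).im = 0 := by
  have h1 : (∫ t in Set.Ioi p, ff D lam (x : ℂ) ((t : ℂ) + ((0 : ℝ) : ℂ) * Complex.I)) =
      ∫ t in Set.Ioi p, ((Real.exp (lam * (x * t ^ 2 - 2 / 3 * t ^ 3)) * t *
        Real.exp (lam * (D.L (t : ℂ)).re) : ℝ) : ℂ) := by
    apply setIntegral_congr_fun measurableSet_Ioi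
    intro t ht
    have ht0 : 0 < t := lt_trans hp ht
    have hL : D.L (t : ℂ) = ((D.L (t : ℂ)).re : ℂ) := by
      apply Complex.ext
      · simp
      · rw [D.real_L t ht0, Complex.ofReal_im]
    simp only [Complex.ofReal_zero, zero_mul, add_zero]
    unfold ff
    rw [hL]
    push_cast
    simp only [Complex.ofReal_re]
  rw [h1, integral_complex_ofReal, Complex.ofReal_im]

theorem Im_JJ (D : AL) (lam : ℝ) (hl : 0 < lam) : ∃ C : ℝ, 0 < C ∧ ∀ x : ℝ, 4 ≤ x →
    |(JJ D lam (x : ℂ)).im - Real.sin (Real.pi * lam) *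
      ∫ y in Set.Ioo (√D.a) (√D.T), y * Real.exp (-lam * x * y ^ 2) *
        Real.exp (lam * Real.log ‖Bn 0 (-((y : ℂ) ^ 2))‖)| ≤
      C * ∫ y in Set.Ioi (√D.T), (1 + y) * Real.exp (-lam * (x - 3) * y ^ 2) := by
  obtain ⟨C, hC, hG⟩ := ff_crude D lam hl
  refine ⟨C, hC, fun x hx => ?_⟩
  have hT0 : 0 < D.T := D.a_pos.trans D.a_lt
  have hsT : 0 < √D.T := Real.sqrt_pos.mpr hT0
  have hsa : 0 < √D.a := Real.sqrt_pos.mpr D.a_pos
  have hsaT : √D.a < √D.T := Real.sqrt_lt_sqrt D.a_pos.le D.a_lt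
  set g : ℝ → ℝ := fun y => y * Real.exp (-lam * x * y ^ 2) *
        Real.exp (lam * Real.log ‖Bn 0 (-((y : ℂ) ^ 2))‖) with hg
  set J : ℝ := ∫ y in Set.Ioi (√D.T), (1 + y) * Real.exp (-lam * (x - 3) * y ^ 2) with hJ
  set F : ℝ → ℝ → ℂ := fun p y => ff D lam (x : ℂ) ((p : ℂ) + (y : ℂ) * Complex.I) with hF
  have hb : 0 < lam * (x - 3) := mul_pos hl (by linarith)
  have hbint : Integrable (fun y : ℝ => (1 + y) * Real.exp (-lam * (x - 3) * y ^ 2)) := by
    refine (int_aux _ hb).congr (Eventually.of_forall fun y => ?_)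
    simp only
    congr 2
    ring
  have hInt : ∀ p : ℝ, 0 < p → p ≤ 1 → IntegrableOn (F p) (Set.Ioi 0) := fun p hp hp1 =>
    ff_int_vert D lam hl (x : ℂ) p 0 hp (by rw [Complex.ofReal_re]; linarith) le_rfl
  -- the identity for every `p`
  have hid : ∀ p : ℝ, 0 < p → p ≤ 1 → (JJ D lam (x : ℂ)).im = -(∫ y in Set.Ioi (0 : ℝ), F p y).re := by
    intro p hp hp1
    rw [JJ_eq D lam hl (x : ℂ) (by rw [Complex.ofReal_re]; linarith) p 0 hp
      (by rw [Complex.ofReal_re]; linarith) le_rfl, Complex.sub_im, real_aux D lam x p hp, Complex.mul_im]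
    simp only [Complex.I_re, Complex.I_im, hF]
    ring
  have hsplit : ∀ p : ℝ, 0 < p → p ≤ 1 → (∫ y in Set.Ioi (0 : ℝ), F p y) =
      (∫ y in Set.Ioc 0 (√D.T), F p y) + ∫ y in Set.Ioi (√D.T), F p y := by
    intro p hp hp1
    rw [← Set.Ioc_union_Ioi_eq_Ioi hsT.le]
    apply setIntegral_union (Set.Ioc_disjoint_Ioi le_rfl) measurableSet_Ioi
    · exact (hInt p hp hp1).mono_set Set.Ioc_subset_Ioi_self
    · exact (hInt p hp hp1).mono_set (Set.Ioi_subset_Ioi hsT.le)
  have hre : ∀ p : ℝ, 0 < p → p ≤ 1 → (∫ y in Set.Ioc 0 (√D.T), F p y).re =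
      ∫ y in Set.Ioc 0 (√D.T), (F p y).re := by
    intro p hp hp1
    exact (integral_re ((hInt p hp hp1).mono_set Set.Ioc_subset_Ioi_self)).symm
  have htail : ∀ p : ℝ, 0 < p → p ≤ 1 → ‖∫ y in Set.Ioi (√D.T), F p y‖ ≤ C * Real.exp (lam * x * p ^ 2) * J := by
    intro p hp hp1
    have h1 : ‖∫ y in Set.Ioi (√D.T), F p y‖ ≤ ∫ y in Set.Ioi (√D.T), C * Real.exp (lam * x * p ^ 2) *
        ((1 + y) * Real.exp (-lam * (x - 3) * y ^ 2)) := by
      apply norm_integral_le_of_norm_le (hbint.const_mul _).integrableOn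
      rw [ae_restrict_iff' measurableSet_Ioi]
      exact Eventually.of_forall fun y hy => hG x p y hp hp1 (hsT.trans hy).le
    rw [integral_const_mul] at h1
    exact h1
  -- the limit of the local part
  have hne : ∀ c : ℝ, ∀ᵐ y : ℝ, y ≠ c := fun c => by
    rw [ae_iff]
    simp
  have hlim : Tendsto (fun p : ℝ => ∫ y in Set.Ioc 0 (√D.T), (F p y).re) (𝓝[>] 0)
      (𝓝 (∫ y in Set.Ioc 0 (√D.T), (Set.Ioo (√D.a) (√D.T)).indicator (fun y => -(Real.sin (Real.pi * lam) * g y)) y)) := by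
    apply tendsto_integral_filter_of_dominated_convergence
      (fun y => C * Real.exp (lam * x) * ((1 + y) * Real.exp (-lam * (x - 3) * y ^ 2)))
    · have h1 : Set.Ioo (0 : ℝ) 1 ∈ 𝓝[>] (0 : ℝ) := Ioo_mem_nhdsGT one_pos
      filter_upwards [h1] with p hp
      have h2 := (hInt p hp.1 hp.2.le).mono_set (Set.Ioc_subset_Ioi_self : Set.Ioc 0 (√D.T) ⊆ Set.Ioi 0)
      exact h2.re.aestronglyMeasurable
    · have h1 : Set.Ioo (0 : ℝ) 1 ∈ 𝓝[>] (0 : ℝ) := Ioo_mem_nhdsGT one_pos
      filter_upwards [h1] with p hp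
      rw [ae_restrict_iff' measurableSet_Ioc]
      refine Eventually.of_forall fun y hy => ?_
      rw [Real.norm_eq_abs]
      refine (Complex.abs_re_le_norm _).trans ((hG x p y hp.1 hp.2.le hy.1.le).trans ?_)
      have h2 : 0 ≤ (1 + y) * Real.exp (-lam * (x - 3) * y ^ 2) := by
        have := hy.1
        positivity
      apply mul_le_mul_of_nonneg_right _ h2
      apply mul_le_mul_of_nonneg_left _ hC.le
      apply Real.exp_le_exp.mpr
      have h3 : p ^ 2 ≤ 1 := pow_le_one₀ hp.1.le hp.2.le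
      have h4 : 0 ≤ lam * x := by
        have : 0 ≤ x := by linarith
        positivity
      nlinarith
    · exact (hbint.const_mul _).integrableOn
    · rw [ae_restrict_iff' measurableSet_Ioc]
      filter_upwards [hne (√D.a), hne (√D.T)] with y h1 h2 hy
      rcases lt_or_gt_of_ne h1 with h3 | h3
      · have h4 : y ^ 2 < D.a := by
          rw [← Real.sq_sqrt D.a_pos.le]
          exact pow_lt_pow_left₀ h3 hy.1.le two_ne_zero
        have h5 := (Complex.continuous_re.tendsto _).comp (ghost_lim0 D lam x y hy.1 h4)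
        have h6 : (Set.Ioo (√D.a) (√D.T)).indicator (fun y => -(Real.sin (Real.pi * lam) * g y)) y = 0 :=
          Set.indicator_of_notMem (fun h => absurd h.1 (not_lt.mpr h3.le)) _
        rw [h6]
        rw [Complex.re_mul_ofReal, Complex.I_re, zero_mul] at h5
        exact h5
      · have h3' : y < √D.T := lt_of_le_of_ne hy.2 h2
        have h4 : D.a < y ^ 2 := by
          rw [← Real.sq_sqrt D.a_pos.le]
          exact pow_lt_pow_left₀ h3 hsa.le two_ne_zero
        have h4' : y ^ 2 < D.T := by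
          rw [← Real.sq_sqrt hT0.le]
          exact pow_lt_pow_left₀ h3' hy.1.le two_ne_zero
        have h5 := (Complex.continuous_re.tendsto _).comp (ghost_lim1 D lam x y hy.1 h4 h4')
        have h6 : (Set.Ioo (√D.a) (√D.T)).indicator (fun y => -(Real.sin (Real.pi * lam) * g y)) y =
            -(Real.sin (Real.pi * lam) * g y) := Set.indicator_of_mem (show y ∈ Set.Ioo (√D.a) (√D.T) from ⟨h3, h3'⟩) _
        rw [h6]
        have h7 : (Complex.I * ((g y : ℝ) : ℂ) * Complex.exp ((lam : ℂ) * Real.pi * Complex.I)).re =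
            -(Real.sin (Real.pi * lam) * g y) := by
          rw [show (lam : ℂ) * Real.pi * Complex.I = ((Real.pi * lam : ℝ) : ℂ) * Complex.I by push_cast; ring,
            Complex.exp_mul_I, ← Complex.ofReal_cos, ← Complex.ofReal_sin]
          simp only [Complex.mul_re, Complex.mul_im, Complex.add_re, Complex.add_im, Complex.I_re, Complex.I_im,
            Complex.ofReal_re, Complex.ofReal_im]
          ring
        rw [← h7]
        exact h5
  have hval : (∫ y in Set.Ioc 0 (√D.T), (Set.Ioo (√D.a) (√D.T)).indicator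
      (fun y => -(Real.sin (Real.pi * lam) * g y)) y) = -(Real.sin (Real.pi * lam) * ∫ y in Set.Ioo (√D.a) (√D.T), g y) := by
    rw [setIntegral_indicator measurableSet_Ioo]
    have h1 : Set.Ioc 0 (√D.T) ∩ Set.Ioo (√D.a) (√D.T) = Set.Ioo (√D.a) (√D.T) := by
      apply Set.inter_eq_right.mpr
      intro y hy
      exact ⟨hsa.trans hy.1, hy.2.le⟩
    rw [h1, integral_neg, integral_const_mul]
  rw [hval] at hlim
  have hL : Tendsto (fun p : ℝ => |(JJ D lam (x : ℂ)).im + ∫ y in Set.Ioc 0 (√D.T), (F p y).re|) (𝓝[>] 0)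
      (𝓝 |(JJ D lam (x : ℂ)).im + -(Real.sin (Real.pi * lam) * ∫ y in Set.Ioo (√D.a) (√D.T), g y)|) :=
    (tendsto_const_nhds.add hlim).abs
  have hR : Tendsto (fun p : ℝ => C * Real.exp (lam * x * p ^ 2) * J) (𝓝[>] 0) (𝓝 (C * Real.exp (lam * x * 0 ^ 2) * J)) := by
    have hc : Continuous (fun p : ℝ => C * Real.exp (lam * x * p ^ 2) * J) := by fun_prop
    exact (hc.tendsto 0).mono_left nhdsWithin_le_nhds
  have hfin := le_of_tendsto_of_tendsto hL hR (by
    have h1 : Set.Ioo (0 : ℝ) 1 ∈ 𝓝[>] (0 : ℝ) := Ioo_mem_nhdsGT one_pos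
    filter_upwards [h1] with p hp
    have h2 := hid p hp.1 hp.2.le
    rw [hsplit p hp.1 hp.2.le, Complex.add_re, hre p hp.1 hp.2.le] at h2
    have h3 : (JJ D lam (x : ℂ)).im + ∫ y in Set.Ioc 0 (√D.T), (F p y).re =
        -(∫ y in Set.Ioi (√D.T), F p y).re := by
      rw [h2]
      ring
    rw [h3, abs_neg]
    exact (Complex.abs_re_le_norm _).trans (htail p hp.1 hp.2.le))
  have h0 : C * Real.exp (lam * x * 0 ^ 2) * J = C * J := by
    rw [zero_pow two_ne_zero, mul_zero, Real.exp_zero, mul_one]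
  rw [h0, ← sub_eq_add_neg] at hfin
  exact hfin

end Pool.Agent.LibFR89
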