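import Mathlib
import Pool.Agent.LibFR89.Defs
import Pool.Agent.LibFR89.A2

/-!
# Row G4 (EASY/MEDIUM): lower bound of the main term, upper bound of the rest

First: the integrand is nonnegative, bounded and measurable on `(√a, √T)` (`Bn 0` is continuous,
row A2, so bounded there; `exp (lam log t) ≤ max 1 (t^lam)`); restrict to the closed interval
`[y1, y2]` with `a < y1^2 < y2^2 = (a + T)/2`, where `Bn 0 (-y^2) ≠ 0` (`D.ne`), so
`exp (lam log ‖..‖)` is continuous and bounded below by a positive constant, and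
`exp (-lam x y^2) ≥ exp (-lam x (a + T)/2)` for `0 ≤ x`.
Second: `y^2 ≥ T` on the range: for `x ≥ 4`,
`exp (-lam (x - 3) y^2) ≤ exp (-lam (x - 4) T) exp (-lam y^2)`.
-/

set_option autoImplicit false

namespace Pool.Agent.LibFR89

open MeasureTheory Filter Topology

private theorem G4_cont : Continuous (Bn 0) :=
  continuous_iff_continuousAt.2 fun z => (Bn_hasDerivAt 0 z).continuousAt

private theorem G4_ne (D : AL) {y : ℝ} (h1 : D.a < y ^ 2) (h2 : y ^ 2 < D.T) :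
    Bn 0 (-((y : ℂ) ^ 2)) ≠ 0 := by
  have h := D.ne (y ^ 2) h2 h1.ne'
  push_cast at h
  exact h

private theorem G4_cont2 : Continuous fun y : ℝ => ‖Bn 0 (-((y : ℂ) ^ 2))‖ :=
  (G4_cont.comp (by fun_prop)).norm

private theorem G4_mem (D : AL) {y : ℝ} (hy : y ∈ Set.Ioo (√D.a) (√D.T)) :
    0 < y ∧ D.a < y ^ 2 ∧ y ^ 2 < D.T := by
  have h0 : 0 < √D.a := Real.sqrt_pos.2 D.a_pos
  have hy0 : 0 < y := h0.trans hy.1
  exact ⟨hy0, (Real.sqrt_lt' hy0).1 hy.1, (Real.lt_sqrt hy0.le).1 hy.2⟩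

private theorem G4_co (D : AL) (lam x : ℝ) (s : Set ℝ) (hs : ∀ y ∈ s, D.a < y ^ 2 ∧ y ^ 2 < D.T) :
    ContinuousOn (fun y : ℝ => y * Real.exp (-lam * x * y ^ 2) *
        Real.exp (lam * Real.log ‖Bn 0 (-((y : ℂ) ^ 2))‖)) s := by
  refine ContinuousOn.mul (by fun_prop) ?_
  refine Real.continuous_exp.comp_continuousOn ?_
  refine continuousOn_const.mul ?_
  refine ContinuousOn.log G4_cont2.continuousOn fun y hy => ?_
  exact norm_ne_zero_iff.2 (G4_ne D (hs y hy).1 (hs y hy).2)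

private theorem G4_int (D : AL) (lam : ℝ) (hl : 0 < lam) (x : ℝ) (hx : 0 ≤ x) :
    IntegrableOn (fun y : ℝ => y * Real.exp (-lam * x * y ^ 2) *
        Real.exp (lam * Real.log ‖Bn 0 (-((y : ℂ) ^ 2))‖)) (Set.Ioo (√D.a) (√D.T)) := by
  obtain ⟨M, hM⟩ := (isCompact_Icc (a := √D.a) (b := √D.T)).exists_bound_of_continuousOn
    (G4_cont2.continuousOn)
  have hMp : ∀ y ∈ Set.Ioo (√D.a) (√D.T), ‖Bn 0 (-((y : ℂ) ^ 2))‖ ≤ M := by
    intro y hy
    have h := hM y ⟨hy.1.le, hy.2.le⟩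
    rwa [norm_norm] at h
  refine IntegrableOn.of_bound ?_ ?_ (√D.T * 1 * Real.exp (lam * Real.log M)) ?_
  · simp
  · exact (G4_co D lam x _ fun y hy => (G4_mem D hy).2).aestronglyMeasurable measurableSet_Ioo
  · refine (ae_restrict_iff' measurableSet_Ioo).2 (ae_of_all _ fun y hy => ?_)
    obtain ⟨h0, h1, h2⟩ := G4_mem D hy
    have hn : 0 < ‖Bn 0 (-((y : ℂ) ^ 2))‖ := norm_pos_iff.2 (G4_ne D h1 h2)
    rw [Real.norm_of_nonneg (by positivity)]
    refine mul_le_mul (mul_le_mul hy.2.le ?_ (Real.exp_pos _).le (Real.sqrt_nonneg _)) ?_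
      (Real.exp_pos _).le (by positivity)
    · refine Real.exp_le_one_iff.2 ?_
      have : 0 ≤ lam * x * y ^ 2 := by positivity
      linarith
    · refine Real.exp_le_exp.2 (mul_le_mul_of_nonneg_left ?_ hl.le)
      exact Real.log_le_log hn (hMp y hy)

theorem ghost_low (D : AL) (lam : ℝ) (hl : 0 < lam) : ∃ c : ℝ, 0 < c ∧ ∀ x : ℝ, 0 ≤ x →
    c * Real.exp (-lam * x * ((D.a + D.T) / 2)) ≤
      ∫ y in Set.Ioo (√D.a) (√D.T), y * Real.exp (-lam * x * y ^ 2) *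
        Real.exp (lam * Real.log ‖Bn 0 (-((y : ℂ) ^ 2))‖) := by
  have ha := D.a_pos
  have haT := D.a_lt
  set y1 : ℝ := √((3 * D.a + D.T) / 4) with hy1
  set y2 : ℝ := √((D.a + D.T) / 2) with hy2
  have q1 : √D.a < y1 := Real.sqrt_lt_sqrt ha.le (by linarith)
  have q2 : y1 < y2 := Real.sqrt_lt_sqrt (by linarith) (by linarith)
  have q3 : y2 < √D.T := Real.sqrt_lt_sqrt (by linarith) (by linarith)
  have q0 : 0 < y1 := lt_of_le_of_lt (Real.sqrt_nonneg _) q1
  have hsub : Set.Icc y1 y2 ⊆ Set.Ioo (√D.a) (√D.T) := fun y hy =>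
    ⟨lt_of_lt_of_le q1 hy.1, lt_of_le_of_lt hy.2 q3⟩
  have hy2s : y2 ^ 2 = (D.a + D.T) / 2 := Real.sq_sqrt (by linarith)
  -- the minimum of the norm
  obtain ⟨z, hz, hzm⟩ := (isCompact_Icc (a := y1) (b := y2)).exists_isMinOn
    (Set.nonempty_Icc.2 q2.le) (G4_cont2.continuousOn (s := Set.Icc y1 y2))
  obtain ⟨-, hz1, hz2⟩ := G4_mem D (hsub hz)
  have hzp : 0 < ‖Bn 0 (-((z : ℂ) ^ 2))‖ := norm_pos_iff.2 (G4_ne D hz1 hz2)
  set m : ℝ := Real.exp (lam * Real.log ‖Bn 0 (-((z : ℂ) ^ 2))‖) with hm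
  have hmp : 0 < m := Real.exp_pos _
  refine ⟨(y2 - y1) * (y1 * m), mul_pos (by linarith) (mul_pos q0 hmp), fun x hx => ?_⟩
  have hI := G4_int D lam hl x hx
  have h1 : ∫ y in Set.Icc y1 y2, y * Real.exp (-lam * x * y ^ 2) *
        Real.exp (lam * Real.log ‖Bn 0 (-((y : ℂ) ^ 2))‖) ≤
      ∫ y in Set.Ioo (√D.a) (√D.T), y * Real.exp (-lam * x * y ^ 2) *
        Real.exp (lam * Real.log ‖Bn 0 (-((y : ℂ) ^ 2))‖) := by
    refine setIntegral_mono_set hI ?_ hsub.eventuallyLE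
    refine (ae_restrict_iff' measurableSet_Ioo).2 (ae_of_all _ fun y hy => ?_)
    have := (G4_mem D hy).1
    show (0 : ℝ) ≤ y * Real.exp (-lam * x * y ^ 2) *
        Real.exp (lam * Real.log ‖Bn 0 (-((y : ℂ) ^ 2))‖)
    positivity
  refine le_trans ?_ h1
  have h2 : ∫ _y in Set.Icc y1 y2, y1 * Real.exp (-lam * x * ((D.a + D.T) / 2)) * m =
      (y2 - y1) * (y1 * m) * Real.exp (-lam * x * ((D.a + D.T) / 2)) := by
    rw [setIntegral_const, Real.volume_real_Icc_of_le q2.le, smul_eq_mul]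
    ring
  rw [← h2]
  refine setIntegral_mono_on ?_ (hI.mono_set hsub) measurableSet_Icc fun y hy => ?_
  · exact integrableOn_const (by simp)
  obtain ⟨p0, p1, p2⟩ := G4_mem D (hsub hy)
  have hyn : 0 < ‖Bn 0 (-((y : ℂ) ^ 2))‖ := norm_pos_iff.2 (G4_ne D p1 p2)
  refine mul_le_mul (mul_le_mul hy.1 ?_ (Real.exp_pos _).le p0.le) ?_ hmp.le (by positivity)
  · refine Real.exp_le_exp.2 ?_
    have h3 : y ^ 2 ≤ (D.a + D.T) / 2 := by
      rw [← hy2s]
      exact pow_le_pow_left₀ p0.le hy.2 2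
    have h4 : 0 ≤ lam * x := mul_nonneg hl.le hx
    nlinarith [mul_le_mul_of_nonneg_left h3 h4]
  · refine Real.exp_le_exp.2 (mul_le_mul_of_nonneg_left ?_ hl.le)
    exact Real.log_le_log hzp (hzm hy)

private theorem G4_gi (b : ℝ) (hb : 0 < b) :
    Integrable fun y : ℝ => (1 + y) * Real.exp (-b * y ^ 2) := by
  have h := (integrable_exp_neg_mul_sq hb).add (integrable_mul_exp_neg_mul_sq hb)
  refine h.congr (ae_of_all _ fun y => ?_)
  show Real.exp (-b * y ^ 2) + y * Real.exp (-b * y ^ 2) = (1 + y) * Real.exp (-b * y ^ 2)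
  ring

theorem ghost_rest (T lam : ℝ) (hT : 0 < T) (hl : 0 < lam) : ∃ C : ℝ, 0 < C ∧ ∀ x : ℝ, 4 ≤ x →
    ∫ y in Set.Ioi (√T), (1 + y) * Real.exp (-lam * (x - 3) * y ^ 2) ≤
      C * Real.exp (-lam * x * T) := by
  have hnn : 0 ≤ ∫ y in Set.Ioi (√T), (1 + y) * Real.exp (-lam * y ^ 2) := by
    refine setIntegral_nonneg measurableSet_Ioi fun y hy => ?_
    have : 0 ≤ y := (Real.sqrt_nonneg T).trans (le_of_lt hy)
    positivity
  refine ⟨Real.exp (4 * lam * T) * ((∫ y in Set.Ioi (√T), (1 + y) * Real.exp (-lam * y ^ 2)) + 1),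
    by positivity, fun x hx => ?_⟩
  have h1 : ∫ y in Set.Ioi (√T), (1 + y) * Real.exp (-lam * (x - 3) * y ^ 2) ≤
      ∫ y in Set.Ioi (√T), Real.exp (-lam * (x - 4) * T) * ((1 + y) * Real.exp (-lam * y ^ 2)) := by
    refine setIntegral_mono_on ?_ ?_ measurableSet_Ioi fun y hy => ?_
    · have h2 := (G4_gi (lam * (x - 3)) (mul_pos hl (by linarith))).integrableOn (s := Set.Ioi (√T))
      refine h2.congr_fun (fun y _ => ?_) measurableSet_Ioi
      show (1 + y) * Real.exp (-(lam * (x - 3)) * y ^ 2) = (1 + y) * Real.exp (-lam * (x - 3) * y ^ 2)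
      rw [neg_mul lam]
    · exact ((G4_gi lam hl).integrableOn).const_mul _
    · have hy0 : 0 < y := lt_of_le_of_lt (Real.sqrt_nonneg T) hy
      have hy2 : T ≤ y ^ 2 := (Real.sqrt_le_left hy0.le).1 (le_of_lt hy)
      have h3 : Real.exp (-lam * (x - 3) * y ^ 2) ≤
          Real.exp (-lam * (x - 4) * T) * Real.exp (-lam * y ^ 2) := by
        rw [← Real.exp_add]
        refine Real.exp_le_exp.2 ?_
        have h4 : 0 ≤ lam * (x - 4) := mul_nonneg hl.le (by linarith)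
        nlinarith [mul_le_mul_of_nonneg_left hy2 h4]
      calc (1 + y) * Real.exp (-lam * (x - 3) * y ^ 2)
          ≤ (1 + y) * (Real.exp (-lam * (x - 4) * T) * Real.exp (-lam * y ^ 2)) :=
            mul_le_mul_of_nonneg_left h3 (by linarith)
        _ = Real.exp (-lam * (x - 4) * T) * ((1 + y) * Real.exp (-lam * y ^ 2)) := by ring
  refine h1.trans ?_
  rw [integral_const_mul]
  have h5 : Real.exp (-lam * (x - 4) * T) = Real.exp (4 * lam * T) * Real.exp (-lam * x * T) := by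
    rw [← Real.exp_add]
    congr 1
    ring
  rw [h5]
  have h6 : 0 ≤ Real.exp (4 * lam * T) * Real.exp (-lam * x * T) := by positivity
  nlinarith

end Pool.Agent.LibFR89
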