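import Mathlib
import Pool.Agent.LibFR89.Defs
import Pool.Agent.LibFR89.G3
import Pool.Agent.LibFR89.G4

/-!
# Row G5 (EASY): the ghost term

Rows G3, G4: `Im JJ * sin (π lam) ≥ sin^2 c exp (-lam x (a+T)/2) - |sin| C C' exp (-lam x T)
≥ c' exp (-lam (a+T)/2 x)` for large `x`.
-/

set_option autoImplicit false

namespace Pool.Agent.LibFR89

open MeasureTheory Filter Topology

theorem ghost (D : AL) (lam : ℝ) (hl : 0 < lam) (hs : Real.sin (Real.pi * lam) ≠ 0) :
    ∃ c κ x0 : ℝ, 0 < c ∧ 4 ≤ x0 ∧ ∀ x : ℝ, x0 ≤ x →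
      c * Real.exp (-κ * x) ≤ (JJ D lam (x : ℂ)).im * Real.sin (Real.pi * lam) := by
  obtain ⟨C1, hC1, h1⟩ := Im_JJ D lam hl
  obtain ⟨c0, hc0, h2⟩ := ghost_low D lam hl
  obtain ⟨C2, hC2, h3⟩ := ghost_rest D.T lam (D.a_pos.trans D.a_lt) hl
  set s := Real.sin (Real.pi * lam) with hsd
  have hδ : 0 < lam * (D.T - D.a) / 2 := by
    have := D.a_lt
    have h4 : 0 < D.T - D.a := by linarith
    positivity
  set δ := lam * (D.T - D.a) / 2 with hδd
  have hA : 0 < s ^ 2 * c0 := by positivity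
  have hB : 0 < |s| * (C1 * C2) := by positivity
  refine ⟨s ^ 2 * c0 / 2, lam * ((D.a + D.T) / 2), max 4 (2 * (|s| * (C1 * C2)) / (s ^ 2 * c0 * δ)), by positivity,
    le_max_left _ _, fun x hx => ?_⟩
  have hx4 : 4 ≤ x := le_trans (le_max_left _ _) hx
  have hx0 : 2 * (|s| * (C1 * C2)) ≤ s ^ 2 * c0 * (δ * x) := by
    have := le_trans (le_max_right _ _) hx
    rw [div_le_iff₀ (by positivity)] at this
    linarith
  have g1 := h1 x hx4
  have g2 := h2 x (by linarith)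
  have g3 := h3 x hx4
  set M := ∫ y in Set.Ioo (√D.a) (√D.T), y * Real.exp (-lam * x * y ^ 2) *
        Real.exp (lam * Real.log ‖Bn 0 (-((y : ℂ) ^ 2))‖) with hM
  set e := Real.exp (-lam * x * ((D.a + D.T) / 2)) with he
  have he0 : 0 < e := Real.exp_pos _
  have heT : Real.exp (-lam * x * D.T) = e * Real.exp (-(δ * x)) := by
    rw [he, ← Real.exp_add]
    congr 1
    rw [hδd]
    ring
  have hexp : Real.exp (-(δ * x)) * (δ * x) ≤ 1 := by
    have h5 := Real.add_one_le_exp (δ * x)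
    have h6 : Real.exp (-(δ * x)) * Real.exp (δ * x) = 1 := by
      rw [← Real.exp_add]
      simp
    have h7 := Real.exp_pos (-(δ * x))
    nlinarith
  have hsmall : 2 * (|s| * (C1 * C2)) * Real.exp (-(δ * x)) ≤ s ^ 2 * c0 := by
    calc 2 * (|s| * (C1 * C2)) * Real.exp (-(δ * x)) ≤ s ^ 2 * c0 * (δ * x) * Real.exp (-(δ * x)) :=
          mul_le_mul_of_nonneg_right hx0 (Real.exp_pos _).le
      _ = s ^ 2 * c0 * (Real.exp (-(δ * x)) * (δ * x)) := by ring
      _ ≤ s ^ 2 * c0 * 1 := mul_le_mul_of_nonneg_left hexp hA.le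
      _ = _ := mul_one _
  have hdiff : |(JJ D lam (x : ℂ)).im - s * M| ≤ C1 * (C2 * (e * Real.exp (-(δ * x)))) := by
    rw [← heT]
    exact g1.trans (mul_le_mul_of_nonneg_left g3 hC1.le)
  have hprod : -(|s| * (C1 * (C2 * (e * Real.exp (-(δ * x)))))) ≤ ((JJ D lam (x : ℂ)).im - s * M) * s := by
    have h8 : |((JJ D lam (x : ℂ)).im - s * M) * s| ≤ |s| * (C1 * (C2 * (e * Real.exp (-(δ * x))))) := by
      rw [abs_mul, mul_comm]
      exact mul_le_mul_of_nonneg_left hdiff (abs_nonneg _)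
    exact (abs_le.1 h8).1
  have hmain : s ^ 2 * (c0 * e) ≤ s ^ 2 * M := mul_le_mul_of_nonneg_left g2 (by positivity)
  have hκ : Real.exp (-(lam * ((D.a + D.T) / 2)) * x) = e := by
    rw [he]
    congr 1
    ring
  rw [hκ]
  have hfin : 2 * (|s| * (C1 * C2)) * Real.exp (-(δ * x)) * e ≤ s ^ 2 * c0 * e :=
    mul_le_mul_of_nonneg_right hsmall he0.le
  nlinarith

end Pool.Agent.LibFR89
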