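import Mathlib
import Pool.Agent.LibFR89.Defs
import Pool.Agent.LibFR89.P2
import Pool.Agent.LibFR89.P3

/-!
# Row P6 (MEDIUM): `JJ` is holomorphic

`hasDerivAt_integral_of_dominated_loc_of_deriv_le` for the two integrals in the definition of `JJ`,
on the ball of radius `r/2` around `σ0` (row P3, `ff_ball`): the derivative of the integrand in `σ`
is `lam w^2 ff D lam σ w`, bounded by `lam ‖w‖^2 C exp (..)`.
(Or: the integrals are locally uniform limits of holomorphic functions.)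
-/

set_option autoImplicit false

namespace Pool.Agent.LibFR89

open MeasureTheory Filter Topology

private theorem P6_deriv (D : AL) (lam : ℝ) (σ w : ℂ) :
    HasDerivAt (fun σ : ℂ => ff D lam σ w) ((lam : ℂ) * w ^ 2 * ff D lam σ w) σ := by
  unfold ff
  have h1 : HasDerivAt (fun σ : ℂ => (lam : ℂ) * (σ * w ^ 2 - 2 / 3 * w ^ 3)) ((lam : ℂ) * w ^ 2) σ := by
    have h2 : HasDerivAt (fun σ : ℂ => σ * w ^ 2 - 2 / 3 * w ^ 3) (w ^ 2) σ := by
      have h3 := ((hasDerivAt_id σ).mul_const (w ^ 2)).sub_const (2 / 3 * w ^ 3)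
      rw [one_mul] at h3
      exact h3
    exact h2.const_mul _
  have h4 := ((h1.cexp).mul_const w).mul_const (Complex.exp ((lam : ℂ) * D.L w))
  refine h4.congr_deriv ?_
  ring

private theorem P6_gen (D : AL) (lam : ℝ) (σ0 : ℂ) (r : ℝ) (hr : 0 < r) (γ : ℝ → ℂ)
    (hγ : Continuous γ) (S : Set ℝ) (hS : MeasurableSet S) (hre : ∀ s ∈ S, 0 < (γ s).re) (b : ℝ → ℝ)
    (hb : IntegrableOn b S)
    (hbound : ∀ s ∈ S, ∀ σ : ℂ, ‖σ - σ0‖ ≤ r → ‖ff D lam σ (γ s)‖ ≤ b s) :
    DifferentiableAt ℂ (fun σ => ∫ s in S, ff D lam σ (γ s)) σ0 := by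
  have hcont : ∀ σ, ContinuousOn (fun s => ff D lam σ (γ s)) S := fun σ =>
    ((ff_diff D lam σ).continuousOn).comp hγ.continuousOn (fun s hs => hre s hs)
  have hmeas : ∀ σ, AEStronglyMeasurable (fun s => ff D lam σ (γ s)) (volume.restrict S) :=
    fun σ => (hcont σ).aestronglyMeasurable hS
  have hr2 : 0 < r / 2 := by linarith
  refine (hasDerivAt_integral_of_dominated_loc_of_deriv_le (𝕜 := ℂ) (μ := volume.restrict S)
    (F := fun σ s => ff D lam σ (γ s))
    (F' := fun σ s => (lam : ℂ) * (γ s) ^ 2 * ff D lam σ (γ s)) (bound := fun s => b s / (r / 2))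
    (s := Metric.ball σ0 (r / 2)) (Metric.ball_mem_nhds σ0 hr2)
    (Filter.Eventually.of_forall hmeas) ?_ ?_ ?_ ?_ ?_).2.differentiableAt
  · refine Integrable.mono' hb (hmeas σ0) ?_
    refine (ae_restrict_mem hS).mono (fun s hs => ?_)
    exact hbound s hs σ0 (by rw [sub_self, norm_zero]; exact hr.le)
  · have h1 : ContinuousOn (fun s => (lam : ℂ) * (γ s) ^ 2 * ff D lam σ0 (γ s)) S :=
      ((continuous_const.mul (hγ.pow 2)).continuousOn).mul (hcont σ0)
    exact h1.aestronglyMeasurable hS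
  · refine (ae_restrict_mem hS).mono (fun s hs => ?_)
    intro σ hσ
    rw [Metric.mem_ball, dist_eq_norm] at hσ
    have h1 : deriv (fun σ : ℂ => ff D lam σ (γ s)) σ = (lam : ℂ) * (γ s) ^ 2 * ff D lam σ (γ s) :=
      (P6_deriv D lam σ (γ s)).deriv
    rw [← h1]
    refine Complex.norm_deriv_le_of_forall_mem_sphere_norm_le hr2 ?_ ?_
    · have h2 : Differentiable ℂ (fun σ : ℂ => ff D lam σ (γ s)) := fun τ =>
        (P6_deriv D lam τ (γ s)).differentiableAt
      exact h2.diffContOnCl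
    · intro τ hτ
      rw [mem_sphere_iff_norm] at hτ
      refine hbound s hs τ ?_
      calc ‖τ - σ0‖ = ‖(τ - σ) + (σ - σ0)‖ := by rw [sub_add_sub_cancel]
        _ ≤ ‖τ - σ‖ + ‖σ - σ0‖ := norm_add_le _ _
        _ ≤ r / 2 + r / 2 := add_le_add hτ.le hσ.le
        _ = r := by ring
  · exact hb.div_const (r / 2)
  · exact Filter.Eventually.of_forall (fun s σ _ => P6_deriv D lam σ (γ s))

theorem JJ_diff (D : AL) (lam : ℝ) (hl : 0 < lam) (σ : ℂ) (hσ : 2 < σ.re) :
    DifferentiableAt ℂ (JJ D lam) σ := by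
  obtain ⟨r, C, ε, hr, hC, hε, hball⟩ := ff_ball D lam hl σ hσ
  have h1 : DifferentiableAt ℂ (fun τ => ∫ x in Set.Ioi (1 : ℝ), ff D lam τ (x : ℂ)) σ := by
    refine P6_gen D lam σ r hr (fun x => (x : ℂ)) Complex.continuous_ofReal (Set.Ioi 1)
      measurableSet_Ioi ?_ (fun x => C * Real.exp (-x)) ?_ ?_
    · intro x hx
      have hx1 : (1 : ℝ) < x := hx
      show 0 < ((x : ℂ)).re
      rw [Complex.ofReal_re]
      linarith
    · exact (integrableOn_exp_neg_Ioi 1).const_mul C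
    · intro x hx τ hτ
      exact (hball τ hτ).2 x (le_of_lt hx)
  have h2 : DifferentiableAt ℂ
      (fun τ => ∫ y in Set.Ioi (0 : ℝ), ff D lam τ (1 + (y : ℂ) * Complex.I)) σ := by
    refine P6_gen D lam σ r hr (fun y => 1 + (y : ℂ) * Complex.I) (by fun_prop) (Set.Ioi 0)
      measurableSet_Ioi ?_ (fun y => C * Real.exp (-ε * y ^ 2)) ?_ ?_
    · intro y _
      show 0 < (1 + (y : ℂ) * Complex.I).re
      simp
    · exact ((integrable_exp_neg_mul_sq hε).const_mul C).integrableOn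
    · intro y hy τ hτ
      exact (hball τ hτ).1 y (le_of_lt hy)
  unfold JJ
  exact h1.sub (h2.const_mul Complex.I)

end Pool.Agent.LibFR89
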