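import Mathlib
import Pool.Agent.LibFR89.Defs

/-!
# Row S4 (EASY/MEDIUM, ONLY MATHLIB): Gaussian tails and moments

Tail: for `|s| ≥ c/4`, `c ≥ r/2`, `r ≥ 1`: `lam c s^2 ≥ lam s^2/4 + lam r^3/256`
(half of it: `lam c s^2/2 ≥ lam (r/2)(r/8)^2/2`, other half: `c/2 ≥ 1/4`), so `c2 = lam/256`,
`C = ∫ (1 + |s|)^M exp (-lam s^2/4)`.
Moments: scaling `s = u/√c` (`integral_rpow_mul_exp_neg_mul_sq`-like, or `Real.integral` of Gaussian
moments); the claim is for all `c > 0`.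
-/

set_option autoImplicit false

namespace Pool.Agent.LibFR89

open MeasureTheory Filter Topology

private theorem S4_int (b : ℝ) (hb : 0 < b) (n : ℕ) :
    Integrable (fun s : ℝ => |s| ^ n * Real.exp (-b * s ^ 2)) := by
  have h1 := (integrable_rpow_mul_exp_neg_mul_sq hb (s := (n : ℝ))
    (lt_of_lt_of_le (by norm_num) (Nat.cast_nonneg n))).norm
  refine h1.congr (ae_of_all _ fun s => ?_)
  change ‖s ^ (n : ℝ) * Real.exp (-b * s ^ 2)‖ = _
  rw [norm_mul, Real.rpow_natCast, norm_pow, Real.norm_eq_abs, Real.norm_eq_abs, Real.abs_exp]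

private theorem S4_int1 (b : ℝ) (hb : 0 < b) (M : ℕ) :
    Integrable (fun s : ℝ => (1 + |s|) ^ M * Real.exp (-b * s ^ 2)) := by
  have h1 : (fun s : ℝ => (1 + |s|) ^ M * Real.exp (-b * s ^ 2)) =
      fun s : ℝ => ∑ m ∈ Finset.range (M + 1), (M.choose m : ℝ) *
        (|s| ^ (M - m) * Real.exp (-b * s ^ 2)) := by
    funext s
    rw [add_pow, Finset.sum_mul]
    refine Finset.sum_congr rfl fun m _ => ?_
    rw [one_pow]
    ring
  rw [h1]
  exact integrable_finsetSum _ fun m _ => (S4_int b hb (M - m)).const_mul _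

theorem gauss_tail (lam : ℝ) (hl : 0 < lam) (M : ℕ) : ∃ C c2 : ℝ, 0 < C ∧ 0 < c2 ∧
    ∀ r c : ℝ, 1 ≤ r → r / 2 ≤ c →
    IntegrableOn (fun s : ℝ => (1 + |s|) ^ M * Real.exp (-lam * c * s ^ 2)) Set.univ ∧
    ∫ s in {s : ℝ | c / 4 ≤ |s|}, (1 + |s|) ^ M * Real.exp (-lam * c * s ^ 2) ≤
      C * Real.exp (-c2 * r ^ 3) := by
  have hb : 0 < lam / 4 := by positivity
  have hG := S4_int1 (lam / 4) hb M
  have hG0 : 0 ≤ ∫ s : ℝ, (1 + |s|) ^ M * Real.exp (-(lam / 4) * s ^ 2) :=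
    integral_nonneg fun s => by positivity
  refine ⟨(∫ s : ℝ, (1 + |s|) ^ M * Real.exp (-(lam / 4) * s ^ 2)) + 1, lam / 256, by linarith,
    by positivity, ?_⟩
  intro r c hr hc
  have hc2 : 1 / 2 ≤ c := by linarith
  have hI : Integrable (fun s : ℝ => (1 + |s|) ^ M * Real.exp (-lam * c * s ^ 2)) := by
    have h1 := S4_int1 (lam * c) (by positivity) M
    refine h1.congr (ae_of_all _ fun s => ?_)
    change _ * Real.exp (-(lam * c) * s ^ 2) = _ * Real.exp (-lam * c * s ^ 2)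
    rw [neg_mul lam c]
  refine ⟨hI.integrableOn, ?_⟩
  have hms : MeasurableSet {s : ℝ | c / 4 ≤ |s|} :=
    measurableSet_le measurable_const measurable_abs
  have h2 : ∫ s in {s : ℝ | c / 4 ≤ |s|}, (1 + |s|) ^ M * Real.exp (-lam * c * s ^ 2) ≤
      ∫ s in {s : ℝ | c / 4 ≤ |s|}, ((1 + |s|) ^ M * Real.exp (-(lam / 4) * s ^ 2)) *
        Real.exp (-(lam / 256) * r ^ 3) := by
    refine setIntegral_mono_on hI.integrableOn (hG.mul_const _).integrableOn hms ?_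
    intro s hs
    have hs' : c / 4 ≤ |s| := hs
    change (1 + |s|) ^ M * Real.exp (-lam * c * s ^ 2) ≤
      ((1 + |s|) ^ M * Real.exp (-(lam / 4) * s ^ 2)) * Real.exp (-(lam / 256) * r ^ 3)
    rw [mul_assoc ((1 + |s|) ^ M), ← Real.exp_add]
    refine mul_le_mul_of_nonneg_left ?_ (by positivity)
    rw [Real.exp_le_exp]
    have h3 : (r / 8) ^ 2 ≤ s ^ 2 := by
      rw [← sq_abs s]
      exact pow_le_pow_left₀ (by positivity) (by linarith) 2
    have h4 : r ^ 3 / 256 ≤ c * s ^ 2 / 2 := by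
      have h5 : r / 2 * (r / 8) ^ 2 ≤ c * s ^ 2 :=
        mul_le_mul hc h3 (by positivity) (by linarith)
      nlinarith
    have h6 : s ^ 2 / 4 ≤ c * s ^ 2 / 2 := by
      nlinarith [sq_nonneg s]
    have h7 := mul_le_mul_of_nonneg_left (add_le_add h4 h6) hl.le
    nlinarith
  refine h2.trans ?_
  rw [integral_mul_const]
  refine mul_le_mul_of_nonneg_right ?_ (Real.exp_pos _).le
  have h8 := setIntegral_le_integral (s := {s : ℝ | c / 4 ≤ |s|}) hG
    (ae_of_all _ fun s => by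
      change (0 : ℝ) ≤ (1 + |s|) ^ M * Real.exp (-(lam / 4) * s ^ 2)
      positivity)
  linarith

theorem gauss_abs_moment (b : ℝ) (hb : 0 < b) (M : ℕ) : ∃ C : ℝ, 0 < C ∧ ∀ c : ℝ, 0 < c →
    Integrable (fun s : ℝ => |s| ^ M * Real.exp (-b * c * s ^ 2)) ∧
    ∫ s : ℝ, |s| ^ M * Real.exp (-b * c * s ^ 2) ≤ C * c ^ (-((M : ℝ) + 1) / 2) := by
  have h0 : 0 ≤ ∫ s : ℝ, |s| ^ M * Real.exp (-b * s ^ 2) :=
    integral_nonneg fun s => by positivity
  refine ⟨(∫ s : ℝ, |s| ^ M * Real.exp (-b * s ^ 2)) + 1, by linarith, ?_⟩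
  intro c hc
  have hI : Integrable (fun s : ℝ => |s| ^ M * Real.exp (-b * c * s ^ 2)) := by
    have h1 := S4_int (b * c) (by positivity) M
    refine h1.congr (ae_of_all _ fun s => ?_)
    change _ * Real.exp (-(b * c) * s ^ 2) = _ * Real.exp (-b * c * s ^ 2)
    rw [neg_mul b c]
  refine ⟨hI, ?_⟩
  have hsc : 0 < Real.sqrt c := Real.sqrt_pos.2 hc
  have h1 := Measure.integral_comp_mul_left
    (fun s : ℝ => |s| ^ M * Real.exp (-b * s ^ 2)) (Real.sqrt c)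
  have h2 : (fun x : ℝ => |Real.sqrt c * x| ^ M * Real.exp (-b * (Real.sqrt c * x) ^ 2)) =
      fun x : ℝ => Real.sqrt c ^ M * (|x| ^ M * Real.exp (-b * c * x ^ 2)) := by
    funext x
    rw [abs_mul, abs_of_pos hsc, mul_pow, mul_pow, Real.sq_sqrt hc.le, ← mul_assoc (-b)]
    ring
  rw [h2, integral_const_mul, smul_eq_mul, abs_of_pos (inv_pos.2 hsc)] at h1
  have h3 : ∫ s : ℝ, |s| ^ M * Real.exp (-b * c * s ^ 2) =
      (∫ s : ℝ, |s| ^ M * Real.exp (-b * s ^ 2)) * ((Real.sqrt c)⁻¹ * (Real.sqrt c ^ M)⁻¹) := by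
    have h4 : Real.sqrt c ^ M ≠ 0 := (pow_pos hsc M).ne'
    field_simp
    field_simp at h1
    linarith
  have h5 : (Real.sqrt c)⁻¹ * (Real.sqrt c ^ M)⁻¹ = c ^ (-((M : ℝ) + 1) / 2) := by
    rw [← mul_inv, ← pow_succ', ← Real.rpow_natCast, Real.sqrt_eq_rpow, ← Real.rpow_mul hc.le,
      ← Real.rpow_neg hc.le]
    congr 1
    push_cast
    ring
  rw [h3, h5]
  refine mul_le_mul_of_nonneg_right (by linarith) (Real.rpow_nonneg hc.le _)

theorem exp_cube_le (c2 : ℝ) (hc : 0 < c2) (M : ℕ) : ∃ C : ℝ, 0 < C ∧ ∀ r : ℝ, 1 ≤ r →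
    Real.exp (-c2 * r ^ 3) ≤ C / r ^ M := by
  refine ⟨(M.factorial : ℝ) / c2 ^ M, by positivity, ?_⟩
  intro r hr
  have h0 : 0 < r := by linarith
  have h1 : (c2 * r) ^ M / (M.factorial : ℝ) ≤ Real.exp (c2 * r) :=
    Real.pow_div_factorial_le_exp _ (by positivity) M
  have h2 : Real.exp (c2 * r) ≤ Real.exp (c2 * r ^ 3) := by
    rw [Real.exp_le_exp]
    refine mul_le_mul_of_nonneg_left ?_ hc.le
    nlinarith [mul_pos h0 h0]
  have h3 := h1.trans h2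
  rw [neg_mul, Real.exp_neg]
  have h4 : (M.factorial : ℝ) / c2 ^ M / r ^ M = ((c2 * r) ^ M / (M.factorial : ℝ))⁻¹ := by
    rw [mul_pow, inv_div, div_div]
  rw [h4]
  exact inv_anti₀ (by positivity) h3

end Pool.Agent.LibFR89
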