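import Mathlib
import Pool.Agent.LibFR89.Defs
import Pool.Agent.LibFR89.P2
import Pool.Agent.LibFR89.S4

/-!
# Row S10 (MEDIUM): the tail on the vertical line

`σ = c + i d`, `d ≥ 0`, `w = c/4 + i y`, `y ≥ d`.
`Re (σ w^2 - 2/3 w^3) - Re (σ^3/3)` is `-(9/32) c^3` at `y = d` (there `w = σ + s`, `s = -3c/4`, and
`σ w^2 - 2/3 w^3 = σ^3/3 - σ s^2 - 2/3 s^3`) and, as a polynomial in `y`, equals that value
`- (c/2) (y^2 - d^2) - (c/2) d (y - d) ≤ -(c/2) (y - d)^2`.  With `ff_le`: the norm of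
`exp (-lam σ^3/3) ff` is at most `exp (-(9/32) lam c^3 - lam c/2 (y-d)^2) (c/4 + d + (y - d)) (4π/c)^(lam/2)`.
-/

set_option autoImplicit false

namespace Pool.Agent.LibFR89

open MeasureTheory Filter Topology

private theorem S10_sq (z : ℂ) : (z ^ 2).re = z.re ^ 2 - z.im ^ 2 ∧ (z ^ 2).im = 2 * z.re * z.im := by
  constructor
  · simp [pow_succ, Complex.mul_re]
  · simp [pow_succ, Complex.mul_im]
    ring

private theorem S10_cube (z : ℂ) : (z ^ 3).re = z.re ^ 3 - 3 * z.re * z.im ^ 2 := by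
  simp [pow_succ, Complex.mul_re, Complex.mul_im]
  ring

private theorem S10_t (t : ℝ) : t * Real.exp (-t) ≤ 1 := by
  have h1 := Real.add_one_le_exp t
  have h2 : 0 < Real.exp (-t) := Real.exp_pos _
  have h3 : Real.exp t * Real.exp (-t) = 1 := by rw [← Real.exp_add]; simp
  nlinarith

/-- the polynomial factor is absorbed -/
private theorem S10_abs {lam c : ℝ} (hl : 0 < lam) (hc : 1 / 2 ≤ c) :
    Real.exp (-(9 / 32) * (lam * c ^ 3)) * (9 / 4 * c + 1) ≤ 68 / lam * Real.exp (-(1 / 32) * (lam * c ^ 3)) := by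
  have h1 : 9 / 4 * c + 1 ≤ 17 * c ^ 3 := by
    have h2 : 1 / 4 ≤ c ^ 2 := by nlinarith
    have h3 : c * (1 / 4) ≤ c * c ^ 2 := mul_le_mul_of_nonneg_left h2 (by linarith)
    have h4 : 1 ≤ 2 * c := by linarith
    nlinarith
  have h5 := S10_t (lam * c ^ 3 / 4)
  have h6 : Real.exp (-(9 / 32) * (lam * c ^ 3)) =
      Real.exp (-(1 / 32) * (lam * c ^ 3)) * Real.exp (-(lam * c ^ 3 / 4)) := by
    rw [← Real.exp_add]
    congr 1
    ring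
  rw [h6]
  have h7 : 0 < Real.exp (-(1 / 32) * (lam * c ^ 3)) := Real.exp_pos _
  have h8 : 0 < Real.exp (-(lam * c ^ 3 / 4)) := Real.exp_pos _
  have h9 : Real.exp (-(lam * c ^ 3 / 4)) * (9 / 4 * c + 1) ≤ 68 / lam := by
    calc Real.exp (-(lam * c ^ 3 / 4)) * (9 / 4 * c + 1) ≤ Real.exp (-(lam * c ^ 3 / 4)) * (17 * c ^ 3) :=
          mul_le_mul_of_nonneg_left h1 h8.le
      _ = 68 / lam * (lam * c ^ 3 / 4 * Real.exp (-(lam * c ^ 3 / 4))) := by field_simp; ring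
      _ ≤ 68 / lam * 1 := mul_le_mul_of_nonneg_left h5 (by positivity)
      _ = 68 / lam := mul_one _
  calc Real.exp (-(1 / 32) * (lam * c ^ 3)) * Real.exp (-(lam * c ^ 3 / 4)) * (9 / 4 * c + 1)
      = Real.exp (-(1 / 32) * (lam * c ^ 3)) * (Real.exp (-(lam * c ^ 3 / 4)) * (9 / 4 * c + 1)) := by ring
    _ ≤ Real.exp (-(1 / 32) * (lam * c ^ 3)) * (68 / lam) := mul_le_mul_of_nonneg_left h9 h7.le
    _ = _ := by ring

/-- the pointwise bound -/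
private theorem S10_pt (D : AL) {lam : ℝ} (hl : 0 < lam) {σ : ℂ} (h1 : 1 ≤ ‖σ‖) (h2 : 0 ≤ σ.im)
    (h3 : ‖σ‖ / 2 ≤ σ.re) {y : ℝ} (hy : σ.im < y) :
    ‖Complex.exp (-(lam : ℂ) * σ ^ 3 / 3) * ff D lam σ (((σ.re / 4 : ℝ) : ℂ) + (y : ℂ) * Complex.I)‖ ≤
      68 / lam * (8 * Real.pi) ^ (lam / 2) * Real.exp (-(lam / 256) * ‖σ‖ ^ 3) *
        ((1 + |y - σ.im|) ^ 1 * Real.exp (-(lam / 2) * (1 / 2) * (y - σ.im) ^ 2)) := by
  set c := σ.re with hc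
  set d := σ.im with hd
  set w : ℂ := ((c / 4 : ℝ) : ℂ) + (y : ℂ) * Complex.I with hw
  have hc2 : 1 / 2 ≤ c := by linarith
  have hwre : w.re = c / 4 := by simp [hw]
  have hwim : w.im = y := by simp [hw]
  have hd2 : d ≤ 2 * c := by
    have h4 : |σ.im| ≤ ‖σ‖ := Complex.abs_im_le_norm σ
    have h5 : σ.im ≤ |σ.im| := le_abs_self _
    linarith
  have hwn : ‖w‖ ≤ c / 4 + y := by
    have h4 := Complex.norm_le_abs_re_add_abs_im w
    rw [hwre, hwim, abs_of_nonneg (by linarith : (0 : ℝ) ≤ c / 4), abs_of_nonneg (by linarith : (0 : ℝ) ≤ y)] at h4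
    exact h4
  have hu : 0 < y - d := by linarith
  rw [abs_of_pos hu, pow_one]
  rw [norm_mul, Complex.norm_exp]
  have e1 : (-(lam : ℂ) * σ ^ 3 / 3).re = -lam * (c ^ 3 - 3 * c * d ^ 2) / 3 := by
    have h4 : -(lam : ℂ) * σ ^ 3 / 3 = ((-lam / 3 : ℝ) : ℂ) * σ ^ 3 := by push_cast; ring
    rw [h4, Complex.re_ofReal_mul, S10_cube]
    ring
  have e2 : (σ * w ^ 2 - 2 / 3 * w ^ 3).re =
      c * ((c / 4) ^ 2 - y ^ 2) - d * (2 * (c / 4) * y) - 2 / 3 * ((c / 4) ^ 3 - 3 * (c / 4) * y ^ 2) := by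
    have h4 : σ * w ^ 2 - 2 / 3 * w ^ 3 = σ * w ^ 2 - ((2 / 3 : ℝ) : ℂ) * w ^ 3 := by push_cast; ring
    rw [h4, Complex.sub_re, Complex.re_ofReal_mul, Complex.mul_re, S10_cube, (S10_sq w).1, (S10_sq w).2, hwre, hwim]
  have hff := ff_le D lam hl.le σ w (by rw [hwre]; linarith)
  rw [hwre, e2] at hff
  rw [e1]
  have hP : (Real.pi / (c / 4)) ^ (lam / 2) ≤ (8 * Real.pi) ^ (lam / 2) := by
    apply Real.rpow_le_rpow
    · have := Real.pi_pos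
      positivity
    · rw [div_le_iff₀ (by linarith)]
      have := Real.pi_pos
      nlinarith
    · linarith
  have hP0 : 0 ≤ (Real.pi / (c / 4)) ^ (lam / 2) := Real.rpow_nonneg (by have := Real.pi_pos; positivity) _
  have hP1 : 0 ≤ (8 * Real.pi) ^ (lam / 2) := Real.rpow_nonneg (by have := Real.pi_pos; positivity) _
  have hexp : Real.exp (-lam * (c ^ 3 - 3 * c * d ^ 2) / 3) *
      Real.exp (lam * (c * ((c / 4) ^ 2 - y ^ 2) - d * (2 * (c / 4) * y) - 2 / 3 * ((c / 4) ^ 3 - 3 * (c / 4) * y ^ 2))) ≤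
      Real.exp (-(9 / 32) * (lam * c ^ 3)) * Real.exp (-(lam / 2) * (1 / 2) * (y - d) ^ 2) := by
    rw [← Real.exp_add, ← Real.exp_add]
    apply Real.exp_le_exp.2
    have h4 : -lam * (c ^ 3 - 3 * c * d ^ 2) / 3 + lam * (c * ((c / 4) ^ 2 - y ^ 2) - d * (2 * (c / 4) * y) -
        2 / 3 * ((c / 4) ^ 3 - 3 * (c / 4) * y ^ 2)) = -(9 / 32) * (lam * c ^ 3) - lam * (c / 2) * ((y - d) * (y + 2 * d)) := by
      ring
    rw [h4]
    have h5 : (y - d) ^ 2 ≤ (y - d) * (y + 2 * d) := by nlinarith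
    have h6 : lam * (1 / 4) ≤ lam * (c / 2) := mul_le_mul_of_nonneg_left (by linarith) hl.le
    have h7 : lam * (1 / 4) * (y - d) ^ 2 ≤ lam * (c / 2) * ((y - d) * (y + 2 * d)) :=
      mul_le_mul h6 h5 (sq_nonneg _) (by positivity)
    linarith
  have hwn2 : ‖w‖ ≤ (9 / 4 * c + 1) * (1 + (y - d)) := by
    have h4 : 0 ≤ 9 / 4 * c * (y - d) := by positivity
    nlinarith
  have hσ : Real.exp (-(1 / 32) * (lam * c ^ 3)) ≤ Real.exp (-(lam / 256) * ‖σ‖ ^ 3) := by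
    apply Real.exp_le_exp.2
    have h4 : (‖σ‖ / 2) ^ 3 ≤ c ^ 3 := pow_le_pow_left₀ (by positivity) h3 3
    have h5 : lam * (‖σ‖ / 2) ^ 3 ≤ lam * c ^ 3 := mul_le_mul_of_nonneg_left h4 hl.le
    nlinarith
  have habs := S10_abs hl hc2
  have hE2 : 0 < Real.exp (-(lam / 2) * (1 / 2) * (y - d) ^ 2) := Real.exp_pos _
  have hE1 : 0 < Real.exp (-(9 / 32) * (lam * c ^ 3)) := Real.exp_pos _
  calc Real.exp (-lam * (c ^ 3 - 3 * c * d ^ 2) / 3) * ‖ff D lam σ w‖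
      ≤ Real.exp (-lam * (c ^ 3 - 3 * c * d ^ 2) / 3) *
        (Real.exp (lam * (c * ((c / 4) ^ 2 - y ^ 2) - d * (2 * (c / 4) * y) - 2 / 3 * ((c / 4) ^ 3 - 3 * (c / 4) * y ^ 2))) *
          ‖w‖ * (Real.pi / (c / 4)) ^ (lam / 2)) := mul_le_mul_of_nonneg_left hff (Real.exp_pos _).le
    _ = (Real.exp (-lam * (c ^ 3 - 3 * c * d ^ 2) / 3) *
        Real.exp (lam * (c * ((c / 4) ^ 2 - y ^ 2) - d * (2 * (c / 4) * y) - 2 / 3 * ((c / 4) ^ 3 - 3 * (c / 4) * y ^ 2)))) *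
          ‖w‖ * (Real.pi / (c / 4)) ^ (lam / 2) := by ring
    _ ≤ (Real.exp (-(9 / 32) * (lam * c ^ 3)) * Real.exp (-(lam / 2) * (1 / 2) * (y - d) ^ 2)) *
          ((9 / 4 * c + 1) * (1 + (y - d))) * (8 * Real.pi) ^ (lam / 2) := by
        apply mul_le_mul (mul_le_mul hexp hwn2 (norm_nonneg _) (by positivity)) hP hP0
        positivity
    _ = (Real.exp (-(9 / 32) * (lam * c ^ 3)) * (9 / 4 * c + 1)) * ((8 * Real.pi) ^ (lam / 2) *
          ((1 + (y - d)) * Real.exp (-(lam / 2) * (1 / 2) * (y - d) ^ 2))) := by ring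
    _ ≤ (68 / lam * Real.exp (-(lam / 256) * ‖σ‖ ^ 3)) * ((8 * Real.pi) ^ (lam / 2) *
          ((1 + (y - d)) * Real.exp (-(lam / 2) * (1 / 2) * (y - d) ^ 2))) := by
        apply mul_le_mul_of_nonneg_right _ (by positivity)
        exact habs.trans (mul_le_mul_of_nonneg_left hσ (by positivity))
    _ = _ := by ring

theorem tail_vert (D : AL) (lam : ℝ) (hl : 0 < lam) : ∃ C c2 R : ℝ, 0 < C ∧ 0 < c2 ∧ 1 ≤ R ∧
    ∀ σ : ℂ, R ≤ ‖σ‖ → 0 ≤ σ.im → ‖σ‖ / 2 ≤ σ.re →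
    ‖Complex.exp (-(lam : ℂ) * σ ^ 3 / 3) * ∫ y in Set.Ioi σ.im,
      ff D lam σ (((σ.re / 4 : ℝ) : ℂ) + (y : ℂ) * Complex.I)‖ ≤ C * Real.exp (-c2 * ‖σ‖ ^ 3) := by
  obtain ⟨C0, c20, hC0, hc20, hG⟩ := gauss_tail (lam / 2) (by linarith) 1
  have hint : Integrable (fun s : ℝ => (1 + |s|) ^ 1 * Real.exp (-(lam / 2) * (1 / 2) * s ^ 2)) :=
    integrableOn_univ.1 (hG 1 (1 / 2) le_rfl le_rfl).1
  set I0 : ℝ := ∫ s : ℝ, (1 + |s|) ^ 1 * Real.exp (-(lam / 2) * (1 / 2) * s ^ 2) with hI0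
  have hI : 0 ≤ I0 := integral_nonneg fun s => by positivity
  have hpi := Real.pi_pos
  have hP1 : 0 < (8 * Real.pi) ^ (lam / 2) := Real.rpow_pos_of_pos (by positivity) _
  refine ⟨68 / lam * (8 * Real.pi) ^ (lam / 2) * (I0 + 1), lam / 256, 1, by positivity, by positivity, le_rfl, ?_⟩
  intro σ h1 h2 h3
  rw [← integral_const_mul]
  have hg : Integrable (fun y : ℝ => 68 / lam * (8 * Real.pi) ^ (lam / 2) * Real.exp (-(lam / 256) * ‖σ‖ ^ 3) *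
      ((1 + |y - σ.im|) ^ 1 * Real.exp (-(lam / 2) * (1 / 2) * (y - σ.im) ^ 2))) :=
    (hint.comp_sub_right σ.im).const_mul _
  have h4 : ‖∫ y in Set.Ioi σ.im, Complex.exp (-(lam : ℂ) * σ ^ 3 / 3) *
      ff D lam σ (((σ.re / 4 : ℝ) : ℂ) + (y : ℂ) * Complex.I)‖ ≤
      ∫ y in Set.Ioi σ.im, 68 / lam * (8 * Real.pi) ^ (lam / 2) * Real.exp (-(lam / 256) * ‖σ‖ ^ 3) *
      ((1 + |y - σ.im|) ^ 1 * Real.exp (-(lam / 2) * (1 / 2) * (y - σ.im) ^ 2)) := by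
    apply norm_integral_le_of_norm_le hg.integrableOn
    rw [ae_restrict_iff' measurableSet_Ioi]
    exact Filter.Eventually.of_forall fun y hy => S10_pt D hl h1 h2 h3 hy
  have h5 : ∫ y in Set.Ioi σ.im, 68 / lam * (8 * Real.pi) ^ (lam / 2) * Real.exp (-(lam / 256) * ‖σ‖ ^ 3) *
      ((1 + |y - σ.im|) ^ 1 * Real.exp (-(lam / 2) * (1 / 2) * (y - σ.im) ^ 2)) ≤
      ∫ y : ℝ, 68 / lam * (8 * Real.pi) ^ (lam / 2) * Real.exp (-(lam / 256) * ‖σ‖ ^ 3) *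
      ((1 + |y - σ.im|) ^ 1 * Real.exp (-(lam / 2) * (1 / 2) * (y - σ.im) ^ 2)) := by
    apply setIntegral_le_integral hg
    exact Filter.Eventually.of_forall fun y => by
      show (0 : ℝ) ≤ _
      positivity
  have h6 : ∫ y : ℝ, 68 / lam * (8 * Real.pi) ^ (lam / 2) * Real.exp (-(lam / 256) * ‖σ‖ ^ 3) *
      ((1 + |y - σ.im|) ^ 1 * Real.exp (-(lam / 2) * (1 / 2) * (y - σ.im) ^ 2)) =
      68 / lam * (8 * Real.pi) ^ (lam / 2) * Real.exp (-(lam / 256) * ‖σ‖ ^ 3) * I0 := by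
    rw [integral_const_mul]
    congr 1
    exact integral_sub_right_eq_self (fun s : ℝ => (1 + |s|) ^ 1 * Real.exp (-(lam / 2) * (1 / 2) * s ^ 2)) σ.im
  rw [h6] at h5
  refine (h4.trans h5).trans ?_
  have h7 : 0 ≤ 68 / lam * (8 * Real.pi) ^ (lam / 2) * Real.exp (-(lam / 256) * ‖σ‖ ^ 3) := by positivity
  nlinarith

end Pool.Agent.LibFR89
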