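import Mathlib
import Pool.Agent.LibFR89.Defs

/-!
# Row S1 (MEDIUM, ONLY MATHLIB): remainder of the binomial series and of the exponential series

`(1 + h)^ν` is analytic on the unit ball (`Complex.one_add_cpow_hasFPowerSeriesOnBall_zero` in
Mathlib/Analysis/Analytic/Binomial.lean or similar, `binomialSeries`); remainder of order `n` on the
closed ball of radius `1/2` is `O(‖h‖^n)` (`HasFPowerSeriesOnBall.uniform_geometric_approx'` or
similar).  `1 + h ≠ 0`, so `(1 + h)^ν = exp (ν log (1 + h))`.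
-/

set_option autoImplicit false

namespace Pool.Agent.LibFR89

open MeasureTheory Filter Topology

theorem binom_rem (ν : ℝ) (n : ℕ) : ∃ C : ℝ, 0 < C ∧ ∀ h : ℂ, ‖h‖ ≤ 1 / 2 →
    ‖Complex.exp (ν * Complex.log (1 + h)) -
      ∑ l ∈ Finset.range n, ((Ring.choose ν l : ℝ) : ℂ) * h ^ l‖ ≤ C * ‖h‖ ^ n := by
  have hlt : (((3 / 4 : NNReal) : NNReal) : ENNReal) < 1 := by
    rw [← ENNReal.coe_one, ENNReal.coe_lt_coe]
    rw [← NNReal.coe_lt_coe]
    push_cast
    norm_num
  obtain ⟨a, ha, C, hC, hp⟩ :=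
    (Complex.one_add_cpow_hasFPowerSeriesOnBall_zero (a := (ν : ℂ))).uniform_geometric_approx' hlt
  refine ⟨C * (a / (3 / 4)) ^ n, by have := ha.1; positivity, fun h hh => ?_⟩
  have hy : h ∈ Metric.ball (0 : ℂ) ((3 / 4 : NNReal) : ℝ) := by
    rw [mem_ball_zero_iff]
    push_cast
    linarith
  have h1 := hp h hy n
  rw [zero_add] at h1
  have hne : (1 : ℂ) + h ≠ 0 := by
    intro h0
    have h2 : h = -1 := by linear_combination h0
    rw [h2, norm_neg, norm_one] at hh
    norm_num at hh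
  have h2 : (1 + h) ^ (ν : ℂ) = Complex.exp (ν * Complex.log (1 + h)) := by
    rw [Complex.cpow_def_of_ne_zero hne, mul_comm]
  have h3 : (binomialSeries ℂ (ν : ℂ)).partialSum n h =
      ∑ l ∈ Finset.range n, ((Ring.choose ν l : ℝ) : ℂ) * h ^ l := by
    unfold FormalMultilinearSeries.partialSum
    apply Finset.sum_congr rfl
    intro l _
    rw [binomialSeries_apply, Complex.ofReal_choose, smul_eq_mul]
    congr 1
    simp
  rw [h2, h3] at h1
  refine h1.trans (le_of_eq ?_)
  have h4 : a * (‖h‖ / ((3 / 4 : NNReal) : ℝ)) = a / (3 / 4) * ‖h‖ := by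
    push_cast
    ring
  rw [h4, mul_pow]
  ring

end Pool.Agent.LibFR89
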