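import Mathlib
import Pool.Agent.LibFR89.DefsR
import Pool.Agent.LibFR89.S1

/-!
# Row S2 (MEDIUM): pointwise remainder

`X = -(2/3) lam s^3`, `h = s/σ`, `‖h‖ ≤ 1/4`.  `exp X = E + r1`, `‖r1‖ ≤ ‖X‖^n exp ‖X‖`,
`‖E‖ ≤ exp ‖X‖` (`Complex.norm_exp_sub_sum_le_norm_mul_exp` or similar),
`exp (ν log (1 + h)) = B + r2`, `‖r2‖ ≤ C ‖h‖^n` (row S1), `‖B + r2‖ ≤ C'`; the difference is
`r1 (B + r2) + E r2`.
-/

set_option autoImplicit false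

namespace Pool.Agent.LibFR89

open MeasureTheory Filter Topology

open Pool.Agent.H69Cubic

theorem point_rem (lam ν : ℝ) (hl : 0 < lam) (n : ℕ) : ∃ C : ℝ, 0 < C ∧ ∀ (σ : ℂ) (s : ℝ),
    0 < ‖σ‖ → |s| ≤ ‖σ‖ / 4 →
    ‖Complex.exp (-(2 / 3) * (lam : ℂ) * (s : ℂ) ^ 3) *
      Complex.exp (ν * Complex.log (1 + (s : ℂ) / σ)) - tt lam ν n σ s‖ ≤
      C * (|s| ^ (3 * n) + (|s| / ‖σ‖) ^ n) * Real.exp (2 / 3 * lam * |s| ^ 3) := by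
  obtain ⟨C₀, hC₀, h₀⟩ := binom_rem ν 0
  obtain ⟨C₁, hC₁, h₁⟩ := binom_rem ν n
  refine ⟨C₀ * (2 / 3 * lam) ^ n + C₁, by positivity, fun σ s hσ hs => ?_⟩
  have hh : ‖(s : ℂ) / σ‖ = |s| / ‖σ‖ := by rw [norm_div, Complex.norm_real, Real.norm_eq_abs]
  have hle : ‖(s : ℂ) / σ‖ ≤ 1 / 2 := by
    rw [hh, div_le_iff₀ hσ]
    linarith
  have g0 := h₀ _ hle
  have g1 := h₁ _ hle
  rw [Finset.range_zero, Finset.sum_empty, sub_zero, pow_zero, mul_one] at g0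
  have hX : ‖-(2 / 3) * (lam : ℂ) * (s : ℂ) ^ 3‖ = 2 / 3 * lam * |s| ^ 3 := by
    rw [norm_mul, norm_mul, norm_pow, Complex.norm_real, Complex.norm_real, Real.norm_eq_abs, Real.norm_eq_abs,
      abs_of_pos hl, norm_neg]
    norm_num
  have g2 := Complex.norm_exp_sub_sum_le_norm_mul_exp (-(2 / 3) * (lam : ℂ) * (s : ℂ) ^ 3) n
  have g3 : ‖∑ i ∈ Finset.range n, (-(2 / 3) * (lam : ℂ) * (s : ℂ) ^ 3) ^ i / (i.factorial : ℂ)‖ ≤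
      Real.exp (2 / 3 * lam * |s| ^ 3) := by
    refine (norm_sum_le _ _).trans ?_
    refine le_trans (le_of_eq ?_) (Real.sum_le_exp_of_nonneg (x := 2 / 3 * lam * |s| ^ 3) (by positivity) n)
    apply Finset.sum_congr rfl
    intro i _
    rw [norm_div, norm_pow, hX, Complex.norm_natCast]
  rw [hX] at g2
  rw [hh] at g1
  unfold tt
  set E := ∑ i ∈ Finset.range n, (-(2 / 3) * (lam : ℂ) * (s : ℂ) ^ 3) ^ i / (i.factorial : ℂ) with hE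
  set B := ∑ l ∈ Finset.range n, ((Ring.choose ν l : ℝ) : ℂ) * ((s : ℂ) / σ) ^ l with hB
  set P := Complex.exp (-(2 / 3) * (lam : ℂ) * (s : ℂ) ^ 3) with hP
  set Q := Complex.exp (ν * Complex.log (1 + (s : ℂ) / σ)) with hQ
  have e1 : P * Q - E * B = (P - E) * Q + E * (Q - B) := by ring
  rw [e1]
  have hex : 0 < Real.exp (2 / 3 * lam * |s| ^ 3) := Real.exp_pos _
  have a0 : 0 ≤ |s| ^ (3 * n) := by positivity
  have a1 : 0 ≤ (|s| / ‖σ‖) ^ n := by positivity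
  calc ‖(P - E) * Q + E * (Q - B)‖ ≤ ‖P - E‖ * ‖Q‖ + ‖E‖ * ‖Q - B‖ := by
        refine (norm_add_le _ _).trans ?_
        rw [norm_mul, norm_mul]
    _ ≤ ((2 / 3 * lam * |s| ^ 3) ^ n * Real.exp (2 / 3 * lam * |s| ^ 3)) * C₀ +
        Real.exp (2 / 3 * lam * |s| ^ 3) * (C₁ * (|s| / ‖σ‖) ^ n) := by
        gcongr
    _ = (C₀ * (2 / 3 * lam) ^ n * |s| ^ (3 * n) + C₁ * (|s| / ‖σ‖) ^ n) *
        Real.exp (2 / 3 * lam * |s| ^ 3) := by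
        rw [mul_pow _ (|s| ^ 3), ← pow_mul]
        ring
    _ ≤ (C₀ * (2 / 3 * lam) ^ n + C₁) * (|s| ^ (3 * n) + (|s| / ‖σ‖) ^ n) *
        Real.exp (2 / 3 * lam * |s| ^ 3) := by
        apply mul_le_mul_of_nonneg_right _ hex.le
        have b0 : 0 ≤ C₀ * (2 / 3 * lam) ^ n := by positivity
        nlinarith [mul_nonneg b0 a1, mul_nonneg hC₁.le a0]

end Pool.Agent.LibFR89
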