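import Mathlib
import Pool.Agent.LibFR89.DefsR
import Pool.Agent.LibFR89.A8

/-!
# Row S3 (MEDIUM): the Gaussian integral of the truncated product is the series with coefficients `mm`

Expand `tt lam ν (2K)` and integrate termwise (row A8, `b = lam σ`,
`log (lam σ) = log lam + log σ`): the term `(i, l)` is
`(-(2/3) lam)^i / i! * choose ν l * σ^(-l) * ∫ s^(3i+l) exp (-lam σ s^2)`, zero for `i + l` odd, and
for `i + l = 2 j` (so `3 i + l = 2 (i + j)`) equal to
`√ * (-2/3)^i / i! * choose ν (2j - i) * (2(i+j)-1)!! / 2^(i+j) * (lam σ^3)^(-j)`, where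
`√ = exp ((log π - log lam - log σ)/2)`.  For `j < K` all pairs with `i + l = 2 j` occur and their sum is
`mm j ν * (-1/(8 lam σ^3))^j` (definition of `mm`: `2^(2j-i) = 2^(3j) / 2^(i+j)`, `(-1)^(i+j)`);
the terms with `j ≥ K` are `O(‖σ‖^(-3K))` for `1 ≤ ‖σ‖`, and `‖√‖ = C ‖σ‖^(-1/2)`.
-/

set_option autoImplicit false

namespace Pool.Agent.LibFR89

open MeasureTheory Filter Topology

open Pool.Agent.H69Cubic

/-- the real coefficients -/
private noncomputable def S3_m (ν : ℝ) (i l : ℕ) : ℝ :=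
  (2 / 3) ^ i / (i.factorial : ℝ) * Ring.choose ν l * 2 ^ l * (-1) ^ (i + (i + l) / 2) *
    ((2 * (i + (i + l) / 2) - 1).doubleFactorial : ℝ)

/-- the terms -/
private noncomputable def S3_T (ν : ℝ) (y : ℂ) (i l : ℕ) : ℂ :=
  if Even (i + l) then (S3_m ν i l : ℂ) * y ^ ((i + l) / 2) else 0

private theorem S3_even_sum (f : ℕ → ℂ) (hf : ∀ n, ¬ Even n → f n = 0) (K : ℕ) :
    ∑ n ∈ Finset.range (2 * K), f n = ∑ j ∈ Finset.range K, f (2 * j) := by
  induction K with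
  | zero => simp
  | succ K ih =>
    rw [show 2 * (K + 1) = 2 * K + 1 + 1 by ring, Finset.sum_range_succ, Finset.sum_range_succ, ih,
      Finset.sum_range_succ, hf (2 * K + 1) (by
        intro h
        rw [Nat.even_iff] at h
        omega), add_zero]

private theorem S3_sm (ν : ℝ) (y : ℂ) (K : ℕ) : sm ν K y =
    ∑ i ∈ Finset.range (2 * K), ∑ l ∈ Finset.range (2 * K),
      if i + l < 2 * K then S3_T ν y i l else 0 := by
  have h1 : ∑ i ∈ Finset.range (2 * K), ∑ l ∈ Finset.range (2 * K),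
      (if i + l < 2 * K then S3_T ν y i l else 0) =
      ∑ n ∈ Finset.range (2 * K), ∑ p ∈ Finset.HasAntidiagonal.antidiagonal n, S3_T ν y p.1 p.2 := by
    rw [← Finset.sum_product', ← Finset.sum_filter,
      ← Finset.sum_fiberwise_of_maps_to (t := Finset.range (2 * K)) (g := fun p : ℕ × ℕ => p.1 + p.2)]
    · refine Finset.sum_congr rfl fun n hn => ?_
      refine Finset.sum_congr ?_ fun _ _ => rfl
      ext p
      rw [Finset.mem_range] at hn
      simp only [Finset.mem_filter, Finset.mem_product, Finset.mem_range,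
        Finset.HasAntidiagonal.mem_antidiagonal]
      omega
    · intro p hp
      simp only [Finset.mem_filter] at hp
      simp only [Finset.mem_range]
      exact hp.2
  rw [h1, S3_even_sum (fun n => ∑ p ∈ Finset.HasAntidiagonal.antidiagonal n, S3_T ν y p.1 p.2)]
  · unfold sm
    refine Finset.sum_congr rfl fun j _ => ?_
    rw [Finset.Nat.sum_antidiagonal_eq_sum_range_succ_mk]
    unfold mm
    rw [Complex.ofReal_sum, Finset.sum_mul]
    refine Finset.sum_congr rfl fun i hi => ?_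
    rw [Finset.mem_range] at hi
    unfold S3_T
    have h2 : i + (2 * j - i) = 2 * j := by omega
    rw [if_pos (by
      change Even (i + (2 * j - i))
      rw [h2]
      exact even_two_mul j)]
    change _ = ((S3_m ν i (2 * j - i) : ℝ) : ℂ) * y ^ ((i + (2 * j - i)) / 2)
    unfold S3_m
    rw [h2, Nat.mul_div_cancel_left j (by norm_num)]
  · intro n hn
    refine Finset.sum_eq_zero fun p hp => ?_
    rw [Finset.HasAntidiagonal.mem_antidiagonal] at hp
    unfold S3_T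
    rw [if_neg]
    rw [hp]
    exact hn

private theorem S3_mom (lam ν : ℝ) (hl : 0 < lam) (σ : ℂ) (hσ : 0 < σ.re) (i l : ℕ) :
    ∫ s : ℝ, ((-(2 / 3) * (lam : ℂ)) ^ i / (i.factorial : ℂ) * ((Ring.choose ν l : ℝ) : ℂ) / σ ^ l) *
      ((s : ℂ) ^ (3 * i + l) * Complex.exp (-((lam : ℂ) * σ) * (s : ℂ) ^ 2)) =
    Complex.exp (((Real.log Real.pi : ℂ) - (Real.log lam : ℂ) - Complex.log σ) / 2) *
      S3_T ν (-1 / (8 * (lam : ℂ) * σ ^ 3)) i l := by
  have hσ0 : σ ≠ 0 := by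
    intro h
    rw [h] at hσ
    simp at hσ
  have hl0 : (lam : ℂ) ≠ 0 := by
    exact_mod_cast hl.ne'
  have hb : 0 < ((lam : ℂ) * σ).re := by
    rw [Complex.re_ofReal_mul]
    positivity
  rw [integral_const_mul]
  unfold S3_T
  by_cases he : Even (i + l)
  · rw [if_pos he]
    obtain ⟨j, hj⟩ := he
    have h1 : 3 * i + l = 2 * (i + j) := by omega
    have h2 : (i + l) / 2 = j := by omega
    rw [h1, gauss_even _ hb, Complex.log_ofReal_mul hl hσ0]
    unfold S3_m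
    rw [h2]
    have h3 : (Real.log Real.pi : ℂ) - ((Real.log lam : ℂ) + Complex.log σ) =
        (Real.log Real.pi : ℂ) - (Real.log lam : ℂ) - Complex.log σ := by ring
    rw [h3]
    push_cast
    have h4 : l = 2 * j - i := by omega
    have h5 : i ≤ 2 * j := by omega
    have h6 : (8 : ℂ) ^ j = 2 ^ (i + j) * 2 ^ l := by
      rw [← pow_add, show i + j + l = 3 * j by omega, pow_mul]
      norm_num
    have h7 : (σ ^ 3) ^ j = σ ^ l * σ ^ (i + j) := by
      rw [← pow_add, ← pow_mul, show l + (i + j) = 3 * j by omega]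
    have h8 : ((lam : ℂ)) ^ (i + j) = (lam : ℂ) ^ i * (lam : ℂ) ^ j := pow_add _ _ _
    have h9 : ((-1 : ℂ)) ^ (i + j) * (-1) ^ j = (-1) ^ i := by
      rw [pow_add, mul_assoc, ← mul_pow]
      norm_num
    have h10 : (-(2 / 3) * (lam : ℂ)) ^ i = (-1) ^ i * (2 / 3) ^ i * (lam : ℂ) ^ i := by
      rw [← mul_pow, ← mul_pow]
      ring
    rw [div_pow (-1 : ℂ) (8 * (lam : ℂ) * σ ^ 3), mul_pow (8 * (lam : ℂ)), mul_pow (8 : ℂ), h6, h7,
      mul_pow (2 : ℂ) ((lam : ℂ) * σ), mul_pow (lam : ℂ) σ, h8, h10, div_pow (2 : ℂ) 3]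
    have e1 : (lam : ℂ) ^ i ≠ 0 := pow_ne_zero _ hl0
    have e2 : (lam : ℂ) ^ j ≠ 0 := pow_ne_zero _ hl0
    have e3 : σ ^ l ≠ 0 := pow_ne_zero _ hσ0
    have e4 : σ ^ (i + j) ≠ 0 := pow_ne_zero _ hσ0
    have e5 : (i.factorial : ℂ) ≠ 0 := by exact_mod_cast i.factorial_ne_zero
    have e6 : (2 : ℂ) ^ (i + j) ≠ 0 := pow_ne_zero _ (by norm_num)
    have e7 : (2 : ℂ) ^ l ≠ 0 := pow_ne_zero _ (by norm_num)
    rw [← h9]
    field_simp
  · rw [if_neg he, mul_zero]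
    have h1 : ¬ Even (3 * i + l) := by
      rw [Nat.even_iff] at he ⊢
      omega
    obtain ⟨m, hm⟩ := Nat.not_even_iff_odd.mp h1
    rw [hm, gauss_odd, mul_zero]

private theorem S3_split (lam ν : ℝ) (hl : 0 < lam) (K : ℕ) (σ : ℂ) (hσ : 0 < σ.re) :
    (∫ s : ℝ, Complex.exp (-(lam : ℂ) * σ * (s : ℂ) ^ 2) * tt lam ν (2 * K) σ s) =
    Complex.exp (((Real.log Real.pi : ℂ) - (Real.log lam : ℂ) - Complex.log σ) / 2) *
      ∑ i ∈ Finset.range (2 * K), ∑ l ∈ Finset.range (2 * K),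
        S3_T ν (-1 / (8 * (lam : ℂ) * σ ^ 3)) i l := by
  have hb : 0 < ((lam : ℂ) * σ).re := by
    rw [Complex.re_ofReal_mul]
    positivity
  have h1 : (fun s : ℝ => Complex.exp (-(lam : ℂ) * σ * (s : ℂ) ^ 2) * tt lam ν (2 * K) σ s) =
      fun s : ℝ => ∑ i ∈ Finset.range (2 * K), ∑ l ∈ Finset.range (2 * K),
        ((-(2 / 3) * (lam : ℂ)) ^ i / (i.factorial : ℂ) * ((Ring.choose ν l : ℝ) : ℂ) / σ ^ l) *
          ((s : ℂ) ^ (3 * i + l) * Complex.exp (-((lam : ℂ) * σ) * (s : ℂ) ^ 2)) := by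
    funext s
    unfold tt
    rw [Finset.sum_mul_sum, Finset.mul_sum]
    refine Finset.sum_congr rfl fun i _ => ?_
    rw [Finset.mul_sum]
    refine Finset.sum_congr rfl fun l _ => ?_
    rw [mul_pow, div_pow, neg_mul (lam : ℂ) σ, pow_add, pow_mul]
    ring
  have hint : ∀ i l : ℕ, Integrable (fun s : ℝ =>
      ((-(2 / 3) * (lam : ℂ)) ^ i / (i.factorial : ℂ) * ((Ring.choose ν l : ℝ) : ℂ) / σ ^ l) *
          ((s : ℂ) ^ (3 * i + l) * Complex.exp (-((lam : ℂ) * σ) * (s : ℂ) ^ 2))) := fun i l =>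
    (gauss_int _ hb _).const_mul _
  rw [h1, integral_finsetSum _ fun i _ => integrable_finsetSum _ fun l _ => hint i l, Finset.mul_sum]
  refine Finset.sum_congr rfl fun i _ => ?_
  rw [integral_finsetSum _ fun l _ => hint i l, Finset.mul_sum]
  refine Finset.sum_congr rfl fun l _ => ?_
  exact S3_mom lam ν hl σ hσ i l

theorem moment_sum (lam ν : ℝ) (hl : 0 < lam) (K : ℕ) : ∃ C : ℝ, 0 < C ∧ ∀ σ : ℂ, 1 ≤ ‖σ‖ →
    0 < σ.re →
    ‖(∫ s : ℝ, Complex.exp (-(lam : ℂ) * σ * (s : ℂ) ^ 2) * tt lam ν (2 * K) σ s) -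
      Complex.exp (((Real.log Real.pi : ℂ) - (Real.log lam : ℂ) - Complex.log σ) / 2) *
        sm ν K (-1 / (8 * (lam : ℂ) * σ ^ 3))‖ ≤ C * ‖σ‖ ^ (-(1 / 2) - 3 * (K : ℝ)) := by
  let B : ℝ := ∑ i ∈ Finset.range (2 * K), ∑ l ∈ Finset.range (2 * K),
    |S3_m ν i l| * (1 / (8 * lam)) ^ ((i + l) / 2)
  have hB : 0 ≤ B := Finset.sum_nonneg fun i _ => Finset.sum_nonneg fun l _ => by positivity
  refine ⟨Real.exp ((Real.log Real.pi - Real.log lam) / 2) * B + 1, by positivity, ?_⟩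
  intro σ h1 hσ
  have hs0 : 0 < ‖σ‖ := by linarith
  rw [S3_split lam ν hl K σ hσ, S3_sm, ← mul_sub, norm_mul, ← Finset.sum_sub_distrib]
  have hE : ‖Complex.exp (((Real.log Real.pi : ℂ) - (Real.log lam : ℂ) - Complex.log σ) / 2)‖ =
      Real.exp ((Real.log Real.pi - Real.log lam) / 2) * ‖σ‖ ^ (-(1 / 2 : ℝ)) := by
    rw [Complex.norm_exp, Real.rpow_def_of_pos hs0, ← Real.exp_add]
    congr 1
    have e1 : (((Real.log Real.pi : ℂ) - (Real.log lam : ℂ) - Complex.log σ) / 2).re =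
        (Real.log Real.pi - Real.log lam - Real.log ‖σ‖) / 2 := by
      rw [show (2 : ℂ) = ((2 : ℝ) : ℂ) by norm_num, Complex.div_ofReal_re, Complex.sub_re,
        Complex.sub_re, Complex.ofReal_re, Complex.ofReal_re, Complex.log_re]
    rw [e1]
    ring
  have hy : ‖(-1 : ℂ) / (8 * (lam : ℂ) * σ ^ 3)‖ = 1 / (8 * lam) * (‖σ‖ ^ 3)⁻¹ := by
    rw [norm_div, norm_neg, norm_one, norm_mul, norm_mul, norm_pow, Complex.norm_real,
      Real.norm_eq_abs, abs_of_pos hl]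
    rw [show ‖(8 : ℂ)‖ = 8 by simp]
    field_simp
  have hS : ‖∑ i ∈ Finset.range (2 * K), (∑ l ∈ Finset.range (2 * K),
      S3_T ν (-1 / (8 * (lam : ℂ) * σ ^ 3)) i l - ∑ l ∈ Finset.range (2 * K),
        if i + l < 2 * K then S3_T ν (-1 / (8 * (lam : ℂ) * σ ^ 3)) i l else 0)‖ ≤
      B * ((‖σ‖ ^ 3)⁻¹) ^ K := by
    rw [Finset.sum_mul]
    refine norm_sum_le_of_le _ fun i _ => ?_
    rw [← Finset.sum_sub_distrib, Finset.sum_mul]
    refine norm_sum_le_of_le _ fun l _ => ?_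
    by_cases h2 : i + l < 2 * K
    · rw [if_pos h2, sub_self, norm_zero]
      positivity
    · rw [if_neg h2, sub_zero]
      unfold S3_T
      by_cases h3 : Even (i + l)
      · rw [if_pos h3, norm_mul, norm_pow, hy, Complex.norm_real, Real.norm_eq_abs, mul_pow,
          ← mul_assoc]
        refine mul_le_mul_of_nonneg_left ?_ (by positivity)
        refine pow_le_pow_of_le_one (by positivity) ?_ (by omega)
        exact inv_le_one_of_one_le₀ (one_le_pow₀ h1)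
      · rw [if_neg h3, norm_zero]
        positivity
  have hP : ‖σ‖ ^ (-(1 / 2 : ℝ)) * ((‖σ‖ ^ 3)⁻¹) ^ K = ‖σ‖ ^ (-(1 / 2) - 3 * (K : ℝ)) := by
    rw [sub_eq_add_neg, Real.rpow_add hs0, Real.rpow_neg hs0.le (3 * (K : ℝ)), inv_pow, ← pow_mul]
    congr 2
    rw [← Real.rpow_natCast]
    push_cast
    rfl
  rw [hE, ← hP]
  have h9 := mul_le_mul_of_nonneg_left hS
    (by positivity : 0 ≤ Real.exp ((Real.log Real.pi - Real.log lam) / 2) * ‖σ‖ ^ (-(1 / 2 : ℝ)))
  refine h9.trans ?_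
  have h10 : 0 ≤ ‖σ‖ ^ (-(1 / 2 : ℝ)) * ((‖σ‖ ^ 3)⁻¹) ^ K := by positivity
  nlinarith

end Pool.Agent.LibFR89
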