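import Mathlib
import Pool.Agent.LibFR89.DefsR
import Pool.Agent.LibFR89.S2
import Pool.Agent.LibFR89.S3
import Pool.Agent.LibFR89.S4

/-!
# Row S5 (MEDIUM): expansion of the local integral

`c = σ.re`.  Write the difference as
`∫_{-c/4}^{c/4} exp (-lam σ s^2) (exp (-(2/3) lam s^3) exp (ν log (1 + s/σ)) - tt lam ν (2K) σ s) ds`
(row S2, `n = 2K`, `|s| ≤ c/4 ≤ ‖σ‖/4`, `(2/3) lam |s|^3 ≤ lam c s^2/6`, so the norm is at most
`C (|s|^(6K) + |s|^(2K)/‖σ‖^(2K)) exp (-(5/6) lam c s^2)`, integral `O(‖σ‖^(-3K-1/2))` by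
`gauss_abs_moment` and `c ≥ ‖σ‖/2`), minus the integral of `exp (-lam σ s^2) tt` over `|s| ≥ c/4`
(`‖tt‖ ≤ C (1 + |s|)^(8K)` for `1 ≤ ‖σ‖`; `gauss_tail`, `exp_cube_le`), plus row S3.
-/

set_option autoImplicit false

namespace Pool.Agent.LibFR89

open MeasureTheory Filter Topology

open Pool.Agent.H69Cubic

private theorem S5_tt (lam ν : ℝ) (hl : 0 < lam) (n : ℕ) : ∃ C : ℝ, 0 < C ∧ ∀ σ : ℂ, 1 ≤ ‖σ‖ → ∀ s : ℝ,
    ‖tt lam ν n σ s‖ ≤ C * (1 + |s|) ^ (4 * n) := by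
  refine ⟨(∑ i ∈ Finset.range n, (2 / 3 * lam) ^ i / (i.factorial : ℝ)) *
    (∑ l ∈ Finset.range n, |Ring.choose ν l|) + 1, ?_, fun σ hσ s => ?_⟩
  · have h1 : 0 ≤ ∑ i ∈ Finset.range n, (2 / 3 * lam) ^ i / (i.factorial : ℝ) :=
      Finset.sum_nonneg fun i _ => by positivity
    have h2 : 0 ≤ ∑ l ∈ Finset.range n, |Ring.choose ν l| := Finset.sum_nonneg fun i _ => abs_nonneg _
    positivity
  · have hs0 : 0 ≤ |s| := abs_nonneg s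
    have h1 : ‖∑ i ∈ Finset.range n, (-(2 / 3) * (lam : ℂ) * (s : ℂ) ^ 3) ^ i / (i.factorial : ℂ)‖ ≤
        (∑ i ∈ Finset.range n, (2 / 3 * lam) ^ i / (i.factorial : ℝ)) * (1 + |s|) ^ (3 * n) := by
      refine (norm_sum_le _ _).trans ?_
      rw [Finset.sum_mul]
      apply Finset.sum_le_sum
      intro i hi
      rw [norm_div, norm_pow, norm_mul, norm_mul, norm_pow, Complex.norm_real, Complex.norm_real, Real.norm_eq_abs,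
        Real.norm_eq_abs, abs_of_pos hl, norm_neg, Complex.norm_natCast, mul_pow, ← pow_mul]
      have h2 : ‖(2 / 3 : ℂ)‖ = 2 / 3 := by norm_num
      rw [h2]
      have h3 : |s| ^ (3 * i) ≤ (1 + |s|) ^ (3 * n) := by
        calc |s| ^ (3 * i) ≤ (1 + |s|) ^ (3 * i) := by gcongr; linarith
          _ ≤ (1 + |s|) ^ (3 * n) := by
            apply pow_le_pow_right₀ (by linarith)
            have := Finset.mem_range.1 hi
            omega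
      calc (2 / 3 * lam) ^ i * |s| ^ (3 * i) / (i.factorial : ℝ) =
          (2 / 3 * lam) ^ i / (i.factorial : ℝ) * |s| ^ (3 * i) := by ring
        _ ≤ _ := by gcongr
    have h4 : ‖∑ l ∈ Finset.range n, ((Ring.choose ν l : ℝ) : ℂ) * ((s : ℂ) / σ) ^ l‖ ≤
        (∑ l ∈ Finset.range n, |Ring.choose ν l|) * (1 + |s|) ^ n := by
      refine (norm_sum_le _ _).trans ?_
      rw [Finset.sum_mul]
      apply Finset.sum_le_sum
      intro l hl2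
      rw [norm_mul, norm_pow, norm_div, Complex.norm_real, Complex.norm_real, Real.norm_eq_abs, Real.norm_eq_abs]
      gcongr
      calc (|s| / ‖σ‖) ^ l ≤ (1 + |s|) ^ l := by
            gcongr
            rw [div_le_iff₀ (by linarith)]
            nlinarith
        _ ≤ (1 + |s|) ^ n := by
            apply pow_le_pow_right₀ (by linarith)
            have := Finset.mem_range.1 hl2
            omega
    unfold tt
    rw [norm_mul]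
    have h5 : 0 ≤ ∑ i ∈ Finset.range n, (2 / 3 * lam) ^ i / (i.factorial : ℝ) :=
      Finset.sum_nonneg fun i _ => by positivity
    have h6 : 0 ≤ ∑ l ∈ Finset.range n, |Ring.choose ν l| := Finset.sum_nonneg fun i _ => abs_nonneg _
    calc _ ≤ ((∑ i ∈ Finset.range n, (2 / 3 * lam) ^ i / (i.factorial : ℝ)) * (1 + |s|) ^ (3 * n)) *
          ((∑ l ∈ Finset.range n, |Ring.choose ν l|) * (1 + |s|) ^ n) := by gcongr
      _ = ((∑ i ∈ Finset.range n, (2 / 3 * lam) ^ i / (i.factorial : ℝ)) *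
          (∑ l ∈ Finset.range n, |Ring.choose ν l|)) * (1 + |s|) ^ (4 * n) := by
          rw [show 4 * n = 3 * n + n by ring, pow_add]; ring
      _ ≤ _ := by
          have : 0 ≤ (1 + |s|) ^ (4 * n) := by positivity
          nlinarith

private theorem S5_norm (lam : ℝ) (σ : ℂ) (s : ℝ) :
    ‖Complex.exp (-(lam : ℂ) * σ * (s : ℂ) ^ 2)‖ = Real.exp (-lam * σ.re * s ^ 2) := by
  rw [Complex.norm_exp]
  congr 1
  have h1 : -(lam : ℂ) * σ * (s : ℂ) ^ 2 = ((-lam * s ^ 2 : ℝ) : ℂ) * σ := by push_cast; ring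
  rw [h1, Complex.re_ofReal_mul]
  ring

private theorem S5_cont (lam ν : ℝ) (n : ℕ) (σ : ℂ) :
    Continuous fun s : ℝ => Complex.exp (-(lam : ℂ) * σ * (s : ℂ) ^ 2) * tt lam ν n σ s := by
  unfold tt
  fun_prop

private theorem S5_tail (lam ν : ℝ) (hl : 0 < lam) (K : ℕ) : ∃ C : ℝ, 0 < C ∧ ∀ σ : ℂ, 1 ≤ ‖σ‖ →
    ‖σ‖ / 2 ≤ σ.re →
    ‖(∫ s in (-(σ.re / 4))..(σ.re / 4), Complex.exp (-(lam : ℂ) * σ * (s : ℂ) ^ 2) * tt lam ν (2 * K) σ s) -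
      ∫ s : ℝ, Complex.exp (-(lam : ℂ) * σ * (s : ℂ) ^ 2) * tt lam ν (2 * K) σ s‖ ≤
      C * ‖σ‖ ^ (-(1 / 2) - 3 * (K : ℝ)) := by
  obtain ⟨C₁, hC₁, h₁⟩ := S5_tt lam ν hl (2 * K)
  obtain ⟨C₂, c₂, hC₂, hc₂, h₂⟩ := gauss_tail lam hl (4 * (2 * K))
  obtain ⟨C₃, hC₃, h₃⟩ := exp_cube_le c₂ hc₂ (3 * K + 1)
  refine ⟨C₁ * (C₂ * C₃), by positivity, fun σ hσ hre => ?_⟩
  obtain ⟨hint, htail⟩ := h₂ ‖σ‖ σ.re hσ hre
  rw [integrableOn_univ] at hint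
  have hre0 : 0 < σ.re := by linarith
  set f : ℝ → ℂ := fun s => Complex.exp (-(lam : ℂ) * σ * (s : ℂ) ^ 2) * tt lam ν (2 * K) σ s with hf
  set g : ℝ → ℝ := fun s => C₁ * ((1 + |s|) ^ (4 * (2 * K)) * Real.exp (-lam * σ.re * s ^ 2)) with hg
  have hgi : Integrable g := hint.const_mul C₁
  have hfg : ∀ s, ‖f s‖ ≤ g s := by
    intro s
    rw [hf, hg]
    simp only
    rw [norm_mul, S5_norm]
    have := h₁ σ hσ s
    have h0 := Real.exp_pos (-lam * σ.re * s ^ 2)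
    calc _ ≤ Real.exp (-lam * σ.re * s ^ 2) * (C₁ * (1 + |s|) ^ (4 * (2 * K))) := by gcongr
      _ = _ := by ring
  have hfi : Integrable f :=
    hgi.mono' (S5_cont lam ν (2 * K) σ).aestronglyMeasurable (Filter.Eventually.of_forall hfg)
  have hg0 : ∀ s, 0 ≤ g s := fun s => (norm_nonneg _).trans (hfg s)
  rw [intervalIntegral.integral_of_le (by linarith)]
  have h4 := integral_add_compl (μ := volume) (measurableSet_Ioc (a := -(σ.re / 4)) (b := σ.re / 4)) hfi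
  have h5 : (∫ s in Set.Ioc (-(σ.re / 4)) (σ.re / 4), f s) - ∫ s : ℝ, f s =
      -∫ s in (Set.Ioc (-(σ.re / 4)) (σ.re / 4))ᶜ, f s := by
    rw [← h4]; ring
  rw [h5, norm_neg]
  have hsub : (Set.Ioc (-(σ.re / 4)) (σ.re / 4))ᶜ ⊆ {s : ℝ | σ.re / 4 ≤ |s|} := by
    intro s hs
    show σ.re / 4 ≤ |s|
    by_contra hlt
    push Not at hlt
    rw [abs_lt] at hlt
    exact hs ⟨hlt.1, hlt.2.le⟩
  calc ‖∫ s in (Set.Ioc (-(σ.re / 4)) (σ.re / 4))ᶜ, f s‖ ≤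
      ∫ s in (Set.Ioc (-(σ.re / 4)) (σ.re / 4))ᶜ, g s :=
        norm_integral_le_of_norm_le hgi.integrableOn (Filter.Eventually.of_forall hfg)
    _ ≤ ∫ s in {s : ℝ | σ.re / 4 ≤ |s|}, g s :=
        setIntegral_mono_set hgi.integrableOn (Filter.Eventually.of_forall hg0)
          (Filter.Eventually.of_forall hsub)
    _ = C₁ * ∫ s in {s : ℝ | σ.re / 4 ≤ |s|}, (1 + |s|) ^ (4 * (2 * K)) * Real.exp (-lam * σ.re * s ^ 2) := by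
        rw [← integral_const_mul]
    _ ≤ C₁ * (C₂ * Real.exp (-c₂ * ‖σ‖ ^ 3)) := by gcongr
    _ ≤ C₁ * (C₂ * (C₃ / ‖σ‖ ^ (3 * K + 1))) := by
        have := h₃ ‖σ‖ hσ
        gcongr
    _ ≤ C₁ * (C₂ * (C₃ * ‖σ‖ ^ (-(1 / 2) - 3 * (K : ℝ)))) := by
        have h6 : (‖σ‖ ^ (3 * K + 1))⁻¹ ≤ ‖σ‖ ^ (-(1 / 2) - 3 * (K : ℝ)) := by
          rw [← Real.rpow_natCast, ← Real.rpow_neg (by linarith)]
          apply Real.rpow_le_rpow_of_exponent_le hσ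
          push_cast
          linarith
        rw [div_eq_mul_inv]
        gcongr
    _ = _ := by ring

private theorem S5_main (lam ν : ℝ) (hl : 0 < lam) (K : ℕ) : ∃ C : ℝ, 0 < C ∧ ∀ σ : ℂ, 1 ≤ ‖σ‖ →
    ‖σ‖ / 2 ≤ σ.re →
    ‖∫ s in (-(σ.re / 4))..(σ.re / 4), Complex.exp (-(lam : ℂ) * σ * (s : ℂ) ^ 2) *
      (Complex.exp (-(2 / 3) * (lam : ℂ) * (s : ℂ) ^ 3) * Complex.exp (ν * Complex.log (1 + (s : ℂ) / σ)) -
        tt lam ν (2 * K) σ s)‖ ≤ C * ‖σ‖ ^ (-(1 / 2) - 3 * (K : ℝ)) := by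
  obtain ⟨C₁, hC₁, h₁⟩ := point_rem lam ν hl (2 * K)
  obtain ⟨C₂, hC₂, h₂⟩ := gauss_abs_moment (5 / 6 * lam) (by positivity) (3 * (2 * K))
  obtain ⟨C₃, hC₃, h₃⟩ := gauss_abs_moment (5 / 6 * lam) (by positivity) (2 * K)
  refine ⟨C₁ * (C₂ * (1 / 2 : ℝ) ^ (-(((3 * (2 * K) : ℕ) : ℝ) + 1) / 2) +
    C₃ * (1 / 2 : ℝ) ^ (-(((2 * K : ℕ) : ℝ) + 1) / 2)), by positivity, fun σ hσ hre => ?_⟩
  have hre0 : 0 < σ.re := by linarith
  have hr0 : 0 < ‖σ‖ := by linarith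
  have hre1 : σ.re ≤ ‖σ‖ := Complex.re_le_norm σ
  obtain ⟨i2, j2⟩ := h₂ σ.re hre0
  obtain ⟨i3, j3⟩ := h₃ σ.re hre0
  set g : ℝ → ℝ := fun s => C₁ * (|s| ^ (3 * (2 * K)) * Real.exp (-(5 / 6 * lam) * σ.re * s ^ 2)) +
    C₁ / ‖σ‖ ^ (2 * K) * (|s| ^ (2 * K) * Real.exp (-(5 / 6 * lam) * σ.re * s ^ 2)) with hg
  have hgi : Integrable g := (i2.const_mul C₁).add (i3.const_mul (C₁ / ‖σ‖ ^ (2 * K)))
  have hg0 : ∀ s, 0 ≤ g s := fun s => by rw [hg]; simp only; positivity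
  have hbd : ∀ s ∈ Set.Ioc (-(σ.re / 4)) (σ.re / 4), ‖Complex.exp (-(lam : ℂ) * σ * (s : ℂ) ^ 2) *
      (Complex.exp (-(2 / 3) * (lam : ℂ) * (s : ℂ) ^ 3) * Complex.exp (ν * Complex.log (1 + (s : ℂ) / σ)) -
        tt lam ν (2 * K) σ s)‖ ≤ g s := by
    intro s hs
    have hsc : |s| ≤ σ.re / 4 := abs_le.2 ⟨hs.1.le, hs.2⟩
    have h4 := h₁ σ s hr0 (by linarith)
    rw [norm_mul, S5_norm]
    have h5 : Real.exp (-lam * σ.re * s ^ 2) * Real.exp (2 / 3 * lam * |s| ^ 3) ≤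
        Real.exp (-(5 / 6 * lam) * σ.re * s ^ 2) := by
      rw [← Real.exp_add]
      apply Real.exp_le_exp.2
      have h6 : |s| ^ 3 ≤ σ.re / 4 * s ^ 2 := by
        rw [show |s| ^ 3 = |s| * |s| ^ 2 by ring, sq_abs]
        gcongr
      nlinarith [mul_le_mul_of_nonneg_left h6 hl.le]
    have h0 := Real.exp_pos (-lam * σ.re * s ^ 2)
    calc _ ≤ Real.exp (-lam * σ.re * s ^ 2) *
          (C₁ * (|s| ^ (3 * (2 * K)) + (|s| / ‖σ‖) ^ (2 * K)) * Real.exp (2 / 3 * lam * |s| ^ 3)) := by gcongr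
      _ = C₁ * (|s| ^ (3 * (2 * K)) + (|s| / ‖σ‖) ^ (2 * K)) *
          (Real.exp (-lam * σ.re * s ^ 2) * Real.exp (2 / 3 * lam * |s| ^ 3)) := by ring
      _ ≤ C₁ * (|s| ^ (3 * (2 * K)) + (|s| / ‖σ‖) ^ (2 * K)) * Real.exp (-(5 / 6 * lam) * σ.re * s ^ 2) := by
          gcongr
      _ = g s := by rw [hg]; simp only; rw [div_pow]; ring
  refine (intervalIntegral.norm_integral_le_of_norm_le (by linarith)
    (Filter.Eventually.of_forall hbd) hgi.intervalIntegrable).trans ?_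
  rw [intervalIntegral.integral_of_le (by linarith)]
  have e1 : (1 / 2 : ℝ) ^ (-(((3 * (2 * K) : ℕ) : ℝ) + 1) / 2) * ‖σ‖ ^ (-(1 / 2) - 3 * (K : ℝ)) ≥
      σ.re ^ (-(((3 * (2 * K) : ℕ) : ℝ) + 1) / 2) := by
    rw [show -(1 / 2) - 3 * (K : ℝ) = -(((3 * (2 * K) : ℕ) : ℝ) + 1) / 2 by push_cast; ring]
    rw [← Real.mul_rpow (by norm_num) hr0.le]
    apply Real.rpow_le_rpow_of_nonpos (by positivity) (by linarith)
    have : (0 : ℝ) ≤ ((3 * (2 * K) : ℕ) : ℝ) := Nat.cast_nonneg _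
    linarith
  have e2 : (1 / 2 : ℝ) ^ (-(((2 * K : ℕ) : ℝ) + 1) / 2) * ‖σ‖ ^ (-(1 / 2) - 3 * (K : ℝ)) ≥
      (‖σ‖ ^ (2 * K))⁻¹ * σ.re ^ (-(((2 * K : ℕ) : ℝ) + 1) / 2) := by
    have h7 : σ.re ^ (-(((2 * K : ℕ) : ℝ) + 1) / 2) ≤
        (1 / 2 : ℝ) ^ (-(((2 * K : ℕ) : ℝ) + 1) / 2) * ‖σ‖ ^ (-(((2 * K : ℕ) : ℝ) + 1) / 2) := by
      rw [← Real.mul_rpow (by norm_num) hr0.le]
      apply Real.rpow_le_rpow_of_nonpos (by positivity) (by linarith)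
      have : (0 : ℝ) ≤ ((2 * K : ℕ) : ℝ) := Nat.cast_nonneg _
      linarith
    have h8 : (‖σ‖ ^ (2 * K))⁻¹ * ‖σ‖ ^ (-(((2 * K : ℕ) : ℝ) + 1) / 2) = ‖σ‖ ^ (-(1 / 2) - 3 * (K : ℝ)) := by
      rw [← Real.rpow_natCast, ← Real.rpow_neg hr0.le, ← Real.rpow_add hr0]
      congr 1
      push_cast
      ring
    rw [← h8]
    have h9 : 0 ≤ (‖σ‖ ^ (2 * K))⁻¹ := by positivity
    nlinarith [mul_le_mul_of_nonneg_left h7 h9]
  calc ∫ s in Set.Ioc (-(σ.re / 4)) (σ.re / 4), g s ≤ ∫ s : ℝ, g s :=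
        setIntegral_le_integral hgi (Filter.Eventually.of_forall hg0)
    _ = C₁ * (∫ s : ℝ, |s| ^ (3 * (2 * K)) * Real.exp (-(5 / 6 * lam) * σ.re * s ^ 2)) +
        C₁ / ‖σ‖ ^ (2 * K) * ∫ s : ℝ, |s| ^ (2 * K) * Real.exp (-(5 / 6 * lam) * σ.re * s ^ 2) := by
        rw [hg, integral_add (i2.const_mul C₁) (i3.const_mul (C₁ / ‖σ‖ ^ (2 * K))), integral_const_mul,
          integral_const_mul]
    _ ≤ C₁ * (C₂ * σ.re ^ (-(((3 * (2 * K) : ℕ) : ℝ) + 1) / 2)) +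
        C₁ / ‖σ‖ ^ (2 * K) * (C₃ * σ.re ^ (-(((2 * K : ℕ) : ℝ) + 1) / 2)) := by gcongr
    _ = C₁ * (C₂ * σ.re ^ (-(((3 * (2 * K) : ℕ) : ℝ) + 1) / 2)) +
        C₁ * (C₃ * ((‖σ‖ ^ (2 * K))⁻¹ * σ.re ^ (-(((2 * K : ℕ) : ℝ) + 1) / 2))) := by
        rw [div_eq_mul_inv]; ring
    _ ≤ C₁ * (C₂ * ((1 / 2 : ℝ) ^ (-(((3 * (2 * K) : ℕ) : ℝ) + 1) / 2) * ‖σ‖ ^ (-(1 / 2) - 3 * (K : ℝ)))) +
        C₁ * (C₃ * ((1 / 2 : ℝ) ^ (-(((2 * K : ℕ) : ℝ) + 1) / 2) * ‖σ‖ ^ (-(1 / 2) - 3 * (K : ℝ)))) := by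
        gcongr
    _ = _ := by ring

private theorem S5_slit (σ : ℂ) (s : ℝ) (h0 : 0 < ‖σ‖) (h2 : |s| ≤ ‖σ‖ / 4) :
    1 + (s : ℂ) / σ ∈ Complex.slitPlane := by
  apply Complex.mem_slitPlane_of_norm_lt_one
  rw [norm_div, Complex.norm_real, Real.norm_eq_abs, div_lt_one h0]
  linarith

theorem Gloc_expand (lam ν : ℝ) (hl : 0 < lam) (K : ℕ) : ∃ C : ℝ, 0 < C ∧ ∀ σ : ℂ, 1 ≤ ‖σ‖ →
    ‖σ‖ / 2 ≤ σ.re →
    ‖(∫ s in (-(σ.re / 4))..(σ.re / 4),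
        Complex.exp (-(lam : ℂ) * (σ * (s : ℂ) ^ 2 + 2 / 3 * (s : ℂ) ^ 3)) *
          Complex.exp (ν * Complex.log (1 + (s : ℂ) / σ))) -
      Complex.exp (((Real.log Real.pi : ℂ) - (Real.log lam : ℂ) - Complex.log σ) / 2) *
        sm ν K (-1 / (8 * (lam : ℂ) * σ ^ 3))‖ ≤ C * ‖σ‖ ^ (-(1 / 2) - 3 * (K : ℝ)) := by
  obtain ⟨C₁, hC₁, h₁⟩ := S5_main lam ν hl K
  obtain ⟨C₂, hC₂, h₂⟩ := S5_tail lam ν hl K
  obtain ⟨C₃, hC₃, h₃⟩ := moment_sum lam ν hl K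
  refine ⟨C₁ + C₂ + C₃, by positivity, fun σ hσ hre => ?_⟩
  have hre0 : 0 < σ.re := by linarith
  have hr0 : 0 < ‖σ‖ := by linarith
  have hre1 : σ.re ≤ ‖σ‖ := Complex.re_le_norm σ
  have g1 := h₁ σ hσ hre
  have g2 := h₂ σ hσ hre
  have g3 := h₃ σ hσ hre0
  have hci : IntervalIntegrable (fun s : ℝ => Complex.exp (-(lam : ℂ) * σ * (s : ℂ) ^ 2) *
      (Complex.exp (-(2 / 3) * (lam : ℂ) * (s : ℂ) ^ 3) * Complex.exp (ν * Complex.log (1 + (s : ℂ) / σ))))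
      volume (-(σ.re / 4)) (σ.re / 4) := by
    apply ContinuousOn.intervalIntegrable
    rw [Set.uIcc_of_le (by linarith)]
    apply ContinuousOn.mul (by fun_prop)
    apply ContinuousOn.mul (by fun_prop)
    apply Complex.continuous_exp.comp_continuousOn
    apply ContinuousOn.mul continuousOn_const
    apply ContinuousOn.clog (by fun_prop)
    intro s hs
    exact S5_slit σ s hr0 ((abs_le.2 ⟨hs.1, hs.2⟩).trans (by linarith))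
  have hti : IntervalIntegrable (fun s : ℝ => Complex.exp (-(lam : ℂ) * σ * (s : ℂ) ^ 2) *
      tt lam ν (2 * K) σ s) volume (-(σ.re / 4)) (σ.re / 4) := (S5_cont lam ν (2 * K) σ).intervalIntegrable _ _
  have e1 : (∫ s in (-(σ.re / 4))..(σ.re / 4), Complex.exp (-(lam : ℂ) * σ * (s : ℂ) ^ 2) *
      (Complex.exp (-(2 / 3) * (lam : ℂ) * (s : ℂ) ^ 3) * Complex.exp (ν * Complex.log (1 + (s : ℂ) / σ)) -
        tt lam ν (2 * K) σ s)) =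
      (∫ s in (-(σ.re / 4))..(σ.re / 4),
        Complex.exp (-(lam : ℂ) * (σ * (s : ℂ) ^ 2 + 2 / 3 * (s : ℂ) ^ 3)) *
          Complex.exp (ν * Complex.log (1 + (s : ℂ) / σ))) -
      ∫ s in (-(σ.re / 4))..(σ.re / 4), Complex.exp (-(lam : ℂ) * σ * (s : ℂ) ^ 2) * tt lam ν (2 * K) σ s := by
    have e2 : ∀ s : ℝ, Complex.exp (-(lam : ℂ) * (σ * (s : ℂ) ^ 2 + 2 / 3 * (s : ℂ) ^ 3)) *
          Complex.exp (ν * Complex.log (1 + (s : ℂ) / σ)) = Complex.exp (-(lam : ℂ) * σ * (s : ℂ) ^ 2) *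
      (Complex.exp (-(2 / 3) * (lam : ℂ) * (s : ℂ) ^ 3) * Complex.exp (ν * Complex.log (1 + (s : ℂ) / σ))) := by
      intro s
      rw [← mul_assoc, ← Complex.exp_add (-(lam : ℂ) * σ * (s : ℂ) ^ 2)]
      congr 2
      ring
    simp only [e2, mul_sub]
    exact intervalIntegral.integral_sub hci hti
  rw [e1] at g1
  set I₁ := ∫ s in (-(σ.re / 4))..(σ.re / 4),
        Complex.exp (-(lam : ℂ) * (σ * (s : ℂ) ^ 2 + 2 / 3 * (s : ℂ) ^ 3)) *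
          Complex.exp (ν * Complex.log (1 + (s : ℂ) / σ))
  set I₂ := ∫ s in (-(σ.re / 4))..(σ.re / 4), Complex.exp (-(lam : ℂ) * σ * (s : ℂ) ^ 2) * tt lam ν (2 * K) σ s
  set I₃ := ∫ s : ℝ, Complex.exp (-(lam : ℂ) * σ * (s : ℂ) ^ 2) * tt lam ν (2 * K) σ s
  set J := Complex.exp (((Real.log Real.pi : ℂ) - (Real.log lam : ℂ) - Complex.log σ) / 2) *
        sm ν K (-1 / (8 * (lam : ℂ) * σ ^ 3))
  calc ‖I₁ - J‖ = ‖(I₁ - I₂) + (I₂ - I₃) + (I₃ - J)‖ := by congr 1; ring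
    _ ≤ ‖I₁ - I₂‖ + ‖I₂ - I₃‖ + ‖I₃ - J‖ := norm_add₃_le
    _ ≤ _ := by rw [add_mul, add_mul]; gcongr

end Pool.Agent.LibFR89
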