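import Mathlib
import Pool.Agent.LibFR89.Defs

/-!
# Row E1 (EASY/MEDIUM, ONLY MATHLIB): powers are Lipschitz near one

On the closed ball `B(1, 3/4)` (convex, real part `≥ 1/4`, inside the slit plane) the function
`Y ↦ exp (x log Y)` has derivative `x exp (x log Y) / Y`, bounded by a constant depending on `x`
(compactness and continuity, or `‖exp (x log Y)‖ ≤ exp (|x| ‖log Y‖)`);
`Convex.norm_image_sub_le_of_norm_hasDerivWithin_le`.
-/

set_option autoImplicit false

namespace Pool.Agent.LibFR89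

open MeasureTheory Filter Topology

theorem pow_lip (x : ℝ) : ∃ C : ℝ, 0 < C ∧ ∀ Y Z : ℂ, ‖Y - 1‖ ≤ 3 / 4 → ‖Z - 1‖ ≤ 3 / 4 →
    ‖Complex.exp (x * Complex.log Y) - Complex.exp (x * Complex.log Z)‖ ≤ C * ‖Y - Z‖ := by
  have hslit : ∀ Y ∈ Metric.closedBall (1 : ℂ) (3 / 4), Y ∈ Complex.slitPlane := by
    intro Y hY
    rw [mem_closedBall_iff_norm] at hY
    left
    have h1 : |(Y - 1).re| ≤ ‖Y - 1‖ := Complex.abs_re_le_norm _
    rw [Complex.sub_re, Complex.one_re] at h1
    have h2 := (abs_le.1 (h1.trans hY)).1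
    linarith
  have hder : ∀ Y ∈ Metric.closedBall (1 : ℂ) (3 / 4),
      HasDerivWithinAt (fun Y : ℂ => Complex.exp (x * Complex.log Y))
        (Complex.exp (x * Complex.log Y) * (x * Y⁻¹)) (Metric.closedBall (1 : ℂ) (3 / 4)) Y := by
    intro Y hY
    exact (((Complex.hasDerivAt_log (hslit Y hY)).const_mul (x : ℂ)).cexp).hasDerivWithinAt
  have hcont : ContinuousOn (fun Y : ℂ => Complex.exp (x * Complex.log Y) * (x * Y⁻¹))
      (Metric.closedBall (1 : ℂ) (3 / 4)) := by
    have hlog : ContinuousOn (fun Y : ℂ => Complex.log Y) (Metric.closedBall (1 : ℂ) (3 / 4)) :=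
      fun Y hY => (continuousAt_id.clog (hslit Y hY)).continuousWithinAt
    have hne : ∀ Y ∈ Metric.closedBall (1 : ℂ) (3 / 4), Y ≠ 0 := fun Y hY =>
      Complex.slitPlane_ne_zero (hslit Y hY)
    exact (Complex.continuous_exp.comp_continuousOn (continuousOn_const.mul hlog)).mul
      (continuousOn_const.mul (continuousOn_id.inv₀ hne))
  obtain ⟨C, hC⟩ := (isCompact_closedBall (1 : ℂ) (3 / 4)).exists_bound_of_continuousOn hcont
  refine ⟨max C 1, by positivity, fun Y Z hY hZ => ?_⟩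
  have hY' : Y ∈ Metric.closedBall (1 : ℂ) (3 / 4) := by rwa [mem_closedBall_iff_norm]
  have hZ' : Z ∈ Metric.closedBall (1 : ℂ) (3 / 4) := by rwa [mem_closedBall_iff_norm]
  exact (convex_closedBall (1 : ℂ) (3 / 4)).norm_image_sub_le_of_norm_hasDerivWithin_le hder
    (fun W hW => (hC W hW).trans (le_max_left _ _)) hZ' hY'

end Pool.Agent.LibFR89
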