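import Mathlib
import Pool.Agent.LibFR89.DefsR

/-!
# Row E2 (MEDIUM/HARD): the power of the polynomial `sa K`

`p = sa K`, `p 0 = aa 0 = 1`, so `‖p y - 1‖ ≤ 1/2` near `0` and `f y = exp (x log (p y))` is
analytic near `0`, `f 0 = 1`, `p f' = x p' f`.  Let `f y = ∑ c_k y^k`; comparing coefficients of
`y^j`: `∑_{i ≤ j} aa i (j + 1 - i) c_{j+1-i} = x ∑_{i ≤ j} (i + 1) aa (i+1) c_{j-i}` as long as
`j + 1 < K` (the coefficients of `p` up to `j + 1` are the `aa`), that is
`(j + 1) c_{j+1} = ∑_{i ≤ j} (x (i + 1) - (j - i)) aa (i+1) c_{j-i}`: the recursion of `ee x`, so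
`c_k = ee x k` for `k < K`.  Then Taylor's formula with remainder near `0`.
Alternative without power series: put `q = se x K`; then `p q' - x p' q = O(y^(K-1))` by the
recursion (finite algebra), so `h = q * exp (-x log p)` has `h' = O(y^(K-1))`, `h 0 = 1`, hence
`h - 1 = O(y^K)` (mean value inequality on the ball), hence the claim.
-/

set_option autoImplicit false

namespace Pool.Agent.LibFR89

open MeasureTheory Filter Topology

open Pool.Agent.H69Cubic

private lemma aa_zero : aa 0 = 1 := by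
  simp [aa]

private lemma ee_zero (x : ℝ) : ee x 0 = 1 := by
  rw [ee]

private lemma ee_rec (x : ℝ) (j : ℕ) : ((j : ℝ) + 1) * ee x (j + 1) =
    ∑ i ∈ Finset.range (j + 1), (x * ((i : ℝ) + 1) - ((j : ℝ) - (i : ℝ))) * aa (i + 1) *
      ee x (j - i) := by
  rw [ee]
  have hj : ((j : ℝ) + 1) ≠ 0 := by positivity
  rw [mul_div_cancel₀ _ hj]
  rw [Finset.sum_range (fun i => (x * ((i : ℝ) + 1) - ((j : ℝ) - (i : ℝ))) * aa (i + 1) *
      ee x (j - i))]

private lemma conv_id (x : ℝ) (j : ℕ) :
    ∑ i ∈ Finset.range (j + 1), aa i * (ee x (j - i + 1) * (((j - i : ℕ) : ℝ) + 1)) =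
    ∑ i ∈ Finset.range (j + 1), x * ((aa (i + 1) * ((i : ℝ) + 1)) * ee x (j - i)) := by
  have h1 := ee_rec x j
  have h2 : ∑ i ∈ Finset.range (j + 1), (x * ((i : ℝ) + 1) - ((j : ℝ) - (i : ℝ))) * aa (i + 1) *
      ee x (j - i) =
      ∑ i ∈ Finset.range (j + 1), x * ((aa (i + 1) * ((i : ℝ) + 1)) * ee x (j - i)) -
      ∑ i ∈ Finset.range (j + 1), ((j : ℝ) - (i : ℝ)) * aa (i + 1) * ee x (j - i) := by
    rw [← Finset.sum_sub_distrib]
    refine Finset.sum_congr rfl fun i _ => ?_
    ring
  have h3 : ∑ i ∈ Finset.range (j + 1), ((j : ℝ) - (i : ℝ)) * aa (i + 1) * ee x (j - i) =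
      ∑ i ∈ Finset.range j, ((j : ℝ) - (i : ℝ)) * aa (i + 1) * ee x (j - i) := by
    rw [Finset.sum_range_succ]
    simp
  rw [Finset.sum_range_succ']
  have h4 : ∑ i ∈ Finset.range j, aa (i + 1) *
      (ee x (j - (i + 1) + 1) * (((j - (i + 1) : ℕ) : ℝ) + 1)) =
      ∑ i ∈ Finset.range j, ((j : ℝ) - (i : ℝ)) * aa (i + 1) * ee x (j - i) := by
    refine Finset.sum_congr rfl fun i hi => ?_
    have hi' : i < j := Finset.mem_range.1 hi
    have e1 : j - (i + 1) + 1 = j - i := by omega
    have e2 : (((j - (i + 1) : ℕ) : ℝ) + 1) = (j : ℝ) - (i : ℝ) := by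
      rw [Nat.cast_sub (by omega)]
      push_cast
      ring
    rw [e1, e2]
    ring
  rw [h4, aa_zero]
  simp only [Nat.sub_zero, one_mul]
  linarith

private noncomputable def PP (K : ℕ) : Polynomial ℂ :=
  ∑ k ∈ Finset.range K, Polynomial.monomial k (aa k : ℂ)

private noncomputable def QP (x : ℝ) (K : ℕ) : Polynomial ℂ :=
  ∑ k ∈ Finset.range K, Polynomial.monomial k (ee x k : ℂ)

private lemma PP_eval (K : ℕ) (y : ℂ) : (PP K).eval y = sa K y := by
  simp [PP, sa, Polynomial.eval_finsetSum, Polynomial.eval_monomial]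

private lemma QP_eval (x : ℝ) (K : ℕ) (y : ℂ) : (QP x K).eval y = se x K y := by
  simp [QP, se, Polynomial.eval_finsetSum, Polynomial.eval_monomial]

private lemma PP_coeff (K k : ℕ) (hk : k < K) : (PP K).coeff k = (aa k : ℂ) := by
  simp [PP, Polynomial.coeff_monomial, hk]

private lemma QP_coeff (x : ℝ) (K k : ℕ) (hk : k < K) : (QP x K).coeff k = (ee x k : ℂ) := by
  simp [QP, Polynomial.coeff_monomial, hk]

private noncomputable def RP (x : ℝ) (K : ℕ) : Polynomial ℂ :=
  PP K * Polynomial.derivative (QP x K) -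
    Polynomial.C (x : ℂ) * (Polynomial.derivative (PP K) * QP x K)

private lemma RP_dvd (x : ℝ) (K : ℕ) : Polynomial.X ^ (K - 1) ∣ RP x K := by
  rw [Polynomial.X_pow_dvd_iff]
  intro d hd
  unfold RP
  rw [Polynomial.coeff_sub, Polynomial.coeff_C_mul, Polynomial.coeff_mul, Polynomial.coeff_mul]
  rw [Finset.Nat.sum_antidiagonal_eq_sum_range_succ
    (fun i j => (PP K).coeff i * (Polynomial.derivative (QP x K)).coeff j)]
  rw [Finset.Nat.sum_antidiagonal_eq_sum_range_succ
    (fun i j => (Polynomial.derivative (PP K)).coeff i * (QP x K).coeff j)]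
  have h1 : ∑ k ∈ Finset.range d.succ, (PP K).coeff k *
      (Polynomial.derivative (QP x K)).coeff (d - k) =
      ((∑ i ∈ Finset.range (d + 1), aa i * (ee x (d - i + 1) * (((d - i : ℕ) : ℝ) + 1)) : ℝ) : ℂ) := by
    push_cast
    refine Finset.sum_congr rfl fun i hi => ?_
    have hi' : i < d + 1 := Finset.mem_range.1 hi
    rw [Polynomial.coeff_derivative, PP_coeff K i (by omega), QP_coeff x K _ (by omega)]
  have h2 : ∑ k ∈ Finset.range d.succ, (Polynomial.derivative (PP K)).coeff k *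
      (QP x K).coeff (d - k) =
      ((∑ i ∈ Finset.range (d + 1), (aa (i + 1) * ((i : ℝ) + 1)) * ee x (d - i) : ℝ) : ℂ) := by
    push_cast
    refine Finset.sum_congr rfl fun i hi => ?_
    have hi' : i < d + 1 := Finset.mem_range.1 hi
    rw [Polynomial.coeff_derivative, PP_coeff K _ (by omega), QP_coeff x K _ (by omega)]
  rw [h1, h2, conv_id x d, ← Finset.mul_sum]
  push_cast
  ring

theorem poly_pow (x : ℝ) (K : ℕ) (hK : 1 ≤ K) : ∃ C ε : ℝ, 0 < C ∧ 0 < ε ∧ ∀ y : ℂ, ‖y‖ ≤ ε →
    ‖sa K y - 1‖ ≤ 1 / 2 ∧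
    ‖Complex.exp (x * Complex.log (sa K y)) - se x K y‖ ≤ C * ‖y‖ ^ K := by
  obtain ⟨S, hS⟩ := RP_dvd x K
  -- values at `0`
  have hp0 : (PP K).eval 0 = 1 := by
    have := PP_coeff K 0 (by omega)
    rw [Polynomial.coeff_zero_eq_eval_zero] at this
    rw [this, aa_zero]
    norm_num
  have hq0 : (QP x K).eval 0 = 1 := by
    have := QP_coeff x K 0 (by omega)
    rw [Polynomial.coeff_zero_eq_eval_zero] at this
    rw [this, ee_zero]
    norm_num
  have hpc : Continuous fun y : ℂ => (PP K).eval y := (PP K).continuous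
  have hSc : Continuous fun y : ℂ => S.eval y := S.continuous
  have hslit0 : (PP K).eval 0 ∈ Complex.slitPlane := by
    rw [hp0]
    exact Complex.one_mem_slitPlane
  -- the function multiplying `y ^ (K - 1)`
  set g : ℂ → ℂ := fun y => S.eval y * Complex.exp (-(x * Complex.log ((PP K).eval y))) /
    (PP K).eval y with hg
  have hlogc : ContinuousAt (fun y : ℂ => Complex.log ((PP K).eval y)) 0 :=
    ContinuousAt.clog hpc.continuousAt hslit0
  have hgc : ContinuousAt g 0 := by
    refine ContinuousAt.div ?_ hpc.continuousAt (by rw [hp0]; exact one_ne_zero)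
    refine ContinuousAt.mul hSc.continuousAt ?_
    exact ((continuousAt_const.mul hlogc).neg).cexp
  have hec : ContinuousAt (fun y : ℂ => Complex.exp (x * Complex.log ((PP K).eval y))) 0 :=
    (continuousAt_const.mul hlogc).cexp
  -- the good neighbourhood
  have ev1 : ∀ᶠ y in 𝓝 (0 : ℂ), ‖(PP K).eval y - 1‖ < 1 / 2 := by
    have : ContinuousAt (fun y : ℂ => ‖(PP K).eval y - 1‖) 0 :=
      (hpc.continuousAt.sub continuousAt_const).norm
    refine this.eventually (Iio_mem_nhds ?_)
    simp only [hp0]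
    norm_num
  have ev2 : ∀ᶠ y in 𝓝 (0 : ℂ), ‖g y‖ < ‖g 0‖ + 1 :=
    hgc.norm.eventually (Iio_mem_nhds (by linarith))
  have ev3 : ∀ᶠ y in 𝓝 (0 : ℂ), ‖Complex.exp (x * Complex.log ((PP K).eval y))‖ <
      ‖Complex.exp (x * Complex.log ((PP K).eval 0))‖ + 1 :=
    hec.norm.eventually (Iio_mem_nhds (by linarith))
  obtain ⟨ε, hε, hball⟩ := Metric.nhds_basis_closedBall.eventually_iff.1 (ev1.and (ev2.and ev3))
  set M := ‖g 0‖ + 1 with hM
  set N := ‖Complex.exp (x * Complex.log ((PP K).eval 0))‖ + 1 with hN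
  have hMpos : 0 < M := by positivity
  have hNpos : 0 < N := by positivity
  have hslit : ∀ y : ℂ, ‖y‖ ≤ ε → (PP K).eval y ∈ Complex.slitPlane := by
    intro y hy
    have h1 := (hball (mem_closedBall_zero_iff.2 hy)).1
    refine Or.inl ?_
    have h2 : |((PP K).eval y - 1).re| ≤ ‖(PP K).eval y - 1‖ := Complex.abs_re_le_norm _
    rw [Complex.sub_re, Complex.one_re] at h2
    have h3 := abs_le.1 h2
    linarith [h3.1]
  -- the comparison function
  set h : ℂ → ℂ := fun y => (QP x K).eval y *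
    Complex.exp (-(x * Complex.log ((PP K).eval y))) with hh
  have hder : ∀ y : ℂ, ‖y‖ ≤ ε → HasDerivAt h (y ^ (K - 1) * g y) y := by
    intro y hy
    have hs := hslit y hy
    have hne : (PP K).eval y ≠ 0 := Complex.slitPlane_ne_zero hs
    have d1 := (QP x K).hasDerivAt y
    have d2 := (PP K).hasDerivAt y
    have d3 : HasDerivAt (fun z : ℂ => Complex.exp (-(x * Complex.log ((PP K).eval z))))
        (Complex.exp (-(x * Complex.log ((PP K).eval y))) *
          -(x * ((Polynomial.derivative (PP K)).eval y / (PP K).eval y))) y :=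
      (((d2.clog hs).const_mul (x : ℂ)).neg).cexp
    have d4 := d1.mul d3
    refine d4.congr_deriv ?_
    have hR : (PP K).eval y * (Polynomial.derivative (QP x K)).eval y -
        x * ((Polynomial.derivative (PP K)).eval y * (QP x K).eval y) =
        y ^ (K - 1) * S.eval y := by
      have := congrArg (Polynomial.eval y) hS
      simpa [RP] using this
    have hR' : y ^ (K - 1) * g y = (y ^ (K - 1) * S.eval y) *
        Complex.exp (-(x * Complex.log ((PP K).eval y))) / (PP K).eval y := by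
      simp only [hg]
      ring
    rw [hR', ← hR]
    field_simp
    ring
  have hh0 : h 0 = 1 := by
    simp only [hh, hp0, hq0, Complex.log_one, mul_zero, neg_zero, Complex.exp_zero, mul_one]
  have hmv : ∀ y : ℂ, ‖y‖ ≤ ε → ‖h y - 1‖ ≤ M * ‖y‖ ^ K := by
    intro y hy
    have hconv : Convex ℝ (Metric.closedBall (0 : ℂ) ‖y‖) := convex_closedBall _ _
    have hb := hconv.norm_image_sub_le_of_norm_hasDerivWithin_le (f := h)
      (f' := fun z => z ^ (K - 1) * g z) (C := M * ‖y‖ ^ (K - 1)) (x := 0) (y := y)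
      (fun z hz => (hder z ((mem_closedBall_zero_iff.1 hz).trans hy)).hasDerivWithinAt)
      (fun z hz => by
        have hz' := mem_closedBall_zero_iff.1 hz
        have h2 := (hball (mem_closedBall_zero_iff.2 (hz'.trans hy))).2.1
        rw [norm_mul, norm_pow, mul_comm]
        exact mul_le_mul h2.le (pow_le_pow_left₀ (norm_nonneg _) hz' _) (by positivity)
          hMpos.le)
      (mem_closedBall_zero_iff.2 (by simp)) (mem_closedBall_zero_iff.2 le_rfl)
    rw [hh0, sub_zero] at hb
    refine hb.trans (le_of_eq ?_)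
    rw [mul_assoc, ← pow_succ, Nat.sub_add_cancel hK]
  refine ⟨N * M, ε, by positivity, hε, fun y hy => ?_⟩
  have hb := hball (mem_closedBall_zero_iff.2 hy)
  refine ⟨?_, ?_⟩
  · rw [← PP_eval]
    exact hb.1.le
  · rw [← PP_eval, ← QP_eval]
    have e1 : Complex.exp (x * Complex.log ((PP K).eval y)) - (QP x K).eval y =
        Complex.exp (x * Complex.log ((PP K).eval y)) * (1 - h y) := by
      have e2 : Complex.exp (x * Complex.log ((PP K).eval y)) *
          Complex.exp (-(x * Complex.log ((PP K).eval y))) = 1 := by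
        rw [← Complex.exp_add, add_neg_cancel, Complex.exp_zero]
      simp only [hh]
      linear_combination ((QP x K).eval y) * e2
    rw [e1, norm_mul, norm_sub_rev, mul_assoc]
    exact mul_le_mul hb.2.2.le (hmv y hy) (norm_nonneg _) hNpos.le

end Pool.Agent.LibFR89
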