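import Mathlib
import Pool.Agent.LibFR89.DefsR
import Pool.Agent.LibFR89.E1
import Pool.Agent.LibFR89.E2

/-!
# Row E3 (EASY): powers of asymptotic series

Rows E1 and E2: for small `y`, `‖Y - 1‖ ≤ ‖Y - sa K y‖ + ‖sa K y - 1‖ ≤ 1/4 + 1/2` and
`‖Y^x - (sa K y)^x‖ ≤ C ‖Y - sa K y‖`.
-/

set_option autoImplicit false

namespace Pool.Agent.LibFR89

open MeasureTheory Filter Topology

open Pool.Agent.H69Cubic

theorem pow_series (x : ℝ) (K : ℕ) (hK : 1 ≤ K) (c : ℝ) : ∃ C ε : ℝ, 0 < C ∧ 0 < ε ∧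
    ∀ y Y : ℂ, ‖y‖ ≤ ε → ‖Y - sa K y‖ ≤ c * ‖y‖ ^ K →
    ‖Complex.exp (x * Complex.log Y) - se x K y‖ ≤ C * ‖y‖ ^ K := by
  obtain ⟨C1, hC1, h1⟩ := pow_lip x
  obtain ⟨C2, ε2, hC2, hε2, h2⟩ := poly_pow x K hK
  have hc0 : 0 ≤ |c| := abs_nonneg c
  have hε3 : 0 < 1 / (4 * (|c| + 1)) := by positivity
  refine ⟨C1 * (|c| + 1) + C2, min ε2 (min 1 (1 / (4 * (|c| + 1)))), by positivity, by positivity,
    ?_⟩
  intro y Y hy hY
  have hy2 : ‖y‖ ≤ ε2 := hy.trans (min_le_left _ _)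
  have hy1 : ‖y‖ ≤ 1 := hy.trans ((min_le_right _ _).trans (min_le_left _ _))
  have hy3 : ‖y‖ ≤ 1 / (4 * (|c| + 1)) := hy.trans ((min_le_right _ _).trans (min_le_right _ _))
  obtain ⟨ha, hb⟩ := h2 y hy2
  have hn0 : 0 ≤ ‖y‖ := norm_nonneg y
  have hpow0 : 0 ≤ ‖y‖ ^ K := by positivity
  have hpow : ‖y‖ ^ K ≤ ‖y‖ := by
    calc ‖y‖ ^ K ≤ ‖y‖ ^ 1 := pow_le_pow_of_le_one hn0 hy1 hK
      _ = ‖y‖ := pow_one _
  have hcK : c * ‖y‖ ^ K ≤ (|c| + 1) * ‖y‖ ^ K := by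
    have : c ≤ |c| + 1 := (le_abs_self c).trans (by linarith)
    exact mul_le_mul_of_nonneg_right this hpow0
  have hq : (|c| + 1) * ‖y‖ ^ K ≤ 1 / 4 := by
    calc (|c| + 1) * ‖y‖ ^ K ≤ (|c| + 1) * (1 / (4 * (|c| + 1))) := by
          apply mul_le_mul_of_nonneg_left (hpow.trans hy3) (by positivity)
      _ = 1 / 4 := by field_simp
  have hYs : ‖Y - sa K y‖ ≤ (|c| + 1) * ‖y‖ ^ K := hY.trans hcK
  have hY1 : ‖Y - 1‖ ≤ 3 / 4 := by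
    calc ‖Y - 1‖ = ‖(Y - sa K y) + (sa K y - 1)‖ := by ring_nf
      _ ≤ ‖Y - sa K y‖ + ‖sa K y - 1‖ := norm_add_le _ _
      _ ≤ 3 / 4 := by linarith
  have hs1 : ‖sa K y - 1‖ ≤ 3 / 4 := by linarith
  have hL := h1 Y (sa K y) hY1 hs1
  calc ‖Complex.exp (x * Complex.log Y) - se x K y‖
      = ‖(Complex.exp (x * Complex.log Y) - Complex.exp (x * Complex.log (sa K y))) +
          (Complex.exp (x * Complex.log (sa K y)) - se x K y)‖ := by ring_nf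
    _ ≤ ‖Complex.exp (x * Complex.log Y) - Complex.exp (x * Complex.log (sa K y))‖ +
          ‖Complex.exp (x * Complex.log (sa K y)) - se x K y‖ := norm_add_le _ _
    _ ≤ C1 * ((|c| + 1) * ‖y‖ ^ K) + C2 * ‖y‖ ^ K := by
        refine add_le_add (hL.trans ?_) hb
        exact mul_le_mul_of_nonneg_left hYs hC1.le
    _ = (C1 * (|c| + 1) + C2) * ‖y‖ ^ K := by ring

end Pool.Agent.LibFR89
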