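import Mathlib
import Pool.Agent.LibFR89.Defs
import Pool.Agent.LibFR89.A4
import Pool.Agent.LibFR89.A7
import Pool.Agent.LibFR89.A12

/-!
# Row E4 (MEDIUM): the logarithm `L` in a sector far out

`W` from `yf_near` for `δ`.  On the region `R = {W ≤ ‖w‖, δ ‖w‖ ≤ Re w}` both `D.L w` and
`M w = (log π - log w)/2 + log (yf w)` are continuous and have exponential `Af w`
(`yf w ≠ 0`, `exp (log (yf w)) = yf w`, definition of `yf`).  So `(L - M)/(2 π i)` is an integer, and
continuous along the arc `φ ↦ r exp (i φ)` from `φ = 0` to `φ = arg w` (the arc stays in `R`, because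
`cos` decreases on `[0, π/2)` and `δ ‖w‖ ≤ Re w`), so constant on it
(`Complex.exp_eq_exp_iff_exists_int`, connectedness).  At `φ = 0`: `w = r > 0` real, `L r` is real
(`D.real_L`), `yf r` is real by `yf_conj`, within `1/2` of `1`, so positive and `log (yf r)` real:
`L r = M r` as both are real logarithms of the same positive number.
-/

set_option autoImplicit false

namespace Pool.Agent.LibFR89

open MeasureTheory Filter Topology

/-- the candidate for the logarithm -/
private noncomputable def E4_M (w : ℂ) : ℂ :=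
  ((Real.log Real.pi : ℂ) - Complex.log w) / 2 + Complex.log (yf w)

private theorem E4_re {z : ℂ} (h : ‖z - 1‖ ≤ 1 / 2) : 0 < z.re := by
  have h1 : |(z - 1).re| ≤ 1 / 2 := (Complex.abs_re_le_norm _).trans h
  have h2 := (abs_le.mp h1).1
  rw [Complex.sub_re, Complex.one_re] at h2
  linarith

private theorem E4_slit {z : ℂ} (h : 0 < z.re) : z ∈ Complex.slitPlane :=
  Complex.mem_slitPlane_iff.mpr (Or.inl h)

private theorem E4_yf_cont : ContinuousOn yf {w : ℂ | 0 < w.re} := by
  unfold yf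
  refine Af_diff.continuousOn.mul ?_
  refine Complex.continuous_exp.comp_continuousOn ?_
  refine ContinuousOn.div_const ?_ _
  refine ContinuousOn.sub ?_ continuousOn_const
  intro w hw
  exact (continuousAt_clog (E4_slit hw)).continuousWithinAt

private theorem E4_exp_M {w : ℂ} (hy : ‖yf w - 1‖ ≤ 1 / 2) : Complex.exp (E4_M w) = Af w := by
  have h1 : yf w ≠ 0 := by
    intro h
    have := E4_re hy
    rw [h] at this
    simp at this
  unfold E4_M
  rw [Complex.exp_add, Complex.exp_log h1]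
  unfold yf
  rw [mul_comm, mul_assoc, ← Complex.exp_add]
  have : (Complex.log w - (Real.log Real.pi : ℂ)) / 2 +
      ((Real.log Real.pi : ℂ) - Complex.log w) / 2 = 0 := by ring
  rw [this, Complex.exp_zero, mul_one]

theorem L_eq (D : AL) (δ : ℝ) (hδ : 0 < δ) : ∃ W : ℝ, 1 ≤ W ∧ ∀ w : ℂ, W ≤ ‖w‖ →
    δ * ‖w‖ ≤ w.re → ‖yf w - 1‖ ≤ 1 / 2 ∧
    D.L w = ((Real.log Real.pi : ℂ) - Complex.log w) / 2 + Complex.log (yf w) := by
  obtain ⟨W, hW, hyf⟩ := yf_near δ hδ
  refine ⟨W, hW, fun w hw hwr => ⟨hyf w hw hwr, ?_⟩⟩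
  have hr : 0 < ‖w‖ := by linarith
  have hre : ∀ v : ℂ, W ≤ ‖v‖ → δ * ‖v‖ ≤ v.re → 0 < v.re := by
    intro v hv hvr
    have : 0 < δ * ‖v‖ := mul_pos hδ (by linarith)
    linarith
  have hint : ∀ v : ℂ, W ≤ ‖v‖ → δ * ‖v‖ ≤ v.re → ∃ n : ℤ, D.L v = E4_M v + n * (2 * Real.pi * Complex.I) := by
    intro v hv hvr
    apply Complex.exp_eq_exp_iff_exists_int.mp
    rw [D.exp_L v (hre v hv hvr), E4_exp_M (hyf v hv hvr)]
  -- the arc
  set γ : ℝ → ℂ := fun s => (‖w‖ : ℂ) * Complex.exp (((s * w.arg : ℝ) : ℂ) * Complex.I) with hγ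
  have hγc : Continuous γ := by
    rw [hγ]
    fun_prop
  have hγn : ∀ s, ‖γ s‖ = ‖w‖ := by
    intro s
    rw [hγ]
    simp only [norm_mul, Complex.norm_exp_ofReal_mul_I, mul_one, Complex.norm_real, norm_norm]
  have hγre : ∀ s, (γ s).re = ‖w‖ * Real.cos (s * w.arg) := by
    intro s
    rw [hγ]
    simp only
    rw [Complex.re_ofReal_mul, Complex.exp_ofReal_mul_I_re]
  have harg : |w.arg| < Real.pi / 2 := Complex.abs_arg_lt_pi_div_two_iff.mpr (Or.inl (hre w hw hwr))
  have hγ1 : γ 1 = w := by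
    rw [hγ]
    simp only [one_mul]
    exact Complex.norm_mul_exp_arg_mul_I w
  have hγ0 : γ 0 = (‖w‖ : ℂ) := by
    rw [hγ]
    simp
  have hγR : ∀ s ∈ Set.uIcc (0 : ℝ) 1, δ * ‖γ s‖ ≤ (γ s).re := by
    intro s hs
    rw [Set.uIcc_of_le zero_le_one] at hs
    rw [hγn, hγre]
    have h1 : w.re = ‖w‖ * Real.cos w.arg := by
      have := hγre 1
      rw [hγ1, one_mul] at this
      exact this
    have h2 : Real.cos w.arg ≤ Real.cos (s * w.arg) := by
      rw [← Real.cos_abs w.arg, ← Real.cos_abs (s * w.arg)]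
      apply Real.cos_le_cos_of_nonneg_of_le_pi (abs_nonneg _)
      · linarith [Real.pi_pos]
      · rw [abs_mul, abs_of_nonneg hs.1]
        exact mul_le_of_le_one_left (abs_nonneg _) hs.2
    have h3 : ‖w‖ * Real.cos w.arg ≤ ‖w‖ * Real.cos (s * w.arg) := mul_le_mul_of_nonneg_left h2 hr.le
    linarith
  have hγpos : ∀ s ∈ Set.uIcc (0 : ℝ) 1, 0 < (γ s).re := fun s hs =>
    hre _ (by rw [hγn]; exact hw) (hγR s hs)
  have hyfs : ∀ s ∈ Set.uIcc (0 : ℝ) 1, ‖yf (γ s) - 1‖ ≤ 1 / 2 := fun s hs =>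
    hyf _ (by rw [hγn]; exact hw) (hγR s hs)
  set h : ℝ → ℝ := fun s => (D.L (γ s) - E4_M (γ s)).im / (2 * Real.pi) with hh
  have hint' : ∀ s ∈ Set.uIcc (0 : ℝ) 1, ∃ n : ℤ, D.L (γ s) - E4_M (γ s) = n * (2 * Real.pi * Complex.I) ∧
      h s = n := by
    intro s hs
    obtain ⟨n, hn⟩ := hint (γ s) (by rw [hγn]; exact hw) (hγR s hs)
    have h1 : D.L (γ s) - E4_M (γ s) = n * (2 * Real.pi * Complex.I) := by
      rw [hn]; ring
    refine ⟨n, h1, ?_⟩
    rw [hh]
    simp only
    rw [h1]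
    have h2 : ((n : ℂ) * (2 * Real.pi * Complex.I)).im = n * (2 * Real.pi) := by
      simp
    rw [h2]
    field_simp
  have hcont : ContinuousOn h (Set.uIcc 0 1) := by
    rw [hh]
    refine ContinuousOn.div_const ?_ _
    refine Complex.continuous_im.comp_continuousOn ?_
    refine ContinuousOn.sub ?_ ?_
    · exact D.diff.continuousOn.comp hγc.continuousOn hγpos
    · unfold E4_M
      refine ContinuousOn.add ?_ ?_
      · refine ContinuousOn.div_const ?_ _
        refine ContinuousOn.sub continuousOn_const ?_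
        intro s hs
        exact ((hγc.continuousAt).clog (E4_slit (hγpos s hs))).continuousWithinAt
      · have h1 : ContinuousOn (fun s => yf (γ s)) (Set.uIcc 0 1) :=
          E4_yf_cont.comp hγc.continuousOn hγpos
        exact h1.clog fun s hs => E4_slit (E4_re (hyfs s hs))
  have h0 : h 0 = 0 := by
    have h1 : (D.L (γ 0)).im = 0 := by
      rw [hγ0]; exact D.real_L _ hr
    have h2 : (yf (γ 0)).im = 0 := by
      have h3 := yf_conj (γ 0) (hγpos 0 Set.left_mem_uIcc)
      have h4 : (starRingEnd ℂ) (γ 0) = γ 0 := by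
        rw [hγ0]; exact Complex.conj_ofReal _
      rw [h4] at h3
      have h5 := congrArg Complex.im h3
      rw [Complex.conj_im] at h5
      linarith
    have h3 : (Complex.log (yf (γ 0))).im = 0 := by
      rw [Complex.log_im, Complex.arg_eq_zero_iff]
      exact ⟨(E4_re (hyfs 0 Set.left_mem_uIcc)).le, h2⟩
    have h4 : (E4_M (γ 0)).im = 0 := by
      unfold E4_M
      rw [Complex.add_im, h3, add_zero, hγ0, ← Complex.ofReal_log hr.le, ← Complex.ofReal_sub]
      have h5 : (((Real.log Real.pi - Real.log ‖w‖ : ℝ) : ℂ) / 2) =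
          (((Real.log Real.pi - Real.log ‖w‖) / 2 : ℝ) : ℂ) := by push_cast; ring
      rw [h5, Complex.ofReal_im]
    rw [hh]
    simp only
    rw [Complex.sub_im, h1, h4]
    simp
  obtain ⟨n, hn1, hn2⟩ := hint' 1 Set.right_mem_uIcc
  have hn0 : n = 0 := by
    by_contra hne
    have hivt := intermediate_value_uIcc hcont
    rw [h0, hn2] at hivt
    rcases lt_or_gt_of_ne hne with hneg | hpos
    · have h6 : (n : ℝ) ≤ -1 := by exact_mod_cast Int.le_sub_one_of_lt hneg
      have h5 : (-(1 / 2) : ℝ) ∈ Set.uIcc (0 : ℝ) n := by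
        rw [Set.uIcc_of_ge (by linarith)]
        constructor <;> linarith
      obtain ⟨s, hs, hs'⟩ := hivt h5
      obtain ⟨m, -, hm⟩ := hint' s hs
      rw [hm] at hs'
      have h7 : (2 * m : ℤ) = -1 := by
        have : (2 * m : ℝ) = -1 := by linarith
        exact_mod_cast this
      omega
    · have h6 : (1 : ℝ) ≤ n := by exact_mod_cast hpos
      have h5 : ((1 / 2) : ℝ) ∈ Set.uIcc (0 : ℝ) n := by
        rw [Set.uIcc_of_le (by linarith)]
        constructor <;> linarith
      obtain ⟨s, hs, hs'⟩ := hivt h5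
      obtain ⟨m, -, hm⟩ := hint' s hs
      rw [hm] at hs'
      have h7 : (2 * m : ℤ) = 1 := by
        have : (2 * m : ℝ) = 1 := by linarith
        exact_mod_cast this
      omega
  rw [hn0, hγ1] at hn1
  have h8 : D.L w = E4_M w := by
    have : D.L w - E4_M w = 0 := by rw [hn1]; simp
    exact sub_eq_zero.mp this
  rw [h8]
  rfl

end Pool.Agent.LibFR89
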