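import Mathlib
import Pool.Agent.LibFR89.DefsR
import Pool.Agent.LibFR89.A12
import Pool.Agent.LibFR89.E3
import Pool.Agent.LibFR89.E4

/-!
# Row E5 (EASY/MEDIUM): expansion of the power of the Airy function

Rows E4, A12, E3 with `y = -1/(72 w^3)`, `Y = yf w`, `x = lam`:
`exp (lam L w) = exp (lam/2 (log π - log w)) * exp (lam log (yf w))`, the first factor has norm
`(π/‖w‖)^(lam/2)`.
-/

set_option autoImplicit false

namespace Pool.Agent.LibFR89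

open MeasureTheory Filter Topology

open Pool.Agent.H69Cubic

private theorem E5_norm_y (w : ℂ) : ‖(-1 / (72 * w ^ 3) : ℂ)‖ = 1 / (72 * ‖w‖ ^ 3) := by
  rw [norm_div, norm_neg, norm_one, norm_mul, norm_pow]
  norm_num

private theorem E5_norm_E (lam : ℝ) (w : ℂ) (hw : 0 < ‖w‖) :
    ‖Complex.exp ((lam : ℂ) / 2 * ((Real.log Real.pi : ℂ) - Complex.log w))‖ =
      Real.exp (lam / 2 * Real.log Real.pi) * ‖w‖ ^ (-lam / 2) := by
  rw [Complex.norm_exp, Real.rpow_def_of_pos hw, ← Real.exp_add]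
  congr 1
  have e : ((lam : ℂ) / 2 * ((Real.log Real.pi : ℂ) - Complex.log w)) =
      ((lam / 2 : ℝ) : ℂ) * ((Real.log Real.pi : ℂ) - Complex.log w) := by
    push_cast
    ring
  rw [e, Complex.re_ofReal_mul, Complex.sub_re, Complex.ofReal_re, Complex.log_re]
  ring

theorem expL_expand (D : AL) (lam : ℝ) (δ : ℝ) (hδ : 0 < δ) (K : ℕ) (hK : 1 ≤ K) :
    ∃ C W : ℝ, 0 < C ∧ 1 ≤ W ∧ ∀ w : ℂ, W ≤ ‖w‖ → δ * ‖w‖ ≤ w.re →
    ‖Complex.exp ((lam : ℂ) * D.L w) -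
      Complex.exp ((lam : ℂ) / 2 * ((Real.log Real.pi : ℂ) - Complex.log w)) *
        se lam K (-1 / (72 * w ^ 3))‖ ≤ C * ‖w‖ ^ (-lam / 2 - 3 * (K : ℝ)) := by
  obtain ⟨W0, hW0, hL⟩ := L_eq D δ hδ
  obtain ⟨C1, hC1, hexp⟩ := yf_expand δ hδ K
  obtain ⟨C2, ε, hC2, hε, hpow⟩ := pow_series lam K hK (C1 * 72 ^ K)
  refine ⟨Real.exp (lam / 2 * Real.log Real.pi) * C2, max W0 (1 / ε),
    mul_pos (Real.exp_pos _) hC2, hW0.trans (le_max_left _ _), ?_⟩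
  intro w hw hre
  have hw0 : W0 ≤ ‖w‖ := (le_max_left _ _).trans hw
  have hwε : 1 / ε ≤ ‖w‖ := (le_max_right _ _).trans hw
  have hw1 : 1 ≤ ‖w‖ := hW0.trans hw0
  have hwp : 0 < ‖w‖ := lt_of_lt_of_le one_pos hw1
  obtain ⟨_, hLw⟩ := hL w hw0 hre
  have hy := E5_norm_y w
  have hw3 : ‖w‖ ≤ ‖w‖ ^ 3 := le_self_pow₀ hw1 (by norm_num)
  have hyε : ‖(-1 / (72 * w ^ 3) : ℂ)‖ ≤ ε := by
    rw [hy, div_le_iff₀ (by positivity)]
    rw [div_le_iff₀ hε] at hwε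
    nlinarith [mul_le_mul_of_nonneg_left hw3 hε.le, mul_pos hε hwp]
  have hyf : ‖yf w - sa K (-1 / (72 * w ^ 3))‖ ≤
      C1 * 72 ^ K * ‖(-1 / (72 * w ^ 3) : ℂ)‖ ^ K := by
    refine (hexp w hw1 hre).trans (le_of_eq ?_)
    rw [hy, div_pow, mul_pow, one_pow, ← pow_mul]
    field_simp
  have h1 := hpow _ _ hyε hyf
  have hE : Complex.exp ((lam : ℂ) * D.L w) =
      Complex.exp ((lam : ℂ) / 2 * ((Real.log Real.pi : ℂ) - Complex.log w)) *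
        Complex.exp (lam * Complex.log (yf w)) := by
    rw [← Complex.exp_add, hLw]
    congr 1
    ring
  have h2 : ‖(-1 / (72 * w ^ 3) : ℂ)‖ ^ K ≤ ‖w‖ ^ (-(3 * (K : ℝ))) := by
    have e : ‖w‖ ^ (-(3 * (K : ℝ))) = (1 / ‖w‖ ^ 3) ^ K := by
      rw [Real.rpow_neg hwp.le, one_div, inv_pow, ← pow_mul]
      congr 1
      rw [← Real.rpow_natCast]
      push_cast
      rfl
    rw [e, hy]
    refine pow_le_pow_left₀ (by positivity) ?_ K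
    refine one_div_le_one_div_of_le (by positivity) ?_
    nlinarith [pow_pos hwp 3]
  rw [hE, ← mul_sub, norm_mul, E5_norm_E lam w hwp]
  have h3 : ‖w‖ ^ (-lam / 2 - 3 * (K : ℝ)) = ‖w‖ ^ (-lam / 2) * ‖w‖ ^ (-(3 * (K : ℝ))) := by
    rw [← Real.rpow_add hwp]
    congr 1
  rw [h3]
  have h4 : ‖Complex.exp (lam * Complex.log (yf w)) - se lam K (-1 / (72 * w ^ 3))‖ ≤
      C2 * ‖w‖ ^ (-(3 * (K : ℝ))) :=
    h1.trans (mul_le_mul_of_nonneg_left h2 hC2.le)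
  have h5 : 0 ≤ Real.exp (lam / 2 * Real.log Real.pi) * ‖w‖ ^ (-lam / 2) := by positivity
  calc Real.exp (lam / 2 * Real.log Real.pi) * ‖w‖ ^ (-lam / 2) *
        ‖Complex.exp (lam * Complex.log (yf w)) - se lam K (-1 / (72 * w ^ 3))‖
      ≤ Real.exp (lam / 2 * Real.log Real.pi) * ‖w‖ ^ (-lam / 2) *
        (C2 * ‖w‖ ^ (-(3 * (K : ℝ)))) := mul_le_mul_of_nonneg_left h4 h5
    _ = Real.exp (lam / 2 * Real.log Real.pi) * C2 *
        (‖w‖ ^ (-lam / 2) * ‖w‖ ^ (-(3 * (K : ℝ)))) := by ring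

end Pool.Agent.LibFR89
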