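import Mathlib
import Pool.Agent.LibFR89.DefsR
import Pool.Agent.LibFR89.P2
import Pool.Agent.LibFR89.E5
import Pool.Agent.LibFR89.S4

/-!
# Row S6 (MEDIUM): the local integral with the expansion of the power of the Airy function inserted

`w = σ + s`, `|s| ≤ c/4 ≤ ‖σ‖/4`: `Re w ≥ 3c/4 ≥ 3‖σ‖/8 ≥ 0.3 ‖w‖`, `3/4 ‖σ‖ ≤ ‖w‖ ≤ 5/4 ‖σ‖`, and
`log w = log σ + log (1 + s/σ)` (first claim: the arguments of `σ` and `1 + s/σ` are less than
`π/2` in absolute value).  Row E5 (`δ = 3/10`):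
`(σ+s) exp (lam L w) = exp (lam/2 log π) ∑_{k<K} ee lam k (-1/72)^k exp ((1 - lam/2 - 3k) log w) + O(‖σ‖^(1-lam/2-3K))`
and `exp (ν log w) = exp (ν log σ) exp (ν log (1 + s/σ))`.
The error term is integrated against `‖exp (-lam (σ s^2 + 2/3 s^3))‖ ≤ exp (-(5/6) lam c s^2)`
(`gauss_abs_moment`, `M = 0`): `O(‖σ‖^(1-lam/2-3K-1/2))`.
-/

set_option autoImplicit false

namespace Pool.Agent.LibFR89

open MeasureTheory Filter Topology

open Pool.Agent.H69Cubic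

theorem log_add_real (σ : ℂ) (s : ℝ) (h0 : 0 < ‖σ‖) (h1 : ‖σ‖ / 2 ≤ σ.re) (h2 : |s| ≤ ‖σ‖ / 4) :
    Complex.log (σ + s) = Complex.log σ + Complex.log (1 + (s : ℂ) / σ) := by
  have hσ : σ ≠ 0 := norm_pos_iff.1 h0
  have hre : 0 < σ.re := by linarith
  have h3 : ‖(s : ℂ) / σ‖ ≤ 1 / 4 := by
    rw [norm_div, Complex.norm_real, Real.norm_eq_abs, div_le_iff₀ h0]
    linarith
  have h4 : 0 < (1 + (s : ℂ) / σ).re := by
    have h5 := (abs_le.1 ((Complex.abs_re_le_norm ((s : ℂ) / σ)).trans h3)).1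
    rw [Complex.add_re, Complex.one_re]
    linarith
  have h5 : (1 + (s : ℂ) / σ) ≠ 0 := by
    intro h
    rw [h, Complex.zero_re] at h4
    exact lt_irrefl _ h4
  have h6 := (Complex.abs_arg_lt_pi_div_two_iff.2 (Or.inl hre))
  have h7 := (Complex.abs_arg_lt_pi_div_two_iff.2 (Or.inl h4))
  rw [abs_lt] at h6 h7
  rw [← Complex.log_mul hσ h5 ⟨by linarith [h6.1, h7.1], by linarith [h6.2, h7.2]⟩]
  congr 1
  field_simp

private theorem S6_alg (lam : ℝ) (K : ℕ) (w : ℂ) (hw : w ≠ 0) :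
    w * (Complex.exp ((lam : ℂ) / 2 * ((Real.log Real.pi : ℂ) - Complex.log w)) * se lam K (-1 / (72 * w ^ 3))) =
    Complex.exp ((lam : ℂ) / 2 * (Real.log Real.pi : ℂ)) *
        ∑ k ∈ Finset.range K, (ee lam k : ℂ) * (-1 / 72) ^ k *
          Complex.exp ((1 - (lam : ℂ) / 2 - 3 * k) * Complex.log w) := by
  unfold se
  rw [Finset.mul_sum, Finset.mul_sum, Finset.mul_sum]
  apply Finset.sum_congr rfl
  intro k _
  have h2 : (w ^ 3) ^ k = Complex.exp (3 * k * Complex.log w) := by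
    conv_lhs => rw [← Complex.exp_log hw]
    rw [← Complex.exp_nat_mul, ← Complex.exp_nat_mul]
    congr 1
    push_cast
    ring
  have h3 : w = Complex.exp (Complex.log w) := (Complex.exp_log hw).symm
  have h4 : (-1 / (72 * w ^ 3)) ^ k = (-1 / 72) ^ k * Complex.exp (-(3 * k * Complex.log w)) := by
    rw [show (-1 : ℂ) / (72 * w ^ 3) = -1 / 72 * (w ^ 3)⁻¹ by field_simp, mul_pow, inv_pow, h2, Complex.exp_neg]
  have h5 : w * Complex.exp ((lam : ℂ) / 2 * ((Real.log Real.pi : ℂ) - Complex.log w)) *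
      Complex.exp (-(3 * k * Complex.log w)) = Complex.exp ((lam : ℂ) / 2 * (Real.log Real.pi : ℂ)) *
      Complex.exp ((1 - (lam : ℂ) / 2 - 3 * k) * Complex.log w) := by
    have h6 : w * Complex.exp ((lam : ℂ) / 2 * ((Real.log Real.pi : ℂ) - Complex.log w)) *
      Complex.exp (-(3 * k * Complex.log w)) = Complex.exp (Complex.log w) *
      Complex.exp ((lam : ℂ) / 2 * ((Real.log Real.pi : ℂ) - Complex.log w)) *
      Complex.exp (-(3 * k * Complex.log w)) := by rw [← h3]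
    rw [h6, ← Complex.exp_add, ← Complex.exp_add, ← Complex.exp_add]
    congr 1
    ring
  rw [h4]
  linear_combination ((ee lam k : ℂ) * (-1 / 72) ^ k) * h5

private theorem S6_norm (lam : ℝ) (hl : 0 < lam) (σ : ℂ) (s : ℝ) (hs : |s| ≤ σ.re / 4) :
    ‖Complex.exp (-(lam : ℂ) * (σ * (s : ℂ) ^ 2 + 2 / 3 * (s : ℂ) ^ 3))‖ ≤
      |s| ^ 0 * Real.exp (-(5 / 6 * lam) * σ.re * s ^ 2) := by
  rw [pow_zero, one_mul, Complex.norm_exp]
  apply Real.exp_le_exp.2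
  have h1 : -(lam : ℂ) * (σ * (s : ℂ) ^ 2 + 2 / 3 * (s : ℂ) ^ 3) =
      ((-lam * s ^ 2 : ℝ) : ℂ) * σ + ((-(2 / 3) * lam * s ^ 3 : ℝ) : ℂ) := by push_cast; ring
  rw [h1, Complex.add_re, Complex.re_ofReal_mul, Complex.ofReal_re]
  have h2 : -s ^ 3 ≤ σ.re / 4 * s ^ 2 := by
    have h3 : -s ≤ σ.re / 4 := by linarith [neg_abs_le s]
    nlinarith [mul_le_mul_of_nonneg_right h3 (sq_nonneg s)]
  nlinarith [mul_le_mul_of_nonneg_left h2 hl.le]

private theorem S6_slit (σ : ℂ) (s : ℝ) (h0 : 0 < ‖σ‖) (h2 : |s| ≤ ‖σ‖ / 4) :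
    1 + (s : ℂ) / σ ∈ Complex.slitPlane := by
  apply Complex.mem_slitPlane_of_norm_lt_one
  rw [norm_div, Complex.norm_real, Real.norm_eq_abs, div_lt_one h0]
  linarith

private theorem S6_rpow (z : ℝ) (a r : ℝ) (hr : 0 < r) (h1 : 3 / 4 * r ≤ a) (h2 : a ≤ 5 / 4 * r) :
    a ^ z ≤ ((3 / 4 : ℝ) ^ z + (5 / 4 : ℝ) ^ z) * r ^ z := by
  have ha : 0 < a := by linarith [mul_pos (show (0 : ℝ) < 3 / 4 by norm_num) hr]
  have p1 : 0 ≤ (3 / 4 : ℝ) ^ z * r ^ z := by positivity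
  have p2 : 0 ≤ (5 / 4 : ℝ) ^ z * r ^ z := by positivity
  rw [add_mul]
  rcases le_total 0 z with hz | hz
  · have h3 := Real.rpow_le_rpow ha.le h2 hz
    rw [Real.mul_rpow (by norm_num) hr.le] at h3
    linarith
  · have h3 := Real.rpow_le_rpow_of_nonpos (by positivity : 0 < 3 / 4 * r) h1 hz
    rw [Real.mul_rpow (by norm_num) hr.le] at h3
    linarith


theorem local_series (D : AL) (lam : ℝ) (hl : 0 < lam) (K : ℕ) (hK : 1 ≤ K) :
    ∃ C R : ℝ, 0 < C ∧ 1 ≤ R ∧ ∀ σ : ℂ, R ≤ ‖σ‖ → ‖σ‖ / 2 ≤ σ.re →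
    ‖(∫ s in (-(σ.re / 4))..(σ.re / 4),
        Complex.exp (-(lam : ℂ) * (σ * (s : ℂ) ^ 2 + 2 / 3 * (s : ℂ) ^ 3)) *
          ((σ + s) * Complex.exp ((lam : ℂ) * D.L (σ + s)))) -
      Complex.exp ((lam : ℂ) / 2 * (Real.log Real.pi : ℂ)) *
        ∑ k ∈ Finset.range K, (ee lam k : ℂ) * (-1 / 72) ^ k *
          (Complex.exp ((1 - (lam : ℂ) / 2 - 3 * k) * Complex.log σ) *
          ∫ s in (-(σ.re / 4))..(σ.re / 4),
            Complex.exp (-(lam : ℂ) * (σ * (s : ℂ) ^ 2 + 2 / 3 * (s : ℂ) ^ 3)) *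
              Complex.exp (((1 - lam / 2 - 3 * k : ℝ) : ℂ) * Complex.log (1 + (s : ℂ) / σ)))‖ ≤
      C * ‖σ‖ ^ ((1 - lam) / 2 - 3 * (K : ℝ)) := by
  obtain ⟨C₁, W, hC₁, hW, h₁⟩ := expL_expand D lam (3 / 10) (by norm_num) K hK
  obtain ⟨C₂, hC₂, h₂⟩ := gauss_abs_moment (5 / 6 * lam) (by positivity) 0
  set z : ℝ := 1 - lam / 2 - 3 * (K : ℝ) with hz
  set M : ℝ := (3 / 4 : ℝ) ^ z + (5 / 4 : ℝ) ^ z with hM
  have hM0 : 0 < M := by positivity
  refine ⟨C₁ * M * (C₂ * (1 / 2 : ℝ) ^ (-(((0 : ℕ) : ℝ) + 1) / 2)), 4 / 3 * W, by positivity, by linarith,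
    fun σ hR hre => ?_⟩
  have hr1 : 1 ≤ ‖σ‖ := by linarith
  have hr0 : 0 < ‖σ‖ := by linarith
  have hre0 : 0 < σ.re := by linarith
  have hre1 : σ.re ≤ ‖σ‖ := Complex.re_le_norm σ
  obtain ⟨i2, j2⟩ := h₂ σ.re hre0
  set E : ℝ → ℂ := fun s => Complex.exp (-(lam : ℂ) * (σ * (s : ℂ) ^ 2 + 2 / 3 * (s : ℂ) ^ 3)) with hE
  have hEc : Continuous E := by rw [hE]; fun_prop
  set Fk : ℕ → ℝ → ℂ := fun k s => E s *
    Complex.exp (((1 - lam / 2 - 3 * k : ℝ) : ℂ) * Complex.log (1 + (s : ℂ) / σ)) with hFk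
  set G : ℝ → ℂ := fun s => E s * ((σ + s) * Complex.exp ((lam : ℂ) * D.L (σ + s))) with hG
  have habs : ∀ s ∈ Set.Icc (-(σ.re / 4)) (σ.re / 4), |s| ≤ σ.re / 4 := fun s hs => abs_le.2 ⟨hs.1, hs.2⟩
  have hFi : ∀ k, IntervalIntegrable (Fk k) volume (-(σ.re / 4)) (σ.re / 4) := by
    intro k
    apply ContinuousOn.intervalIntegrable
    rw [Set.uIcc_of_le (by linarith)]
    apply ContinuousOn.mul hEc.continuousOn
    apply Complex.continuous_exp.comp_continuousOn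
    apply ContinuousOn.mul continuousOn_const
    apply ContinuousOn.clog (by fun_prop)
    intro s hs
    exact S6_slit σ s hr0 ((habs s hs).trans (by linarith))
  have hGi : IntervalIntegrable G volume (-(σ.re / 4)) (σ.re / 4) := by
    apply ContinuousOn.intervalIntegrable
    rw [Set.uIcc_of_le (by linarith)]
    apply ContinuousOn.mul hEc.continuousOn
    apply ContinuousOn.mul (by fun_prop)
    have h3 : ContinuousOn (fun s : ℝ => σ + (s : ℂ)) (Set.Icc (-(σ.re / 4)) (σ.re / 4)) := by fun_prop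
    refine (expL_cont D lam).comp h3 ?_
    intro s hs
    show 0 < (σ + (s : ℂ)).re
    rw [Complex.add_re, Complex.ofReal_re]
    linarith [hs.1]
  set A : ℂ := Complex.exp ((lam : ℂ) / 2 * (Real.log Real.pi : ℂ)) with hA
  set H : ℝ → ℂ := fun s => A * ∑ k ∈ Finset.range K, (ee lam k : ℂ) * (-1 / 72) ^ k *
          (Complex.exp ((1 - (lam : ℂ) / 2 - 3 * k) * Complex.log σ) * Fk k s) with hH
  have hHi : IntervalIntegrable H volume (-(σ.re / 4)) (σ.re / 4) := by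
    apply IntervalIntegrable.const_mul
    have h3 := IntervalIntegrable.sum (Finset.range K) (f := fun (k : ℕ) (s : ℝ) => (ee lam k : ℂ) * (-1 / 72) ^ k *
          (Complex.exp ((1 - (lam : ℂ) / 2 - 3 * k) * Complex.log σ) * Fk k s))
      (fun k _ => ((hFi k).const_mul _).const_mul _)
    have h4 : (∑ k ∈ Finset.range K, (fun (s : ℝ) => (ee lam k : ℂ) * (-1 / 72) ^ k *
          (Complex.exp ((1 - (lam : ℂ) / 2 - 3 * k) * Complex.log σ) * Fk k s))) =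
        fun s => ∑ k ∈ Finset.range K, (ee lam k : ℂ) * (-1 / 72) ^ k *
          (Complex.exp ((1 - (lam : ℂ) / 2 - 3 * k) * Complex.log σ) * Fk k s) := by
      funext s
      rw [Finset.sum_apply]
    rw [← h4]
    exact h3
  have hHint : ∫ s in (-(σ.re / 4))..(σ.re / 4), H s = A * ∑ k ∈ Finset.range K, (ee lam k : ℂ) * (-1 / 72) ^ k *
          (Complex.exp ((1 - (lam : ℂ) / 2 - 3 * k) * Complex.log σ) *
            ∫ s in (-(σ.re / 4))..(σ.re / 4), Fk k s) := by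
    rw [hH]
    rw [intervalIntegral.integral_const_mul, intervalIntegral.integral_finsetSum
      (fun k _ => ((hFi k).const_mul _).const_mul _)]
    congr 1
    apply Finset.sum_congr rfl
    intro k _
    rw [intervalIntegral.integral_const_mul, intervalIntegral.integral_const_mul]
  have hbd : ∀ s ∈ Set.Ioc (-(σ.re / 4)) (σ.re / 4), ‖G s - H s‖ ≤
      C₁ * (M * ‖σ‖ ^ z) * (|s| ^ 0 * Real.exp (-(5 / 6 * lam) * σ.re * s ^ 2)) := by
    intro s hs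
    have hs1 : |s| ≤ σ.re / 4 := habs s ⟨hs.1.le, hs.2⟩
    have hs2 : |s| ≤ ‖σ‖ / 4 := by linarith
    have hn : ‖(s : ℂ)‖ = |s| := by rw [Complex.norm_real, Real.norm_eq_abs]
    have hw1 : 3 / 4 * ‖σ‖ ≤ ‖σ + (s : ℂ)‖ := by
      have := norm_sub_le (σ + (s : ℂ)) (s : ℂ)
      rw [add_sub_cancel_right, hn] at this
      linarith
    have hw2 : ‖σ + (s : ℂ)‖ ≤ 5 / 4 * ‖σ‖ := by
      have := norm_add_le σ (s : ℂ)
      rw [hn] at this
      linarith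
    have hwre : 3 / 10 * ‖σ + (s : ℂ)‖ ≤ (σ + (s : ℂ)).re := by
      rw [Complex.add_re, Complex.ofReal_re]
      linarith [hs.1]
    have hw0 : 0 < ‖σ + (s : ℂ)‖ := by linarith [mul_pos (show (0 : ℝ) < 3 / 4 by norm_num) hr0]
    have h3 := h₁ (σ + s) (by linarith) hwre
    have h4 := S6_alg lam K (σ + s) (norm_pos_iff.1 hw0)
    have h5 : H s = E s * (A * ∑ k ∈ Finset.range K, (ee lam k : ℂ) * (-1 / 72) ^ k *
          Complex.exp ((1 - (lam : ℂ) / 2 - 3 * k) * Complex.log (σ + s))) := by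
      rw [hH]
      simp only [hFk]
      rw [log_add_real σ s hr0 hre hs2, Finset.mul_sum, Finset.mul_sum, Finset.mul_sum]
      apply Finset.sum_congr rfl
      intro k _
      rw [mul_add, Complex.exp_add]
      push_cast
      ring
    have h6 : G s - H s = E s * ((σ + s) * (Complex.exp ((lam : ℂ) * D.L (σ + s)) -
        Complex.exp ((lam : ℂ) / 2 * ((Real.log Real.pi : ℂ) - Complex.log (σ + s))) *
          se lam K (-1 / (72 * (σ + s) ^ 3)))) := by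
      rw [h5, ← h4]
      simp only [hG]
      ring
    rw [h6, norm_mul, norm_mul]
    have h7 := S6_norm lam hl σ s hs1
    have h8 : ‖σ + (s : ℂ)‖ * (C₁ * ‖σ + (s : ℂ)‖ ^ (-lam / 2 - 3 * (K : ℝ))) ≤ C₁ * (M * ‖σ‖ ^ z) := by
      have h9 : ‖σ + (s : ℂ)‖ * (C₁ * ‖σ + (s : ℂ)‖ ^ (-lam / 2 - 3 * (K : ℝ))) =
          C₁ * ‖σ + (s : ℂ)‖ ^ z := by
        have h10 : ‖σ + (s : ℂ)‖ ^ z = ‖σ + (s : ℂ)‖ ^ (1 : ℝ) * ‖σ + (s : ℂ)‖ ^ (-lam / 2 - 3 * (K : ℝ)) := by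
          rw [← Real.rpow_add hw0]
          congr 1
          rw [hz]; ring
        rw [h10, Real.rpow_one]
        ring
      rw [h9]
      have h11 := S6_rpow z _ _ hr0 hw1 hw2
      exact mul_le_mul_of_nonneg_left h11 hC₁.le
    calc _ ≤ (|s| ^ 0 * Real.exp (-(5 / 6 * lam) * σ.re * s ^ 2)) *
          (‖σ + (s : ℂ)‖ * (C₁ * ‖σ + (s : ℂ)‖ ^ (-lam / 2 - 3 * (K : ℝ)))) := by gcongr
      _ ≤ (|s| ^ 0 * Real.exp (-(5 / 6 * lam) * σ.re * s ^ 2)) * (C₁ * (M * ‖σ‖ ^ z)) := by gcongr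
      _ = _ := by ring
  have hfin : (∫ s in (-(σ.re / 4))..(σ.re / 4), G s) - A * ∑ k ∈ Finset.range K, (ee lam k : ℂ) * (-1 / 72) ^ k *
          (Complex.exp ((1 - (lam : ℂ) / 2 - 3 * k) * Complex.log σ) *
            ∫ s in (-(σ.re / 4))..(σ.re / 4), Fk k s) =
      ∫ s in (-(σ.re / 4))..(σ.re / 4), (G s - H s) := by
    rw [intervalIntegral.integral_sub hGi hHi, hHint]
  show ‖(∫ s in (-(σ.re / 4))..(σ.re / 4), G s) - A * ∑ k ∈ Finset.range K, (ee lam k : ℂ) * (-1 / 72) ^ k *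
          (Complex.exp ((1 - (lam : ℂ) / 2 - 3 * k) * Complex.log σ) *
            ∫ s in (-(σ.re / 4))..(σ.re / 4), Fk k s)‖ ≤ _
  rw [hfin]
  have hg0 : ∀ s : ℝ, 0 ≤ |s| ^ 0 * Real.exp (-(5 / 6 * lam) * σ.re * s ^ 2) := fun s => by positivity
  refine (intervalIntegral.norm_integral_le_of_norm_le (by linarith)
    (Filter.Eventually.of_forall hbd) (i2.const_mul _).intervalIntegrable).trans ?_
  rw [intervalIntegral.integral_const_mul, intervalIntegral.integral_of_le (by linarith)]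
  have e1 : σ.re ^ (-(((0 : ℕ) : ℝ) + 1) / 2) ≤
      (1 / 2 : ℝ) ^ (-(((0 : ℕ) : ℝ) + 1) / 2) * ‖σ‖ ^ (-(((0 : ℕ) : ℝ) + 1) / 2) := by
    rw [← Real.mul_rpow (by norm_num) hr0.le]
    apply Real.rpow_le_rpow_of_nonpos (by positivity) (by linarith)
    norm_num
  have e2 : ‖σ‖ ^ z * ‖σ‖ ^ (-(((0 : ℕ) : ℝ) + 1) / 2) = ‖σ‖ ^ ((1 - lam) / 2 - 3 * (K : ℝ)) := by
    rw [← Real.rpow_add hr0]
    congr 1
    rw [hz]
    push_cast
    ring
  calc C₁ * (M * ‖σ‖ ^ z) * ∫ s in Set.Ioc (-(σ.re / 4)) (σ.re / 4),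
        |s| ^ 0 * Real.exp (-(5 / 6 * lam) * σ.re * s ^ 2) ≤
      C₁ * (M * ‖σ‖ ^ z) * ∫ s : ℝ, |s| ^ 0 * Real.exp (-(5 / 6 * lam) * σ.re * s ^ 2) := by
        apply mul_le_mul_of_nonneg_left _ (by positivity)
        exact setIntegral_le_integral i2 (Filter.Eventually.of_forall hg0)
    _ ≤ C₁ * (M * ‖σ‖ ^ z) * (C₂ * σ.re ^ (-(((0 : ℕ) : ℝ) + 1) / 2)) := by gcongr
    _ ≤ C₁ * (M * ‖σ‖ ^ z) * (C₂ * ((1 / 2 : ℝ) ^ (-(((0 : ℕ) : ℝ) + 1) / 2) *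
          ‖σ‖ ^ (-(((0 : ℕ) : ℝ) + 1) / 2))) := by gcongr
    _ = C₁ * M * (C₂ * (1 / 2 : ℝ) ^ (-(((0 : ℕ) : ℝ) + 1) / 2)) *
          (‖σ‖ ^ z * ‖σ‖ ^ (-(((0 : ℕ) : ℝ) + 1) / 2)) := by ring
    _ = _ := by rw [e2]

end Pool.Agent.LibFR89
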