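import Mathlib
import Pool.Agent.LibFR89.DefsR

/-!
# Row S7 (MEDIUM): the double sum is the series with coefficients `RR`

`exp ((1 - lam/2 - 3k) log σ) exp ((log π - log lam - log σ)/2) exp (lam/2 log π)
  = cc lam * exp ((1 - lam)/2 log σ) * σ^(-3k)`, and
`(-1/72)^k σ^(-3k) (-1/(8 lam σ^3))^j = lam^k 9^j (-1/(72 lam σ^3))^(k+j)`.  So the double sum over
`k, j < K` is `cc lam exp (..) ∑ ee lam k * lam^k * 9^j * mm j (1 - lam/2 - 3k) * Y^(k+j)`,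
`Y = -1/(72 lam σ^3)`; the terms with `k + j < K` are `∑_{n<K} RR n lam Y^n`, the others are
`O(‖σ‖^(-3K))`.
-/

set_option autoImplicit false

namespace Pool.Agent.LibFR89

open MeasureTheory Filter Topology

open Pool.Agent.H69Cubic

private noncomputable def S7_c (lam : ℝ) (k j : ℕ) : ℝ :=
  ee lam k * lam ^ k * 9 ^ j * mm j (1 - lam / 2 - 3 * k)

private theorem S7_sr (lam : ℝ) (K : ℕ) (Y : ℂ) :
    sr lam K Y = ∑ p ∈ ((Finset.range K ×ˢ Finset.range K).filter fun p => p.1 + p.2 < K),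
      (S7_c lam p.1 p.2 : ℂ) * Y ^ (p.1 + p.2) := by
  unfold sr
  rw [← Finset.sum_fiberwise_of_maps_to (s := (Finset.range K ×ˢ Finset.range K).filter
    fun p => p.1 + p.2 < K) (t := Finset.range K) (g := fun p => p.1 + p.2)
    (fun p hp => Finset.mem_range.mpr (Finset.mem_filter.mp hp).2)]
  refine Finset.sum_congr rfl fun n hn => ?_
  have hn' : n < K := Finset.mem_range.mp hn
  have hset : ((Finset.range K ×ˢ Finset.range K).filter fun p => p.1 + p.2 < K).filter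
      (fun p => p.1 + p.2 = n) = Finset.HasAntidiagonal.antidiagonal n := by
    ext ⟨a, b⟩
    simp only [Finset.mem_filter, Finset.mem_product, Finset.mem_range,
      Finset.HasAntidiagonal.mem_antidiagonal]
    omega
  rw [hset]
  have h1 : ∀ p ∈ Finset.HasAntidiagonal.antidiagonal n, (S7_c lam p.1 p.2 : ℂ) * Y ^ (p.1 + p.2) =
      (S7_c lam p.1 p.2 : ℂ) * Y ^ n := by
    intro p hp
    rw [Finset.HasAntidiagonal.mem_antidiagonal] at hp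
    rw [hp]
  rw [Finset.sum_congr rfl h1, ← Finset.sum_mul]
  congr 1
  rw [Finset.Nat.sum_antidiagonal_eq_sum_range_succ (fun a b => (S7_c lam a b : ℂ)) n]
  unfold RR
  push_cast
  refine Finset.sum_congr rfl fun k _ => ?_
  unfold S7_c
  push_cast
  ring

private theorem S7_term (lam : ℝ) (hl : 0 < lam) (σ : ℂ) (hσ : σ ≠ 0) (K k : ℕ) :
    Complex.exp ((lam : ℂ) / 2 * (Real.log Real.pi : ℂ)) * ((ee lam k : ℂ) * (-1 / 72) ^ k *
          (Complex.exp ((1 - (lam : ℂ) / 2 - 3 * k) * Complex.log σ) *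
          (Complex.exp (((Real.log Real.pi : ℂ) - (Real.log lam : ℂ) - Complex.log σ) / 2) *
            sm (1 - lam / 2 - 3 * k) K (-1 / (8 * (lam : ℂ) * σ ^ 3))))) =
      Complex.exp ((1 - (lam : ℂ)) / 2 * Complex.log σ) * (cc lam : ℂ) *
        ∑ j ∈ Finset.range K, (S7_c lam k j : ℂ) * (-1 / (72 * (lam : ℂ) * σ ^ 3)) ^ (k + j) := by
  have hlc : (lam : ℂ) ≠ 0 := by exact_mod_cast hl.ne'
  have hexp : Complex.exp ((lam : ℂ) / 2 * (Real.log Real.pi : ℂ)) *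
      (Complex.exp ((1 - (lam : ℂ) / 2 - 3 * k) * Complex.log σ) *
      Complex.exp (((Real.log Real.pi : ℂ) - (Real.log lam : ℂ) - Complex.log σ) / 2)) =
      Complex.exp ((1 - (lam : ℂ)) / 2 * Complex.log σ) * (cc lam : ℂ) * (σ ^ (3 * k))⁻¹ := by
    have h1 : (σ ^ (3 * k))⁻¹ = Complex.exp (-(((3 * k : ℕ) : ℂ) * Complex.log σ)) := by
      rw [Complex.exp_neg, Complex.exp_nat_mul, Complex.exp_log hσ]
    rw [h1]
    unfold cc
    rw [Complex.ofReal_exp, ← Complex.exp_add, ← Complex.exp_add, ← Complex.exp_add,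
      ← Complex.exp_add]
    congr 1
    push_cast
    ring
  have hsm : sm (1 - lam / 2 - 3 * k) K (-1 / (8 * (lam : ℂ) * σ ^ 3)) =
      ∑ j ∈ Finset.range K, (mm j (1 - lam / 2 - 3 * k) : ℂ) *
        (-1 / (8 * (lam : ℂ) * σ ^ 3)) ^ j := rfl
  calc _ = (Complex.exp ((lam : ℂ) / 2 * (Real.log Real.pi : ℂ)) *
      (Complex.exp ((1 - (lam : ℂ) / 2 - 3 * k) * Complex.log σ) *
      Complex.exp (((Real.log Real.pi : ℂ) - (Real.log lam : ℂ) - Complex.log σ) / 2))) *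
      ((ee lam k : ℂ) * (-1 / 72) ^ k * sm (1 - lam / 2 - 3 * k) K
        (-1 / (8 * (lam : ℂ) * σ ^ 3))) := by ring
    _ = _ := by
      rw [hexp, hsm, mul_assoc, Finset.mul_sum, Finset.mul_sum]
      congr 1
      refine Finset.sum_congr rfl fun j _ => ?_
      unfold S7_c
      push_cast
      have h2 : ((-1 : ℂ) / (72 * (lam : ℂ) * σ ^ 3)) ^ (k + j) =
          (-1 / 72) ^ k * (σ ^ (3 * k))⁻¹ * ((lam : ℂ) ^ k)⁻¹ *
            ((9 : ℂ) ^ j)⁻¹ * (-1 / (8 * (lam : ℂ) * σ ^ 3)) ^ j := by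
        have h3 : ((-1 : ℂ) / (72 * (lam : ℂ) * σ ^ 3)) ^ k =
            (-1 / 72) ^ k * (σ ^ (3 * k))⁻¹ * ((lam : ℂ) ^ k)⁻¹ := by
          have h7 : (-1 : ℂ) / (72 * (lam : ℂ) * σ ^ 3) = (-1 / 72) * (σ ^ 3)⁻¹ * (lam : ℂ)⁻¹ := by
            field_simp
          rw [h7, mul_pow, mul_pow, inv_pow, inv_pow, ← pow_mul]
        have h4 : ((-1 : ℂ) / (72 * (lam : ℂ) * σ ^ 3)) ^ j =
            ((9 : ℂ) ^ j)⁻¹ * (-1 / (8 * (lam : ℂ) * σ ^ 3)) ^ j := by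
          rw [← inv_pow, ← mul_pow]
          congr 1
          field_simp
          norm_num
        rw [pow_add, h3, h4]
        ring
      rw [h2]
      have h5 : ((lam : ℂ) ^ k) * ((lam : ℂ) ^ k)⁻¹ = 1 :=
        mul_inv_cancel₀ (pow_ne_zero _ hlc)
      have h6 : ((9 : ℂ) ^ j) * ((9 : ℂ) ^ j)⁻¹ = 1 :=
        mul_inv_cancel₀ (pow_ne_zero _ (by norm_num))
      linear_combination (-(σ ^ (3 * k))⁻¹ * (ee lam k : ℂ) * (-1 / 72) ^ k *
        (mm j (1 - lam / 2 - 3 * k) : ℂ) * (-1 / (8 * (lam : ℂ) * σ ^ 3)) ^ j) *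
        (h5 * ((9 : ℂ) ^ j * ((9 : ℂ) ^ j)⁻¹) + h6)


theorem RR_sum (lam : ℝ) (hl : 0 < lam) (K : ℕ) : ∃ C : ℝ, 0 < C ∧ ∀ σ : ℂ, 1 ≤ ‖σ‖ →
    ‖Complex.exp ((lam : ℂ) / 2 * (Real.log Real.pi : ℂ)) *
        ∑ k ∈ Finset.range K, (ee lam k : ℂ) * (-1 / 72) ^ k *
          (Complex.exp ((1 - (lam : ℂ) / 2 - 3 * k) * Complex.log σ) *
          (Complex.exp (((Real.log Real.pi : ℂ) - (Real.log lam : ℂ) - Complex.log σ) / 2) *
            sm (1 - lam / 2 - 3 * k) K (-1 / (8 * (lam : ℂ) * σ ^ 3)))) -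
      Complex.exp ((1 - (lam : ℂ)) / 2 * Complex.log σ) * (cc lam : ℂ) *
        sr lam K (-1 / (72 * (lam : ℂ) * σ ^ 3))‖ ≤ C * ‖σ‖ ^ ((1 - lam) / 2 - 3 * (K : ℝ)) := by
  classical
  set S := (Finset.range K ×ˢ Finset.range K) with hS
  set M : ℝ := ∑ p ∈ S, |S7_c lam p.1 p.2| * (1 / (72 * lam)) ^ (p.1 + p.2) with hM
  have hM0 : 0 ≤ M := Finset.sum_nonneg fun p _ => by positivity
  have hcc : 0 < cc lam := Real.exp_pos _
  refine ⟨cc lam * M + 1, by positivity, fun σ hσ => ?_⟩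
  have hσ0 : σ ≠ 0 := by
    rintro rfl
    rw [norm_zero] at hσ
    linarith
  have hσp : 0 < ‖σ‖ := lt_of_lt_of_le one_pos hσ
  rw [Finset.mul_sum, Finset.sum_congr rfl fun k _ => S7_term lam hl σ hσ0 K k,
    ← Finset.mul_sum, ← mul_sub, norm_mul, norm_mul]
  set Y : ℂ := -1 / (72 * (lam : ℂ) * σ ^ 3) with hY
  have hprod : ∑ k ∈ Finset.range K, ∑ j ∈ Finset.range K, (S7_c lam k j : ℂ) * Y ^ (k + j) =
      ∑ p ∈ S, (S7_c lam p.1 p.2 : ℂ) * Y ^ (p.1 + p.2) := by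
    rw [hS, Finset.sum_product]
  rw [hprod, S7_sr, ← Finset.sum_filter_add_sum_filter_not S (fun p => p.1 + p.2 < K),
    add_sub_cancel_left]
  have hYn : ‖Y‖ = 1 / (72 * lam) * (‖σ‖ ^ 3)⁻¹ := by
    rw [hY, norm_div, norm_neg, norm_one, norm_mul, norm_mul, norm_pow, Complex.norm_real,
      Real.norm_eq_abs, abs_of_pos hl]
    have : ‖(72 : ℂ)‖ = 72 := by norm_num
    rw [this]
    field_simp
  have hE : ‖Complex.exp ((1 - (lam : ℂ)) / 2 * Complex.log σ)‖ = ‖σ‖ ^ ((1 - lam) / 2) := by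
    rw [Complex.norm_exp]
    have h1 : ((1 - (lam : ℂ)) / 2 * Complex.log σ).re = Real.log ‖σ‖ * ((1 - lam) / 2) := by
      have h2 : (1 - (lam : ℂ)) / 2 = (((1 - lam) / 2 : ℝ) : ℂ) := by push_cast; ring
      rw [h2, Complex.re_ofReal_mul, Complex.log_re]
      ring
    rw [h1, Real.rpow_def_of_pos hσp]
  have hccn : ‖(cc lam : ℂ)‖ = cc lam := by
    rw [Complex.norm_real, Real.norm_eq_abs, abs_of_pos hcc]
  have hK : ‖σ‖ ^ (-3 * (K : ℝ)) = ((‖σ‖ ^ 3)⁻¹) ^ K := by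
    rw [neg_mul, Real.rpow_neg hσp.le, inv_pow, ← pow_mul]
    congr 1
    rw [← Real.rpow_natCast]
    push_cast
    rfl
  have hinv1 : (‖σ‖ ^ 3)⁻¹ ≤ 1 := inv_le_one_of_one_le₀ (one_le_pow₀ hσ)
  have hinv0 : 0 ≤ (‖σ‖ ^ 3)⁻¹ := by positivity
  have hsum : ‖∑ p ∈ S.filter (fun p => ¬ p.1 + p.2 < K),
      (S7_c lam p.1 p.2 : ℂ) * Y ^ (p.1 + p.2)‖ ≤ M * ((‖σ‖ ^ 3)⁻¹) ^ K := by
    refine (norm_sum_le _ _).trans ?_
    rw [hM, Finset.sum_mul]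
    refine (Finset.sum_le_sum (g := fun p => |S7_c lam p.1 p.2| * (1 / (72 * lam)) ^ (p.1 + p.2) *
      ((‖σ‖ ^ 3)⁻¹) ^ K) fun p hp => ?_).trans
      (Finset.sum_le_sum_of_subset_of_nonneg (Finset.filter_subset _ _) fun p _ _ => by
        positivity)
    rw [Finset.mem_filter, not_lt] at hp
    rw [norm_mul, norm_pow, Complex.norm_real, Real.norm_eq_abs, hYn, mul_pow, ← mul_assoc]
    refine mul_le_mul_of_nonneg_left ?_ (by positivity)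
    exact pow_le_pow_of_le_one hinv0 hinv1 hp.2
  rw [hE, hccn]
  have hsplit : ‖σ‖ ^ ((1 - lam) / 2 - 3 * (K : ℝ)) =
      ‖σ‖ ^ ((1 - lam) / 2) * ((‖σ‖ ^ 3)⁻¹) ^ K := by
    rw [← hK, ← Real.rpow_add hσp]
    congr 1
    ring
  rw [hsplit]
  have hpos : 0 ≤ ‖σ‖ ^ ((1 - lam) / 2) := Real.rpow_nonneg hσp.le _
  calc ‖σ‖ ^ ((1 - lam) / 2) * cc lam * ‖∑ p ∈ S.filter (fun p => ¬ p.1 + p.2 < K),
      (S7_c lam p.1 p.2 : ℂ) * Y ^ (p.1 + p.2)‖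
      ≤ ‖σ‖ ^ ((1 - lam) / 2) * cc lam * (M * ((‖σ‖ ^ 3)⁻¹) ^ K) :=
        mul_le_mul_of_nonneg_left hsum (by positivity)
    _ = (cc lam * M) * (‖σ‖ ^ ((1 - lam) / 2) * ((‖σ‖ ^ 3)⁻¹) ^ K) := by ring
    _ ≤ (cc lam * M + 1) * (‖σ‖ ^ ((1 - lam) / 2) * ((‖σ‖ ^ 3)⁻¹) ^ K) := by
        refine mul_le_mul_of_nonneg_right (by linarith) (by positivity)

end Pool.Agent.LibFR89
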