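import Mathlib
import Pool.Agent.LibFR89.DefsR
import Pool.Agent.LibFR89.S5
import Pool.Agent.LibFR89.S6
import Pool.Agent.LibFR89.S7

/-!
# Row S8 (EASY): the local integral

Rows S6, S5 (for `ν = 1 - lam/2 - 3k`, `k < K`; the factor `exp ((1 - lam/2 - 3k) log σ)` has norm
`‖σ‖^(1 - lam/2 - 3k) ≤ ‖σ‖^(1 - lam/2)`), S7; triangle inequality.
-/

set_option autoImplicit false

namespace Pool.Agent.LibFR89

open MeasureTheory Filter Topology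

open Pool.Agent.H69Cubic

private theorem S8_mid (K : ℕ) (E : ℂ) (a x J G : ℕ → ℂ) (b : ℕ → ℝ) (X : ℝ)
    (h : ∀ k ∈ Finset.range K, ‖x k‖ * ‖J k - G k‖ ≤ b k * X) :
    ‖E * ∑ k ∈ Finset.range K, a k * (x k * J k) - E * ∑ k ∈ Finset.range K, a k * (x k * G k)‖ ≤
      (‖E‖ * ∑ k ∈ Finset.range K, ‖a k‖ * b k) * X := by
  rw [← mul_sub, ← Finset.sum_sub_distrib, norm_mul, mul_assoc, Finset.sum_mul]
  refine mul_le_mul_of_nonneg_left ?_ (norm_nonneg _)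
  refine (norm_sum_le _ _).trans (Finset.sum_le_sum fun k hk => ?_)
  have e : a k * (x k * J k) - a k * (x k * G k) = a k * (x k * (J k - G k)) := by ring
  rw [e, norm_mul, norm_mul, mul_assoc]
  exact mul_le_mul_of_nonneg_left (h k hk) (norm_nonneg _)

private theorem S8_exp (lam : ℝ) (k : ℕ) (σ : ℂ) (h1 : 1 ≤ ‖σ‖) :
    ‖Complex.exp ((1 - (lam : ℂ) / 2 - 3 * k) * Complex.log σ)‖ ≤ ‖σ‖ ^ (1 - lam / 2) := by
  have e : (1 - (lam : ℂ) / 2 - 3 * k) = ((1 - lam / 2 - 3 * (k : ℝ) : ℝ) : ℂ) := by push_cast; ring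
  have h0 : 0 < ‖σ‖ := by linarith
  rw [e, Complex.norm_exp, Complex.re_ofReal_mul, Complex.log_re, mul_comm, ← Real.rpow_def_of_pos h0]
  apply Real.rpow_le_rpow_of_exponent_le h1
  have : (0 : ℝ) ≤ (k : ℝ) := Nat.cast_nonneg k
  linarith

theorem local_expand (D : AL) (lam : ℝ) (hl : 0 < lam) (K : ℕ) (hK : 1 ≤ K) :
    ∃ C R : ℝ, 0 < C ∧ 1 ≤ R ∧ ∀ σ : ℂ, R ≤ ‖σ‖ → ‖σ‖ / 2 ≤ σ.re →
    ‖(∫ s in (-(σ.re / 4))..(σ.re / 4),
        Complex.exp (-(lam : ℂ) * (σ * (s : ℂ) ^ 2 + 2 / 3 * (s : ℂ) ^ 3)) *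
          ((σ + s) * Complex.exp ((lam : ℂ) * D.L (σ + s)))) -
      Complex.exp ((1 - (lam : ℂ)) / 2 * Complex.log σ) * (cc lam : ℂ) *
        sr lam K (-1 / (72 * (lam : ℂ) * σ ^ 3))‖ ≤ C * ‖σ‖ ^ ((1 - lam) / 2 - 3 * (K : ℝ)) := by
  obtain ⟨C1, R1, hC1, hR1, h6⟩ := local_series D lam hl K hK
  choose C5 hC5 h5 using fun k : ℕ => Gloc_expand lam (1 - lam / 2 - 3 * (k : ℝ)) hl K
  obtain ⟨C7, hC7, h7⟩ := RR_sum lam hl K
  have hS : 0 ≤ ‖Complex.exp ((lam : ℂ) / 2 * (Real.log Real.pi : ℂ))‖ *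
      ∑ k ∈ Finset.range K, ‖(ee lam k : ℂ) * (-1 / 72) ^ k‖ * C5 k :=
    mul_nonneg (norm_nonneg _) (Finset.sum_nonneg fun k _ => mul_nonneg (norm_nonneg _) (hC5 k).le)
  refine ⟨C1 + (‖Complex.exp ((lam : ℂ) / 2 * (Real.log Real.pi : ℂ))‖ *
      ∑ k ∈ Finset.range K, ‖(ee lam k : ℂ) * (-1 / 72) ^ k‖ * C5 k) + C7, R1, by linarith, hR1, ?_⟩
  intro σ hσ hre
  have h1 : 1 ≤ ‖σ‖ := hR1.trans hσ
  have h0 : 0 < ‖σ‖ := by linarith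
  have e1 := h6 σ hσ hre
  have e2 := h7 σ h1
  have e3 := S8_mid K (Complex.exp ((lam : ℂ) / 2 * (Real.log Real.pi : ℂ)))
    (fun k => (ee lam k : ℂ) * (-1 / 72) ^ k) (fun k => Complex.exp ((1 - (lam : ℂ) / 2 - 3 * k) * Complex.log σ))
    (fun k => ∫ s in (-(σ.re / 4))..(σ.re / 4),
            Complex.exp (-(lam : ℂ) * (σ * (s : ℂ) ^ 2 + 2 / 3 * (s : ℂ) ^ 3)) *
              Complex.exp (((1 - lam / 2 - 3 * k : ℝ) : ℂ) * Complex.log (1 + (s : ℂ) / σ)))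
    (fun k => Complex.exp (((Real.log Real.pi : ℂ) - (Real.log lam : ℂ) - Complex.log σ) / 2) *
            sm (1 - lam / 2 - 3 * k) K (-1 / (8 * (lam : ℂ) * σ ^ 3)))
    C5 (‖σ‖ ^ ((1 - lam) / 2 - 3 * (K : ℝ))) (by
      intro k _
      have f1 := S8_exp lam k σ h1
      have f2 := h5 k σ h1 hre
      have f3 : ‖σ‖ ^ ((1 - lam) / 2 - 3 * (K : ℝ)) = ‖σ‖ ^ (1 - lam / 2) * ‖σ‖ ^ (-(1 / 2) - 3 * (K : ℝ)) := by
        rw [← Real.rpow_add h0]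
        congr 1
        ring
      calc _ ≤ ‖σ‖ ^ (1 - lam / 2) * (C5 k * ‖σ‖ ^ (-(1 / 2) - 3 * (K : ℝ))) :=
            mul_le_mul f1 f2 (norm_nonneg _) (Real.rpow_nonneg h0.le _)
        _ = C5 k * ‖σ‖ ^ ((1 - lam) / 2 - 3 * (K : ℝ)) := by rw [f3]; ring)
  refine (norm_sub_le_norm_sub_add_norm_sub _ _ _).trans ((add_le_add e1
    ((norm_sub_le_norm_sub_add_norm_sub _ _ _).trans (add_le_add e3 e2))).trans ?_)
  have e4 : ∀ x y z X : ℝ, x * X + (y * X + z * X) = (x + y + z) * X := by intros; ring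
  rw [e4]

end Pool.Agent.LibFR89
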