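import Mathlib
import Pool.Agent.LibFR89.Defs
import Pool.Agent.LibFR89.P2
import Pool.Agent.LibFR89.S4

/-!
# Row S9 (MEDIUM): the tails on the horizontal line

`‖σ + s‖ ‖exp (lam L (σ + s))‖ ≤ (‖σ‖ + |s|) (π / (c + s))^(lam/2)` (`expL_norm_le`), `c + s ≥ c/4`.
For `s ≥ c/4`: `‖exp (-lam (σ s^2 + 2/3 s^3))‖ ≤ exp (-lam c s^2)`; for `-3c/4 ≤ s ≤ -c/4`:
`-lam (c s^2 + 2/3 s^3) = -lam s^2 (c - 2/3 |s|) ≤ -lam c s^2/2`.  `gauss_tail` (with `lam/2`), and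
`‖σ‖ ≤ 2 c`; polynomial factors are absorbed (`exp_cube_le`-like, make `c2` smaller).
-/

set_option autoImplicit false

namespace Pool.Agent.LibFR89

open MeasureTheory Filter Topology

/-- the integrand of the horizontal line -/
private noncomputable def S9_F (D : AL) (lam : ℝ) (σ : ℂ) (s : ℝ) : ℂ :=
  Complex.exp (-(lam : ℂ) * (σ * (s : ℂ) ^ 2 + 2 / 3 * (s : ℂ) ^ 3)) *
    ((σ + s) * Complex.exp ((lam : ℂ) * D.L (σ + s)))

private theorem S9_cont (D : AL) (lam : ℝ) (σ : ℂ) (hc : 0 < σ.re) :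
    ContinuousOn (S9_F D lam σ) (Set.Ioi (-(3 / 4 * σ.re))) := by
  have h1 : Continuous (fun s : ℝ => σ + (s : ℂ)) := continuous_const.add Complex.continuous_ofReal
  have h2 : ContinuousOn (fun s : ℝ => Complex.exp ((lam : ℂ) * D.L (σ + s)))
      (Set.Ioi (-(3 / 4 * σ.re))) := by
    refine (expL_cont D lam).comp h1.continuousOn ?_
    intro s hs
    have hs' : -(3 / 4 * σ.re) < s := hs
    show 0 < (σ + (s : ℂ)).re
    rw [Complex.add_re, Complex.ofReal_re]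
    linarith
  have h3 : Continuous (fun s : ℝ =>
      Complex.exp (-(lam : ℂ) * (σ * (s : ℂ) ^ 2 + 2 / 3 * (s : ℂ) ^ 3))) := by
    fun_prop
  exact h3.continuousOn.mul (h1.continuousOn.mul h2)

private theorem S9_bound (D : AL) (lam : ℝ) (hl : 0 < lam) (σ : ℂ) (hr : 1 ≤ ‖σ‖)
    (hc : ‖σ‖ / 2 ≤ σ.re) (s : ℝ) (hs : -(3 / 4 * σ.re) < s) :
    ‖S9_F D lam σ s‖ ≤ (8 * Real.pi) ^ (lam / 2) * ((‖σ‖ + |s|) *
      Real.exp (-(lam / 2) * σ.re * s ^ 2)) := by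
  have hc0 : 1 / 2 ≤ σ.re := by linarith
  have hre : 0 < (σ + (s : ℂ)).re := by
    rw [Complex.add_re, Complex.ofReal_re]
    linarith
  have h1 := expL_norm_le D lam hl.le (σ + (s : ℂ)) hre
  have h2 : (Real.pi / (σ + (s : ℂ)).re) ^ (lam / 2) ≤ (8 * Real.pi) ^ (lam / 2) := by
    apply Real.rpow_le_rpow (div_nonneg Real.pi_pos.le hre.le) _ (by linarith)
    rw [div_le_iff₀ hre, Complex.add_re, Complex.ofReal_re]
    have h3 : 1 ≤ 8 * (σ.re + s) := by linarith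
    nlinarith [Real.pi_pos]
  have h4 : ‖σ + (s : ℂ)‖ ≤ ‖σ‖ + |s| := by
    refine (norm_add_le _ _).trans ?_
    rw [Complex.norm_real, Real.norm_eq_abs]
  have h5 : ‖Complex.exp (-(lam : ℂ) * (σ * (s : ℂ) ^ 2 + 2 / 3 * (s : ℂ) ^ 3))‖ ≤
      Real.exp (-(lam / 2) * σ.re * s ^ 2) := by
    rw [Complex.norm_exp]
    apply Real.exp_le_exp.2
    have h6 : (-(lam : ℂ) * (σ * (s : ℂ) ^ 2 + 2 / 3 * (s : ℂ) ^ 3)).re =
        -lam * (σ.re * s ^ 2 + 2 / 3 * s ^ 3) := by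
      have h7 : -(lam : ℂ) * (σ * (s : ℂ) ^ 2 + 2 / 3 * (s : ℂ) ^ 3) =
          ((-lam : ℝ) : ℂ) * (σ * ((s ^ 2 : ℝ) : ℂ) + ((2 / 3 * s ^ 3 : ℝ) : ℂ)) := by
        push_cast
        ring
      rw [h7, Complex.re_ofReal_mul, Complex.add_re, Complex.re_mul_ofReal, Complex.ofReal_re]
    rw [h6]
    have h8 : σ.re / 2 * s ^ 2 ≤ σ.re * s ^ 2 + 2 / 3 * s ^ 3 := by
      nlinarith [mul_nonneg (sq_nonneg s) (by linarith : (0:ℝ) ≤ s + 3 / 4 * σ.re)]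
    nlinarith [mul_le_mul_of_nonneg_left h8 hl.le]
  have hK : 0 ≤ (8 * Real.pi) ^ (lam / 2) := Real.rpow_nonneg (by positivity) _
  unfold S9_F
  rw [norm_mul, norm_mul]
  calc ‖Complex.exp (-(lam : ℂ) * (σ * (s : ℂ) ^ 2 + 2 / 3 * (s : ℂ) ^ 3))‖ *
        (‖σ + (s : ℂ)‖ * ‖Complex.exp ((lam : ℂ) * D.L (σ + s))‖)
      ≤ Real.exp (-(lam / 2) * σ.re * s ^ 2) * ((‖σ‖ + |s|) * (8 * Real.pi) ^ (lam / 2)) :=
        mul_le_mul h5 (mul_le_mul h4 (h1.trans h2) (norm_nonneg _) (by positivity))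
          (by positivity) (Real.exp_pos _).le
    _ = _ := by ring

theorem tail_hor (D : AL) (lam : ℝ) (hl : 0 < lam) : ∃ C c2 R : ℝ, 0 < C ∧ 0 < c2 ∧ 1 ≤ R ∧
    ∀ σ : ℂ, R ≤ ‖σ‖ → ‖σ‖ / 2 ≤ σ.re →
    ‖(∫ s in Set.Ioi (-(3 / 4 * σ.re)),
        Complex.exp (-(lam : ℂ) * (σ * (s : ℂ) ^ 2 + 2 / 3 * (s : ℂ) ^ 3)) *
          ((σ + s) * Complex.exp ((lam : ℂ) * D.L (σ + s)))) -
      ∫ s in (-(σ.re / 4))..(σ.re / 4),
        Complex.exp (-(lam : ℂ) * (σ * (s : ℂ) ^ 2 + 2 / 3 * (s : ℂ) ^ 3)) *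
          ((σ + s) * Complex.exp ((lam : ℂ) * D.L (σ + s)))‖ ≤ C * Real.exp (-c2 * ‖σ‖ ^ 3) := by
  obtain ⟨C, c2, hC, hc2, hG⟩ := gauss_tail (lam / 2) (by linarith) 1
  have hKp : 0 < (8 * Real.pi) ^ (lam / 2) := Real.rpow_pos_of_pos (by positivity) _
  refine ⟨9 * (8 * Real.pi) ^ (lam / 2) * C, c2, 1, by positivity, hc2, le_rfl, ?_⟩
  intro σ hr hc
  obtain ⟨hint, htail⟩ := hG ‖σ‖ σ.re hr hc
  have hc0 : 1 / 2 ≤ σ.re := by linarith
  rw [integrableOn_univ] at hint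
  show ‖(∫ s in Set.Ioi (-(3 / 4 * σ.re)), S9_F D lam σ s) -
      ∫ s in (-(σ.re / 4))..(σ.re / 4), S9_F D lam σ s‖ ≤ _
  -- integrability
  have hFint : IntegrableOn (S9_F D lam σ) (Set.Ioi (-(3 / 4 * σ.re))) := by
    have h1 : Integrable (fun s : ℝ => (8 * Real.pi) ^ (lam / 2) * ‖σ‖ *
        ((1 + |s|) ^ 1 * Real.exp (-(lam / 2) * σ.re * s ^ 2))) := hint.const_mul _
    refine Integrable.mono' h1.integrableOn
      ((S9_cont D lam σ (by linarith)).aestronglyMeasurable measurableSet_Ioi) ?_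
    refine (ae_restrict_iff' measurableSet_Ioi).2 (Filter.Eventually.of_forall ?_)
    intro s hs
    refine (S9_bound D lam hl σ hr hc s hs).trans ?_
    have h2 : ‖σ‖ + |s| ≤ ‖σ‖ * (1 + |s|) := by nlinarith [abs_nonneg s]
    have h3 : 0 ≤ Real.exp (-(lam / 2) * σ.re * s ^ 2) := (Real.exp_pos _).le
    calc (8 * Real.pi) ^ (lam / 2) * ((‖σ‖ + |s|) * Real.exp (-(lam / 2) * σ.re * s ^ 2))
        ≤ (8 * Real.pi) ^ (lam / 2) * ((‖σ‖ * (1 + |s|)) *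
            Real.exp (-(lam / 2) * σ.re * s ^ 2)) :=
          mul_le_mul_of_nonneg_left (mul_le_mul_of_nonneg_right h2 h3) hKp.le
      _ = _ := by ring
  rw [intervalIntegral.integral_of_le (by linarith)]
  have hsub : Set.Ioc (-(σ.re / 4)) (σ.re / 4) ⊆ Set.Ioi (-(3 / 4 * σ.re)) := by
    intro s hs
    have := hs.1
    show -(3 / 4 * σ.re) < s
    linarith
  rw [← setIntegral_sdiff measurableSet_Ioc hFint hsub]
  have hSm : MeasurableSet (Set.Ioi (-(3 / 4 * σ.re)) \ Set.Ioc (-(σ.re / 4)) (σ.re / 4)) :=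
    measurableSet_Ioi.diff measurableSet_Ioc
  have hST : Set.Ioi (-(3 / 4 * σ.re)) \ Set.Ioc (-(σ.re / 4)) (σ.re / 4) ⊆
      {s : ℝ | σ.re / 4 ≤ |s|} := by
    intro s hs
    show σ.re / 4 ≤ |s|
    by_contra hcon
    rw [not_le, abs_lt] at hcon
    exact hs.2 ⟨hcon.1, hcon.2.le⟩
  have hGint : Integrable (fun s : ℝ => 9 * (8 * Real.pi) ^ (lam / 2) *
      ((1 + |s|) ^ 1 * Real.exp (-(lam / 2) * σ.re * s ^ 2))) := hint.const_mul _
  have h1 : ‖∫ s in Set.Ioi (-(3 / 4 * σ.re)) \ Set.Ioc (-(σ.re / 4)) (σ.re / 4), S9_F D lam σ s‖ ≤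
      ∫ s in Set.Ioi (-(3 / 4 * σ.re)) \ Set.Ioc (-(σ.re / 4)) (σ.re / 4),
        9 * (8 * Real.pi) ^ (lam / 2) *
          ((1 + |s|) ^ 1 * Real.exp (-(lam / 2) * σ.re * s ^ 2)) := by
    refine norm_integral_le_of_norm_le hGint.integrableOn ?_
    refine (ae_restrict_iff' hSm).2 (Filter.Eventually.of_forall ?_)
    intro s hs
    refine (S9_bound D lam hl σ hr hc s hs.1).trans ?_
    have h2 : σ.re / 4 ≤ |s| := hST hs
    have h3 : ‖σ‖ + |s| ≤ 9 * (1 + |s|) := by linarith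
    have h4 : 0 ≤ Real.exp (-(lam / 2) * σ.re * s ^ 2) := (Real.exp_pos _).le
    calc (8 * Real.pi) ^ (lam / 2) * ((‖σ‖ + |s|) * Real.exp (-(lam / 2) * σ.re * s ^ 2))
        ≤ (8 * Real.pi) ^ (lam / 2) * ((9 * (1 + |s|)) *
            Real.exp (-(lam / 2) * σ.re * s ^ 2)) :=
          mul_le_mul_of_nonneg_left (mul_le_mul_of_nonneg_right h3 h4) hKp.le
      _ = _ := by ring
  refine h1.trans ?_
  have h2 : ∫ s in Set.Ioi (-(3 / 4 * σ.re)) \ Set.Ioc (-(σ.re / 4)) (σ.re / 4),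
        9 * (8 * Real.pi) ^ (lam / 2) *
          ((1 + |s|) ^ 1 * Real.exp (-(lam / 2) * σ.re * s ^ 2)) ≤
      ∫ s in {s : ℝ | σ.re / 4 ≤ |s|}, 9 * (8 * Real.pi) ^ (lam / 2) *
          ((1 + |s|) ^ 1 * Real.exp (-(lam / 2) * σ.re * s ^ 2)) := by
    refine setIntegral_mono_set hGint.integrableOn ?_ (Filter.Eventually.of_forall hST)
    refine Filter.Eventually.of_forall ?_
    intro s
    show 0 ≤ 9 * (8 * Real.pi) ^ (lam / 2) *
          ((1 + |s|) ^ 1 * Real.exp (-(lam / 2) * σ.re * s ^ 2))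
    positivity
  refine h2.trans ?_
  rw [integral_const_mul, mul_assoc (9 * (8 * Real.pi) ^ (lam / 2)) C]
  exact mul_le_mul_of_nonneg_left htail (by positivity)

end Pool.Agent.LibFR89
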