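import Mathlib
import Pool.Agent.LibFR89.DefsR
import Pool.Agent.LibFR89.P5
import Pool.Agent.LibFR89.S8
import Pool.Agent.LibFR89.S9
import Pool.Agent.LibFR89.S10

/-!
# Row S11 (MEDIUM): the asymptotic expansion, uniform in the closed sector `0 ≤ arg σ ≤ π/3`

Row P5 with `p = σ.re/4`, `q = σ.im`, translation `x = σ.re + s`
(`σ w^2 - 2/3 w^3 = σ^3/3 - σ s^2 - 2/3 s^3` for `w = σ + s`), rows S9, S10, S8, and
`‖exp ((lam - 1)/2 log σ)‖ = ‖σ‖^((lam-1)/2)`; `exp_cube_le` for the exponentially small terms.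
-/

set_option autoImplicit false

namespace Pool.Agent.LibFR89

open MeasureTheory Filter Topology

open Pool.Agent.H69Cubic

private theorem S11_shift (g : ℝ → ℂ) (a c : ℝ) :
    ∫ x in Set.Ioi a, g x = ∫ s in Set.Ioi (a - c), g (c + s) := by
  rw [← integral_indicator measurableSet_Ioi, ← integral_indicator measurableSet_Ioi,
    ← integral_add_left_eq_self _ c]
  congr 1
  ext s
  by_cases h : a - c < s
  · rw [Set.indicator_of_mem (show s ∈ Set.Ioi (a - c) from h),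
      Set.indicator_of_mem (show c + s ∈ Set.Ioi a from by rw [Set.mem_Ioi]; linarith)]
  · rw [Set.indicator_of_notMem (show s ∉ Set.Ioi (a - c) from h),
      Set.indicator_of_notMem (show c + s ∉ Set.Ioi a from by rw [Set.mem_Ioi]; linarith)]

/-- the transformed horizontal integrand -/
private theorem S11_ff (D : AL) (lam : ℝ) (σ : ℂ) (s : ℝ) :
    Complex.exp (-(lam : ℂ) * σ ^ 3 / 3) * ff D lam σ (σ + s) =
      Complex.exp (-(lam : ℂ) * (σ * (s : ℂ) ^ 2 + 2 / 3 * (s : ℂ) ^ 3)) *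
          ((σ + s) * Complex.exp ((lam : ℂ) * D.L (σ + s))) := by
  unfold ff
  rw [← mul_assoc, ← mul_assoc, ← Complex.exp_add, mul_assoc]
  congr 2
  ring

private theorem S11_hor (D : AL) (lam : ℝ) (σ : ℂ) :
    Complex.exp (-(lam : ℂ) * σ ^ 3 / 3) *
      (∫ x in Set.Ioi (σ.re / 4), ff D lam σ ((x : ℂ) + (σ.im : ℂ) * Complex.I)) =
      ∫ s in Set.Ioi (-(3 / 4 * σ.re)),
        Complex.exp (-(lam : ℂ) * (σ * (s : ℂ) ^ 2 + 2 / 3 * (s : ℂ) ^ 3)) *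
          ((σ + s) * Complex.exp ((lam : ℂ) * D.L (σ + s))) := by
  rw [← integral_const_mul, S11_shift _ (σ.re / 4) σ.re, show σ.re / 4 - σ.re = -(3 / 4 * σ.re) by ring]
  refine setIntegral_congr_fun measurableSet_Ioi fun s _ => ?_
  rw [← S11_ff]
  congr 2
  apply Complex.ext <;> simp

private theorem S11_norm (lam : ℝ) (σ : ℂ) (hσ : 0 < ‖σ‖) :
    ‖Complex.exp (((lam : ℂ) - 1) / 2 * Complex.log σ)‖ = ‖σ‖ ^ ((lam - 1) / 2) := by
  rw [Complex.norm_exp, Real.rpow_def_of_pos hσ]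
  congr 1
  have h1 : ((lam : ℂ) - 1) / 2 = (((lam - 1) / 2 : ℝ) : ℂ) := by push_cast; ring
  rw [h1, Complex.re_ofReal_mul, Complex.log_re]
  ring

private theorem S11_cube (lam c2 C1 : ℝ) (hc : 0 < c2) (hC : 0 < C1) (K : ℕ) : ∃ C : ℝ, 0 < C ∧ ∀ r : ℝ, 1 ≤ r →
    r ^ ((lam - 1) / 2) * (C1 * Real.exp (-c2 * r ^ 3)) ≤ C / r ^ (3 * K) := by
  obtain ⟨M, hM⟩ := exists_nat_ge ((lam - 1) / 2)
  obtain ⟨C, hC0, hC⟩ := exp_cube_le c2 hc (M + 3 * K)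
  refine ⟨C1 * C, by positivity, fun r hr => ?_⟩
  have h1 : r ^ ((lam - 1) / 2) ≤ r ^ M := by
    rw [← Real.rpow_natCast]
    exact Real.rpow_le_rpow_of_exponent_le hr hM
  have hr0 : 0 < r := by linarith
  calc r ^ ((lam - 1) / 2) * (C1 * Real.exp (-c2 * r ^ 3)) ≤ r ^ M * (C1 * (C / r ^ (M + 3 * K))) := by
        have := hC r hr
        gcongr
    _ = C1 * C / r ^ (3 * K) := by
        rw [pow_add]
        field_simp

theorem SS_expand (D : AL) (lam : ℝ) (hl : 0 < lam) (K : ℕ) (hK : 1 ≤ K) :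
    ∃ C R : ℝ, 0 < C ∧ 1 ≤ R ∧ ∀ σ : ℂ, R ≤ ‖σ‖ → 0 ≤ σ.im → ‖σ‖ / 2 ≤ σ.re →
    ‖Complex.exp (-(lam : ℂ) * σ ^ 3 / 3 + ((lam : ℂ) - 1) / 2 * Complex.log σ) * JJ D lam σ -
      (cc lam : ℂ) * sr lam K (-1 / (72 * (lam : ℂ) * σ ^ 3))‖ ≤ C / ‖σ‖ ^ (3 * K) := by
  obtain ⟨C8, R8, hC8, hR8, h8⟩ := local_expand D lam hl K hK
  obtain ⟨C9, c9, R9, hC9, hc9, hR9, h9⟩ := tail_hor D lam hl
  obtain ⟨C10, c10, R10, hC10, hc10, hR10, h10⟩ := tail_vert D lam hl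
  obtain ⟨D9, hD9, hd9⟩ := S11_cube lam c9 C9 hc9 hC9 K
  obtain ⟨D10, hD10, hd10⟩ := S11_cube lam c10 C10 hc10 hC10 K
  refine ⟨D9 + C8 + D10, max (max R8 R9) (max R10 5), by positivity, ?_, fun σ hσ him hre => ?_⟩
  · exact le_trans hR8 (le_trans (le_max_left _ _) (le_max_left _ _))
  have r8 : R8 ≤ ‖σ‖ := le_trans (le_trans (le_max_left _ _) (le_max_left _ _)) hσ
  have r9 : R9 ≤ ‖σ‖ := le_trans (le_trans (le_max_right _ _) (le_max_left _ _)) hσ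
  have r10 : R10 ≤ ‖σ‖ := le_trans (le_trans (le_max_left _ _) (le_max_right _ _)) hσ
  have r5 : 5 ≤ ‖σ‖ := le_trans (le_trans (le_max_right _ _) (le_max_right _ _)) hσ
  have hn0 : 0 < ‖σ‖ := by linarith
  have hJ := JJ_eq D lam hl σ (by linarith) (σ.re / 4) σ.im (by linarith) (by linarith) him
  have hH := S11_hor D lam σ
  have g8 := h8 σ r8 hre
  have g9 := h9 σ r9 hre
  have g10 := h10 σ r10 him hre
  set E := Complex.exp (-(lam : ℂ) * σ ^ 3 / 3) with hE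
  set H := ∫ x in Set.Ioi (σ.re / 4), ff D lam σ ((x : ℂ) + (σ.im : ℂ) * Complex.I) with hHd
  set V := ∫ y in Set.Ioi σ.im, ff D lam σ (((σ.re / 4 : ℝ) : ℂ) + (y : ℂ) * Complex.I) with hV
  set P := Complex.exp (((lam : ℂ) - 1) / 2 * Complex.log σ) with hP
  set Q := Complex.exp ((1 - (lam : ℂ)) / 2 * Complex.log σ) with hQ
  set I1 := ∫ s in Set.Ioi (-(3 / 4 * σ.re)),
        Complex.exp (-(lam : ℂ) * (σ * (s : ℂ) ^ 2 + 2 / 3 * (s : ℂ) ^ 3)) *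
          ((σ + s) * Complex.exp ((lam : ℂ) * D.L (σ + s))) with hI1
  set I2 := ∫ s in (-(σ.re / 4))..(σ.re / 4),
        Complex.exp (-(lam : ℂ) * (σ * (s : ℂ) ^ 2 + 2 / 3 * (s : ℂ) ^ 3)) *
          ((σ + s) * Complex.exp ((lam : ℂ) * D.L (σ + s))) with hI2
  have hPQ : P * Q = 1 := by
    rw [hP, hQ, ← Complex.exp_add, ← Complex.exp_zero]
    congr 1
    ring
  have hPE : Complex.exp (-(lam : ℂ) * σ ^ 3 / 3 + ((lam : ℂ) - 1) / 2 * Complex.log σ) = P * E := by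
    rw [Complex.exp_add, hP, hE, mul_comm]
  have hPn : ‖P‖ = ‖σ‖ ^ ((lam - 1) / 2) := S11_norm lam σ hn0
  set S := (cc lam : ℂ) * sr lam K (-1 / (72 * (lam : ℂ) * σ ^ 3)) with hS
  have key : P * E * JJ D lam σ - S = P * (I1 - I2) + P * (I2 - Q * S) - P * (Complex.I * (E * V)) := by
    rw [hJ, ← hH]
    linear_combination S * hPQ
  rw [hPE, key]
  have g8' : ‖I2 - Q * S‖ ≤ C8 * ‖σ‖ ^ ((1 - lam) / 2 - 3 * (K : ℝ)) := by
    rw [hS, ← mul_assoc]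
    exact g8
  have t1 : ‖P * (I1 - I2)‖ ≤ D9 / ‖σ‖ ^ (3 * K) := by
    rw [norm_mul, hPn]
    exact (mul_le_mul_of_nonneg_left g9 (by positivity)).trans (hd9 ‖σ‖ (by linarith))
  have t2 : ‖P * (I2 - Q * S)‖ ≤ C8 / ‖σ‖ ^ (3 * K) := by
    rw [norm_mul, hPn]
    refine (mul_le_mul_of_nonneg_left g8' (by positivity)).trans (le_of_eq ?_)
    rw [mul_left_comm, ← Real.rpow_add hn0, ← Real.rpow_natCast ‖σ‖ (3 * K), div_eq_mul_inv C8, ← Real.rpow_neg hn0.le]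
    congr 2
    push_cast
    ring
  have t3 : ‖P * (Complex.I * (E * V))‖ ≤ D10 / ‖σ‖ ^ (3 * K) := by
    rw [norm_mul, hPn, norm_mul, Complex.norm_I, one_mul]
    exact (mul_le_mul_of_nonneg_left g10 (by positivity)).trans (hd10 ‖σ‖ (by linarith))
  calc ‖P * (I1 - I2) + P * (I2 - Q * S) - P * (Complex.I * (E * V))‖
      ≤ ‖P * (I1 - I2)‖ + ‖P * (I2 - Q * S)‖ + ‖P * (Complex.I * (E * V))‖ :=
        (norm_sub_le _ _).trans (add_le_add_left (norm_add_le _ _) _)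
    _ ≤ D9 / ‖σ‖ ^ (3 * K) + C8 / ‖σ‖ ^ (3 * K) + D10 / ‖σ‖ ^ (3 * K) := add_le_add (add_le_add t1 t2) t3
    _ = (D9 + C8 + D10) / ‖σ‖ ^ (3 * K) := by ring

end Pool.Agent.LibFR89
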