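import Mathlib
import Pool.Agent.LibFR89.Defs

/-!
# Row T0 (EASY, ONLY Defs): the numbers `e3`, `e6`

Explicit complex numbers with `√3`; `Complex.ext`, `Real.cos_pi_div_three` etc.
-/

set_option autoImplicit false

namespace Pool.Agent.LibFR89

open MeasureTheory Filter Topology

private theorem T0_s3 : √3 * √3 = (3 : ℝ) := Real.mul_self_sqrt (by norm_num)

private theorem T0_exp (x : ℝ) : Complex.exp (x * Complex.I) = ⟨Real.cos x, Real.sin x⟩ := by
  rw [Complex.exp_mul_I]
  apply Complex.ext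
  · simp [Complex.cos_ofReal_re, Complex.sin_ofReal_im]
  · simp [Complex.sin_ofReal_re, Complex.cos_ofReal_im]

theorem e3_exp : e3 = Complex.exp (Complex.I * Real.pi / 3) := by
  have h : Complex.I * (Real.pi : ℂ) / 3 = ((Real.pi / 3 : ℝ) : ℂ) * Complex.I := by
    push_cast; ring
  rw [h, T0_exp, Real.cos_pi_div_three, Real.sin_pi_div_three]
  rfl

theorem e6_exp : e6 = Complex.exp (Complex.I * Real.pi / 6) := by
  have h : Complex.I * (Real.pi : ℂ) / 6 = ((Real.pi / 6 : ℝ) : ℂ) * Complex.I := by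
    push_cast; ring
  rw [h, T0_exp, Real.cos_pi_div_six, Real.sin_pi_div_six]
  rfl

theorem e6_sq : e6 ^ 2 = e3 := by
  have h := T0_s3
  rw [pow_two]
  apply Complex.ext
  · simp only [e6, e3, Complex.mul_re]
    nlinarith
  · simp only [e6, e3, Complex.mul_im]
    ring

theorem e6_cube : e6 ^ 3 = Complex.I := by
  have h := T0_s3
  rw [pow_succ, e6_sq]
  apply Complex.ext
  · simp only [e6, e3, Complex.mul_re, Complex.I_re]
    ring
  · simp only [e6, e3, Complex.mul_im, Complex.I_im]
    nlinarith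

theorem e3_cube : e3 ^ 3 = -1 := by
  rw [← e6_sq, ← pow_mul, mul_comm, pow_mul, e6_cube, Complex.I_sq]

theorem e3_e6 : e3 * (starRingEnd ℂ) e6 = e6 := by
  have h := T0_s3
  apply Complex.ext
  · simp only [e6, e3, Complex.mul_re, Complex.conj_re, Complex.conj_im]
    ring
  · simp only [e6, e3, Complex.mul_im, Complex.conj_re, Complex.conj_im]
    nlinarith

theorem norm_e6 : ‖e6‖ = 1 := by
  have h : e6 ^ 3 = Complex.I := e6_cube
  have h2 : ‖e6‖ ^ 3 = 1 := by rw [← norm_pow, h, Complex.norm_I]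
  exact (pow_eq_one_iff_of_nonneg (norm_nonneg _) (by norm_num)).mp h2

theorem norm_e3 : ‖e3‖ = 1 := by
  rw [← e6_sq, norm_pow, norm_e6, one_pow]

end Pool.Agent.LibFR89
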