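import Mathlib
import Pool.Agent.LibFR89.Defs
import Pool.Agent.LibFR89.P1
import Pool.Agent.LibFR89.P2
import Pool.Agent.LibFR89.P3

/-!
# Row P7 (MEDIUM): closing at infinity along the line `e6 (y + i)`

`σ = x e3`, `8 ≤ x`.  `e6 (y + i) = (√3/2 y - 1/2) + i (y/2 + √3/2)`.  `closing` with
`α y = (√3/2 y - 1/2 : ℝ)` (tends to `V` by `hV` with `q = 0` composed with `y ↦ √3/2 y - 1/2`) and
`β y = e6 (y + i)`: a vertical segment `w = R + i τ`, `R = √3/2 y - 1/2`, `0 ≤ τ ≤ q = y/2 + √3/2`.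
`Re (σ w^2 - 2/3 w^3) = x ((R^2 - τ^2)/2 - √3 R τ) - 2/3 (R^3 - 3 R τ^2) =: g τ`, a quadratic polynomial
in `τ` with leading coefficient `-x/2 + 2 R > 0` for large `R`, so `g τ ≤ max (g 0) (g q)`;
`g 0 = x R^2/2 - 2/3 R^3`, `g q = -x ((y^2 - 1)/2 + √3 y) + 2/3 (3 y^2 - 1)` (put `w = e6 (y + i)`:
`w^3 = i (y + i)^3`, `e3 w^2 = e3^2 (y + i)^2`), both at most `-y` for large `y` as `x ≥ 8`
(`-x/2 + 2 < 0`).  With `ff_le`
(`Re w = R ≥ 1`) the sup is at most `C y exp (-lam y)` and the length at most `y`: product `→ 0`.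
-/

set_option autoImplicit false

namespace Pool.Agent.LibFR89

open MeasureTheory Filter Topology

private theorem re_formula (x : ℝ) (w : ℂ) : ((x : ℂ) * e3 * w ^ 2 - 2 / 3 * w ^ 3).re =
    x * ((w.re ^ 2 - w.im ^ 2) / 2 - √3 * w.re * w.im) - 2 / 3 * (w.re ^ 3 - 3 * w.re * w.im ^ 2) := by
  have h : (2 / 3 : ℂ) = ((2 / 3 : ℝ) : ℂ) := by push_cast; rfl
  rw [h, mul_assoc, Complex.sub_re, Complex.re_ofReal_mul, Complex.re_ofReal_mul]
  have h1 : (e3 * w ^ 2).re = (w.re ^ 2 - w.im ^ 2) / 2 - √3 * w.re * w.im := by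
    rw [sq, Complex.mul_re, Complex.mul_re, Complex.mul_im]
    simp only [e3]
    ring
  have h2 : (w ^ 3).re = w.re ^ 3 - 3 * w.re * w.im ^ 2 := by
    rw [pow_succ, sq, Complex.mul_re, Complex.mul_re, Complex.mul_im]
    ring
  rw [h1, h2]

private theorem beta_re (y : ℝ) : (e6 * ((y : ℂ) + Complex.I)).re = √3 / 2 * y - 1 / 2 := by
  rw [Complex.mul_re]
  simp [e6]

private theorem beta_im (y : ℝ) : (e6 * ((y : ℂ) + Complex.I)).im = y / 2 + √3 / 2 := by
  rw [Complex.mul_im]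
  simp [e6]
  ring

private theorem s3_lo : (1.7 : ℝ) ≤ √3 := by
  apply Real.le_sqrt_of_sq_le
  norm_num

private theorem s3_hi : √3 ≤ (1.8 : ℝ) := by
  rw [show (1.8 : ℝ) = √(1.8 ^ 2) by rw [Real.sqrt_sq (by norm_num)]]
  apply Real.sqrt_le_sqrt
  norm_num

private theorem gq_le {x y : ℝ} (hx : 8 ≤ x) (hy : 1 ≤ y) :
    ((x : ℂ) * e3 * (e6 * ((y : ℂ) + Complex.I)) ^ 2 - 2 / 3 * (e6 * ((y : ℂ) + Complex.I)) ^ 3).re ≤ -y := by
  rw [re_formula, beta_re, beta_im]
  have h3 : √3 * √3 = 3 := Real.mul_self_sqrt (by norm_num)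
  have hs := s3_lo
  have e1 : ((√3 / 2 * y - 1 / 2) ^ 2 - (y / 2 + √3 / 2) ^ 2) / 2 - √3 * (√3 / 2 * y - 1 / 2) * (y / 2 + √3 / 2) =
      -((y ^ 2 - 1) / 2 + √3 * y) := by
    linear_combination (y ^ 2 / 8 - 1 / 8 - √3 * y / 4 - y ^ 2 / 4 + 1 / 4) * h3
  have e2 : (√3 / 2 * y - 1 / 2) ^ 3 - 3 * (√3 / 2 * y - 1 / 2) * (y / 2 + √3 / 2) ^ 2 = -(3 * y ^ 2 - 1) := by
    have : (√3) ^ 3 = 3 * √3 := by rw [pow_succ, sq, h3]
    ring_nf
    rw [this, show (√3) ^ 2 = 3 by rw [sq, h3]]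
    ring
  rw [e1, e2]
  have hp : 0 ≤ (y ^ 2 - 1) / 2 + √3 * y := by nlinarith
  nlinarith [mul_le_mul_of_nonneg_right hx hp]

private theorem conv_le {c b A q τ m : ℝ} (hA : 0 ≤ A) (h0 : 0 ≤ τ) (hq : τ ≤ q) (hc : c ≤ m)
    (hcq : c + b * q + A * q ^ 2 ≤ m) : c + b * τ + A * τ ^ 2 ≤ m := by
  have h1 : A * τ ^ 2 ≤ A * q * τ := by nlinarith [mul_nonneg hA h0]
  rcases le_or_gt (b + A * q) 0 with h | h
  · nlinarith
  · nlinarith

private theorem g_le {x y : ℝ} (hx : 8 ≤ x) (hy : x + 10 ≤ y) {w : ℂ} (hR : w.re = √3 / 2 * y - 1 / 2)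
    (h0 : 0 ≤ w.im) (h1 : w.im ≤ y / 2 + √3 / 2) :
    ((x : ℂ) * e3 * w ^ 2 - 2 / 3 * w ^ 3).re ≤ -y := by
  have hq := gq_le hx (show 1 ≤ y by linarith)
  rw [re_formula, beta_re, beta_im, ← hR] at hq
  rw [re_formula]
  have hs := s3_lo
  set R : ℝ := w.re with hRdef
  have hRx : 3 / 4 * x + 6 ≤ R := by
    rw [hR]
    nlinarith
  have hRy : y / 2 ≤ R := by
    rw [hR]
    nlinarith
  have hA : 0 ≤ 2 * R - x / 2 := by linarith
  have hc : x * R ^ 2 / 2 - 2 / 3 * R ^ 3 ≤ -y := by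
    have h2 : x / 2 - 2 / 3 * R ≤ -4 := by linarith
    have h3 : R ^ 2 * (x / 2 - 2 / 3 * R) ≤ R ^ 2 * (-4) := mul_le_mul_of_nonneg_left h2 (sq_nonneg R)
    nlinarith
  have := conv_le (b := -(√3 * x * R)) hA h0 h1 hc (by nlinarith)
  nlinarith

private theorem im_seg {a b w : ℂ} (h : w ∈ segment ℝ a b) (ha : a.im = 0) (hb : 0 ≤ b.im) (hab : a.re = b.re) :
    w.re = a.re ∧ 0 ≤ w.im ∧ w.im ≤ b.im := by
  obtain ⟨s, t, hs, ht, hst, rfl⟩ := h
  have h1 : (s • a + t • b).re = s * a.re + t * b.re := by simp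
  have h2 : (s • a + t • b).im = s * a.im + t * b.im := by simp
  rw [h1, h2, ha, ← hab]
  refine ⟨?_, ?_, ?_⟩
  · rw [← add_mul, hst, one_mul]
  · rw [mul_zero, zero_add]
    exact mul_nonneg ht hb
  · rw [mul_zero, zero_add]
    have : t ≤ 1 := by linarith
    nlinarith

theorem slant_end (D : AL) (lam : ℝ) (hl : 0 < lam) (x : ℝ) (hx : 8 ≤ x) (Φ : ℂ → ℂ) (V : ℂ)
    (hΦ : ∀ w : ℂ, 0 < w.re → HasDerivAt Φ (ff D lam ((x : ℂ) * e3) w) w)
    (hV : Tendsto (fun u : ℝ => Φ (u : ℂ)) atTop (𝓝 V)) :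
    Tendsto (fun y : ℝ => Φ (e6 * ((y : ℂ) + Complex.I))) atTop (𝓝 V) := by
  have hs := s3_lo
  have hs' := s3_hi
  have hpi := Real.pi_pos
  set α : ℝ → ℂ := fun y => ((√3 / 2 * y - 1 / 2 : ℝ) : ℂ) with hα
  set β : ℝ → ℂ := fun y => e6 * ((y : ℂ) + Complex.I) with hβ
  have hαre : ∀ y, (α y).re = √3 / 2 * y - 1 / 2 := fun y => Complex.ofReal_re _
  have hαim : ∀ y, (α y).im = 0 := fun y => Complex.ofReal_im _
  have hβre : ∀ y, (β y).re = √3 / 2 * y - 1 / 2 := beta_re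
  have hβim : ∀ y, (β y).im = y / 2 + √3 / 2 := beta_im
  have hseg : ∀ y, x + 10 ≤ y → ∀ w ∈ segment ℝ (α y) (β y), w.re = √3 / 2 * y - 1 / 2 ∧ 0 ≤ w.im ∧
      w.im ≤ y / 2 + √3 / 2 := by
    intro y hy w hw
    have := im_seg hw (hαim y) (by rw [hβim]; linarith) (by rw [hαre, hβre])
    rw [hαre, hβim] at this
    exact this
  have hlen : ∀ y, x + 10 ≤ y → ‖β y - α y‖ ≤ 2 * y := by
    intro y hy
    refine (Complex.norm_le_abs_re_add_abs_im _).trans ?_
    rw [Complex.sub_re, Complex.sub_im, hαre, hβre, hαim, hβim, sub_self, abs_zero, sub_zero, zero_add,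
      abs_of_nonneg (by linarith)]
    linarith
  have hcl : Tendsto (fun R => Φ (β R) - Φ (α R)) atTop (𝓝 0) := by
    refine closing Φ (ff D lam ((x : ℂ) * e3)) α β
      (fun y => Real.exp (lam * -y) * (2 * y) * Real.pi ^ (lam / 2)) ?_ ?_ ?_
    · filter_upwards [eventually_ge_atTop (x + 10)] with y hy w hw
      obtain ⟨h1, -, -⟩ := hseg y hy w hw
      exact hΦ w (by rw [h1]; nlinarith)
    · filter_upwards [eventually_ge_atTop (x + 10)] with y hy w hw
      obtain ⟨h1, h2, h3⟩ := hseg y hy w hw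
      have hR1 : 1 ≤ w.re := by rw [h1]; nlinarith
      refine (ff_le D lam hl.le _ w (by linarith)).trans ?_
      have hg := g_le hx hy h1 h2 h3
      have hnorm : ‖w‖ ≤ 2 * y := by
        refine (Complex.norm_le_abs_re_add_abs_im _).trans ?_
        rw [abs_of_nonneg (by linarith : (0 : ℝ) ≤ w.re), abs_of_nonneg h2, h1]
        nlinarith
      have hpow : (Real.pi / w.re) ^ (lam / 2) ≤ Real.pi ^ (lam / 2) := by
        apply Real.rpow_le_rpow (by positivity) _ (by positivity)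
        exact div_le_self hpi.le hR1
      have hexp : Real.exp (lam * ((x : ℂ) * e3 * w ^ 2 - 2 / 3 * w ^ 3).re) ≤ Real.exp (lam * -y) := by
        apply Real.exp_le_exp.mpr
        exact mul_le_mul_of_nonneg_left hg hl.le
      have hy0 : 0 ≤ 2 * y := by linarith
      gcongr
    · have h2 : Tendsto (fun y : ℝ => 4 * Real.pi ^ (lam / 2) * (y ^ 2 / Real.exp (lam * y))) atTop (𝓝 0) := by
        have := (isLittleO_pow_exp_pos_mul_atTop 2 hl).tendsto_div_nhds_zero
        simpa using this.const_mul (4 * Real.pi ^ (lam / 2))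
      refine squeeze_zero' ?_ ?_ h2
      · filter_upwards [eventually_ge_atTop (x + 10)] with y hy
        have hy0 : 0 ≤ y := by linarith
        positivity
      · filter_upwards [eventually_ge_atTop (x + 10)] with y hy
        have hy0 : 0 ≤ y := by linarith
        have h3 : Real.exp (lam * -y) = (Real.exp (lam * y))⁻¹ := by
          rw [← Real.exp_neg]
          ring_nf
        calc Real.exp (lam * -y) * (2 * y) * Real.pi ^ (lam / 2) * ‖β y - α y‖
            ≤ Real.exp (lam * -y) * (2 * y) * Real.pi ^ (lam / 2) * (2 * y) :=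
              mul_le_mul_of_nonneg_left (hlen y hy) (by positivity)
          _ = 4 * Real.pi ^ (lam / 2) * (y ^ 2 / Real.exp (lam * y)) := by
              rw [h3, div_eq_mul_inv]
              ring
  have hαV : Tendsto (fun y => Φ (α y)) atTop (𝓝 V) := by
    have hlin : Tendsto (fun y : ℝ => √3 / 2 * y - 1 / 2) atTop atTop := by
      apply tendsto_atTop_add_const_right
      exact Tendsto.const_mul_atTop (by linarith) tendsto_id
    exact hV.comp hlin
  have := hcl.add hαV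
  rw [zero_add] at this
  refine this.congr fun y => ?_
  ring

theorem slant_int (D : AL) (lam : ℝ) (hl : 0 < lam) (x : ℝ) (hx : 8 ≤ x) (y0 : ℝ) (hy0 : 1 ≤ y0) :
    IntegrableOn (fun y : ℝ => ff D lam ((x : ℂ) * e3) (e6 * ((y : ℂ) + Complex.I)))
      (Set.Ioi y0) := by
  have hs := s3_lo
  have hpi := Real.pi_pos
  have hre : ∀ y : ℝ, 1 ≤ y → 0.3 ≤ (e6 * ((y : ℂ) + Complex.I)).re := by
    intro y hy
    rw [beta_re]
    nlinarith
  have hint : IntegrableOn (fun y : ℝ => (4 / lam * (Real.pi / 0.3) ^ (lam / 2)) * Real.exp (-(lam / 2) * y))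
      (Set.Ioi y0) := (exp_neg_integrableOn_Ioi y0 (by linarith : 0 < lam / 2)).const_mul _
  refine Integrable.mono' hint ?_ ?_
  · apply ContinuousOn.aestronglyMeasurable _ measurableSet_Ioi
    apply ContinuousOn.comp (ff_diff D lam ((x : ℂ) * e3)).continuousOn
    · exact Continuous.continuousOn (by fun_prop)
    · intro y hy
      have hy1 : 1 ≤ y := hy0.trans (Set.mem_Ioi.mp hy).le
      have := hre y hy1
      show 0 < (e6 * ((y : ℂ) + Complex.I)).re
      linarith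
  · rw [ae_restrict_iff' measurableSet_Ioi]
    refine Eventually.of_forall fun y hy => ?_
    have hy1 : 1 ≤ y := hy0.trans (Set.mem_Ioi.mp hy).le
    have hy00 : 0 ≤ y := by linarith
    have h1 := hre y hy1
    refine (ff_le D lam hl.le _ _ (by linarith)).trans ?_
    have hg := gq_le hx hy1
    have hnorm : ‖e6 * ((y : ℂ) + Complex.I)‖ ≤ 2 * y := by
      have hs' := s3_hi
      refine (Complex.norm_le_abs_re_add_abs_im _).trans ?_
      rw [abs_of_nonneg (by linarith : (0 : ℝ) ≤ (e6 * ((y : ℂ) + Complex.I)).re), beta_re, beta_im,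
        abs_of_nonneg (by linarith)]
      nlinarith
    have hpow : (Real.pi / (e6 * ((y : ℂ) + Complex.I)).re) ^ (lam / 2) ≤ (Real.pi / 0.3) ^ (lam / 2) := by
      apply Real.rpow_le_rpow (div_nonneg hpi.le (by linarith)) _ (by positivity)
      exact div_le_div_of_nonneg_left hpi.le (by norm_num) h1
    have hexp : Real.exp (lam * ((x : ℂ) * e3 * (e6 * ((y : ℂ) + Complex.I)) ^ 2 -
        2 / 3 * (e6 * ((y : ℂ) + Complex.I)) ^ 3).re) ≤ Real.exp (lam * -y) := by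
      apply Real.exp_le_exp.mpr
      exact mul_le_mul_of_nonneg_left hg hl.le
    have h2 : 2 * y ≤ 4 / lam * Real.exp (lam / 2 * y) := by
      have h3 := Real.add_one_le_exp (lam / 2 * y)
      have h4 : 2 * y = 4 / lam * (lam / 2 * y) := by
        field_simp
        ring
      rw [h4]
      apply mul_le_mul_of_nonneg_left _ (by positivity)
      linarith
    calc Real.exp (lam * ((x : ℂ) * e3 * (e6 * ((y : ℂ) + Complex.I)) ^ 2 -
          2 / 3 * (e6 * ((y : ℂ) + Complex.I)) ^ 3).re) * ‖e6 * ((y : ℂ) + Complex.I)‖ *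
          (Real.pi / (e6 * ((y : ℂ) + Complex.I)).re) ^ (lam / 2)
        ≤ Real.exp (lam * -y) * (4 / lam * Real.exp (lam / 2 * y)) * (Real.pi / 0.3) ^ (lam / 2) := by
          have h5 := hnorm.trans h2
          have h6 : 0 ≤ (Real.pi / (e6 * ((y : ℂ) + Complex.I)).re) ^ (lam / 2) :=
            Real.rpow_nonneg (div_nonneg hpi.le (by linarith)) _
          gcongr
      _ = (4 / lam * (Real.pi / 0.3) ^ (lam / 2)) * Real.exp (-(lam / 2) * y) := by
          have : Real.exp (-(lam / 2) * y) = Real.exp (lam * -y) * Real.exp (lam / 2 * y) := by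
            rw [← Real.exp_add]
            ring_nf
          rw [this]
          ring

end Pool.Agent.LibFR89
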