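import Mathlib
import Pool.Agent.LibFR89.Defs
import Pool.Agent.LibFR89.T0
import Pool.Agent.LibFR89.P1
import Pool.Agent.LibFR89.P2
import Pool.Agent.LibFR89.P3
import Pool.Agent.LibFR89.P4
import Pool.Agent.LibFR89.P7

/-!
# Row T1 (MEDIUM/HARD): the rotated contour

`σ = x e3`, `w = e3 v`: `ff D lam σ (e3 v) = e3 exp (-i π lam/6) kk lam x v QQ D lam v` (first claim;
`e3 * e3^2 = -1`, `e3^3 = -1`).  `Φ, U, V` from row P4 (`σ.re = x/2 > 2`).
Upper ray: `w = e3 (e6 (y - i)) = 1 + i y` (as `e3 e6 = i`), `y ≥ yJ`: row P1 (ray) with limit `U`.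
Lower ray: `w = e3 (conj e6 (y + i)) = e6 (y + i)`, limit `V` by row P7 (`slant_end`).
Middle: the segment `w = e3 (v0 + i η)`, `-η1 ≤ η ≤ η1`, where `0 < Re w` (`Re w = v0/2 - √3/2 η ≥ 1`),
fundamental theorem of calculus; `e3 (v0 + i η1) = 1 + i yJ` and `e3 (v0 - i η1) = e6 (yJ + i)` for
`yJ = (2 v0 - 1)/√3`, `η1 = (v0 - 2)/√3`.
So `JJ = V - U = -(I ∫_{yJ}^∞ ff (1 + i y)) - I e3 ∫_{-η1}^{η1} ff (e3 (v0 + i η)) + e6 ∫_{yJ}^∞ ff (e6 (y + i))`;
insert the first claim: `I e3 = e3^2 e6`, `e6 e3 = e3^2 conj e6`.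
-/

set_option autoImplicit false

namespace Pool.Agent.LibFR89

open MeasureTheory Filter Topology

theorem ff_rot (D : AL) (lam x : ℝ) (v : ℂ) :
    ff D lam ((x : ℂ) * e3) (e3 * v) =
      e3 * Complex.exp (-(Complex.I * Real.pi * lam / 6)) * (kk lam x v * QQ D lam v) := by
  unfold ff kk QQ
  have h1 : (lam : ℂ) * ((x : ℂ) * e3 * (e3 * v) ^ 2 - 2 / 3 * (e3 * v) ^ 3)
      = (lam : ℂ) * (-(x : ℂ) * v ^ 2 + 2 / 3 * v ^ 3) := by
    have h := e3_cube
    linear_combination (lam : ℂ) * (x * v ^ 2 - 2 / 3 * v ^ 3) * h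
  have h2 : Complex.exp ((lam : ℂ) * D.L (e3 * v))
      = Complex.exp (-(Complex.I * Real.pi * lam / 6)) *
        Complex.exp ((lam : ℂ) * (Complex.I * Real.pi / 6 + D.L (e3 * v))) := by
    rw [← Complex.exp_add]
    congr 1
    ring
  rw [h1, h2]
  ring

private theorem shift_int (f : ℝ → ℂ) (c : ℝ) :
    ∫ s in Set.Ioi (0 : ℝ), f (s + c) = ∫ y in Set.Ioi c, f y := by
  have h := (measurePreserving_add_right volume c).setIntegral_preimage_emb
    (measurableEmbedding_addRight c) f (Set.Ioi c)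
  rw [Set.preimage_add_const_Ioi, sub_self] at h
  exact h

private theorem shift_io (f : ℝ → ℂ) (c : ℝ) (h : IntegrableOn f (Set.Ioi c)) :
    IntegrableOn (fun s => f (s + c)) (Set.Ioi 0) := by
  have h1 := (measurePreserving_add_right volume c).integrableOn_comp_preimage
    (measurableEmbedding_addRight c) (f := f) (s := Set.Ioi c)
  rw [Set.preimage_add_const_Ioi, sub_self] at h1
  exact h1.2 h

private theorem ray (Φ f : ℂ → ℂ) (q u : ℂ) (c : ℝ) (W : ℂ)
    (h : ∀ y : ℝ, c ≤ y → HasDerivAt Φ (f (q + y * u)) (q + y * u))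
    (hc : ContinuousOn (fun y : ℝ => f (q + y * u)) (Set.Ici c))
    (hi : IntegrableOn (fun y : ℝ => f (q + y * u)) (Set.Ioi c))
    (hW : Tendsto (fun y : ℝ => Φ (q + y * u)) atTop (𝓝 W)) :
    W = Φ (q + c * u) + u * ∫ y in Set.Ioi c, f (q + y * u) := by
  have e : ∀ s : ℝ, q + c * u + s * u = q + ((s + c : ℝ) : ℂ) * u := by
    intro s
    push_cast
    ring
  have h1 := ray_ftc Φ f (q + c * u) u (fun s hs => by
      rw [e]
      exact h _ (by linarith)) (by
      have : (fun s : ℝ => f (q + c * u + s * u)) = (fun y : ℝ => f (q + y * u)) ∘ (fun s => s + c) := by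
        funext s
        rw [e]
        rfl
      rw [this]
      apply hc.comp (by fun_prop)
      intro s hs
      have : (0 : ℝ) ≤ s := hs
      show c ≤ s + c
      linarith) (by
      have := shift_io (fun y : ℝ => f (q + y * u)) c hi
      refine this.congr_fun ?_ measurableSet_Ioi
      intro s _
      show f (q + ((s + c : ℝ) : ℂ) * u) = _
      rw [← e])
  have h2 : ∫ s in Set.Ioi (0 : ℝ), f (q + c * u + s * u) = ∫ y in Set.Ioi c, f (q + y * u) := by
    rw [← shift_int (fun y : ℝ => f (q + y * u)) c]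
    apply setIntegral_congr_fun measurableSet_Ioi
    intro s _
    show _ = f (q + ((s + c : ℝ) : ℂ) * u)
    rw [← e]
  rw [h2] at h1
  have h3 : Tendsto (fun s : ℝ => Φ (q + c * u + s * u)) atTop (𝓝 W) := by
    have h4 := hW.comp (tendsto_atTop_add_const_right atTop c tendsto_id)
    refine h4.congr ?_
    intro s
    show Φ (q + ((s + c : ℝ) : ℂ) * u) = _
    rw [← e]
  exact tendsto_nhds_unique h3 h1

private theorem e3e6 : e3 * e6 = Complex.I := by
  rw [← e6_sq, ← e6_cube]; ring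

private theorem sq3 : √(3 : ℝ) * √(3 : ℝ) = 3 := Real.mul_self_sqrt (by norm_num)

private theorem s3pos : 0 < √(3 : ℝ) := Real.sqrt_pos.2 (by norm_num)

theorem JJ_rot (D : AL) (lam : ℝ) (hl : 0 < lam) (x v0 : ℝ) (hx : 8 ≤ x) (hv : 4 ≤ v0) :
    JJ D lam ((x : ℂ) * e3) = e3 ^ 2 * Complex.exp (-(Complex.I * Real.pi * lam / 6)) *
      (-(e6 * ∫ y in Set.Ioi ((2 * v0 - 1) / √3), kk lam x (e6 * ((y : ℂ) - Complex.I)) *
          QQ D lam (e6 * ((y : ℂ) - Complex.I))) -
        Complex.I * (∫ η in (-((v0 - 2) / √3))..((v0 - 2) / √3),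
          kk lam x ((v0 : ℂ) + (η : ℂ) * Complex.I) * QQ D lam ((v0 : ℂ) + (η : ℂ) * Complex.I)) +
        (starRingEnd ℂ) e6 * ∫ y in Set.Ioi ((2 * v0 - 1) / √3),
          kk lam x ((starRingEnd ℂ) e6 * ((y : ℂ) + Complex.I)) *
          QQ D lam ((starRingEnd ℂ) e6 * ((y : ℂ) + Complex.I))) := by
  have hs := s3pos
  have hss := sq3
  obtain ⟨y0, hy0⟩ : ∃ y0, y0 = (2 * v0 - 1) / √3 := ⟨_, rfl⟩
  obtain ⟨η1, hη1⟩ : ∃ η1, η1 = (v0 - 2) / √3 := ⟨_, rfl⟩
  have hy0s : √3 * y0 = 2 * v0 - 1 := by rw [hy0]; field_simp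
  have hη1s : √3 * η1 = v0 - 2 := by rw [hη1]; field_simp
  have hy01 : 1 ≤ y0 := by
    have h3 : √(3 : ℝ) ≤ 2 := by
      rw [Real.sqrt_le_left (by norm_num)]; norm_num
    by_contra hcon
    push Not at hcon
    have : √3 * y0 ≤ 2 := by
      calc √3 * y0 ≤ √3 * 1 := mul_le_mul_of_nonneg_left hcon.le hs.le
        _ ≤ 2 := by linarith
    linarith
  rw [← hy0, ← hη1]
  have hσ : 2 < ((x : ℂ) * e3).re := by
    have : ((x : ℂ) * e3).re = x / 2 := by
      rw [Complex.re_ofReal_mul]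
      show x * (1 / 2) = x / 2
      ring
    rw [this]; linarith
  obtain ⟨Φ, U, V, hΦ, hU, hV, hJ⟩ := exists_Phi D lam hl ((x : ℂ) * e3) hσ
  obtain ⟨f, hf⟩ : ∃ f, f = ff D lam ((x : ℂ) * e3) := ⟨_, rfl⟩
  rw [← hf] at hΦ
  have hfc : ContinuousOn f {w : ℂ | 0 < w.re} := by
    rw [hf]; exact (ff_diff D lam _).continuousOn
  -- upper ray
  have hup : U = Φ (1 + y0 * Complex.I) + Complex.I * ∫ y in Set.Ioi y0, f (1 + y * Complex.I) := by
    apply ray Φ f 1 Complex.I y0 U
    · intro y _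
      apply hΦ
      simp
    · apply hfc.comp (by fun_prop)
      intro y _
      show 0 < (1 + (y : ℂ) * Complex.I).re
      simp
    · obtain ⟨C, ε, hC, hε, hb⟩ := ff_vert D lam hl ((x : ℂ) * e3) 1 1 one_pos le_rfl (by linarith)
      have hg : IntegrableOn (fun y : ℝ => C * Real.exp (-ε * y ^ 2)) (Set.Ioi y0) :=
        ((integrable_exp_neg_mul_sq hε).const_mul C).integrableOn
      refine Integrable.mono' hg ?_ ?_
      · apply ContinuousOn.aestronglyMeasurable _ measurableSet_Ioi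
        apply hfc.comp (by fun_prop)
        intro y _
        show 0 < (1 + (y : ℂ) * Complex.I).re
        simp
      · rw [ae_restrict_iff' measurableSet_Ioi]
        refine Filter.Eventually.of_forall ?_
        intro y hy
        have hy' : y0 < y := hy
        have := hb 1 le_rfl le_rfl y (by linarith)
        rw [Complex.ofReal_one] at this
        rw [hf]
        exact this
    · have := hU 1 one_pos (by linarith)
      rw [Complex.ofReal_one] at this
      exact this
  -- lower ray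
  have hlow : V = Φ (e6 * Complex.I + y0 * e6) + e6 * ∫ y in Set.Ioi y0, f (e6 * Complex.I + y * e6) := by
    have e : ∀ y : ℝ, e6 * Complex.I + y * e6 = e6 * ((y : ℂ) + Complex.I) := by intro y; ring
    have hre : ∀ y : ℝ, y0 ≤ y → 0 < (e6 * Complex.I + y * e6).re := by
      intro y hy
      have h1 : (e6 * Complex.I + y * e6).re = √3 / 2 * y - 1 / 2 := by
        simp [e6]
        ring
      rw [h1]
      have : √3 * y0 ≤ √3 * y := mul_le_mul_of_nonneg_left hy hs.le
      linarith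
    apply ray Φ f (e6 * Complex.I) e6 y0 V
    · intro y hy
      exact hΦ _ (hre y hy)
    · apply hfc.comp (by fun_prop)
      intro y hy
      exact hre y hy
    · have h1 := slant_int D lam hl x hx y0 hy01
      rw [← hf] at h1
      refine h1.congr_fun ?_ measurableSet_Ioi
      intro y _
      show f (e6 * ((y : ℂ) + Complex.I)) = f (e6 * Complex.I + y * e6)
      rw [e]
    · have h1 := slant_end D lam hl x hx Φ V (by rw [← hf]; exact hΦ) (by
        have := hV 0
        simpa using this)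
      refine h1.congr ?_
      intro y
      rw [e]
  -- the middle segment
  have hmid : ∫ η in (-η1)..η1, f (e3 * ((v0 : ℂ) + (η : ℂ) * Complex.I)) * (e3 * Complex.I)
      = Φ (e3 * ((v0 : ℂ) + (η1 : ℂ) * Complex.I)) - Φ (e3 * ((v0 : ℂ) + ((-η1 : ℝ) : ℂ) * Complex.I)) := by
    have hη10 : 0 ≤ η1 := by rw [hη1]; exact div_nonneg (by linarith) hs.le
    have hre : ∀ η : ℝ, η ≤ η1 → 0 < (e3 * ((v0 : ℂ) + (η : ℂ) * Complex.I)).re := by
      intro η hη
      have h1 : (e3 * ((v0 : ℂ) + (η : ℂ) * Complex.I)).re = v0 / 2 - √3 / 2 * η := by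
        simp [e3]
        ring
      rw [h1]
      have : √3 * η ≤ √3 * η1 := mul_le_mul_of_nonneg_left hη hs.le
      linarith
    apply intervalIntegral.integral_eq_sub_of_hasDerivAt
      (f := fun η : ℝ => Φ (e3 * ((v0 : ℂ) + (η : ℂ) * Complex.I)))
    · intro η hη
      rw [Set.uIcc_of_le (by linarith)] at hη
      have hd : HasDerivAt (fun η : ℝ => e3 * ((v0 : ℂ) + (η : ℂ) * Complex.I)) (e3 * Complex.I) η := by
        have h1 := (((Complex.ofRealCLM.hasDerivAt (x := η)).mul_const Complex.I).const_add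
          (v0 : ℂ)).const_mul e3
        simpa using h1
      have h2 := (hΦ _ (hre η hη.2)).scomp η hd
      rw [smul_eq_mul, mul_comm] at h2
      exact h2
    · apply ContinuousOn.intervalIntegrable
      rw [Set.uIcc_of_le (by linarith)]
      apply ContinuousOn.mul _ continuousOn_const
      apply hfc.comp (by fun_prop)
      intro η hη
      exact hre η hη.2
  have hp1 : e3 * ((v0 : ℂ) + (η1 : ℂ) * Complex.I) = 1 + y0 * Complex.I := by
    apply Complex.ext
    · simp [e3]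
      linarith
    · simp [e3]
      have h1 : √3 * (√3 / 2 * v0 + 1 / 2 * η1) = √3 * y0 := by
        rw [hy0s, mul_add]
        have : √3 * (1 / 2 * η1) = (v0 - 2) / 2 := by rw [← hη1s]; ring
        rw [this, ← mul_assoc, ← mul_div_assoc, hss]
        ring
      have h2 := mul_left_cancel₀ hs.ne' h1
      linarith
  have hp2 : e3 * ((v0 : ℂ) + ((-η1 : ℝ) : ℂ) * Complex.I) = e6 * Complex.I + y0 * e6 := by
    apply Complex.ext
    · simp [e3, e6]
      linarith
    · simp [e3, e6]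
      have h1 : √3 * (√3 / 2 * v0 - 1 / 2 * η1) = √3 * (√3 / 2 + y0 / 2) := by
        have h3 : √3 * (1 / 2 * η1) = (v0 - 2) / 2 := by rw [← hη1s]; ring
        have h4 : √3 * (y0 / 2) = (2 * v0 - 1) / 2 := by rw [← hy0s]; ring
        rw [mul_sub, mul_add, h3, h4, ← mul_assoc, ← mul_div_assoc, hss]
        ring
      have h2 := mul_left_cancel₀ hs.ne' h1
      linarith
  -- insert the rotated integrand
  have hG : ∀ v, f (e3 * v) = e3 * Complex.exp (-(Complex.I * Real.pi * lam / 6)) *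
      (kk lam x v * QQ D lam v) := by
    intro v
    rw [hf]
    exact ff_rot D lam x v
  have hI1 : ∫ y in Set.Ioi y0, f (1 + y * Complex.I)
      = e3 * Complex.exp (-(Complex.I * Real.pi * lam / 6)) *
        ∫ y in Set.Ioi y0, kk lam x (e6 * ((y : ℂ) - Complex.I)) *
          QQ D lam (e6 * ((y : ℂ) - Complex.I)) := by
    rw [← integral_const_mul]
    apply setIntegral_congr_fun measurableSet_Ioi
    intro y _
    show f (1 + y * Complex.I) = _
    have e : (1 : ℂ) + y * Complex.I = e3 * (e6 * ((y : ℂ) - Complex.I)) := by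
      rw [← mul_assoc, e3e6]
      have := Complex.I_sq
      linear_combination this
    rw [e, hG]
  have hI3 : ∫ y in Set.Ioi y0, f (e6 * Complex.I + y * e6)
      = e3 * Complex.exp (-(Complex.I * Real.pi * lam / 6)) *
        ∫ y in Set.Ioi y0, kk lam x ((starRingEnd ℂ) e6 * ((y : ℂ) + Complex.I)) *
          QQ D lam ((starRingEnd ℂ) e6 * ((y : ℂ) + Complex.I)) := by
    rw [← integral_const_mul]
    apply setIntegral_congr_fun measurableSet_Ioi
    intro y _
    show f (e6 * Complex.I + y * e6) = _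
    have e : e6 * Complex.I + y * e6 = e3 * ((starRingEnd ℂ) e6 * ((y : ℂ) + Complex.I)) := by
      rw [← mul_assoc, e3_e6]; ring
    rw [e, hG]
  have hI2 : ∫ η in (-η1)..η1, f (e3 * ((v0 : ℂ) + (η : ℂ) * Complex.I)) * (e3 * Complex.I)
      = e3 * Complex.exp (-(Complex.I * Real.pi * lam / 6)) * (e3 * Complex.I) *
        ∫ η in (-η1)..η1, kk lam x ((v0 : ℂ) + (η : ℂ) * Complex.I) *
          QQ D lam ((v0 : ℂ) + (η : ℂ) * Complex.I) := by
    rw [← intervalIntegral.integral_const_mul]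
    apply intervalIntegral.integral_congr
    intro η _
    show f (e3 * ((v0 : ℂ) + (η : ℂ) * Complex.I)) * (e3 * Complex.I) = _
    rw [hG]
    ring
  rw [hp1, hp2, hI2] at hmid
  rw [hI1] at hup
  rw [hI3] at hlow
  rw [hJ, hlow, hup]
  have h6 := e3_e6
  have h7 := e3e6
  obtain ⟨A, hA⟩ : ∃ A, A = ∫ y in Set.Ioi y0, kk lam x (e6 * ((y : ℂ) - Complex.I)) *
          QQ D lam (e6 * ((y : ℂ) - Complex.I)) := ⟨_, rfl⟩
  obtain ⟨B, hB⟩ : ∃ B, B = ∫ y in Set.Ioi y0, kk lam x ((starRingEnd ℂ) e6 * ((y : ℂ) + Complex.I)) *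
          QQ D lam ((starRingEnd ℂ) e6 * ((y : ℂ) + Complex.I)) := ⟨_, rfl⟩
  obtain ⟨M, hM⟩ : ∃ M, M = ∫ η in (-η1)..η1, kk lam x ((v0 : ℂ) + (η : ℂ) * Complex.I) *
          QQ D lam ((v0 : ℂ) + (η : ℂ) * Complex.I) := ⟨_, rfl⟩
  obtain ⟨κ, hκ⟩ : ∃ κ, κ = Complex.exp (-(Complex.I * Real.pi * lam / 6)) := ⟨_, rfl⟩
  rw [← hA, ← hB, ← hM, ← hκ]
  rw [← hM, ← hκ] at hmid
  linear_combination hmid - e3 * κ * B * h6 + e3 * κ * A * h7

end Pool.Agent.LibFR89
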