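import Mathlib
import Pool.Agent.LibFR89.Defs
import Pool.Agent.LibFR89.T0
import Pool.Agent.LibFR89.P2

/-!
# Row T2 (MEDIUM): the two rays of the rotated contour

`v = e6 (y - i)`: `‖kk lam x v‖ = ‖v‖ exp (lam (-x ((y^2-1)/2 + √3 y) + 2/3 (3 y^2 - 1)))`, the same for
`v = conj e6 (y + i)` (the conjugate).  `‖QQ D lam v‖ = ‖exp (lam L (e3 v))‖ ≤ (π / Re (e3 v))^(lam/2)`
(`expL_norm_le`), `e3 v = 1 + i y` resp. `e6 (y + i)`, real part `≥ 1`.
With `v0 = lam x/(lam - 2) ≥ x`, `y ≥ (2 v0 - 1)/√3`: `y^2 ≥ (4 v0^2 - 4 v0)/3`, `√3 y ≥ 2 v0 - 1`, so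
`x ((y^2-1)/2 + √3 y) - 2/3 (3 y^2 - 1) ≥ x v0^2/3 + y` for large `x` (leading term `2/3 x v0^2`;
write `x y^2/2 = x y^2/4 + x y^2/4`, keep one half against `2 y^2 + y`).
-/

set_option autoImplicit false

namespace Pool.Agent.LibFR89

open MeasureTheory Filter Topology

private theorem T2_kk_norm (lam x : ℝ) (v : ℂ) :
    ‖kk lam x v‖ = Real.exp (lam * (-x * (v ^ 2).re + 2 / 3 * (v ^ 3).re)) * ‖v‖ := by
  rw [kk, norm_mul, Complex.norm_exp]
  congr 2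
  have h1 : (-(x : ℂ) * v ^ 2 + 2 / 3 * v ^ 3) =
      ((-x : ℝ) : ℂ) * v ^ 2 + ((2 / 3 : ℝ) : ℂ) * v ^ 3 := by push_cast; ring
  rw [h1, Complex.re_ofReal_mul, Complex.add_re, Complex.re_ofReal_mul, Complex.re_ofReal_mul]

private theorem T2_QQ_le (D : AL) (lam : ℝ) (hl : 0 ≤ lam) (v : ℂ) (h : 1 ≤ (e3 * v).re) :
    ‖QQ D lam v‖ ≤ Real.pi ^ (lam / 2) := by
  have h1 : ‖QQ D lam v‖ = ‖Complex.exp ((lam : ℂ) * D.L (e3 * v))‖ := by
    rw [QQ, Complex.norm_exp, Complex.norm_exp, Complex.re_ofReal_mul, Complex.re_ofReal_mul,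
      Complex.add_re]
    have h2 : (Complex.I * Real.pi / 6 : ℂ).re = 0 := by
      have : (Complex.I * Real.pi / 6 : ℂ) = ((Real.pi / 6 : ℝ) : ℂ) * Complex.I := by
        push_cast; ring
      rw [this, Complex.re_ofReal_mul, Complex.I_re, mul_zero]
    rw [h2, zero_add]
  rw [h1]
  refine (expL_norm_le D lam hl _ (lt_of_lt_of_le one_pos h)).trans ?_
  refine Real.rpow_le_rpow (by positivity) ?_ (by positivity)
  exact div_le_self Real.pi_pos.le h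

private theorem T2_sq (y : ℝ) : ((e6 * ((y : ℂ) - Complex.I)) ^ 2).re =
    (y ^ 2 - 1) / 2 + √3 * y := by
  rw [mul_pow, e6_sq, e3]
  have h : ((y : ℂ) - Complex.I) ^ 2 = ⟨y ^ 2 - 1, -2 * y⟩ := by
    apply Complex.ext
    · simp [pow_two, Complex.mul_re]
    · simp [pow_two, Complex.mul_im]
      ring
  rw [h, Complex.mul_re]
  ring

private theorem T2_cube (y : ℝ) : ((e6 * ((y : ℂ) - Complex.I)) ^ 3).re = 3 * y ^ 2 - 1 := by
  rw [mul_pow, e6_cube]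
  have h : ((y : ℂ) - Complex.I) ^ 3 = ⟨y ^ 3 - 3 * y, 1 - 3 * y ^ 2⟩ := by
    apply Complex.ext
    · simp [pow_succ, Complex.mul_re, Complex.mul_im]
      ring
    · simp [pow_succ, Complex.mul_re, Complex.mul_im]
      ring
  rw [h, Complex.mul_re]
  simp

private theorem T2_norm (y : ℝ) (hy : 0 ≤ y) : ‖e6 * ((y : ℂ) - Complex.I)‖ ≤ y + 1 := by
  rw [norm_mul, norm_e6, one_mul]
  refine (norm_sub_le _ _).trans ?_
  rw [Complex.norm_I, Complex.norm_real, Real.norm_of_nonneg hy]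

private theorem T2_conj (y : ℝ) : (starRingEnd ℂ) e6 * ((y : ℂ) + Complex.I) =
    (starRingEnd ℂ) (e6 * ((y : ℂ) - Complex.I)) := by
  rw [map_mul, map_sub, Complex.conj_ofReal, Complex.conj_I, sub_neg_eq_add]

private theorem T2_real {x v0 y : ℝ} (hx : 12 ≤ x) (hv : x ≤ v0) (hy : (2 * v0 - 1) / √3 < y) :
    1 ≤ y ∧ 2 * v0 - 1 ≤ √3 * y ∧
      x * v0 ^ 2 / 3 + y ≤ x * ((y ^ 2 - 1) / 2 + √3 * y) - 2 / 3 * (3 * y ^ 2 - 1) := by
  have h3 : (0 : ℝ) < √3 := Real.sqrt_pos.2 (by norm_num)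
  have h32 : √3 ^ 2 = 3 := Real.sq_sqrt (by norm_num)
  have h3' : √3 ≤ 2 := by
    rw [Real.sqrt_le_left (by norm_num)]
    norm_num
  have h1 : 2 * v0 - 1 < √3 * y := by
    rw [div_lt_iff₀ h3] at hy
    linarith
  have hv0 : 12 ≤ v0 := hx.trans hv
  have hy1 : 1 ≤ y := by
    by_contra hc
    push Not at hc
    nlinarith
  refine ⟨hy1, h1.le, ?_⟩
  have h2 : (2 * v0 - 1) ^ 2 ≤ 3 * y ^ 2 := by
    have := pow_le_pow_left₀ (by linarith : 0 ≤ 2 * v0 - 1) h1.le 2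
    rw [mul_pow, h32] at this
    exact this
  have h4 : x * ((2 * v0 - 1) ^ 2) ≤ x * (3 * y ^ 2) := mul_le_mul_of_nonneg_left h2 (by linarith)
  have h5 : x * (2 * v0 - 1) ≤ x * (√3 * y) := mul_le_mul_of_nonneg_left h1.le (by linarith)
  have h6 : 1 * y ^ 2 ≤ (x / 4 - 2) * y ^ 2 := mul_le_mul_of_nonneg_right (by linarith) (sq_nonneg y)
  have h7 : y ≤ y ^ 2 := by nlinarith
  have h8 : x * 12 ≤ x * v0 := mul_le_mul_of_nonneg_left hv0 (by linarith)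
  nlinarith

private theorem T2_pt (D : AL) {lam x v0 y : ℝ} (hl : 2 < lam) (hx : 12 ≤ x) (hv : x ≤ v0)
    (hy : (2 * v0 - 1) / √3 < y) (v : ℂ) (hn : ‖v‖ ≤ y + 1)
    (h2 : (v ^ 2).re = (y ^ 2 - 1) / 2 + √3 * y) (h3 : (v ^ 3).re = 3 * y ^ 2 - 1)
    (he : 1 ≤ (e3 * v).re) :
    ‖kk lam x v * QQ D lam v‖ ≤
      Real.pi ^ (lam / 2) * Real.exp (-lam * x * v0 ^ 2 / 3) * Real.exp (-y) := by
  obtain ⟨hy1, -, hr⟩ := T2_real hx hv hy
  have hQ := T2_QQ_le D lam (by linarith) v he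
  rw [norm_mul, T2_kk_norm, h2, h3]
  have hE : Real.exp (lam * (-x * ((y ^ 2 - 1) / 2 + √3 * y) + 2 / 3 * (3 * y ^ 2 - 1))) ≤
      Real.exp (-lam * x * v0 ^ 2 / 3) * Real.exp (-lam * y) := by
    rw [← Real.exp_add]
    refine Real.exp_le_exp.2 ?_
    have := mul_le_mul_of_nonneg_left hr (by linarith : 0 ≤ lam)
    linarith
  have hE2 : Real.exp (-lam * y) * (y + 1) ≤ Real.exp (-y) := by
    have h4 : y + 1 ≤ Real.exp y := Real.add_one_le_exp y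
    calc Real.exp (-lam * y) * (y + 1) ≤ Real.exp (-lam * y) * Real.exp y :=
          mul_le_mul_of_nonneg_left h4 (Real.exp_pos _).le
      _ = Real.exp (-lam * y + y) := by rw [Real.exp_add]
      _ ≤ Real.exp (-y) := by
          refine Real.exp_le_exp.2 ?_
          nlinarith
  calc Real.exp (lam * (-x * ((y ^ 2 - 1) / 2 + √3 * y) + 2 / 3 * (3 * y ^ 2 - 1))) * ‖v‖ *
        ‖QQ D lam v‖
      ≤ (Real.exp (-lam * x * v0 ^ 2 / 3) * Real.exp (-lam * y)) * (y + 1) *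
        Real.pi ^ (lam / 2) := by
        refine mul_le_mul (mul_le_mul hE hn (norm_nonneg _) (by positivity)) hQ (norm_nonneg _) ?_
        positivity
    _ = Real.pi ^ (lam / 2) * Real.exp (-lam * x * v0 ^ 2 / 3) *
        (Real.exp (-lam * y) * (y + 1)) := by ring
    _ ≤ _ := mul_le_mul_of_nonneg_left hE2 (by positivity)

private theorem T2_int (F : ℝ → ℂ) (M Y : ℝ) (hM : 0 ≤ M) (hY : 0 ≤ Y)
    (h : ∀ y, Y < y → ‖F y‖ ≤ M * Real.exp (-y)) : ‖∫ y in Set.Ioi Y, F y‖ ≤ M := by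
  have h1 : ‖∫ y in Set.Ioi Y, F y‖ ≤ ∫ y in Set.Ioi Y, M * Real.exp (-y) := by
    refine norm_integral_le_of_norm_le ((integrableOn_exp_neg_Ioi Y).const_mul M) ?_
    exact ae_restrict_of_forall_mem measurableSet_Ioi fun y hy => h y hy
  refine h1.trans ?_
  rw [integral_const_mul, integral_exp_neg_Ioi]
  have h2 : Real.exp (-Y) ≤ 1 := Real.exp_le_one_iff.2 (by linarith)
  nlinarith

theorem ray_bound (D : AL) (lam : ℝ) (hl : 2 < lam) : ∃ C x0 : ℝ, 0 < C ∧ 8 ≤ x0 ∧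
    ∀ x v0 : ℝ, x0 ≤ x → v0 = lam * x / (lam - 2) →
    ‖∫ y in Set.Ioi ((2 * v0 - 1) / √3), kk lam x (e6 * ((y : ℂ) - Complex.I)) *
          QQ D lam (e6 * ((y : ℂ) - Complex.I))‖ ≤ C * Real.exp (-lam * x * v0 ^ 2 / 3) ∧
    ‖∫ y in Set.Ioi ((2 * v0 - 1) / √3), kk lam x ((starRingEnd ℂ) e6 * ((y : ℂ) + Complex.I)) *
          QQ D lam ((starRingEnd ℂ) e6 * ((y : ℂ) + Complex.I))‖ ≤
      C * Real.exp (-lam * x * v0 ^ 2 / 3) := by
  refine ⟨Real.pi ^ (lam / 2), 12, by positivity, by norm_num, ?_⟩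
  intro x v0 hx hv0
  have hv : x ≤ v0 := by
    rw [hv0, le_div_iff₀ (by linarith)]
    nlinarith
  have h3 : (0 : ℝ) < √3 := Real.sqrt_pos.2 (by norm_num)
  have hY : 0 ≤ (2 * v0 - 1) / √3 := div_nonneg (by linarith) h3.le
  constructor
  · refine T2_int _ _ _ (by positivity) hY fun y hy => ?_
    obtain ⟨hy1, hy2, -⟩ := T2_real hx hv hy
    refine T2_pt D hl hx hv hy _ (T2_norm y (by linarith)) (T2_sq y) (T2_cube y) ?_
    have : e3 * (e6 * ((y : ℂ) - Complex.I)) = 1 + y * Complex.I := by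
      rw [← e6_sq]
      have h6 : e6 ^ 2 * (e6 * ((y : ℂ) - Complex.I)) = e6 ^ 3 * ((y : ℂ) - Complex.I) := by ring
      rw [h6, e6_cube]
      linear_combination -Complex.I_sq
    rw [this]
    simp
  · refine T2_int _ _ _ (by positivity) hY fun y hy => ?_
    obtain ⟨hy1, hy2, -⟩ := T2_real hx hv hy
    have hre : 1 ≤ (e3 * ((starRingEnd ℂ) e6 * ((y : ℂ) + Complex.I))).re := by
      rw [← mul_assoc, e3_e6, e6, Complex.mul_re]
      simp
      linarith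
    refine T2_pt D hl hx hv hy _ ?_ ?_ ?_ hre
    · rw [T2_conj, Complex.norm_conj]
      exact T2_norm y (by linarith)
    · rw [T2_conj, ← map_pow, Complex.conj_re]
      exact T2_sq y
    · rw [T2_conj, ← map_pow, Complex.conj_re]
      exact T2_cube y

end Pool.Agent.LibFR89
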