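import Mathlib
import Pool.Agent.LibFR89.Defs
import Pool.Agent.LibFR89.P2

/-!
# Row T3 (EASY/MEDIUM): crude bound on the outer part of the vertical segment

`(lam - 2) v0 = lam x`, `v = v0 + i η`: `Re v^2 = v0^2 - η^2`, `Re v^3 = v0^3 - 3 v0 η^2`;
`lam (-x Re v^2 + 2/3 Re v^3) = v0^3 (2 - lam/3) - (lam + 2) v0 η^2 ≤ -(lam - 2) v0^3/3 = -lam x v0^2/3` when
`(lam + 2) η^2 ≥ 4/3 v0^2`.  `‖v‖ ≤ 2 v0`, `Re (e3 v) = v0/2 - √3/2 η ≥ 1` for `η ≤ (v0 - 2)/√3`,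
`expL_norm_le`.
-/

set_option autoImplicit false

namespace Pool.Agent.LibFR89

open MeasureTheory Filter Topology

theorem crude_bound (D : AL) (lam : ℝ) (hl : 2 < lam) : ∃ C : ℝ, 0 < C ∧
    ∀ x v0 η : ℝ, 8 ≤ x → v0 = lam * x / (lam - 2) → |η| ≤ (v0 - 2) / √3 →
    4 * v0 ^ 2 / (3 * (lam + 2)) ≤ η ^ 2 →
    ‖kk lam x ((v0 : ℂ) + (η : ℂ) * Complex.I) * QQ D lam ((v0 : ℂ) + (η : ℂ) * Complex.I)‖ ≤
      C * x * Real.exp (-lam * x * v0 ^ 2 / 3) := by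
  have hpi := Real.pi_pos
  have hl2 : 0 < lam - 2 := by linarith
  refine ⟨2 * lam / (lam - 2) * Real.pi ^ (lam / 2), by positivity, ?_⟩
  intro x v0 η hx hv0 hη hη2
  have hx0 : 0 < x := by linarith
  have hv0pos : 0 < v0 := by rw [hv0]; positivity
  have h3 : (0 : ℝ) < √3 := Real.sqrt_pos.2 (by norm_num)
  have h3sq : √3 * √3 = 3 := Real.mul_self_sqrt (by norm_num)
  have h31 : (1 : ℝ) ≤ √3 := by
    rw [Real.one_le_sqrt]
    norm_num
  have hη3 : |η| * √3 ≤ v0 - 2 := by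
    rw [le_div_iff₀ h3] at hη
    exact hη
  have hηv : |η| ≤ v0 := by
    have : |η| * 1 ≤ |η| * √3 := mul_le_mul_of_nonneg_left h31 (abs_nonneg _)
    linarith
  have hlx : lam * x = (lam - 2) * v0 := by
    rw [hv0]
    field_simp
  set v : ℂ := (v0 : ℂ) + (η : ℂ) * Complex.I with hv
  have hre : v.re = v0 := by simp [hv]
  have him : v.im = η := by simp [hv]
  have hnv : ‖v‖ ≤ 2 * v0 := by
    have h1 := Complex.norm_le_abs_re_add_abs_im v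
    rw [hre, him, abs_of_pos hv0pos] at h1
    linarith
  -- the exponential
  have hexp : ‖Complex.exp ((lam : ℂ) * (-(x : ℂ) * v ^ 2 + 2 / 3 * v ^ 3))‖ ≤ Real.exp (-lam * x * v0 ^ 2 / 3) := by
    rw [Complex.norm_exp]
    apply Real.exp_le_exp.2
    have h1 : ((lam : ℂ) * (-(x : ℂ) * v ^ 2 + 2 / 3 * v ^ 3)).re =
        -(lam * x) * (v0 ^ 2 - η ^ 2) + 2 / 3 * lam * (v0 ^ 3 - 3 * v0 * η ^ 2) := by
      have h2 : (lam : ℂ) * (-(x : ℂ) * v ^ 2 + 2 / 3 * v ^ 3) =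
          ((-(lam * x) * (v0 ^ 2 - η ^ 2) + 2 / 3 * lam * (v0 ^ 3 - 3 * v0 * η ^ 2) : ℝ) : ℂ) +
          ((-(lam * x) * (2 * v0 * η) + 2 / 3 * lam * (3 * v0 ^ 2 * η - η ^ 3) : ℝ) : ℂ) * Complex.I := by
        rw [hv]
        push_cast
        linear_combination ((-(lam : ℂ) * x) * (η : ℂ) ^ 2 + 2 / 3 * lam * (3 * v0 * (η : ℂ) ^ 2 + (η : ℂ) ^ 3 * Complex.I)) * Complex.I_sq
      rw [h2, Complex.add_re, Complex.ofReal_re, Complex.re_ofReal_mul, Complex.I_re, mul_zero, add_zero]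
    rw [h1, hlx]
    have h4 : -lam * x * v0 ^ 2 / 3 = -((lam - 2) * v0) * v0 ^ 2 / 3 := by rw [← hlx]; ring
    rw [h4]
    have h5 : 4 * v0 ^ 2 / 3 ≤ (lam + 2) * η ^ 2 := by
      have h6 : 4 * v0 ^ 2 / (3 * (lam + 2)) = (4 * v0 ^ 2 / 3) / (lam + 2) := by
        rw [div_div]
      rw [h6, div_le_iff₀ (by linarith)] at hη2
      linarith
    have h7 : v0 * (4 * v0 ^ 2 / 3) ≤ v0 * ((lam + 2) * η ^ 2) := mul_le_mul_of_nonneg_left h5 hv0pos.le
    nlinarith [h7]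
  have hkk : ‖kk lam x v‖ ≤ Real.exp (-lam * x * v0 ^ 2 / 3) * (2 * v0) := by
    unfold kk
    rw [norm_mul]
    exact mul_le_mul hexp hnv (norm_nonneg _) (Real.exp_pos _).le
  have hre3 : 1 ≤ (e3 * v).re := by
    unfold e3
    rw [Complex.mul_re, hre, him]
    have h8 : η * √3 ≤ |η| * √3 := mul_le_mul_of_nonneg_right (le_abs_self η) h3.le
    have h9 : (1 / 2 : ℝ) * v0 - √3 / 2 * η = (v0 - η * √3) / 2 := by ring
    show 1 ≤ (1 / 2 : ℝ) * v0 - √3 / 2 * η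
    rw [h9]
    linarith
  have hQ : ‖QQ D lam v‖ ≤ Real.pi ^ (lam / 2) := by
    unfold QQ
    have h10 : (lam : ℂ) * (Complex.I * Real.pi / 6 + D.L (e3 * v)) =
        ((lam * Real.pi / 6 : ℝ) : ℂ) * Complex.I + (lam : ℂ) * D.L (e3 * v) := by
      push_cast
      ring
    rw [h10, Complex.exp_add, norm_mul, Complex.norm_exp_ofReal_mul_I, one_mul]
    refine (expL_norm_le D lam (by linarith) (e3 * v) (by linarith)).trans ?_
    apply Real.rpow_le_rpow (by positivity) _ (by linarith)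
    exact div_le_self hpi.le hre3
  rw [norm_mul]
  calc ‖kk lam x v‖ * ‖QQ D lam v‖ ≤ (Real.exp (-lam * x * v0 ^ 2 / 3) * (2 * v0)) * Real.pi ^ (lam / 2) :=
        mul_le_mul hkk hQ (norm_nonneg _) (by positivity)
    _ = 2 * lam / (lam - 2) * Real.pi ^ (lam / 2) * x * Real.exp (-lam * x * v0 ^ 2 / 3) := by
        have h11 : v0 = lam / (lam - 2) * x := by rw [hv0]; ring
        have h12 : 2 * lam / (lam - 2) * Real.pi ^ (lam / 2) * x * Real.exp (-lam * x * v0 ^ 2 / 3) =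
            2 * (lam / (lam - 2) * x) * Real.pi ^ (lam / 2) * Real.exp (-lam * x * v0 ^ 2 / 3) := by ring
        rw [h12, ← h11]
        ring

end Pool.Agent.LibFR89
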