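import Mathlib
import Pool.Agent.LibFR89.Defs
import Pool.Agent.LibFR89.T0
import Pool.Agent.LibFR89.A4
import Pool.Agent.LibFR89.A7
import Pool.Agent.LibFR89.A11
import Pool.Agent.LibFR89.A20
import Pool.Agent.LibFR89.E1
import Pool.Agent.LibFR89.E4

/-!
# Row T4 (MEDIUM/HARD): `QQ` is almost real: the difference is exponentially small

`0 < k < 1/√3`, `|Im v| ≤ k Re v`, so `|arg v| ≤ arctan k < π/6` and for `w = e3 v`, and for
`e3 conj v`, `Re w ≥ δ ‖w‖` with `δ = δ(k) > 0`.  Row E4 for `w = e3 v`, `log (e3 v) = i π/3 + log v`: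
`QQ v = exp (lam ((log π - log v)/2 + log (yf (e3 v))))`.  Likewise
`conj (QQ (conj v)) = exp (lam ((log π - log v)/2 + log (yf (conj e3 * v))))` (`log_conj`, `yf_conj`).
So the difference is `exp (lam (log π - log v)/2) * (Y^lam - Z^lam)`, `Y = yf (e3 v)`,
`Z = yf (conj e3 v)`, both within `1/2` of `1`; row E1 gives `≤ C ‖Y - Z‖`, and
`Y - Z = exp ((log v - log π)/2) (e6 Af (e3 v) - conj e6 Af (conj e3 v))
       = exp ((log v - log π)/2) * i exp (-4/3 v^3) Af v` (row A20), with `‖Af v‖ ≤ √(π/Re v)`.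
The powers of `‖v‖`: `(π/‖v‖)^(lam/2) (‖v‖/π)^(1/2) (π/Re v)^(1/2) ≤ C` for `1 ≤ ‖v‖`.
-/

set_option autoImplicit false

namespace Pool.Agent.LibFR89

open MeasureTheory Filter Topology

private theorem T4_log_rot (v : ℂ) (hv : 0 < v.re) :
    Complex.log (e3 * v) = Complex.I * Real.pi / 3 + Complex.log v := by
  have hv0 : v ≠ 0 := by
    intro h
    rw [h] at hv
    simp at hv
  have he0 : e3 ≠ 0 := by
    intro h
    have := norm_e3
    rw [h, norm_zero] at this
    norm_num at this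
  have hπ := Real.pi_pos
  have hl : Complex.log e3 = Complex.I * Real.pi / 3 := by
    rw [e3_exp, Complex.log_exp]
    · simp
      linarith
    · simp
      linarith
  have harg : Complex.arg e3 = Real.pi / 3 := by
    have h1 := congrArg Complex.im hl
    rw [Complex.log_im] at h1
    rw [h1]
    simp
  have hav := (Complex.abs_arg_lt_pi_div_two_iff (z := v)).mpr (Or.inl hv)
  rw [abs_lt] at hav
  rw [Complex.log_mul he0 hv0, hl]
  rw [harg]
  constructor
  · linarith [hav.1]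
  · linarith [hav.2]

private theorem T4_log_rot' (v : ℂ) (hv : 0 < v.re) :
    Complex.log ((starRingEnd ℂ) e3 * v) = -(Complex.I * Real.pi / 3) + Complex.log v := by
  have hv0 : v ≠ 0 := by
    intro h
    rw [h] at hv
    simp at hv
  have he0 : (starRingEnd ℂ) e3 ≠ 0 := by
    intro h
    have := norm_e3
    rw [← RCLike.norm_conj, h, norm_zero] at this
    norm_num at this
  have hπ := Real.pi_pos
  have hc : (starRingEnd ℂ) e3 = Complex.exp (-(Complex.I * Real.pi / 3)) := by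
    rw [e3_exp, ← Complex.exp_conj]
    congr 1
    rw [map_div₀, map_mul, Complex.conj_I, Complex.conj_ofReal, map_ofNat]
    ring
  have hl : Complex.log ((starRingEnd ℂ) e3) = -(Complex.I * Real.pi / 3) := by
    rw [hc, Complex.log_exp]
    · simp
      linarith
    · simp
      linarith
  have harg : Complex.arg ((starRingEnd ℂ) e3) = -(Real.pi / 3) := by
    have h1 := congrArg Complex.im hl
    rw [Complex.log_im] at h1
    rw [h1]
    simp
  have hav := (Complex.abs_arg_lt_pi_div_two_iff (z := v)).mpr (Or.inl hv)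
  rw [abs_lt] at hav
  rw [Complex.log_mul he0 hv0, hl]
  rw [harg]
  constructor
  · linarith [hav.1]
  · linarith [hav.2]

private theorem T4_QQ (D : AL) (lam : ℝ) (v : ℂ) (hv : 0 < v.re)
    (hL : D.L (e3 * v) = ((Real.log Real.pi : ℂ) - Complex.log (e3 * v)) / 2 +
      Complex.log (yf (e3 * v))) :
    QQ D lam v = Complex.exp ((lam : ℂ) * (((Real.log Real.pi : ℂ) - Complex.log v) / 2)) *
      Complex.exp ((lam : ℂ) * Complex.log (yf (e3 * v))) := by
  unfold QQ
  rw [hL, T4_log_rot v hv, ← Complex.exp_add]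
  congr 1
  ring

private theorem T4_yf1 (v : ℂ) (hv : 0 < v.re) :
    yf (e3 * v) = Complex.exp ((Complex.log v - (Real.log Real.pi : ℂ)) / 2) *
      (e6 * Af (e3 * v)) := by
  unfold yf
  rw [T4_log_rot v hv, e6_exp]
  have : (Complex.I * Real.pi / 3 + Complex.log v - (Real.log Real.pi : ℂ)) / 2 =
      (Complex.log v - (Real.log Real.pi : ℂ)) / 2 + Complex.I * Real.pi / 6 := by ring
  rw [this, Complex.exp_add]
  ring

private theorem T4_yf2 (v : ℂ) (hv : 0 < v.re) :
    yf ((starRingEnd ℂ) e3 * v) = Complex.exp ((Complex.log v - (Real.log Real.pi : ℂ)) / 2) *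
      ((starRingEnd ℂ) e6 * Af ((starRingEnd ℂ) e3 * v)) := by
  unfold yf
  rw [T4_log_rot' v hv, e6_exp, ← Complex.exp_conj]
  have : (-(Complex.I * Real.pi / 3) + Complex.log v - (Real.log Real.pi : ℂ)) / 2 =
      (Complex.log v - (Real.log Real.pi : ℂ)) / 2 +
        (starRingEnd ℂ) (Complex.I * Real.pi / 6) := by
    rw [map_div₀, map_mul, Complex.conj_I, Complex.conj_ofReal, map_ofNat]
    ring
  rw [this, Complex.exp_add]
  ring

private theorem T4_conj_log (v : ℂ) (hv : 0 < v.re) :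
    (starRingEnd ℂ) (Complex.log ((starRingEnd ℂ) v)) = Complex.log v := by
  have hav := (Complex.abs_arg_lt_pi_div_two_iff (z := v)).mpr (Or.inl hv)
  rw [abs_lt] at hav
  rw [Complex.log_conj v (by linarith [hav.2, Real.pi_pos]), Complex.conj_conj]

theorem QQ_diff (D : AL) (lam : ℝ) (hl : 0 < lam) (k : ℝ) (hk : 0 < k) (hk2 : k < 1 / √3) :
    ∃ C V0 : ℝ, 0 < C ∧ 1 ≤ V0 ∧ ∀ v : ℂ, V0 ≤ v.re → |v.im| ≤ k * v.re →
    ‖QQ D lam v - (starRingEnd ℂ) (QQ D lam ((starRingEnd ℂ) v))‖ ≤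
      C * Real.exp (-(4 / 3) * (v ^ 3).re) := by
  have hs : 0 < √3 := Real.sqrt_pos.mpr (by norm_num)
  have hsk : √3 * k < 1 := by
    rw [lt_div_iff₀ hs] at hk2
    linarith
  obtain ⟨δ, hδ⟩ : ∃ δ : ℝ, δ = (1 - √3 * k) / (2 * (1 + k)) := ⟨_, rfl⟩
  have hδ0 : 0 < δ := by
    rw [hδ]
    apply div_pos <;> linarith
  have hδe : δ * (1 + k) = (1 - √3 * k) / 2 := by
    rw [hδ]
    field_simp
  obtain ⟨W, hW1, hW⟩ := L_eq D δ hδ0
  obtain ⟨C1, hC1, hlip⟩ := pow_lip lam
  refine ⟨Real.exp (lam * Real.log Real.pi / 2) * C1 * √(1 + k), W, ?_, hW1, ?_⟩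
  · have : 0 < √(1 + k) := Real.sqrt_pos.mpr (by linarith)
    positivity
  intro v hv him
  have hre : 0 < v.re := by linarith
  have hre1 : 1 ≤ v.re := by linarith
  have hnv : v.re ≤ ‖v‖ := Complex.re_le_norm v
  have hnv2 : ‖v‖ ≤ (1 + k) * v.re := by
    have h1 := Complex.norm_le_abs_re_add_abs_im v
    rw [abs_of_pos hre] at h1
    linarith
  obtain ⟨him1, him2⟩ := abs_le.mp him
  have hδv : δ * ‖v‖ ≤ (1 - √3 * k) / 2 * v.re := by
    calc δ * ‖v‖ ≤ δ * ((1 + k) * v.re) := mul_le_mul_of_nonneg_left hnv2 hδ0.le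
      _ = (1 - √3 * k) / 2 * v.re := by rw [← mul_assoc, hδe]
  have hr1 : (e3 * v).re = v.re / 2 - √3 / 2 * v.im := by
    simp [e3, Complex.mul_re]
    ring
  have hr2 : ((starRingEnd ℂ) e3 * v).re = v.re / 2 + √3 / 2 * v.im := by
    simp [e3, Complex.mul_re]
    ring
  have hr3 : (e3 * (starRingEnd ℂ) v).re = v.re / 2 + √3 / 2 * v.im := by
    simp [e3, Complex.mul_re]
    ring
  have hb1 : (1 - √3 * k) / 2 * v.re ≤ (e3 * v).re := by
    rw [hr1]
    nlinarith [mul_le_mul_of_nonneg_left him2 hs.le]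
  have hb2 : (1 - √3 * k) / 2 * v.re ≤ v.re / 2 + √3 / 2 * v.im := by
    nlinarith [mul_le_mul_of_nonneg_left him1 hs.le]
  have hpos : 0 < (1 - √3 * k) / 2 * v.re := by
    apply mul_pos _ hre
    linarith
  have hn1 : ‖e3 * v‖ = ‖v‖ := by rw [norm_mul, norm_e3, one_mul]
  have hn3 : ‖e3 * (starRingEnd ℂ) v‖ = ‖v‖ := by
    rw [norm_mul, norm_e3, one_mul, RCLike.norm_conj]
  obtain ⟨hY, hLY⟩ := hW (e3 * v) (by rw [hn1]; linarith) (by rw [hn1]; linarith)
  obtain ⟨hZc, hLZ⟩ := hW (e3 * (starRingEnd ℂ) v) (by rw [hn3]; linarith)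
    (by rw [hn3, hr3]; linarith)
  have hcv : e3 * (starRingEnd ℂ) v = (starRingEnd ℂ) ((starRingEnd ℂ) e3 * v) := by
    rw [map_mul, Complex.conj_conj]
  have hZe : yf (e3 * (starRingEnd ℂ) v) = (starRingEnd ℂ) (yf ((starRingEnd ℂ) e3 * v)) := by
    rw [hcv]
    apply yf_conj
    rw [hr2]
    linarith
  have hZ : ‖yf ((starRingEnd ℂ) e3 * v) - 1‖ ≤ 1 / 2 := by
    rw [hZe] at hZc
    rw [← RCLike.norm_conj, map_sub, map_one]
    exact hZc
  have hQ1 := T4_QQ D lam v hre hLY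
  have hQ2 := T4_QQ D lam ((starRingEnd ℂ) v) (by simpa using hre) hLZ
  have hZre : 0 < (yf ((starRingEnd ℂ) e3 * v)).re := by
    have h1 := Complex.abs_re_le_norm (yf ((starRingEnd ℂ) e3 * v) - 1)
    rw [Complex.sub_re, Complex.one_re] at h1
    have h2 := abs_le.mp (h1.trans hZ)
    linarith [h2.1]
  have hQ3 : (starRingEnd ℂ) (QQ D lam ((starRingEnd ℂ) v)) =
      Complex.exp ((lam : ℂ) * (((Real.log Real.pi : ℂ) - Complex.log v) / 2)) *
      Complex.exp ((lam : ℂ) * Complex.log (yf ((starRingEnd ℂ) e3 * v))) := by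
    rw [hQ2, hZe, map_mul, ← Complex.exp_conj, ← Complex.exp_conj]
    simp only [map_mul, map_div₀, map_sub, Complex.conj_ofReal, map_ofNat]
    rw [T4_conj_log v hre, T4_conj_log _ hZre]
  have hYZ : yf (e3 * v) - yf ((starRingEnd ℂ) e3 * v) =
      Complex.exp ((Complex.log v - (Real.log Real.pi : ℂ)) / 2) *
      (Complex.I * Complex.exp (-(4 / 3) * v ^ 3) * Af v) := by
    rw [T4_yf1 v hre, T4_yf2 v hre, ← mul_sub, q_diff v hre (by linarith) (by rw [hr2]; linarith)]
  have hv1 : 1 ≤ ‖v‖ := by linarith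
  have hlogv : 0 ≤ Real.log ‖v‖ := Real.log_nonneg hv1
  have hnA := Af_bound v hre
  have hnYZ : ‖yf (e3 * v) - yf ((starRingEnd ℂ) e3 * v)‖ ≤
      √(1 + k) * Real.exp (-(4 / 3) * (v ^ 3).re) := by
    rw [hYZ, norm_mul, norm_mul, norm_mul, Complex.norm_I, one_mul, Complex.norm_exp,
      Complex.norm_exp]
    have e1 : ((Complex.log v - (Real.log Real.pi : ℂ)) / 2).re =
        Real.log (‖v‖ / Real.pi) / 2 := by
      rw [Real.log_div (by linarith) Real.pi_ne_zero]
      have : (Complex.log v - (Real.log Real.pi : ℂ)) / 2 =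
        (((1 / 2 : ℝ)) : ℂ) * (Complex.log v - (Real.log Real.pi : ℂ)) := by
        push_cast
        ring
      rw [this, Complex.re_ofReal_mul, Complex.sub_re, Complex.log_re, Complex.ofReal_re]
      ring
    have e2 : (-(4 / 3) * v ^ 3 : ℂ).re = -(4 / 3) * (v ^ 3).re := by
      have : (-(4 / 3) * v ^ 3 : ℂ) = ((-(4 / 3) : ℝ) : ℂ) * v ^ 3 := by
        push_cast
        ring
      rw [this, Complex.re_ofReal_mul]
    have e3' : Real.exp (Real.log (‖v‖ / Real.pi) / 2) = √(‖v‖ / Real.pi) := by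
      rw [Real.exp_half, Real.exp_log (div_pos (by linarith) Real.pi_pos)]
    rw [e1, e2, e3']
    calc √(‖v‖ / Real.pi) * (Real.exp (-(4 / 3) * (v ^ 3).re) * ‖Af v‖)
        ≤ √(‖v‖ / Real.pi) * (Real.exp (-(4 / 3) * (v ^ 3).re) * √(Real.pi / v.re)) := by
          gcongr
      _ = √(‖v‖ / Real.pi * (Real.pi / v.re)) * Real.exp (-(4 / 3) * (v ^ 3).re) := by
          rw [Real.sqrt_mul (div_nonneg (norm_nonneg _) Real.pi_pos.le)]
          ring
      _ ≤ √(1 + k) * Real.exp (-(4 / 3) * (v ^ 3).re) := by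
          apply mul_le_mul_of_nonneg_right _ (Real.exp_pos _).le
          apply Real.sqrt_le_sqrt
          rw [div_mul_div_cancel₀ Real.pi_ne_zero, div_le_iff₀ hre]
          exact hnv2
  rw [hQ1, hQ3, ← mul_sub, norm_mul, Complex.norm_exp]
  have e4 : ((lam : ℂ) * (((Real.log Real.pi : ℂ) - Complex.log v) / 2)).re =
      lam * (Real.log Real.pi - Real.log ‖v‖) / 2 := by
    have : (lam : ℂ) * (((Real.log Real.pi : ℂ) - Complex.log v) / 2) =
        ((lam / 2 : ℝ) : ℂ) * ((Real.log Real.pi : ℂ) - Complex.log v) := by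
      push_cast
      ring
    rw [this, Complex.re_ofReal_mul, Complex.sub_re, Complex.log_re, Complex.ofReal_re]
    ring
  rw [e4]
  have h5 : Real.exp (lam * (Real.log Real.pi - Real.log ‖v‖) / 2) ≤
      Real.exp (lam * Real.log Real.pi / 2) := by
    apply Real.exp_le_exp.mpr
    nlinarith [mul_nonneg hl.le hlogv]
  have h6 := hlip (yf (e3 * v)) (yf ((starRingEnd ℂ) e3 * v)) (by linarith) (by linarith)
  calc Real.exp (lam * (Real.log Real.pi - Real.log ‖v‖) / 2) *
        ‖Complex.exp ((lam : ℂ) * Complex.log (yf (e3 * v))) -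
          Complex.exp ((lam : ℂ) * Complex.log (yf ((starRingEnd ℂ) e3 * v)))‖
      ≤ Real.exp (lam * Real.log Real.pi / 2) *
        (C1 * (√(1 + k) * Real.exp (-(4 / 3) * (v ^ 3).re))) := by
        apply mul_le_mul h5 _ (norm_nonneg _) (Real.exp_pos _).le
        exact h6.trans (mul_le_mul_of_nonneg_left hnYZ hC1.le)
    _ = Real.exp (lam * Real.log Real.pi / 2) * C1 * √(1 + k) *
        Real.exp (-(4 / 3) * (v ^ 3).re) := by ring

end Pool.Agent.LibFR89
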