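import Mathlib
import Pool.Agent.LibFR89.Defs
import Pool.Agent.LibFR89.T1
import Pool.Agent.LibFR89.T2
import Pool.Agent.LibFR89.T3
import Pool.Agent.LibFR89.T4

/-!
# Row T5 (MEDIUM): bound of the typical term

`σ = x e3`, `σ^3 = -x^3`, `log σ = log x + i π/3`.  Row T1 with `v0 = lam x/(lam - 2)`: the phases
multiply to `i` (`exp ((lam-1)/2 i π/3) e3^2 exp (-i π lam/6) = i`), so the imaginary part of the
left side is `exp (lam x^3/3) x^((lam-1)/2) * Re K`, where `K` is the bracket of row T1.  The two rays: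
row T2.  Middle term `K2 = -I ∫_{-η1}^{η1} F(η) dη`, `F η = kk (v0 + i η) QQ (v0 + i η)`:
`2 Re K2 = K2 + conj K2 = -I ∫ (F η - conj (F (-η))) dη` (substitution `η ↦ -η` in the conjugate),
`conj (kk (conj v)) = kk v`, so `F η - conj (F (-η)) = kk v * (QQ v - conj (QQ (conj v)))`.
For `η^2 ≤ 4 v0^2/(3 (lam+2))` (`k = √(4/(3 (lam+2))) < 1/√3`) row T4 and
`‖kk v‖ exp (-4/3 Re v^3) = ‖v‖ exp (-(lam-2) (v0^3/3 + v0 η^2)) ≤ 2 v0 exp (-lam x v0^2/3)`;
otherwise row T3 for `η` and `-η`.  `x v0^2 = lam^2 x^3/(lam-2)^2`, lengths at most `2 v0 ≤ C x`.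
-/

set_option autoImplicit false

namespace Pool.Agent.LibFR89

open MeasureTheory Filter Topology

private theorem T5_e3 : e3 = Complex.exp ((Real.pi / 3 : ℝ) * Complex.I) := by
  rw [Complex.exp_mul_I, ← Complex.ofReal_cos, ← Complex.ofReal_sin, Real.cos_pi_div_three,
    Real.sin_pi_div_three]
  apply Complex.ext
  · simp [e3]
  · simp [e3]

private theorem T5_norm_e6 : ‖e6‖ = 1 := by
  have h : Complex.normSq e6 = 1 := by
    have h3 : √3 * √3 = 3 := Real.mul_self_sqrt (by norm_num)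
    rw [Complex.normSq_apply]
    simp only [e6]
    nlinarith
  rw [Complex.norm_def, h, Real.sqrt_one]

private theorem T5_phase (lam x : ℝ) (hx : 0 < x) :
    Complex.exp (-(lam : ℂ) * ((x : ℂ) * e3) ^ 3 / 3 +
        ((lam : ℂ) - 1) / 2 * Complex.log ((x : ℂ) * e3)) *
      (e3 ^ 2 * Complex.exp (-(Complex.I * Real.pi * lam / 6))) =
    ((Real.exp (lam * x ^ 3 / 3) * x ^ ((lam - 1) / 2) : ℝ) : ℂ) * Complex.I := by
  have hI : Complex.exp ((Real.pi / 2 : ℝ) * Complex.I) = Complex.I := by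
    rw [Complex.exp_mul_I, ← Complex.ofReal_cos, ← Complex.ofReal_sin, Real.cos_pi_div_two,
      Real.sin_pi_div_two]
    simp
  have h1 : (x : ℂ) * e3 = Complex.exp ((Real.log x : ℝ) + (Real.pi / 3 : ℝ) * Complex.I) := by
    rw [Complex.exp_add, ← T5_e3, ← Complex.ofReal_exp, Real.exp_log hx]
  have h2 : Complex.log ((x : ℂ) * e3) = (Real.log x : ℝ) + (Real.pi / 3 : ℝ) * Complex.I := by
    rw [h1, Complex.log_exp]
    · simp only [Complex.add_im, Complex.ofReal_im, Complex.mul_im, Complex.ofReal_re,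
        Complex.I_im, Complex.I_re]
      have := Real.pi_pos
      nlinarith
    · simp only [Complex.add_im, Complex.ofReal_im, Complex.mul_im, Complex.ofReal_re,
        Complex.I_im, Complex.I_re]
      have := Real.pi_pos
      nlinarith
  have h3 : e3 ^ 3 = -1 := by
    rw [T5_e3, ← Complex.exp_nat_mul, ← Complex.exp_pi_mul_I]
    congr 1
    push_cast
    ring
  have h4 : e3 ^ 2 = Complex.exp ((2 * Real.pi / 3 : ℝ) * Complex.I) := by
    rw [T5_e3, ← Complex.exp_nat_mul]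
    congr 1
    push_cast
    ring
  have h5 : ((Real.exp (lam * x ^ 3 / 3) * x ^ ((lam - 1) / 2) : ℝ) : ℂ) =
      Complex.exp ((lam * x ^ 3 / 3 + Real.log x * ((lam - 1) / 2) : ℝ) : ℂ) := by
    rw [Real.rpow_def_of_pos hx, ← Real.exp_add, Complex.ofReal_exp]
  rw [h2, mul_pow, h3, h4, h5, ← Complex.exp_add, ← Complex.exp_add]
  rw [← hI]
  rw [← Complex.exp_add, hI]
  congr 1
  push_cast
  ring

private theorem T5_int (F : ℝ → ℂ) (h B : ℝ) (hh : 0 ≤ h)
    (hB : ∀ η : ℝ, |η| ≤ h → ‖F η - (starRingEnd ℂ) (F (-η))‖ ≤ B) :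
    |(-(Complex.I * ∫ η in (-h)..h, F η)).re| ≤ h * B := by
  have hB0 : 0 ≤ B := (norm_nonneg _).trans (hB 0 (by rw [abs_zero]; exact hh))
  by_cases hi : IntervalIntegrable F volume (-h) h
  · have h1 : (starRingEnd ℂ) (∫ η in (-h)..h, F η) =
        ∫ η in (-h)..h, (starRingEnd ℂ) (F (-η)) := by
      rw [← intervalIntegral.intervalIntegral_conj]
      rw [intervalIntegral.integral_comp_neg (fun η => (starRingEnd ℂ) (F η)), neg_neg]
    have hi2 : IntervalIntegrable (fun η => (starRingEnd ℂ) (F (-η))) volume (-h) h := by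
      have h2 : IntervalIntegrable (fun η => F (-η)) volume (-h) h := by
        have h3 := (IntervalIntegrable.iff_comp_neg (f := F) (a := -h) (b := h)).1 hi
        rw [neg_neg] at h3
        exact h3.symm
      exact ⟨Complex.conjCLE.toContinuousLinearMap.integrable_comp h2.1,
        Complex.conjCLE.toContinuousLinearMap.integrable_comp h2.2⟩
    have h4 : (∫ η in (-h)..h, F η) - (starRingEnd ℂ) (∫ η in (-h)..h, F η) =
        ∫ η in (-h)..h, (F η - (starRingEnd ℂ) (F (-η))) := by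
      rw [h1, intervalIntegral.integral_sub hi hi2]
    have h5 := intervalIntegral.norm_integral_le_of_norm_le_const (a := -h) (b := h) (C := B)
      (f := fun η => F η - (starRingEnd ℂ) (F (-η))) (by
        intro η hη
        rw [Set.uIoc_of_le (by linarith)] at hη
        exact hB η (abs_le.2 ⟨hη.1.le, hη.2⟩))
    rw [← h4, Complex.sub_conj, norm_mul, Complex.norm_I, mul_one, Complex.norm_real,
      Real.norm_eq_abs, abs_mul, abs_of_pos (by norm_num : (0 : ℝ) < 2),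
      show h - -h = 2 * h by ring, abs_of_nonneg (by positivity : 0 ≤ 2 * h)] at h5
    have h6 : (-(Complex.I * ∫ η in (-h)..h, F η)).re = (∫ η in (-h)..h, F η).im := by
      simp
    rw [h6]
    linarith
  · rw [intervalIntegral.integral_undef hi]
    simp only [mul_zero, neg_zero, Complex.zero_re, abs_zero]
    positivity

private theorem T5_kk_conj (lam x : ℝ) (v : ℂ) :
    (starRingEnd ℂ) (kk lam x ((starRingEnd ℂ) v)) = kk lam x v := by
  rw [kk, kk, map_mul, ← Complex.exp_conj, Complex.conj_conj]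
  simp only [map_mul, map_add, map_neg, map_pow, map_div₀, Complex.conj_conj, Complex.conj_ofReal,
    map_ofNat]

private theorem T5_kk_norm (lam x v0 η : ℝ) (hv : lam * x = (lam - 2) * v0) :
    ‖kk lam x ((v0 : ℂ) + (η : ℂ) * Complex.I)‖ *
      Real.exp (-(4 / 3) * (((v0 : ℂ) + (η : ℂ) * Complex.I) ^ 3).re) =
    ‖(v0 : ℂ) + (η : ℂ) * Complex.I‖ * Real.exp (-lam * x * v0 ^ 2 / 3 - (lam - 2) * v0 * η ^ 2) := by
  rw [kk, norm_mul, Complex.norm_exp, mul_right_comm, ← Real.exp_add, mul_comm]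
  congr 2
  have h2 : (((v0 : ℂ) + (η : ℂ) * Complex.I) ^ 2).re = v0 ^ 2 - η ^ 2 := by
    simp [pow_succ]
  have h3 : (((v0 : ℂ) + (η : ℂ) * Complex.I) ^ 3).re = v0 ^ 3 - 3 * v0 * η ^ 2 := by
    simp [pow_succ]
    ring
  have h4 : ((lam : ℂ) * (-(x : ℂ) * ((v0 : ℂ) + (η : ℂ) * Complex.I) ^ 2 +
      2 / 3 * ((v0 : ℂ) + (η : ℂ) * Complex.I) ^ 3)).re =
      lam * (-x * (((v0 : ℂ) + (η : ℂ) * Complex.I) ^ 2).re +
        2 / 3 * (((v0 : ℂ) + (η : ℂ) * Complex.I) ^ 3).re) := by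
    rw [Complex.re_ofReal_mul, Complex.add_re, ← Complex.ofReal_neg, Complex.re_ofReal_mul]
    have h5 : (2 / 3 : ℂ) = ((2 / 3 : ℝ) : ℂ) := by push_cast; ring
    rw [h5, Complex.re_ofReal_mul]
  rw [h4, h2, h3]
  have h6 : lam * (-x * (v0 ^ 2 - η ^ 2) + 2 / 3 * (v0 ^ 3 - 3 * v0 * η ^ 2)) =
      -(lam * x) * (v0 ^ 2 - η ^ 2) + 2 / 3 * lam * (v0 ^ 3 - 3 * v0 * η ^ 2) := by ring
  have h7 : -lam * x * v0 ^ 2 / 3 = -(lam * x) * v0 ^ 2 / 3 := by ring
  rw [h6, h7, hv]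
  ring

theorem typical (D : AL) (lam : ℝ) (hl : 2 < lam) : ∃ (C x0 : ℝ) (n : ℕ), 0 < C ∧ 8 ≤ x0 ∧
    ∀ x : ℝ, x0 ≤ x →
    |(Complex.exp (-(lam : ℂ) * ((x : ℂ) * e3) ^ 3 / 3 +
        ((lam : ℂ) - 1) / 2 * Complex.log ((x : ℂ) * e3)) * JJ D lam ((x : ℂ) * e3)).im| ≤
      C * x ^ n * Real.exp (lam * x ^ 3 / 3 - lam ^ 3 * x ^ 3 / (3 * (lam - 2) ^ 2)) := by
  obtain ⟨C2, x2, hC2, hx2, H2⟩ := ray_bound D lam hl
  obtain ⟨C3, hC3, H3⟩ := crude_bound D lam hl
  have hk : 0 < √(4 / (3 * (lam + 2))) := Real.sqrt_pos.2 (by positivity)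
  have hk2 : √(4 / (3 * (lam + 2))) < 1 / √3 := by
    rw [← Real.sqrt_one, ← Real.sqrt_div (by norm_num)]
    refine Real.sqrt_lt_sqrt (by positivity) ?_
    rw [div_lt_div_iff₀ (by positivity) (by norm_num)]
    linarith
  obtain ⟨C4, V0, hC4, hV0, H4⟩ := QQ_diff D lam (by linarith) (√(4 / (3 * (lam + 2)))) hk hk2
  have hl2 : 0 < lam - 2 := by linarith
  set c : ℝ := lam / (lam - 2) with hc
  have hc1 : 1 ≤ c := by
    rw [hc, le_div_iff₀ hl2]
    linarith
  refine ⟨2 * C2 + c * (2 * C3 + 2 * c * C4), max x2 V0, ⌈(lam - 1) / 2⌉₊ + 2, by positivity,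
    hx2.trans (le_max_left _ _), ?_⟩
  intro x hx
  have hxx2 : x2 ≤ x := (le_max_left _ _).trans hx
  have hxV : V0 ≤ x := (le_max_right _ _).trans hx
  have hx8 : 8 ≤ x := hx2.trans hxx2
  have hx0 : 0 < x := by linarith
  have hx1 : 1 ≤ x := by linarith
  set v0 : ℝ := lam * x / (lam - 2) with hv0
  have hvc : v0 = c * x := by rw [hv0, hc]; ring
  have hvx : x ≤ v0 := by
    rw [hvc]
    nlinarith
  have hv4 : 4 ≤ v0 := by linarith
  have hlx : lam * x = (lam - 2) * v0 := by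
    rw [hv0]
    field_simp
  have hs3 : 0 < √(3 : ℝ) := Real.sqrt_pos.2 (by norm_num)
  have hs31 : 1 ≤ √(3 : ℝ) := by
    rw [← Real.sqrt_one]
    exact Real.sqrt_le_sqrt (by norm_num)
  set E : ℝ := Real.exp (-lam * x * v0 ^ 2 / 3) with hE
  have hE0 : 0 < E := Real.exp_pos _
  obtain ⟨hr1, hr2⟩ := H2 x v0 hxx2 hv0
  set h : ℝ := (v0 - 2) / √3 with hh
  have hh0 : 0 ≤ h := div_nonneg (by linarith) hs3.le
  have hhv : h ≤ v0 := by
    rw [hh, div_le_iff₀ hs3]
    nlinarith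
  set F : ℝ → ℂ := fun η => kk lam x ((v0 : ℂ) + (η : ℂ) * Complex.I) *
    QQ D lam ((v0 : ℂ) + (η : ℂ) * Complex.I) with hF
  have hB : ∀ η : ℝ, |η| ≤ h → ‖F η - (starRingEnd ℂ) (F (-η))‖ ≤
      (2 * C3 * x + 2 * v0 * C4) * E := by
    intro η hη
    have hp1 : 0 ≤ 2 * C3 * x * E := by positivity
    have hp2 : 0 ≤ 2 * v0 * C4 * E := by
      have : 0 ≤ v0 := by linarith
      positivity
    rcases le_total (4 * v0 ^ 2 / (3 * (lam + 2))) (η ^ 2) with hc1 | hc1
    · have h1 := H3 x v0 η hx8 hv0 hη hc1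
      have h2 := H3 x v0 (-η) hx8 hv0 (by rw [abs_neg]; exact hη) (by rw [neg_sq]; exact hc1)
      have h3 : ‖F η - (starRingEnd ℂ) (F (-η))‖ ≤ ‖F η‖ + ‖F (-η)‖ := by
        refine (norm_sub_le _ _).trans (le_of_eq ?_)
        rw [Complex.norm_conj]
      have h4 : ‖F η‖ ≤ C3 * x * E := h1
      have h5 : ‖F (-η)‖ ≤ C3 * x * E := h2
      linarith
    · have hv0' : 0 < v0 := by linarith
      set v : ℂ := (v0 : ℂ) + (η : ℂ) * Complex.I with hv
      have hvr : v.re = v0 := by simp [hv]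
      have hvi : v.im = η := by simp [hv]
      have hcv : (v0 : ℂ) + ((-η : ℝ) : ℂ) * Complex.I = (starRingEnd ℂ) v := by
        rw [hv, map_add, map_mul, Complex.conj_ofReal, Complex.conj_ofReal, Complex.conj_I]
        push_cast
        ring
      have h1 : F η - (starRingEnd ℂ) (F (-η)) =
          kk lam x v * (QQ D lam v - (starRingEnd ℂ) (QQ D lam ((starRingEnd ℂ) v))) := by
        simp only [hF]
        rw [hcv, map_mul, T5_kk_conj]
        ring
      have h2 : |v.im| ≤ √(4 / (3 * (lam + 2))) * v.re := by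
        rw [hvr, hvi]
        refine abs_le_of_sq_le_sq ?_ (by positivity)
        rw [mul_pow, Real.sq_sqrt (by positivity)]
        refine hc1.trans (le_of_eq ?_)
        ring
      have h3 := H4 v (by rw [hvr]; linarith) h2
      have h4 := T5_kk_norm lam x v0 η hlx
      have h5 : ‖v‖ ≤ 2 * v0 := by
        refine (Complex.norm_le_abs_re_add_abs_im v).trans ?_
        rw [hvr, hvi, abs_of_pos hv0']
        linarith
      have h6 : Real.exp (-lam * x * v0 ^ 2 / 3 - (lam - 2) * v0 * η ^ 2) ≤ E := by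
        refine Real.exp_le_exp.2 ?_
        have : 0 ≤ (lam - 2) * v0 * η ^ 2 := by positivity
        linarith
      rw [h1, norm_mul]
      calc ‖kk lam x v‖ * ‖QQ D lam v - (starRingEnd ℂ) (QQ D lam ((starRingEnd ℂ) v))‖
          ≤ ‖kk lam x v‖ * (C4 * Real.exp (-(4 / 3) * (v ^ 3).re)) :=
            mul_le_mul_of_nonneg_left h3 (norm_nonneg _)
        _ = C4 * (‖kk lam x v‖ * Real.exp (-(4 / 3) * (v ^ 3).re)) := by ring
        _ = C4 * (‖v‖ * Real.exp (-lam * x * v0 ^ 2 / 3 - (lam - 2) * v0 * η ^ 2)) := by rw [h4]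
        _ ≤ C4 * ((2 * v0) * E) := by
            refine mul_le_mul_of_nonneg_left ?_ hC4.le
            exact mul_le_mul h5 h6 (Real.exp_pos _).le (by linarith)
        _ ≤ (2 * C3 * x + 2 * v0 * C4) * E := by linarith
  have hI := T5_int F h _ hh0 hB
  rw [JJ_rot D lam (by linarith) x v0 hx8 hv4, ← mul_assoc, T5_phase lam x hx0]
  set I1 : ℂ := ∫ y in Set.Ioi ((2 * v0 - 1) / √3), kk lam x (e6 * ((y : ℂ) - Complex.I)) *
          QQ D lam (e6 * ((y : ℂ) - Complex.I)) with hI1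
  set I3 : ℂ := ∫ y in Set.Ioi ((2 * v0 - 1) / √3),
      kk lam x ((starRingEnd ℂ) e6 * ((y : ℂ) + Complex.I)) *
          QQ D lam ((starRingEnd ℂ) e6 * ((y : ℂ) + Complex.I)) with hI3
  have hcol : (∫ η in (-h)..h, kk lam x ((v0 : ℂ) + (η : ℂ) * Complex.I) *
      QQ D lam ((v0 : ℂ) + (η : ℂ) * Complex.I)) = ∫ η in (-h)..h, F η := rfl
  rw [hcol]
  set J : ℂ := ∫ η in (-h)..h, F η with hJ
  set K : ℂ := -(e6 * I1) - Complex.I * J + (starRingEnd ℂ) e6 * I3 with hK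
  have hKre : |K.re| ≤ (2 * C2 + c * (2 * C3 + 2 * c * C4)) * x ^ 2 * E := by
    have h1 : K.re = (-(e6 * I1)).re + (-(Complex.I * J)).re + ((starRingEnd ℂ) e6 * I3).re := by
      rw [hK, Complex.add_re, Complex.sub_re, Complex.neg_re (Complex.I * J), sub_eq_add_neg]
    have h2 : |(-(e6 * I1)).re| ≤ C2 * E := by
      refine (Complex.abs_re_le_norm _).trans ?_
      rw [norm_neg, norm_mul, T5_norm_e6, one_mul]
      exact hr1
    have h3 : |((starRingEnd ℂ) e6 * I3).re| ≤ C2 * E := by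
      refine (Complex.abs_re_le_norm _).trans ?_
      rw [norm_mul, Complex.norm_conj, T5_norm_e6, one_mul]
      exact hr2
    have h4 : |K.re| ≤ C2 * E + h * ((2 * C3 * x + 2 * v0 * C4) * E) + C2 * E := by
      rw [h1]
      refine (abs_add_le _ _).trans (add_le_add ((abs_add_le _ _).trans (add_le_add h2 hI)) h3)
    have h5 : h * ((2 * C3 * x + 2 * v0 * C4) * E) ≤
        (c * x) * ((2 * C3 * x + 2 * (c * x) * C4) * E) := by
      rw [← hvc]
      have : 0 ≤ (2 * C3 * x + 2 * v0 * C4) * E := by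
        have : 0 ≤ v0 := by linarith
        positivity
      exact mul_le_mul_of_nonneg_right hhv this
    have h6 : 2 * C2 * E ≤ 2 * C2 * x ^ 2 * E := by
      have : (1 : ℝ) ≤ x ^ 2 := one_le_pow₀ hx1
      have h7 : 2 * C2 * 1 ≤ 2 * C2 * x ^ 2 := mul_le_mul_of_nonneg_left this (by positivity)
      have h8 := mul_le_mul_of_nonneg_right h7 hE0.le
      linarith
    calc |K.re| ≤ C2 * E + h * ((2 * C3 * x + 2 * v0 * C4) * E) + C2 * E := h4
      _ ≤ 2 * C2 * x ^ 2 * E + (c * x) * ((2 * C3 * x + 2 * (c * x) * C4) * E) := by linarith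
      _ = (2 * C2 + c * (2 * C3 + 2 * c * C4)) * x ^ 2 * E := by ring
  have him : (((Real.exp (lam * x ^ 3 / 3) * x ^ ((lam - 1) / 2) : ℝ) : ℂ) * Complex.I * K).im =
      Real.exp (lam * x ^ 3 / 3) * x ^ ((lam - 1) / 2) * K.re := by
    rw [mul_assoc, Complex.im_ofReal_mul]
    congr 1
    simp
  rw [him, abs_mul, abs_of_pos (by positivity)]
  have hpow : x ^ ((lam - 1) / 2) ≤ x ^ ⌈(lam - 1) / 2⌉₊ := by
    rw [← Real.rpow_natCast]
    exact Real.rpow_le_rpow_of_exponent_le hx1 (Nat.le_ceil _)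
  have hEE : Real.exp (lam * x ^ 3 / 3) * E =
      Real.exp (lam * x ^ 3 / 3 - lam ^ 3 * x ^ 3 / (3 * (lam - 2) ^ 2)) := by
    rw [hE, ← Real.exp_add]
    congr 1
    rw [hv0]
    field_simp
    ring
  have hCp : 0 < 2 * C2 + c * (2 * C3 + 2 * c * C4) := by positivity
  calc Real.exp (lam * x ^ 3 / 3) * x ^ ((lam - 1) / 2) * |K.re|
      ≤ Real.exp (lam * x ^ 3 / 3) * x ^ ⌈(lam - 1) / 2⌉₊ *
        ((2 * C2 + c * (2 * C3 + 2 * c * C4)) * x ^ 2 * E) := by
        refine mul_le_mul ?_ hKre (abs_nonneg _) (by positivity)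
        exact mul_le_mul_of_nonneg_left hpow (Real.exp_pos _).le
    _ = (2 * C2 + c * (2 * C3 + 2 * c * C4)) * x ^ (⌈(lam - 1) / 2⌉₊ + 2) *
        (Real.exp (lam * x ^ 3 / 3) * E) := by
        rw [pow_add]
        ring
    _ = _ := by rw [hEE]

end Pool.Agent.LibFR89
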