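import Mathlib
import Pool.Agent.LibFR89.DefsR
import Pool.Agent.LibFR89.T0
import Pool.Agent.LibFR89.P6
import Pool.Agent.LibFR89.S11
import Pool.Agent.LibFR89.G5
import Pool.Agent.LibFR89.T5
import Pool.Agent.LibFR89.C4
import Pool.Agent.LibFR89.A19

/-!
# Row C5 (MEDIUM): negative averages

`s = sx D lam` resp. `-sx D lam` if `sin (π lam) < 0`; `b n = ± RR n lam * (-1/(72 lam))^n`.
`sx D lam ξ` for `σ = exp ξ`, `log σ = ξ` (`|Im ξ| < π`), `σ^3 = exp (3 ξ)`.
`hd`: row P6 (`Re (exp ξ) = exp (Re ξ) cos (Im ξ) ≥ exp (Re ξ)/2 > 2`).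
`hexp`: row S11 with `K = N + 1` (`‖σ‖ = exp (Re ξ)`, `Re σ ≥ ‖σ‖/2`, `0 ≤ Im σ`).
`hG`: row G5: `Im sx(t) sin (π lam) ≥ c exp (-lam exp (3t)/3 + (lam-1)/2 t - κ exp t) ≥ c' exp (-κ' exp (3t))` for
any `κ' > lam/3` and large `t`.  `hT`: row T5, `exp (t + i π/3) = exp t * e3`, any
`s' < lam^3/(3 (lam-2)^2) - lam/3`.  There is room: `lam/3 < lam^3/(3 (lam-2)^2) - lam/3` iff
`2 (lam-2)^2 < lam^2` iff `lam < 4 + 2 √2` (for `lam > 2`).
Row C4: `sin (π lam) > 0`: `RR N lam (-1/(72 lam))^N < 0` for all large `N`, take `N` even;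
`sin (π lam) < 0`: `RR N lam (-1/(72 lam))^N > 0` for all large `N`, take `N` odd.
-/

set_option autoImplicit false

namespace Pool.Agent.LibFR89

open MeasureTheory Filter Topology

open Pool.Agent.H69Cubic

private theorem C5_cos (y : ℝ) (h0 : 0 ≤ y) (h1 : y ≤ Real.pi / 3) : 1 / 2 ≤ Real.cos y := by
  rw [← Real.cos_pi_div_three]
  exact Real.cos_le_cos_of_nonneg_of_le_pi h0 (by linarith [Real.pi_pos]) h1

private theorem C5_sin (y : ℝ) (h0 : 0 ≤ y) (h1 : y ≤ Real.pi / 3) : 0 ≤ Real.sin y :=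
  Real.sin_nonneg_of_nonneg_of_le_pi h0 (by linarith [Real.pi_pos])

private theorem C5_rho (lam : ℝ) (h2 : 2 < lam) (h3 : lam < 4 + 2 * √2) :
    lam / 3 < lam ^ 3 / (3 * (lam - 2) ^ 2) - lam / 3 := by
  have h20 : 0 < lam - 2 := by linarith
  have hs2 : √2 ^ 2 = 2 := Real.sq_sqrt (by norm_num)
  have hs0 : 0 ≤ √2 := Real.sqrt_nonneg 2
  have hs1 : 1 < √2 := by
    rw [Real.lt_sqrt (by norm_num)]; norm_num
  have key : 2 * (lam - 2) ^ 2 < lam ^ 2 := by
    nlinarith [mul_pos (sub_pos.mpr h3) (show (0 : ℝ) < lam - (4 - 2 * √2) by linarith)]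
  have h5 : 2 * lam / 3 < lam ^ 3 / (3 * (lam - 2) ^ 2) := by
    rw [div_lt_div_iff₀ (by norm_num) (by positivity)]
    have := mul_lt_mul_of_pos_left key (show (0 : ℝ) < 3 * lam by linarith)
    nlinarith
  linarith

private theorem C5_log (ξ : ℂ) (h0 : 0 ≤ ξ.im) (h1 : ξ.im ≤ Real.pi / 3) : Complex.log (Complex.exp ξ) = ξ :=
  Complex.log_exp (by linarith [Real.pi_pos]) (by linarith [Real.pi_pos])

private theorem C5_cube (ξ : ℂ) : Complex.exp ξ ^ 3 = Complex.exp (3 * ξ) := by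
  rw [← Complex.exp_nat_mul]; norm_num

private theorem C5_sx (D : AL) (lam : ℝ) (ξ : ℂ) (h0 : 0 ≤ ξ.im) (h1 : ξ.im ≤ Real.pi / 3) :
    sx D lam ξ = Complex.exp (-(lam : ℂ) * Complex.exp ξ ^ 3 / 3 + ((lam : ℂ) - 1) / 2 * Complex.log (Complex.exp ξ)) *
      JJ D lam (Complex.exp ξ) := by
  rw [C5_log ξ h0 h1, C5_cube]; rfl

theorem RR_neg (lam : ℝ) (h2 : 2 < lam) (h3 : lam < 4 + 2 * √2)
    (hs : Real.sin (Real.pi * lam) ≠ 0) (M : ℕ) : ∃ N : ℕ, M ≤ N ∧ RR N lam < 0 := by
  obtain ⟨D⟩ := exists_AL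
  have hl : 0 < lam := by linarith
  obtain ⟨c, κg, xg, hc, hxg, hghost⟩ := ghost D lam hl hs
  obtain ⟨C, xt, n, hC, hxt, htyp⟩ := typical D lam h2
  have hrho := C5_rho lam h2 h3
  set ρ : ℝ := lam ^ 3 / (3 * (lam - 2) ^ 2) - lam / 3 with hρ
  obtain ⟨τ, hτ1, hτ2⟩ : ∃ τ : ℝ, (τ = 1 ∨ τ = -1) ∧ τ * Real.sin (Real.pi * lam) = |Real.sin (Real.pi * lam)| := by
    rcases lt_or_gt_of_ne hs with h | h
    · exact ⟨-1, Or.inr rfl, by rw [abs_of_neg h]; ring⟩
    · exact ⟨1, Or.inl rfl, by rw [abs_of_pos h]; ring⟩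
  have hττ : τ * τ = 1 := by rcases hτ1 with h | h <;> rw [h] <;> norm_num
  have hτa : |τ| = 1 := by rcases hτ1 with h | h <;> rw [h] <;> norm_num
  set κ : ℝ := lam / 3 + (ρ - lam / 3) / 3 with hκ
  set s' : ℝ := lam / 3 + 2 * (ρ - lam / 3) / 3 with hs'
  have hd1 : 0 < κ - lam / 3 := by rw [hκ]; linarith
  have hd2 : 0 < ρ - s' := by rw [hs']; linarith
  set t0 : ℝ := max (max 2 xg) (max xt (max (|κg| / (κ - lam / 3)) (n / (ρ - s')))) with ht0
  have ht2 : 2 ≤ t0 := (le_max_left _ _).trans (le_max_left _ _)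
  have htg : xg ≤ t0 := (le_max_right _ _).trans (le_max_left _ _)
  have htt : xt ≤ t0 := (le_max_left _ _).trans (le_max_right _ _)
  have htκ : |κg| / (κ - lam / 3) ≤ t0 := (le_max_left _ _).trans ((le_max_right _ _).trans (le_max_right _ _))
  have htn : n / (ρ - s') ≤ t0 := (le_max_right _ _).trans ((le_max_right _ _).trans (le_max_right _ _))
  have hexpt : ∀ t : ℝ, t ≤ Real.exp t := fun t => by linarith [Real.add_one_le_exp t]
  have main := sign_lemma (fun ξ => (τ : ℂ) * sx D lam ξ) (fun n => τ * (RR n lam * (-1 / (72 * lam)) ^ n)) (cc lam) t0 κ s' c C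
    (Real.exp_pos _) (by rw [hκ]; linarith) (by rw [hκ, hs']; linarith) hc ?_ ?_ ?_ ?_
  · obtain ⟨N0, hN0⟩ := main
    have hbase : -1 / (72 * lam) < 0 := div_neg_of_neg_of_pos (by norm_num) (by positivity)
    rcases hτ1 with h | h
    · refine ⟨2 * max M N0, by have := le_max_left M N0; omega, ?_⟩
      have h1 := hN0 (2 * max M N0) (by have := le_max_right M N0; omega)
      simp only [h, one_mul] at h1
      have h4 : 0 < (-1 / (72 * lam)) ^ (2 * max M N0) := by
        rw [pow_mul]; exact pow_pos (by positivity) _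
      by_contra hcon
      push Not at hcon
      have := mul_nonneg hcon h4.le
      linarith
    · refine ⟨2 * max M N0 + 1, by have := le_max_left M N0; omega, ?_⟩
      have h1 := hN0 (2 * max M N0 + 1) (by have := le_max_right M N0; omega)
      simp only [h, neg_mul, one_mul] at h1
      have h4 : (-1 / (72 * lam)) ^ (2 * max M N0 + 1) < 0 := by
        rw [pow_succ, pow_mul]
        exact mul_neg_of_pos_of_neg (pow_pos (by positivity) _) hbase
      by_contra hcon
      push Not at hcon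
      have := mul_nonpos_of_nonneg_of_nonpos hcon h4.le
      linarith
  · -- holomorphy
    intro ξ h0 h1 h4
    have hre : 2 < (Complex.exp ξ).re := by
      rw [Complex.exp_re]
      have e1 := C5_cos ξ.im h1 h4
      have e2 : 4 < Real.exp ξ.re := by
        have e3 : Real.exp 2 ≤ Real.exp ξ.re := Real.exp_le_exp.mpr (by linarith)
        have e4 : (2.7182818283 : ℝ) < Real.exp 1 := Real.exp_one_gt_d9
        have e5 : Real.exp 2 = Real.exp 1 * Real.exp 1 := by rw [← Real.exp_add]; norm_num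
        nlinarith
      nlinarith
    have hJ := JJ_diff D lam hl (Complex.exp ξ) hre
    have h5 : DifferentiableAt ℂ (fun ξ => JJ D lam (Complex.exp ξ)) ξ := hJ.comp ξ Complex.differentiableAt_exp
    have h6 : DifferentiableAt ℂ (fun ξ : ℂ => Complex.exp (-(lam : ℂ) * Complex.exp (3 * ξ) / 3 + ((lam : ℂ) - 1) / 2 * ξ)) ξ := by
      fun_prop
    exact (h6.mul h5).const_mul _
  · -- expansion
    intro N
    obtain ⟨CN, RN, hCN, hRN, hN⟩ := SS_expand D lam hl (N + 1) (by omega)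
    refine ⟨CN, RN, ?_⟩
    intro ξ h0 h1 h4
    have hnorm : ‖Complex.exp ξ‖ = Real.exp ξ.re := Complex.norm_exp ξ
    have e := hN (Complex.exp ξ) (by rw [hnorm]; linarith [hexpt ξ.re])
      (by rw [Complex.exp_im]; exact mul_nonneg (Real.exp_pos _).le (C5_sin _ h1 h4))
      (by
        rw [hnorm, Complex.exp_re]
        have := mul_le_mul_of_nonneg_left (C5_cos ξ.im h1 h4) (Real.exp_pos ξ.re).le
        linarith)
    rw [← C5_sx D lam ξ h1 h4, hnorm] at e
    have e2 : CN / Real.exp ξ.re ^ (3 * (N + 1)) = CN * Real.exp (-3 * ((N : ℝ) + 1) * ξ.re) := by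
      rw [← Real.exp_nat_mul, div_eq_mul_inv, ← Real.exp_neg]
      congr 2
      push_cast; ring
    rw [e2] at e
    have e3 : (cc lam : ℂ) * ∑ n ∈ Finset.range (N + 1), ((τ * (RR n lam * (-1 / (72 * lam)) ^ n) : ℝ) : ℂ) *
        Complex.exp (-3 * n * ξ) = (τ : ℂ) * ((cc lam : ℂ) * sr lam (N + 1) (-1 / (72 * (lam : ℂ) * Complex.exp ξ ^ 3))) := by
      rw [sr, Finset.mul_sum, Finset.mul_sum, Finset.mul_sum]
      apply Finset.sum_congr rfl
      intro m _
      have e4 : (-1 / (72 * (lam : ℂ) * Complex.exp ξ ^ 3)) = (-1 / (72 * (lam : ℂ))) * Complex.exp (-(3 * ξ)) := by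
        rw [C5_cube, Complex.exp_neg]
        field_simp
      rw [e4, mul_pow, ← Complex.exp_nat_mul]
      have e5 : (m : ℂ) * -(3 * ξ) = -3 * m * ξ := by ring
      rw [e5]
      push_cast
      ring
    rw [e3, ← mul_sub, norm_mul, Complex.norm_real, Real.norm_eq_abs, hτa, one_mul]
    exact e
  · -- the ghost
    intro t ht
    have hx : xg ≤ Real.exp t := by linarith [hexpt t]
    have h5 := hghost (Real.exp t) hx
    have h6 : sx D lam (t : ℂ) = ((Real.exp (-lam * Real.exp (3 * t) / 3 + (lam - 1) / 2 * t) : ℝ) : ℂ) *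
        JJ D lam ((Real.exp t : ℝ) : ℂ) := by
      unfold sx
      push_cast
      rfl
    have h7 : ((τ : ℂ) * sx D lam (t : ℂ)).im = Real.exp (-lam * Real.exp (3 * t) / 3 + (lam - 1) / 2 * t) *
        (τ * (JJ D lam ((Real.exp t : ℝ) : ℂ)).im) := by
      rw [h6, Complex.im_ofReal_mul, Complex.im_ofReal_mul]
      ring
    show _ ≤ ((τ : ℂ) * sx D lam (t : ℂ)).im
    rw [h7]
    have hS1 : |Real.sin (Real.pi * lam)| ≤ 1 := Real.abs_sin_le_one _
    set J : ℝ := (JJ D lam ((Real.exp t : ℝ) : ℂ)).im with hJ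
    have h8 : c * Real.exp (-κg * Real.exp t) ≤ τ * J := by
      have h9 : J * Real.sin (Real.pi * lam) = (τ * J) * |Real.sin (Real.pi * lam)| := by
        rw [← hτ2]
        have : τ * J * (τ * Real.sin (Real.pi * lam)) = (τ * τ) * (J * Real.sin (Real.pi * lam)) := by ring
        rw [this, hττ, one_mul]
      rw [h9] at h5
      have hpos : 0 < c * Real.exp (-κg * Real.exp t) := by positivity
      have h10 : 0 ≤ τ * J := by
        by_contra hcon
        push Not at hcon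
        have := mul_nonpos_of_nonpos_of_nonneg hcon.le (abs_nonneg (Real.sin (Real.pi * lam)))
        linarith
      have := mul_le_mul_of_nonneg_left hS1 h10
      linarith
    have h11 := mul_le_mul_of_nonneg_left h8 (Real.exp_pos (-lam * Real.exp (3 * t) / 3 + (lam - 1) / 2 * t)).le
    refine le_trans ?_ h11
    have e1 : Real.exp (-lam * Real.exp (3 * t) / 3 + (lam - 1) / 2 * t) * (c * Real.exp (-κg * Real.exp t)) =
        c * Real.exp (-lam * Real.exp (3 * t) / 3 + (lam - 1) / 2 * t + -κg * Real.exp t) := by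
      rw [Real.exp_add (-lam * Real.exp (3 * t) / 3 + (lam - 1) / 2 * t)]; ring
    rw [e1]
    apply mul_le_mul_of_nonneg_left _ hc.le
    apply Real.exp_le_exp.mpr
    have ht0' : 0 ≤ t := by linarith
    have e3 : Real.exp (3 * t) = Real.exp (2 * t) * Real.exp t := by rw [← Real.exp_add]; congr 1; ring
    have e4 : |κg| ≤ (κ - lam / 3) * Real.exp (2 * t) := by
      have : |κg| ≤ t0 * (κ - lam / 3) := by rwa [div_le_iff₀ hd1] at htκ
      have e5 : t0 ≤ Real.exp (2 * t) := by linarith [hexpt (2 * t)]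
      nlinarith
    have e5 : κg * Real.exp t ≤ (κ - lam / 3) * Real.exp (3 * t) := by
      rw [e3, ← mul_assoc]
      apply mul_le_mul_of_nonneg_right _ (Real.exp_pos t).le
      exact (le_abs_self _).trans e4
    have e6 : 0 ≤ (lam - 1) / 2 * t := mul_nonneg (by linarith) ht0'
    linarith
  · -- the typical term
    intro t ht
    have hx : xt ≤ Real.exp t := by linarith [hexpt t]
    have h5 := htyp (Real.exp t) hx
    have him : ((t : ℂ) + (Real.pi / 3 : ℝ) * Complex.I).im = Real.pi / 3 := by simp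
    have hpi := Real.pi_pos
    have h6 : ((Real.exp t : ℝ) : ℂ) * e3 = Complex.exp ((t : ℂ) + (Real.pi / 3 : ℝ) * Complex.I) := by
      rw [e3_exp, Complex.ofReal_exp, ← Complex.exp_add]
      congr 1
      push_cast; ring
    rw [h6, ← C5_sx D lam _ (by rw [him]; positivity) (by rw [him])] at h5
    show |((τ : ℂ) * sx D lam ((t : ℂ) + (Real.pi / 3 : ℝ) * Complex.I)).im| ≤ _
    rw [Complex.im_ofReal_mul, abs_mul, hτa, one_mul]
    refine h5.trans ?_
    have e3 : Real.exp t ^ 3 = Real.exp (3 * t) := by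
      rw [← Real.exp_nat_mul]; norm_num
    rw [e3, ← Real.exp_nat_mul, mul_assoc, ← Real.exp_add]
    apply mul_le_mul_of_nonneg_left _ hC.le
    apply Real.exp_le_exp.mpr
    have e4 : lam * Real.exp (3 * t) / 3 - lam ^ 3 * Real.exp (3 * t) / (3 * (lam - 2) ^ 2) = -ρ * Real.exp (3 * t) := by
      rw [hρ]; ring
    rw [e4]
    have ht0' : 0 ≤ t := by linarith
    have e5 : t * t ≤ Real.exp (3 * t) := by
      have := Real.quadratic_le_exp_of_nonneg (x := 3 * t) (by positivity)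
      nlinarith
    have e6 : (n : ℝ) ≤ (ρ - s') * t := by
      have : (n : ℝ) ≤ t0 * (ρ - s') := by rwa [div_le_iff₀ hd2] at htn
      nlinarith
    have e7 : (n : ℝ) * t ≤ (ρ - s') * t * t := mul_le_mul_of_nonneg_right e6 ht0'
    have e8 : (ρ - s') * (t * t) ≤ (ρ - s') * Real.exp (3 * t) := mul_le_mul_of_nonneg_left e5 hd2.le
    linarith

end Pool.Agent.LibFR89
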